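import Pool.Agent.Helper27.IP.Type0
import Pool.Agent.Helper76.IP.P4

/-!
TH-P, diagonal branch, piece P6 of helper16: the O-state is not closed at column 4.
-/

namespace Pool.Agent.Helper27.IP

open Pool.Agent.Helper54.IP Pool.Agent.Helper16.IP

variable {F : Type*} [Field F] {m : ℕ}

private theorem cancel {a b : F} (ha : a ≠ 0) (h : a * b = 0) : b = 0 :=
  (mul_eq_zero.1 h).resolve_left ha

/-- `LL = 0` is type 1 at step 2: `mu'_1 t_2 = (1 - lam'_1) t_1 ^ 2 s_3`. -/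
theorem ll_type1 (g : GForm F m) (hm : 2 ≤ m) (hD : g.G 1 1 ≠ g.H 1 1) (h1 : g.t 1 = g.s 1)
    {c : F} (hL : LL (g.t 1) (g.t 2) c (1 - g.lam' 0) (g.mu' 0) = 0) :
    g.mu' 1 * g.t 2 = (1 - g.lam' 1) * (g.t 1 ^ 2 * c) := by
  have e1 := al_eq g hm h1
  have e2 := de_eq g hm h1
  have hD' := mul_ne_zero (t1_sub g (by omega)) (axy_ne g (by omega) hD h1)
  rw [LL] at hL
  refine sub_eq_zero.1 (cancel hD' ?_)
  linear_combination e2 - g.t 1 ^ 2 * c * e1 - g.t 1 * hL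

/-- P6, closed case: rows `≤ 2`, columns `≤ 5`. -/
theorem p6_closed (g : GForm F m) (hm : 5 ≤ m) (hD : g.G 1 1 ≠ g.H 1 1) (h1 : g.t 1 = g.s 1)
    (h2 : g.t 2 = g.s 2) (hk : g.kap 1 2 ≠ 0) (hb : g.t 2 ≠ -g.t 1) (h3 : g.s 3 ≠ g.t 1 * g.t 2)
    (hL : LL (g.t 1) (g.t 2) (g.s 3) (1 - g.lam' 0) (g.mu' 0) = 0)
    (hT : TT (g.t 1) (g.t 2) (g.s 3) (1 - g.lam' 0) (g.mu' 0) = 0)
    (hk3 : g.kap 1 3 ≠ 0) (hk4 : g.kap 1 4 = 0) (hk24 : g.kap 2 4 = 0) : False := by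
  by_cases ha : g.t 1 = -1
  · obtain ⟨hA, -, -, s1, hS⟩ := closed_rel g (k := 3) (by omega) hk4 hk24
    have hL1 := ll_type1 g (by omega) hD h1 hL
    simp only [Nat.reduceAdd] at hA s1 hS
    have hal : 1 - g.lam' 1 ≠ 0 := sub_ne_zero.2 (g.lam'_ne 1 (by omega)).symm
    have ht1 := t1_sub g (by omega)
    have ht := g.t_ne 1 (by omega)
    have hT2 := g.t_ne 2 (by omega)
    have hv3 : g.s 5 - g.s 3 ≠ 0 := sub_ne_zero.2 (g.s_inj 3 5 (by omega) (by omega)).symm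
    have hS0 : (1 - g.lam' 1) * g.t 1 ^ 3 + g.lam' 1 ≠ 0 := by
      intro h
      rw [h] at s1
      have e : g.t 2 * (g.t 1 - 1) * ((1 - g.lam' 1) * g.t 1 ^ 3) * (g.s 5 - g.s 3) ≠ 0 :=
        mul_ne_zero (mul_ne_zero (mul_ne_zero hT2 ht1) (mul_ne_zero hal (pow_ne_zero 3 ht))) hv3
      apply e
      rw [s1]
      ring
    -- s_5 = - t_2 s_4 and s_5 = - t_2 ^ 2
    have e1 : g.s 5 = -(g.t 2 * g.s 4) := by
      refine sub_eq_zero.1 (cancel hS0 ?_)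
      rw [ha] at hA ⊢
      linear_combination hA
    have e2 : g.s 5 = -(g.t 2 ^ 2) := by
      refine sub_eq_zero.1 (cancel (mul_ne_zero hal (g.s_ne 3 (by omega))) ?_)
      rw [ha] at hS hL1
      linear_combination hS - g.t 2 ^ 2 * hL1
    have e3 : g.s 2 = g.s 4 := by
      refine sub_eq_zero.1 (cancel hT2 ?_)
      linear_combination e2 - e1 - g.t 2 * h2
    exact g.s_inj 2 4 (by omega) (by omega) e3
  · have h4 := closed_type0 g (k := 3) (by omega) hk4 hk24 ha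
    exact Pool.Agent.Helper76.IP.p4_dead g (by omega) hD h1 h2 hk hb h3 hL hT hk3 h4

end Pool.Agent.Helper27.IP
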