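import Pool.Agent.Helper27.IP.Restart

/-!
TH-P, diagonal branch, piece P2 of helper16: `t_1 = s_1 = a`, `t_2 = s_2 = b`, `s_3 = a b`,
`b ≠ a ^ 2` and the corner closed at column 3: impossible (rows `≤ 2`, column 4).
-/

namespace Pool.Agent.Helper27.IP

open Pool.Agent.Helper54.IP

variable {F : Type*} [Field F] {m : ℕ}

private theorem cancel {a b : F} (ha : a ≠ 0) (h : a * b = 0) : b = 0 :=
  (mul_eq_zero.1 h).resolve_left ha

/-- `G(1,1)` and `H(1,1)` from the row and from the column when `t_1 = s_1`. -/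
theorem one_one_d (g : GForm F m) (hm : 1 ≤ m) (h1 : g.t 1 = g.s 1) :
    g.lam 0 = g.lam' 0 ∧ g.mu 0 = g.mu' 0 := by
  have r1 := g.row1G (k := 1) hm hm
  have r2 := g.row1H (k := 1) hm hm
  have c1 := g.swap.row1G (k := 1) hm hm
  have c2 := g.swap.row1H (k := 1) hm hm
  simp only [GForm.swap_G, GForm.swap_H, GForm.swap_s, GForm.swap_lam', GForm.swap_mu'] at c1 c2
  have hs11 : g.s 1 - 1 ≠ 0 := by
    have := g.s_inj 0 1 (by omega) (by omega)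
    rw [g.s0] at this
    exact sub_ne_zero.2 this.symm
  rw [h1] at c1 c2
  constructor
  · refine sub_eq_zero.1 (cancel hs11 ?_)
    linear_combination c1 - r1
  · refine sub_eq_zero.1 (cancel hs11 ?_)
    linear_combination c2 - r2

/-- row 2 of a corner with `t_1 = s_1`. -/
theorem row2_d (g : GForm F m) (hm : 2 ≤ m) (h1 : g.t 1 = g.s 1) :
    g.t 1 * ((1 - g.lam' 1) * g.G 1 1 + g.lam' 1 * g.H 1 1) =
      g.lam' 0 + (1 - g.lam' 0) * g.t 2 ∧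
    g.t 2 * ((1 - g.mu' 1) * g.G 1 1 + g.mu' 1 * g.H 1 1) =
      g.t 1 * ((1 - g.mu' 0) * g.t 2 + g.mu' 0) := by
  obtain ⟨e1, e2⟩ := one_one_d g (by omega) h1
  have r1 := g.row2G (k := 1) hm (by omega)
  have r2 := g.row2H (k := 1) hm (by omega)
  have c1 := g.swap.row1G (k := 2) (by omega) hm
  have c2 := g.swap.row1H (k := 2) (by omega) hm
  simp only [GForm.swap_G, GForm.swap_H, GForm.swap_s, GForm.swap_lam', GForm.swap_mu'] at c1 c2
  rw [e1] at c1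
  rw [e2] at c2
  rw [← h1] at r1 r2
  constructor
  · rw [← r1, c1]
  · linear_combination (-g.t 2) * r2 + g.t 1 * c2

private theorem p2_alg {a b x y al v : F} (ha : a ≠ 0) (ha1 : a - 1 ≠ 0) (hb : b ≠ 0)
    (hb1 : b - 1 ≠ 0) (hab : b - a ≠ 0) (hba : b - a ^ 2 ≠ 0) (hal : al ≠ 0) (hv0 : v ≠ 0)
    (hv1 : v - 1 ≠ 0) (hvu : v - a * b ≠ 0)
    (e1 : (a * b - 1) * (b * x + a * y) = b * (a ^ 2 - 1))
    (e2 : x * (v - 1 - a * (a * b - 1)) = a - 1)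
    (e3 : y * (a * b * v * (a - 1) + v - a * (a * b)) = a * b * v * (a - 1))
    (e4 : al * (a - 1) * (a * x + y) = 1 - a + (b - 1) * x + (a - 1) * y)
    (e6 : v * (1 + al * (a ^ 4 - 1)) = a ^ 2 * b ^ 2 * (1 + al * (a ^ 2 - 1)))
    (e7 : b ^ 2 * (a ^ 2 + al * (a ^ 4 - 1)) = v * (1 + al * (a ^ 2 - 1))) : False := by
  have V : v * (1 + a + a ^ 2 - a * b) - a ^ 2 * (b * (1 + a + a ^ 2) - a) = 0 := by
    refine cancel (mul_ne_zero (mul_ne_zero hb ha1) hvu) ?_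
    linear_combination (-((v - 1 - a * (a * b - 1)) * (a * b * v * (a - 1) + v - a * (a * b)))) * e1
      + (a * b - 1) * b * (a * b * v * (a - 1) + v - a * (a * b)) * e2
      + (a * b - 1) * a * (v - 1 - a * (a * b - 1)) * e3
  have X : x * (a * b - 1) * (a ^ 2 * b + 1) = (a - 1) * (1 + a + a ^ 2 - a * b) := by
    linear_combination (1 + a + a ^ 2 - a * b) * e2 - x * V
  have Y : y * (a * b - 1) * (a ^ 2 * b + 1) = b * (a - 1) * (b * (1 + a + a ^ 2) - a) := by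
    refine sub_eq_zero.1 (cancel (pow_ne_zero 3 ha) ?_)
    linear_combination (1 + a + a ^ 2 - a * b) * e3
      - (y * (a * b * (a - 1) + 1) - a * b * (a - 1)) * V
  -- a = -1
  have ha2 : a + 1 ≠ 0 := by
    intro h
    have ha' : a = -1 := eq_neg_of_add_eq_zero_left h
    rw [ha'] at V
    have h2 : (v - 1) * (b + 1) = 0 := by linear_combination V
    have h3 := cancel hv1 h2
    apply hab
    rw [ha']
    linear_combination h3
  have haa : a ^ 2 - 1 ≠ 0 := by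
    intro h
    have : (a - 1) * (a + 1) = 0 := by linear_combination h
    exact ha2 (cancel ha1 this)
  have W : a ^ 4 + 1 + al * (a ^ 6 - 1) = 0 := by
    refine cancel (mul_ne_zero (mul_ne_zero (pow_ne_zero 2 hb) hv0) (mul_ne_zero hal haa)) ?_
    linear_combination b ^ 2 * (a ^ 2 + al * (a ^ 4 - 1)) * e6
      + a ^ 2 * b ^ 2 * (1 + al * (a ^ 2 - 1)) * e7
  have Vv : v * a ^ 2 + b ^ 2 = 0 := by
    refine cancel (mul_ne_zero (pow_ne_zero 4 ha) haa) ?_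
    linear_combination (1 - a ^ 6) * e6 + (v * (a ^ 4 - 1) - a ^ 2 * b ^ 2 * (a ^ 2 - 1)) * W
  have A : a * b ^ 3 - (1 + a + a ^ 2) * b ^ 2 - a ^ 4 * (1 + a + a ^ 2) * b + a ^ 5 = 0 := by
    linear_combination a ^ 2 * V - (1 + a + a ^ 2 - a * b) * Vv
  have S : al * (a - 1) * (a * (1 + a + a ^ 2) + b ^ 2 * (1 + a + a ^ 2) - a * b * (a + 1)) =
      -(1 + a) * (b - 1) * (b - a) := by
    refine sub_eq_zero.1 (cancel ha1 ?_)
    linear_combination (a * b - 1) * (a ^ 2 * b + 1) * e4 - al * (a - 1) * a * X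
      - al * (a - 1) * Y + (b - 1) * X + (a - 1) * Y
  have B : (a ^ 2 + 1) * (a ^ 5 * b + 2 * a ^ 4 * b - a ^ 4 - a ^ 3 * b ^ 2 + 2 * a ^ 3 * b - a ^ 3
      - a ^ 2 * b ^ 2 + 2 * a ^ 2 * b - a ^ 2 - a * b ^ 2 + 2 * a * b + b) = 0 := by
    refine cancel ha1 ?_
    linear_combination (-(a ^ 6 - 1)) * S + (a - 1) * (a * (1 + a + a ^ 2)
      + b ^ 2 * (1 + a + a ^ 2) - a * b * (a + 1)) * W
  rcases mul_eq_zero.1 B with h | h
  · have h2 : (b - 1) ^ 2 * (b - a ^ 2) = 0 := by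
      refine cancel ha ?_
      linear_combination A - (b ^ 2 * (a - 1) - b * (a ^ 4 + a ^ 3 + a) + a ^ 3) * h
    exact mul_ne_zero (pow_ne_zero 2 hb1) hba h2
  · have h2 : (a + 1) * (b - a) ^ 2 * (b - a ^ 2) * (b - 1) = 0 := by
      linear_combination (a^4*b^3 - 2*a^4*b^2 + 2*a^3*b^3 - 4*a^3*b^2 + a^3*b - a^2*b^4
        + 4*a^2*b^3 - 3*a^2*b^2 - a*b^4 + 3*a*b^3 - 2*a*b^2 + a*b - a - b^4 + 3*b^3 - 2*b^2) * A
        + (a^5*b^3 - 2*a^5*b^2 + a^4*b^3 - 2*a^4*b^2 + a^4*b + a^3*b^3 - a^3*b^2 - a^3*b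
        + a^2*b^2 - a^2 + a*b^4 - 2*a*b^3 + a*b - b^5 + 3*b^4 - b^3 - b^2) * h
    exact mul_ne_zero (mul_ne_zero (mul_ne_zero ha2 (pow_ne_zero 2 hab)) hba) hb1 h2

/-- piece P2: `s_3 = t_1 t_2`, `t_2 ≠ t_1 ^ 2`, closed at column 3. -/
theorem p2_dead (g : GForm F m) (hm : 4 ≤ m) (hD : g.G 1 1 ≠ g.H 1 1) (h1 : g.t 1 = g.s 1)
    (h2 : g.t 2 = g.s 2) (h3 : g.s 3 = g.t 1 * g.t 2) (hb : g.t 2 ≠ g.t 1 ^ 2)
    (hk : g.kap 1 3 = 0) : False := by
  have ht1 := g.t_ne 1 (by omega)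
  have ht2 := g.t_ne 2 (by omega)
  have ha1 : g.t 1 - 1 ≠ 0 := by
    have := g.t_inj 0 1 (by omega) (by omega)
    rw [g.t0] at this
    exact sub_ne_zero.2 this.symm
  have r1 := g.row1G (k := 1) (by omega) (by omega)
  have r2 := g.row1H (k := 1) (by omega) (by omega)
  have p1 := g.row1G (k := 3) (by omega) (by omega)
  have p2 := g.row1H (k := 3) (by omega) (by omega)
  have q1 := g.row1G (k := 4) (by omega) (by omega)
  have q2 := g.row1H (k := 4) (by omega) (by omega)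
  have p3 := g.row2G (k := 3) (by omega) (by omega)
  have p4 := g.row2H (k := 3) (by omega) (by omega)
  have q3 := g.row2G (k := 4) (by omega) (by omega)
  have q4 := g.row2H (k := 4) (by omega) (by omega)
  obtain ⟨d1, d2⟩ := row2_d g (by omega) h1
  obtain ⟨n1, n2⟩ := closed_next g (j := 1) (N := 3) (by omega) (by omega) hk
  rw [h3] at p1 p2 p3 p4
  rw [← h1] at r1 r2
  have hk' := hk
  rw [GForm.kap] at hk'
  have k1 : g.G 1 3 = g.t 1 ^ 2 * g.H 1 3 := by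
    refine sub_eq_zero.1 (cancel ht1 ?_)
    linear_combination hk'
  have k2 : g.t 1 * g.H 1 4 = g.H 1 3 := by
    refine sub_eq_zero.1 (cancel (pow_ne_zero 3 ht1) ?_)
    linear_combination n2 + hk'
  simp only [Nat.reduceAdd] at n1
  have hH : g.H 1 3 ≠ 0 := by
    intro h
    refine g.ne_zero (j := 1) (k := 3) (by omega) (by omega) ⟨?_, h⟩
    rw [k1, h, mul_zero]
  have e1 : (g.t 1 * g.t 2 - 1) * (g.t 2 * (1 - g.lam' 0) + g.t 1 * g.mu' 0) =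
      g.t 2 * (g.t 1 ^ 2 - 1) := by
    linear_combination g.t 2 * k1 - g.t 2 * p1 + g.t 1 * p2
  -- de = - a^2 al
  have hDD : (g.t 1 - 1) * (g.t 1 * (1 - g.lam' 0) + g.mu' 0) ≠ 0 := by
    intro h
    apply hD
    refine sub_eq_zero.1 (cancel ht1 ?_)
    linear_combination h + g.t 1 * r1 - r2
  have hde : g.mu' 1 + g.t 1 ^ 2 * (1 - g.lam' 1) = 0 := by
    refine cancel (mul_ne_zero ht2 hDD) ?_
    linear_combination (-g.t 1) * d2 + g.t 1 * g.t 2 * (1 - g.mu' 1) * r1 + g.t 2 * g.mu' 1 * r2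
      + g.t 1 ^ 2 * g.t 2 * d1 - g.t 1 ^ 3 * g.t 2 * (1 - g.lam' 1) * r1
      - g.t 1 ^ 2 * g.t 2 * g.lam' 1 * r2 + g.t 1 * e1
  have hkk : g.kap 2 3 = 0 := by
    rw [GForm.kap]
    refine cancel (mul_ne_zero ht1 ht2) ?_
    rw [p3]
    linear_combination (-g.t 2 ^ 3) * p4 + (g.t 1 * g.t 2 * g.t 2 * (g.t 1 * g.t 2)
      * (1 - g.lam' 1) - g.t 2 ^ 3 * (1 - g.mu' 1)) * k1
      + g.t 2 ^ 3 * g.H 1 3 * (g.t 1 ^ 2 - 1) * hde
  obtain ⟨n3, n4⟩ := closed_next g (j := 2) (N := 3) (by omega) (by omega) hkk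
  simp only [Nat.reduceAdd] at n3 n4
  have n5 : g.t 2 ^ 3 * g.H 2 4 = g.G 2 3 := by
    refine sub_eq_zero.1 (cancel ht2 ?_)
    linear_combination n4
  refine p2_alg (a := g.t 1) (b := g.t 2) (x := 1 - g.lam' 0) (y := g.mu' 0)
    (al := 1 - g.lam' 1) (v := g.s 4) ht1 ha1 ht2 ?_ ?_ (sub_ne_zero.2 hb)
    (sub_ne_zero.2 (g.lam'_ne 1 (by omega)).symm) (g.s_ne 4 (by omega)) ?_ ?_ e1 ?_ ?_ ?_ ?_ ?_
  · have := g.t_inj 0 2 (by omega) (by omega)
    rw [g.t0] at this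
    exact sub_ne_zero.2 this.symm
  · exact sub_ne_zero.2 (g.t_inj 1 2 (by omega) (by omega)).symm
  · have := g.s_inj 0 4 (by omega) (by omega)
    rw [g.s0] at this
    exact sub_ne_zero.2 this.symm
  · rw [← h3]
    exact sub_ne_zero.2 (g.s_inj 3 4 (by omega) (by omega)).symm
  · linear_combination n1 - q1 + g.t 1 * p1
  · linear_combination (-(g.t 1 * g.t 2 * g.s 4)) * k2 + g.t 1 * (g.t 1 * g.t 2) * q2 - g.s 4 * p2
  · linear_combination d1 - g.t 1 * (1 - g.lam' 1) * r1 - g.lam' 1 * r2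
  · refine sub_eq_zero.1 (cancel hH ?_)
    linear_combination g.t 1 * n3 - g.t 1 * q3 - g.s 4 * g.t 1 * (1 - g.lam' 1) * n1
      - g.s 4 * g.t 1 * (1 - g.lam' 1) * g.t 1 * k1 - g.s 4 * g.lam' 1 * k2
      + g.t 1 * g.t 2 * p3 + g.t 1 * g.t 2 * (g.t 1 * g.t 2) * (1 - g.lam' 1) * k1
  · refine sub_eq_zero.1 (cancel (mul_ne_zero (mul_ne_zero (pow_ne_zero 2 ht1) ht2) hH) ?_)
    linear_combination g.t 2 ^ 3 * g.H 1 3 * (g.t 1 ^ 4 - 1) * hde
      - g.t 2 ^ 3 * g.t 1 * (1 - g.mu' 1) * n1 - g.t 2 ^ 3 * g.t 1 ^ 2 * (1 - g.mu' 1) * k1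
      - g.t 2 ^ 3 * g.mu' 1 * k2 - g.t 2 ^ 3 * g.t 1 * q4 + g.t 1 * g.s 4 * n5
      + g.t 1 * g.s 4 * p3 + g.t 1 * g.s 4 * (g.t 1 * g.t 2) * (1 - g.lam' 1) * k1
end Pool.Agent.Helper27.IP
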