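import Pool.Agent.Helper54.IP.GSwap

/-!
TH-P: corners with `t_2 = s_2` which are closed at column 2.
`a = t_1`, `b = s_1`, `c = t_2 = s_2`, `f = s_3`, `x = 1 - lam'_0`, `y = mu'_0`.
-/

namespace Pool.Agent.Helper27.IP

open Pool.Agent.Helper54.IP

variable {F : Type*} [Field F] {m : ℕ}

/-- the closing condition in terms of `x, y`. -/
theorem kap_iff (g : GForm F m) (hm : 2 ≤ m) (h2 : g.t 2 = g.s 2) :
    g.kap 1 2 = 0 ↔
      (g.t 2 - 1) * (g.t 2 * (1 - g.lam' 0) + g.t 1 * g.mu' 0) = (g.t 1 - 1) * g.t 2 := by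
  have r1 := g.row1G (k := 2) (by omega) hm
  have r2 := g.row1H (k := 2) (by omega) hm
  have ht := g.t_ne 1 (by omega)
  have ht2 := g.t_ne 2 (by omega)
  rw [← h2] at r1 r2
  rw [GForm.kap, r1]
  constructor
  · intro h
    have h3 : g.t 1 * ((g.t 2 - 1) * (g.t 2 * (1 - g.lam' 0) + g.t 1 * g.mu' 0)
        - (g.t 1 - 1) * g.t 2) = 0 := by
      linear_combination g.t 2 * h + g.t 1 ^ 2 * r2
    have := (mul_eq_zero.1 h3).resolve_left ht
    exact sub_eq_zero.1 this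
  · intro h
    have h3 : g.t 2 * (g.t 1 * (g.lam' 0 + (1 - g.lam' 0) * g.t 2) - g.t 1 ^ 2 * g.H 1 2) = 0 := by
      linear_combination g.t 1 * h - g.t 1 ^ 2 * r2
    exact (mul_eq_zero.1 h3).resolve_left ht2

/-- `G(1,1)` and `H(1,1)` from the row and from the column. -/
private theorem one_one (g : GForm F m) (hm : 1 ≤ m) :
    (1 - g.lam' 0) * (g.s 1 - 1) = (1 - g.lam 0) * (g.t 1 - 1) ∧
    g.t 1 * (g.mu' 0 * (g.s 1 - 1)) = g.s 1 * (g.mu 0 * (g.t 1 - 1)) := by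
  have r1 := g.row1G (k := 1) hm hm
  have r2 := g.row1H (k := 1) hm hm
  have c1 := g.swap.row1G (k := 1) hm hm
  have c2 := g.swap.row1H (k := 1) hm hm
  simp only [GForm.swap_G, GForm.swap_H, GForm.swap_s, GForm.swap_lam', GForm.swap_mu'] at c1 c2
  constructor
  · linear_combination c1 - r1
  · linear_combination g.t 1 * r2 - g.s 1 * c2

/-- the closing condition is self-dual. -/
private theorem swap_cond (g : GForm F m) (hm : 2 ≤ m)
    (h : (g.t 2 - 1) * (g.t 2 * (1 - g.lam' 0) + g.t 1 * g.mu' 0) = (g.t 1 - 1) * g.t 2) :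
    (g.t 2 - 1) * (g.t 2 * (1 - g.lam 0) + g.s 1 * g.mu 0) = (g.s 1 - 1) * g.t 2 := by
  obtain ⟨e1, e2⟩ := one_one g (by omega)
  have ht : g.t 1 - 1 ≠ 0 := by
    have := g.t_inj 0 1 (by omega) (by omega)
    rw [g.t0] at this
    exact sub_ne_zero.2 this.symm
  have : (g.t 1 - 1) * ((g.t 2 - 1) * (g.t 2 * (1 - g.lam 0) + g.s 1 * g.mu 0)
      - (g.s 1 - 1) * g.t 2) = 0 := by
    linear_combination (g.s 1 - 1) * h - (g.t 2 - 1) * g.t 2 * e1 - (g.t 2 - 1) * e2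
  exact sub_eq_zero.1 ((mul_eq_zero.1 this).resolve_left ht)

/-- closed in row 1 implies closed in row 2. -/
theorem kap22 (g : GForm F m) (hm : 2 ≤ m) (hD : g.G 1 1 ≠ g.H 1 1) (h2 : g.t 2 = g.s 2)
    (hk : g.kap 1 2 = 0) : g.kap 2 2 = 0 := by
  have h := (kap_iff g hm h2).1 hk
  have h' := swap_cond g hm h
  have hk' : g.swap.kap 1 2 = 0 := (kap_iff g.swap hm h2.symm).2 (by
    simp only [GForm.swap_t, GForm.swap_lam', GForm.swap_mu', ← h2]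
    exact h')
  have ht1 := g.t_ne 1 (by omega)
  have ht2 := g.t_ne 2 (by omega)
  have hs1 := g.s_ne 1 (by omega)
  have hs11 : g.s 1 - 1 ≠ 0 := by
    have := g.s_inj 0 1 (by omega) (by omega)
    rw [g.s0] at this
    exact sub_ne_zero.2 this.symm
  have r1 := g.row1G (k := 1) (by omega) (by omega)
  have r2 := g.row1H (k := 1) (by omega) (by omega)
  have p1 := g.row1G (k := 2) (by omega) (by omega)
  have u1 := g.G_succ (j := 1) (k := 1) (by omega) (by omega)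
  have u2 := g.H_succ (j := 1) (k := 1) (by omega) (by omega)
  have w1 := g.G_succ (j := 2) (k := 1) (by omega) (by omega)
  have w2 := g.H_succ (j := 2) (k := 1) (by omega) (by omega)
  simp only [GForm.kap, pow_one, GForm.swap_t, GForm.swap_G, GForm.swap_H, Nat.reduceAdd] at u1 u2 w1 w2 hk hk'
  rw [← h2] at p1
  rw [GForm.kap]
  -- G21 = b H21
  have q1 : g.G 2 1 = g.s 1 * g.H 2 1 := by
    have : g.s 1 * (g.G 2 1 - g.s 1 * g.H 2 1) = 0 := by linear_combination hk'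
    exact sub_eq_zero.1 ((mul_eq_zero.1 this).resolve_left hs1)
  have hd : g.G 1 1 - g.H 1 1 ≠ 0 := sub_ne_zero.2 hD
  -- (c lam_1 - mu_1)(b-1) = (c-1) b
  have key : (g.t 2 * g.lam 1 - g.mu 1) * (g.s 1 - 1) = (g.t 2 - 1) * g.s 1 := by
    have e : g.t 1 * (g.G 1 1 - g.H 1 1) * ((g.t 2 * g.lam 1 - g.mu 1) * (g.s 1 - 1)
        - (g.t 2 - 1) * g.s 1) = 0 := by
      linear_combination (g.s 1 - 1) * (g.t 2 * u1 - u2 - hk) - (g.s 1 - 1) * (g.t 2 - g.t 1) * p1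
        - (g.t 2 - 1) * g.t 1 * r1 + (g.t 2 - 1) * g.t 1 * r2 - (g.s 1 - 1) * h
    exact sub_eq_zero.1 ((mul_eq_zero.1 e).resolve_left (mul_ne_zero ht1 hd))
  have : (g.s 1 - 1) * (g.t 2 * g.G 2 2 - g.t 2 ^ 2 * g.H 2 2) = 0 := by
    rw [w1, w2, q1]
    linear_combination (-g.t 2 * (g.s 1 - 1) * g.H 2 1) * key
  exact (mul_eq_zero.1 this).resolve_left hs11

/-- row 1 at column 3 after the closed column 2. -/
theorem col3 (g : GForm F m) (hm : 3 ≤ m) (h2 : g.t 2 = g.s 2) (hk : g.kap 1 2 = 0) :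
    g.G 1 2 = g.t 1 * g.H 1 2 ∧ g.G 1 3 = g.t 1 * g.G 1 2 ∧ g.t 1 * g.H 1 3 = g.H 1 2 ∧
    (1 - g.lam' 0) * (g.s 3 - 1 - g.t 1 * (g.t 2 - 1)) = g.t 1 - 1 ∧
    g.t 1 ^ 2 * (g.s 3 - g.mu' 0 * (g.s 3 - 1)) = g.s 3 * (1 + (1 - g.lam' 0) * (g.t 2 - 1)) := by
  have ht := g.t_ne 1 (by omega)
  have u1 := g.G_succ (j := 1) (k := 2) (by omega) (by omega)
  have u2 := g.H_succ (j := 1) (k := 2) (by omega) (by omega)
  rw [hk] at u1 u2
  simp only [Nat.reduceAdd, mul_zero, sub_zero] at u1 u2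
  have hk0 := hk
  simp only [GForm.kap] at hk0
  have a1 : g.G 1 2 = g.t 1 * g.H 1 2 := by
    have : g.t 1 * (g.G 1 2 - g.t 1 * g.H 1 2) = 0 := by linear_combination hk0
    exact sub_eq_zero.1 ((mul_eq_zero.1 this).resolve_left ht)
  have a3 : g.t 1 * g.H 1 3 = g.H 1 2 := by
    have : g.t 1 ^ 2 * (g.t 1 * g.H 1 3 - g.H 1 2) = 0 := by linear_combination u2 + g.t 1 * a1
    exact sub_eq_zero.1 ((mul_eq_zero.1 this).resolve_left (pow_ne_zero _ ht))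
  have p1 := g.row1G (k := 2) (by omega) (by omega)
  have q1 := g.row1G (k := 3) (by omega) (by omega)
  have q2 := g.row1H (k := 3) (by omega) (by omega)
  rw [← h2] at p1
  refine ⟨a1, u1, a3, ?_, ?_⟩
  · linear_combination u1 - q1 + g.t 1 * p1
  · linear_combination (-g.t 1 ^ 2) * q2 + g.t 1 * g.s 3 * a3 - g.s 3 * a1 + g.s 3 * p1

theorem c0 (g : GForm F m) (hm : 3 ≤ m) (h2 : g.t 2 = g.s 2) (hk : g.kap 1 2 = 0) :
    g.s 3 * (g.t 1 + 1 - g.t 2) = g.t 1 * (g.t 2 * g.t 1 + g.t 2 - g.t 1) := by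
  obtain ⟨-, -, -, e1, eH⟩ := col3 g hm h2 hk
  have h := (kap_iff g (by omega) h2).1 hk
  have hx : (1 - g.lam' 0) ≠ 0 := sub_ne_zero.2 (g.lam'_ne 0 (by omega)).symm
  have hf : g.s 3 - g.t 2 ≠ 0 := by
    rw [h2]
    exact sub_ne_zero.2 (g.s_inj 2 3 (by omega) hm).symm
  have : (1 - g.lam' 0) * (g.s 3 - g.t 2) * (g.s 3 * (g.t 1 + 1 - g.t 2)
      - g.t 1 * (g.t 2 * g.t 1 + g.t 2 - g.t 1)) = 0 := by
    linear_combination (-g.t 1 * g.t 2 + g.t 1 * g.s 3 - g.t 2 * g.s 3 + g.s 3) * e1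
      + (-g.t 1 * g.s 3 + g.t 1) * h + (-g.t 2 + 1) * eH
  exact sub_eq_zero.1 ((mul_eq_zero.1 this).resolve_left (mul_ne_zero hx hf))

/-- row 2 at the closed column 2 and at column 3; `R = al a + be`. -/
theorem rel2 (g : GForm F m) (hm : 3 ≤ m) (hD : g.G 1 1 ≠ g.H 1 1) (h2 : g.t 2 = g.s 2)
    (hk : g.kap 1 2 = 0) :
    g.G 2 2 = g.t 2 * g.H 1 2 * ((1 - g.lam' 1) * g.t 1 + g.lam' 1) ∧
    g.G 2 3 = g.t 2 * g.G 2 2 ∧ g.t 2 ^ 2 * g.H 2 3 = g.G 2 2 ∧ g.H 1 2 ≠ 0 ∧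
    ((1 - g.lam' 1) * g.t 1 + g.lam' 1) ≠ 0 ∧
    g.t 2 * ((1 - g.lam' 1) * g.t 1 + g.lam' 1) = (1 - g.mu' 1) * g.t 1 + g.mu' 1 ∧
    ((1 - g.lam' 1) * g.t 1 + g.lam' 1) * (g.s 3 * (g.t 1 ^ 2 + g.t 1 + 1) - g.t 1 * g.t 2 ^ 2)
      = g.s 3 * g.t 1 * (g.t 1 + 1) ∧
    ((1 - g.lam' 1) * g.t 1 + g.lam' 1) * (g.t 2 ^ 2 * (g.t 1 ^ 2 + g.t 1 + 1) - g.t 1 * g.s 3)
      = g.t 2 * g.t 1 * (g.t 1 + 1) := by
  obtain ⟨a1, a2, a3, -, -⟩ := col3 g hm h2 hk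
  have hk2 := kap22 g (by omega) hD h2 hk
  have ht := g.t_ne 1 (by omega)
  have ht2 := g.t_ne 2 (by omega)
  have hf := g.s_ne 3 hm
  have h1 : g.H 1 2 ≠ 0 := by
    intro h
    refine g.ne_zero (j := 1) (k := 2) (by omega) (by omega) ⟨?_, h⟩
    rw [a1, h, mul_zero]
  have u1 := g.G_succ (j := 2) (k := 2) (by omega) (by omega)
  have u2 := g.H_succ (j := 2) (k := 2) (by omega) (by omega)
  rw [hk2] at u1 u2
  simp only [Nat.reduceAdd, mul_zero, sub_zero] at u1 u2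
  simp only [GForm.kap] at hk2
  have b1 : g.G 2 2 = g.t 2 * g.H 2 2 := by
    have : g.t 2 * (g.G 2 2 - g.t 2 * g.H 2 2) = 0 := by linear_combination hk2
    exact sub_eq_zero.1 ((mul_eq_zero.1 this).resolve_left ht2)
  have b3 : g.t 2 ^ 2 * g.H 2 3 = g.G 2 2 := by
    have : g.t 2 * (g.t 2 ^ 2 * g.H 2 3 - g.G 2 2) = 0 := by linear_combination u2
    exact sub_eq_zero.1 ((mul_eq_zero.1 this).resolve_left ht2)
  have p1 := g.row2G (k := 2) (by omega) (by omega)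
  have p2 := g.row2H (k := 2) (by omega) (by omega)
  have q1 := g.row2G (k := 3) (by omega) (by omega)
  have q2 := g.row2H (k := 3) (by omega) (by omega)
  rw [← h2] at p1 p2
  have c1 : g.G 2 2 = g.t 2 * g.H 1 2 * ((1 - g.lam' 1) * g.t 1 + g.lam' 1) := by
    rw [p1, a1]; ring
  have hQ : g.G 2 2 ≠ 0 := by
    intro h
    refine g.ne_zero (j := 2) (k := 2) (by omega) (by omega) ⟨h, ?_⟩
    rw [h] at b1
    exact (mul_eq_zero.1 b1.symm).resolve_left ht2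
  have hR : ((1 - g.lam' 1) * g.t 1 + g.lam' 1) ≠ 0 := by
    intro h
    rw [h, mul_zero] at c1
    exact hQ c1
  have c2 : g.t 2 * ((1 - g.lam' 1) * g.t 1 + g.lam' 1) = (1 - g.mu' 1) * g.t 1 + g.mu' 1 := by
    have : g.H 1 2 * (g.t 2 * ((1 - g.lam' 1) * g.t 1 + g.lam' 1)
        - ((1 - g.mu' 1) * g.t 1 + g.mu' 1)) = 0 := by
      linear_combination -c1 + b1 + p2 + (1 - g.mu' 1) * a1
    exact sub_eq_zero.1 ((mul_eq_zero.1 this).resolve_left h1)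
  refine ⟨c1, u1, b3, h1, hR, c2, ?_, ?_⟩
  · have : g.H 1 2 * (((1 - g.lam' 1) * g.t 1 + g.lam' 1) * (g.s 3 * (g.t 1 ^ 2 + g.t 1 + 1)
        - g.t 1 * g.t 2 ^ 2) - g.s 3 * g.t 1 * (g.t 1 + 1)) = 0 := by
      linear_combination (-g.t 1) * q1 + g.t 1 * u1 + g.t 1 * g.t 2 * c1
        - g.s 3 * (1 - g.lam' 1) * g.t 1 ^ 2 * a1 - g.t 1 * g.s 3 * (1 - g.lam' 1) * a2
        - g.s 3 * g.lam' 1 * a3
    exact sub_eq_zero.1 ((mul_eq_zero.1 this).resolve_left h1)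
  · have : g.t 2 * g.H 1 2 * (((1 - g.lam' 1) * g.t 1 + g.lam' 1) * (g.t 2 ^ 2 * (g.t 1 ^ 2 + g.t 1
        + 1) - g.t 1 * g.s 3) - g.t 2 * g.t 1 * (g.t 1 + 1)) = 0 := by
      linear_combination g.t 2 ^ 2 * g.H 1 2 * (g.t 1 ^ 2 + g.t 1 + 1) * c2
        - g.t 1 * g.t 2 ^ 2 * q2 + g.t 1 * g.s 3 * b3 + g.t 1 * g.s 3 * c1
        - g.t 2 ^ 2 * (1 - g.mu' 1) * g.t 1 ^ 2 * a1 - g.t 2 ^ 2 * (1 - g.mu' 1) * g.t 1 * a2
        - g.t 2 ^ 2 * g.mu' 1 * a3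
    exact sub_eq_zero.1 ((mul_eq_zero.1 this).resolve_left (mul_ne_zero ht2 h1))

theorem c1 (g : GForm F m) (hm : 3 ≤ m) (hD : g.G 1 1 ≠ g.H 1 1) (h2 : g.t 2 = g.s 2)
    (hk : g.kap 1 2 = 0) :
    g.t 1 * g.s 3 ^ 2 - g.t 2 * (g.t 2 - 1) * (g.t 1 ^ 2 + g.t 1 + 1) * g.s 3
      - g.t 1 * g.t 2 ^ 3 = 0 := by
  obtain ⟨-, -, -, -, hR, -, r1, r2⟩ := rel2 g hm hD h2 hk
  have : ((1 - g.lam' 1) * g.t 1 + g.lam' 1) * (g.t 1 * g.s 3 ^ 2
      - g.t 2 * (g.t 2 - 1) * (g.t 1 ^ 2 + g.t 1 + 1) * g.s 3 - g.t 1 * g.t 2 ^ 3) = 0 := by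
    linear_combination g.t 2 * r1 - g.s 3 * r2
  exact (mul_eq_zero.1 this).resolve_left hR

private theorem c3_alg {a b c f d : F} (hab : a ≠ b) (hc1 : c ≠ 1) (hac : a ≠ c) (hbc : b ≠ c)
    (hc : c ≠ 0) (ha : a ≠ 0) (hb : b ≠ 0)
    (h0 : f * (a + 1 - c) = a * (c * a + c - a)) (h0' : d * (b + 1 - c) = b * (c * b + c - b))
    (h1 : a * f ^ 2 - c * (c - 1) * (a ^ 2 + a + 1) * f - a * c ^ 3 = 0)
    (h1' : b * d ^ 2 - c * (c - 1) * (b ^ 2 + b + 1) * d - b * c ^ 3 = 0)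
    (hd : f - a * (c - 1) = d - b * (c - 1)) : False := by
  have w : c ^ 2 - c + 1 = 0 := by
    have : (a - b) * (c - 1) * (c ^ 2 - c + 1) = 0 := by
      linear_combination (b + 1 - c) * h0 - (a + 1 - c) * h0' - (a + 1 - c) * (b + 1 - c) * hd
    rcases mul_eq_zero.1 this with h | h
    · rcases mul_eq_zero.1 h with h | h
      · exact absurd (sub_eq_zero.1 h) hab
      · exact absurd (sub_eq_zero.1 h) hc1
    · exact h
  -- either `a = -1`, `f = a (c - 1)` or `a = c - 1`, `f ^ 2 = -1`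
  have key : ∀ a f : F, a ≠ 0 → a ≠ c → f * (a + 1 - c) = a * (c * a + c - a) →
      a * f ^ 2 - c * (c - 1) * (a ^ 2 + a + 1) * f - a * c ^ 3 = 0 →
      (a = -1 ∧ f = a * (c - 1)) ∨ (a = c - 1 ∧ f ^ 2 = -1) := by
    intro a f ha hac h0 h1
    have e : (f - a * (c - 1)) * (a + 1 - c) = 0 := by
      linear_combination h0 + a * w
    rcases mul_eq_zero.1 e with h | h
    · left
      have hf : f = a * (c - 1) := sub_eq_zero.1 h
      refine ⟨?_, hf⟩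
      rw [hf] at h1
      have : a * ((a + 1) * (a - c)) = 0 := by
        linear_combination (-1 : F) * h1
          + (-a ^ 3 * c + 2 * a ^ 3 - a ^ 2 * c + a ^ 2 - 2 * a * c) * w
      have := (mul_eq_zero.1 ((mul_eq_zero.1 this).resolve_left ha)).resolve_right (sub_ne_zero.2 hac)
      exact eq_neg_of_add_eq_zero_left this
    · right
      have hac1 : a = c - 1 := by linear_combination h
      refine ⟨hac1, ?_⟩
      have : a * (f ^ 2 + 1) = 0 := by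
        rw [hac1] at h1 ⊢
        linear_combination h1 + (c ^ 2 * f + c ^ 2 - c * f - 1) * w
      exact eq_neg_of_add_eq_zero_left ((mul_eq_zero.1 this).resolve_left ha)
  have fin : ∀ a b f d : F, a = -1 → f = a * (c - 1) → b = c - 1 → d ^ 2 = -1 →
      f - a * (c - 1) = d - b * (c - 1) → False := by
    intro a b f d ha hf hb hd h
    have e1 : d = -c := by
      rw [hf, hb] at h
      linear_combination -h + w
    rw [e1] at hd
    have : c * c = 0 := by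
      linear_combination c * hd - c * w
    exact hc (mul_self_eq_zero.1 this)
  rcases key a f ha hac h0 h1 with ⟨e1, e2⟩ | ⟨e1, e2⟩ <;>
    rcases key b d hb hbc h0' h1' with ⟨e3, e4⟩ | ⟨e3, e4⟩
  · exact hab (e1.trans e3.symm)
  · exact fin a b f d e1 e2 e3 e4 hd
  · exact fin b a d f e3 e4 e1 e2 hd.symm
  · exact hab (e1.trans e3.symm)

/-- `t_2 = s_2`, `t_1 ≠ s_1`: impossible already for `m = 3`. -/
theorem c3_dead3 (g : GForm F m) (hm : 3 ≤ m) (hD : g.G 1 1 ≠ g.H 1 1) (h2 : g.t 2 = g.s 2)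
    (h1 : g.t 1 ≠ g.s 1)
    (h : (g.t 2 - 1) * (g.t 2 * (1 - g.lam' 0) + g.t 1 * g.mu' 0) = (g.t 1 - 1) * g.t 2) :
    False := by
  have hk := (kap_iff g (by omega) h2).2 h
  have h' := swap_cond g (by omega) h
  have hk' : g.swap.kap 1 2 = 0 := (kap_iff g.swap (by omega) h2.symm).2 (by
    simp only [GForm.swap_t, GForm.swap_lam', GForm.swap_mu', ← h2]
    exact h')
  have ht1 : g.t 1 - 1 ≠ 0 := by
    have := g.t_inj 0 1 (by omega) (by omega)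
    rw [g.t0] at this
    exact sub_ne_zero.2 this.symm
  have hc1 : g.t 2 ≠ 1 := by
    have := g.t_inj 0 2 (by omega) (by omega)
    rw [g.t0] at this
    exact this.symm
  have hD' : g.swap.G 1 1 ≠ g.swap.H 1 1 := hD
  obtain ⟨-, -, -, e1, -⟩ := col3 g hm h2 hk
  obtain ⟨-, -, -, e1', -⟩ := col3 g.swap hm h2.symm hk'
  have z1 := c0 g hm h2 hk
  have z1' := c0 g.swap hm h2.symm hk'
  have z2 := c1 g hm hD h2 hk
  have z2' := c1 g.swap hm hD' h2.symm hk'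
  simp only [GForm.swap_t, GForm.swap_s, GForm.swap_lam', ← h2] at e1' z1' z2'
  obtain ⟨o1, -⟩ := one_one g (by omega)
  have hy : (1 - g.lam 0) ≠ 0 := sub_ne_zero.2 (g.lam_ne 0 (by omega)).symm
  have hd : g.s 3 - g.t 1 * (g.t 2 - 1) = g.t 3 - g.s 1 * (g.t 2 - 1) := by
    have : (1 - g.lam 0) * (g.t 1 - 1) * ((g.s 3 - g.t 1 * (g.t 2 - 1))
        - (g.t 3 - g.s 1 * (g.t 2 - 1))) = 0 := by
      linear_combination (-(g.s 3 - 1 - g.t 1 * (g.t 2 - 1))) * o1 + (g.s 1 - 1) * e1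
        - (g.t 1 - 1) * e1'
    exact sub_eq_zero.1 ((mul_eq_zero.1 this).resolve_left (mul_ne_zero hy ht1))
  refine c3_alg (a := g.t 1) (b := g.s 1) (c := g.t 2) (f := g.s 3) (d := g.t 3) h1 hc1
    (g.t_inj 1 2 (by omega) (by omega)) ?_ (g.t_ne 2 (by omega)) (g.t_ne 1 (by omega))
    (g.s_ne 1 (by omega)) z1 z1' z2 z2' hd
  rw [h2]
  exact g.s_inj 1 2 (by omega) (by omega)

theorem c3_dead (g : GForm F m) (hm : 6 ≤ m) (hD : g.G 1 1 ≠ g.H 1 1) (h2 : g.t 2 = g.s 2)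
    (h1 : g.t 1 ≠ g.s 1)
    (h : (g.t 2 - 1) * (g.t 2 * (1 - g.lam' 0) + g.t 1 * g.mu' 0) = (g.t 1 - 1) * g.t 2) :
    False :=
  c3_dead3 g (by omega) hD h2 h1 h

end Pool.Agent.Helper27.IP
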