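import Pool.Agent.Helper54.IP.GSwap

/-!
TH-P: restart of the Szegő form after a column `N` which is closed for the rows `0, .., J`.
-/

namespace Pool.Agent.Helper27.IP

open Pool.Agent.Helper54.IP

variable {F : Type*} [Field F] {m : ℕ}

theorem closed_next (g : GForm F m) {N j : ℕ} (hj : j ≤ m) (hN : N < m) (hk : g.kap j N = 0) :
    g.G j (N + 1) = g.t j * g.G j N ∧ g.t j ^ (N + 1) * g.H j (N + 1) = g.t j * g.G j N := by
  have u1 := g.G_succ hj hN
  have u2 := g.H_succ hj hN
  rw [hk, mul_zero, sub_zero] at u1 u2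
  exact ⟨u1, u2⟩

theorem closed_next_ne (g : GForm F m) {N j : ℕ} (hj : j ≤ m) (hN : N < m) (hk : g.kap j N = 0) :
    g.G j (N + 1) ≠ 0 := by
  obtain ⟨h1, h2⟩ := closed_next g hj hN hk
  intro h
  refine g.ne_zero (j := j) (k := N + 1) hj hN ⟨h, ?_⟩
  rw [← h1, h] at h2
  exact (mul_eq_zero.1 h2).resolve_left (pow_ne_zero _ (g.t_ne j hj))

private theorem lam_aux (g : GForm F m) {N j : ℕ} (hj : j + 1 ≤ m) (hN : N < m)
    (hk : g.kap j N = 0) (hk1 : g.kap (j + 1) N = 0) :
    1 - g.lam' j * g.s (N + 1) ^ j * g.G j (N + 1) / (g.t j ^ (N + 1) * g.G (j + 1) (N + 1)) =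
      (1 - g.lam' j) * g.s (N + 1) * g.G j (N + 1) / g.G (j + 1) (N + 1) := by
  have a0 := closed_next_ne g (j := j) (by omega) hN hk
  have a1 := closed_next_ne g (j := j + 1) (by omega) hN hk1
  have e := closed_next g (j := j) (by omega) hN hk
  have e2 : g.t j ^ (N + 1) * g.H j (N + 1) = g.G j (N + 1) := by rw [e.2, e.1]
  have v := g.V1 j (N + 1) (by omega) (by omega)
  have ht := pow_ne_zero (N + 1) (g.t_ne j (by omega))
  rw [sub_eq_iff_eq_add, div_add_div _ _ a1 (mul_ne_zero ht a1), eq_div_iff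
    (mul_ne_zero a1 (mul_ne_zero ht a1))]
  linear_combination (g.t j ^ (N + 1) * g.G (j + 1) (N + 1)) * v
    + g.lam' j * g.s (N + 1) ^ j * g.G (j + 1) (N + 1) * e2

private theorem mu_aux (g : GForm F m) {N j : ℕ} (hj : j + 1 ≤ m) (hN : N < m)
    (hk : g.kap j N = 0) (hk1 : g.kap (j + 1) N = 0) :
    1 - g.mu' j * g.t (j + 1) ^ (N + 1) * g.G j (N + 1)
      / (g.s (N + 1) * g.t j ^ (N + 1) * g.G (j + 1) (N + 1)) =
      (1 - g.mu' j) * g.t (j + 1) ^ (N + 1) * g.G j (N + 1)
        / (g.s (N + 1) ^ j * g.G (j + 1) (N + 1)) := by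
  have a0 := closed_next_ne g (j := j) (by omega) hN hk
  have a1 := closed_next_ne g (j := j + 1) (by omega) hN hk1
  have e := closed_next g (j := j) (by omega) hN hk
  have e' := closed_next g (j := j + 1) (by omega) hN hk1
  have e2 : g.t j ^ (N + 1) * g.H j (N + 1) = g.G j (N + 1) := by rw [e.2, e.1]
  have e2' : g.t (j + 1) ^ (N + 1) * g.H (j + 1) (N + 1) = g.G (j + 1) (N + 1) := by
    rw [e'.2, e'.1]
  have v := g.V2 j (N + 1) (by omega) (by omega)
  have ht := pow_ne_zero (N + 1) (g.t_ne j (by omega))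
  have hs := g.s_ne (N + 1) (by omega)
  have hsj := pow_ne_zero j hs
  rw [sub_eq_iff_eq_add, div_add_div _ _ (mul_ne_zero hsj a1)
    (mul_ne_zero (mul_ne_zero hs ht) a1), eq_div_iff
    (mul_ne_zero (mul_ne_zero hsj a1) (mul_ne_zero (mul_ne_zero hs ht) a1))]
  linear_combination (g.t j ^ (N + 1) * g.t (j + 1) ^ (N + 1) * g.G (j + 1) (N + 1)) * v
    + g.mu' j * g.s (N + 1) ^ j * g.t (j + 1) ^ (N + 1) * g.G (j + 1) (N + 1) * e2
    - (g.s (N + 1) ^ (j + 1) * g.t j ^ (N + 1) * g.G (j + 1) (N + 1)) * e2'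

/-- the strip of the rows `0..J` restarts at column `N + 1`. -/
def restart (g : GForm F m) (N J : ℕ) (hm : N + 1 + J ≤ m) (hk : ∀ j, j ≤ J → g.kap j N = 0) :
    GForm F J where
  t := g.t
  s := fun k => g.s (k + (N + 1)) / g.s (N + 1)
  G := fun j k => g.G j (k + (N + 1)) / g.G j (N + 1)
  H := fun j k => g.t j ^ (N + 1) * g.H j (k + (N + 1)) / g.G j (N + 1)
  lam := fun k => g.lam (k + (N + 1))
  mu := fun k => g.mu (k + (N + 1))
  lam' := fun j => g.lam' j * g.s (N + 1) ^ j * g.G j (N + 1)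
    / (g.t j ^ (N + 1) * g.G (j + 1) (N + 1))
  mu' := fun j => g.mu' j * g.t (j + 1) ^ (N + 1) * g.G j (N + 1)
    / (g.s (N + 1) * g.t j ^ (N + 1) * g.G (j + 1) (N + 1))
  t0 := g.t0
  s0 := by
    have := g.s_ne (N + 1) (by omega)
    rw [zero_add]
    exact div_self this
  t_ne := fun i hi => g.t_ne i (by omega)
  s_ne := fun i hi => div_ne_zero (g.s_ne _ (by omega)) (g.s_ne _ (by omega))
  t_inj := fun i j hij hj => g.t_inj i j hij (by omega)
  s_inj := fun i j hij hj h => g.s_inj (i + (N + 1)) (j + (N + 1)) (by omega) (by omega)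
    ((div_left_inj' (g.s_ne (N + 1) (by omega))).1 h)
  G0 := fun j hj => by
    rw [zero_add]
    exact div_self (closed_next_ne g (by omega) (by omega) (hk j hj))
  G0' := fun k hk' => by
    rw [g.G0' _ (by omega), g.G0' _ (by omega), div_one]
  H0 := fun j hj => by
    have h := closed_next g (j := j) (by omega) (by omega) (hk j hj)
    rw [zero_add, h.2, ← h.1]
    exact div_self (closed_next_ne g (by omega) (by omega) (hk j hj))
  H0' := fun k hk' => by
    rw [g.H0' _ (by omega), g.G0' _ (by omega), g.t0, one_pow, one_mul, div_one]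
  U1 := fun j k hj hk' => by
    have hne := closed_next_ne g (j := j) (by omega) (by omega) (hk j hj)
    have e := g.U1 j (k + (N + 1)) (by omega) (by omega)
    rw [show k + 1 + (N + 1) = k + (N + 1) + 1 by omega, e]
    field_simp
    ring
  U2 := fun j k hj hk' => by
    have hne := closed_next_ne g (j := j) (by omega) (by omega) (hk j hj)
    have e := g.U2 j (k + (N + 1)) (by omega) (by omega)
    have e' : g.t j ^ (k + 1) * g.t j ^ (N + 1) * g.H j (k + (N + 1) + 1) =
        (1 - g.mu (k + (N + 1))) * (g.t j * g.G j (k + (N + 1)))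
          + g.mu (k + (N + 1)) * (g.t j ^ (k + (N + 1)) * g.H j (k + (N + 1))) := by
      rw [← e]; ring
    rw [show k + 1 + (N + 1) = k + (N + 1) + 1 by omega]
    have : g.t j ^ (k + 1) * (g.t j ^ (N + 1) * g.H j (k + (N + 1) + 1) / g.G j (N + 1)) =
        ((1 - g.mu (k + (N + 1))) * (g.t j * g.G j (k + (N + 1)))
          + g.mu (k + (N + 1)) * (g.t j ^ (k + (N + 1)) * g.H j (k + (N + 1)))) / g.G j (N + 1) := by
      rw [← e']; ring
    rw [this]
    field_simp
    ring
  V1 := fun j k hj hk' => by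
    have a0 := closed_next_ne g (j := j) (by omega) (by omega) (hk j (by omega))
    have a1 := closed_next_ne g (j := j + 1) (by omega) (by omega) (hk (j + 1) (by omega))
    have ht := g.t_ne j (by omega)
    have hs := g.s_ne (N + 1) (by omega)
    have v := g.V1 j (k + (N + 1)) (by omega) (by omega)
    rw [lam_aux g (by omega) (by omega) (hk j (by omega)) (hk (j + 1) (by omega)), v, div_pow]
    field_simp
  V2 := fun j k hj hk' => by
    have a0 := closed_next_ne g (j := j) (by omega) (by omega) (hk j (by omega))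
    have a1 := closed_next_ne g (j := j + 1) (by omega) (by omega) (hk (j + 1) (by omega))
    have ht := g.t_ne j (by omega)
    have hs := g.s_ne (N + 1) (by omega)
    have v := g.V2 j (k + (N + 1)) (by omega) (by omega)
    rw [mu_aux g (by omega) (by omega) (hk j (by omega)) (hk (j + 1) (by omega)), div_pow, div_pow]
    have : g.s (k + (N + 1)) ^ (j + 1) / g.s (N + 1) ^ (j + 1)
        * (g.t (j + 1) ^ (N + 1) * g.H (j + 1) (k + (N + 1)) / g.G (j + 1) (N + 1)) =
        g.t (j + 1) ^ (N + 1) / (g.s (N + 1) ^ (j + 1) * g.G (j + 1) (N + 1)) *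
        (g.s (k + (N + 1)) ^ (j + 1) * g.H (j + 1) (k + (N + 1))) := by
      field_simp
    rw [this, v]
    field_simp
    ring
  lam_ne := fun k hk' => g.lam_ne _ (by omega)
  mu_ne := fun k hk' => g.mu_ne _ (by omega)
  lm_ne := fun k hk' => g.lm_ne _ (by omega)
  lam'_ne := fun j hj => by
    have a0 := closed_next_ne g (j := j) (by omega) (by omega) (hk j (by omega))
    have a1 := closed_next_ne g (j := j + 1) (by omega) (by omega) (hk (j + 1) (by omega))
    have e := lam_aux g (by omega) (by omega) (hk j (by omega)) (hk (j + 1) (by omega))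
    intro h
    rw [h, sub_self] at e
    exact div_ne_zero (mul_ne_zero (mul_ne_zero (sub_ne_zero.2 (g.lam'_ne j (by omega)).symm)
      (g.s_ne _ (by omega))) a0) a1 e.symm
  mu'_ne := fun j hj => by
    have h0 := closed_next_ne g (j := j) (by omega) (by omega) (hk j (by omega))
    have h1 := closed_next_ne g (j := j + 1) (by omega) (by omega) (hk (j + 1) (by omega))
    exact div_ne_zero (mul_ne_zero (mul_ne_zero (g.mu'_ne j (by omega))
      (pow_ne_zero _ (g.t_ne _ (by omega)))) h0)
      (mul_ne_zero (mul_ne_zero (g.s_ne _ (by omega)) (pow_ne_zero _ (g.t_ne _ (by omega)))) h1)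
  lm'_ne := fun j hj => by
    have a0 := closed_next_ne g (j := j) (by omega) (by omega) (hk j (by omega))
    have a1 := closed_next_ne g (j := j + 1) (by omega) (by omega) (hk (j + 1) (by omega))
    have e1 := lam_aux g (by omega) (by omega) (hk j (by omega)) (hk (j + 1) (by omega))
    have e2 := mu_aux g (by omega) (by omega) (hk j (by omega)) (hk (j + 1) (by omega))
    have ht := g.t_ne j (by omega)
    have ht1 := g.t_ne (j + 1) (by omega)
    have hs := g.s_ne (N + 1) (by omega)
    have hd : g.mu' j - g.lam' j ≠ 0 := sub_ne_zero.2 (g.lm'_ne j (by omega)).symm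
    intro h
    set L := g.lam' j * g.s (N + 1) ^ j * g.G j (N + 1)
      / (g.t j ^ (N + 1) * g.G (j + 1) (N + 1)) with hL
    set M := g.mu' j * g.t (j + 1) ^ (N + 1) * g.G j (N + 1)
      / (g.s (N + 1) * g.t j ^ (N + 1) * g.G (j + 1) (N + 1)) with hM
    have e3 : (1 - L) * M - L * (1 - M) = 0 := by rw [h]; ring
    rw [e1, e2, hL, hM] at e3
    have e4 : g.G j (N + 1) ^ 2 * g.t (j + 1) ^ (N + 1) / (g.G (j + 1) (N + 1) ^ 2
        * g.t j ^ (N + 1)) * (g.mu' j - g.lam' j) = 0 := by
      rw [← e3]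
      field_simp
      ring
    exact mul_ne_zero (div_ne_zero (mul_ne_zero (pow_ne_zero _ a0) (pow_ne_zero _ ht1))
      (mul_ne_zero (pow_ne_zero _ a1) (pow_ne_zero _ ht))) hd e4

end Pool.Agent.Helper27.IP
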