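import Pool.Agent.Helper27.IP.Closed2
import Pool.Agent.Helper27.IP.Restart
import Pool.Agent.Helper14.IP.Level2

/-!
TH-P: the diagonal corner closed at column 2 dies at `m = 6`.
`c = t_2 = s_2`, `z = s_3 / c`, `s_3 = c z`, `t_1 = c z^2`, `c^2 z^3 - c (z-1) (z+1)^2 - 1 = 0`.
-/

namespace Pool.Agent.Helper27.IP

open Pool.Agent.Helper54.IP

variable {F : Type*} [Field F] {m : ℕ}

private theorem cancel {a b : F} (ha : a ≠ 0) (h : a * b = 0) : b = 0 :=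
  (mul_eq_zero.1 h).resolve_left ha

private theorem s4_alg {c z x y R e : F} (hc : c ≠ 0) (hz : z ≠ 0) (ha1 : c * z ^ 2 - 1 ≠ 0)
    (hK : c ^ 2 * z ^ 3 - c * (z - 1) * (z + 1) ^ 2 - 1 = 0)
    (hE1 : x * (c * z - 1 - c * z ^ 2 * (c - 1)) = c * z ^ 2 - 1)
    (hy : y * (c ^ 2 * z ^ 2 - c * z + 1 - c) = c * (c * z ^ 2 - 1))
    (hR : R * (c ^ 2 * z ^ 2 - c * z + 1) = c * z ^ 2)
    (h4 : (c * z ^ 2) ^ 2 * ((R - 1) * (1 - x + x * (e + c * z)) + (c * z ^ 2 - R) * (1 - y)) =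
      c ^ 2 * R * (c - 1) * x) : z * e = c := by
  obtain ⟨B, hB⟩ : ∃ B : F, B = c ^ 2 * z ^ 2 - c * z + 1 := ⟨_, rfl⟩
  obtain ⟨a, ha⟩ : ∃ a : F, a = c * z ^ 2 := ⟨_, rfl⟩
  have ha0 : a ≠ 0 := by rw [ha]; exact mul_ne_zero hc (pow_ne_zero _ hz)
  have XA : x * (a - B) = a - 1 := by rw [ha, hB]; linear_combination hE1
  have YB : y * (B - c) = c * (a - 1) := by rw [ha, hB]; exact hy
  rw [← hB] at hR
  rw [← ha] at hR h4 ha1
  have hAB : a - B ≠ 0 := by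
    intro h
    rw [h, mul_zero] at XA
    exact ha1 XA.symm
  have hBc : B - c ≠ 0 := by
    intro h
    rw [h, mul_zero] at YB
    exact mul_ne_zero hc ha1 YB.symm
  have v1 : a * ((a - B) * (1 - x + x * (e + c * z)) + a * (B - 1) * (1 - y))
      - c ^ 2 * (c - 1) * x = 0 := by
    refine cancel ha0 ?_
    linear_combination B * h4
      - (a ^ 2 * ((1 - x + x * (e + c * z)) - (1 - y)) - c ^ 2 * (c - 1) * x) * hR
  have hBac : B - c - a * c = 1 - c * z - c := by rw [hB, ha]; ring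
  have W : a * (a - B) * ((B - 1) * (1 - c * z - c) + (e + c * z) * (B - c))
      - c ^ 2 * (c - 1) * (B - c) = 0 := by
    refine cancel ha1 ?_
    linear_combination (a - B) * (B - c) * v1
      - (a * (a - B) * (B - c) * (e + c * z - 1) - c ^ 2 * (c - 1) * (B - c)) * XA
      + a ^ 2 * (a - B) * (B - 1) * YB
      - a * (a - B) * (B - 1) * (a - 1) * hBac
  have hrel : B - c = a * z * (a - B) := by
    rw [hB, ha]
    linear_combination (c * z ^ 2 - 1) * hK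
  have V : (B - 1) * (1 - c * z - c) + (e + c * z) * (B - c) - c ^ 2 * (c - 1) * z = 0 := by
    refine cancel (mul_ne_zero ha0 hAB) ?_
    linear_combination W + c ^ 2 * (c - 1) * hrel
  have fin : (B - c) * (z * e - c) = 0 := by
    rw [hB] at V ⊢
    linear_combination z * V + c * hK
  have := cancel hBc fin
  linear_combination this

private theorem y_alg {c z x y : F} (hc1 : c - 1 ≠ 0)
    (hK : c ^ 2 * z ^ 3 - c * (z - 1) * (z + 1) ^ 2 - 1 = 0)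
    (hE1 : x * (c * z - 1 - c * z ^ 2 * (c - 1)) = c * z ^ 2 - 1)
    (h : (c - 1) * (c * x + c * z ^ 2 * y) = (c * z ^ 2 - 1) * c) :
    y * (c ^ 2 * z ^ 2 - c * z + 1 - c) = c * (c * z ^ 2 - 1) := by
  refine sub_eq_zero.1 (cancel hc1 ?_)
  linear_combination (c * z + c - z - 1) * h + (-c ^ 2 * z + c * z) * hE1
    + (-c ^ 2 * x + c * x - c * y + y) * hK

private theorem curve (g : GForm F m) (hm : 3 ≤ m) (hD : g.G 1 1 ≠ g.H 1 1) (h2 : g.t 2 = g.s 2)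
    (hk : g.kap 1 2 = 0) : ∃ z : F, z ≠ 0 ∧ g.s 3 = g.t 2 * z ∧ g.t 1 = g.t 2 * z ^ 2 ∧
      g.t 2 ^ 2 * z ^ 3 - g.t 2 * (z - 1) * (z + 1) ^ 2 - 1 = 0 := by
  have e0 := c0 g hm h2 hk
  have e1 := c1 g hm hD h2 hk
  have hc := g.t_ne 2 (by omega)
  have hf := g.s_ne 3 hm
  have hca : g.t 2 - g.t 1 ≠ 0 := sub_ne_zero.2 (g.t_inj 1 2 (by omega) (by omega)).symm
  have hc1 : g.t 2 - 1 ≠ 0 := by
    have := g.t_inj 0 2 (by omega) (by omega)
    rw [g.t0] at this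
    exact sub_ne_zero.2 this.symm
  have e2 : g.s 3 ^ 2 - g.t 1 * g.t 2 = 0 := by
    refine cancel (mul_ne_zero hca hc1) ?_
    linear_combination (-g.t 2 * g.s 3 - g.t 2) * e0 + e1
  obtain ⟨z, hz⟩ : ∃ z : F, z = g.s 3 / g.t 2 := ⟨_, rfl⟩
  have hz0 : z ≠ 0 := by rw [hz]; exact div_ne_zero hf hc
  have f1 : g.s 3 = g.t 2 * z := by rw [hz, mul_div_cancel₀ _ hc]
  have f2 : g.t 1 = g.t 2 * z ^ 2 := by
    refine sub_eq_zero.1 (cancel hc ?_)
    rw [f1] at e2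
    linear_combination -e2
  refine ⟨z, hz0, f1, f2, ?_⟩
  rw [f1, f2] at e0
  refine cancel (mul_ne_zero hc hz0) ?_
  linear_combination -e0

/-- the `G`-equations of column 4. -/
private theorem col4 (g : GForm F m) (hm : 4 ≤ m) (hD : g.G 1 1 ≠ g.H 1 1) (h2 : g.t 2 = g.s 2)
    (hk : g.kap 1 2 = 0) {R : F} (hR : R = (1 - g.lam' 1) * g.t 1 + g.lam' 1) :
    g.t 1 ^ 2 * ((R - 1) * (1 - (1 - g.lam' 0) + (1 - g.lam' 0) * (g.s 4 + g.s 3))
      + (g.t 1 - R) * (1 - g.mu' 0)) = g.t 2 ^ 2 * R * (g.t 2 - 1) * (1 - g.lam' 0) := by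
  obtain ⟨a1, -, -, -, -⟩ := col3 g (by omega) h2 hk
  obtain ⟨b1, -, -, b4, -, -, -, -⟩ := rel2 g (by omega) hD h2 hk
  have hk2 := kap22 g (by omega) hD h2 hk
  obtain ⟨n1, n2⟩ := closed_next g (j := 1) (N := 2) (by omega) (by omega) hk
  obtain ⟨n3, n4⟩ := closed_next g (j := 2) (N := 2) (by omega) (by omega) hk2
  have u1 := g.G_succ (j := 1) (k := 3) (by omega) (by omega)
  have u2 := g.G_succ (j := 2) (k := 3) (by omega) (by omega)
  simp only [GForm.kap, Nat.reduceAdd] at u1 u2 n1 n2 n3 n4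
  have r1 := g.row1G (k := 3) (by omega) (by omega)
  have r2 := g.row1H (k := 3) (by omega) (by omega)
  have r3 := g.row1G (k := 4) (by omega) (by omega)
  have r4 := g.row1H (k := 4) (by omega) (by omega)
  have r5 := g.row2G (k := 3) (by omega) (by omega)
  have r6 := g.row2G (k := 4) (by omega) (by omega)
  rw [← hR] at b1
  have hef : g.s 4 - g.s 3 ≠ 0 := sub_ne_zero.2 (g.s_inj 3 4 (by omega) (by omega)).symm
  have d1 : g.G 1 4 - g.G 1 3 = (1 - g.lam' 0) * (g.s 4 - g.s 3) := by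
    linear_combination r3 - r1
  have d2 : g.G 2 4 - g.G 2 3 = (g.s 4 - g.s 3) * ((1 - g.lam' 1) * (1 - (1 - g.lam' 0)
      + (1 - g.lam' 0) * (g.s 4 + g.s 3)) + g.lam' 1 * (1 - g.mu' 0)) := by
    linear_combination r6 - r5 + g.s 4 * (1 - g.lam' 1) * r3 - g.s 3 * (1 - g.lam' 1) * r1
      + g.lam' 1 * r4 - g.lam' 1 * r2
  have d3 : g.G 1 4 - g.G 1 3 = (1 - g.lam 3) * (g.t 1 * (g.t 1 - 1) * g.G 1 2) := by
    linear_combination u1 + ((1 - g.lam 3) * g.t 1 - 1) * n1 + g.lam 3 * n2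
  have d4 : g.G 2 4 - g.G 2 3 = (1 - g.lam 3) * (g.t 2 * (g.t 2 - 1) * g.G 2 2) := by
    linear_combination u2 + ((1 - g.lam 3) * g.t 2 - 1) * n3 + g.lam 3 * n4
  have key : (g.s 4 - g.s 3) * g.H 1 2 *
      (g.t 1 ^ 2 * ((R - 1) * (1 - (1 - g.lam' 0) + (1 - g.lam' 0) * (g.s 4 + g.s 3))
      + (g.t 1 - R) * (1 - g.mu' 0)) - g.t 2 ^ 2 * R * (g.t 2 - 1) * (1 - g.lam' 0)) = 0 := by
    have k1 : (g.G 2 4 - g.G 2 3) * (g.t 1 * (g.t 1 - 1) * g.G 1 2) =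
        (g.G 1 4 - g.G 1 3) * (g.t 2 * (g.t 2 - 1) * g.G 2 2) := by
      rw [d3, d4]; ring
    rw [d1, d2, a1, b1] at k1
    have k2 : R - 1 = (1 - g.lam' 1) * (g.t 1 - 1) := by rw [hR]; ring
    have k3 : g.t 1 - R = g.lam' 1 * (g.t 1 - 1) := by rw [hR]; ring
    rw [k2, k3]
    linear_combination k1
  exact sub_eq_zero.1 (cancel (mul_ne_zero hef b4) key)

/-- the `H`-equations of column 4. -/
private theorem col4H (g : GForm F m) (hm : 4 ≤ m) (hD : g.G 1 1 ≠ g.H 1 1) (h2 : g.t 2 = g.s 2)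
    (hk : g.kap 1 2 = 0) {R : F} (hR : R = (1 - g.lam' 1) * g.t 1 + g.lam' 1) :
    g.t 2 ^ 2 * (g.t 1 - 1) * (((1 - g.mu' 1) * (1 - (1 - g.lam' 0)) + g.mu' 1 * (1 - g.mu' 0))
      * (g.s 4 * g.s 3) + g.mu' 1 * g.mu' 0 * (g.s 4 + g.s 3)) =
      g.mu' 0 * g.t 1 ^ 2 * R * (g.t 2 - 1) * (g.s 4 * g.s 3) := by
  obtain ⟨a1, -, -, -, -⟩ := col3 g (by omega) h2 hk
  obtain ⟨b1, -, -, b4, -, -, -, -⟩ := rel2 g (by omega) hD h2 hk
  have hk2 := kap22 g (by omega) hD h2 hk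
  have ht1 := g.t_ne 1 (by omega)
  have ht2 := g.t_ne 2 (by omega)
  have hs3 := g.s_ne 3 (by omega)
  have hs4 := g.s_ne 4 (by omega)
  obtain ⟨n1, n2⟩ := closed_next g (j := 1) (N := 2) (by omega) (by omega) hk
  obtain ⟨n3, n4⟩ := closed_next g (j := 2) (N := 2) (by omega) (by omega) hk2
  have u1 := g.H_succ (j := 1) (k := 3) (by omega) (by omega)
  have u2 := g.H_succ (j := 2) (k := 3) (by omega) (by omega)
  simp only [GForm.kap, Nat.reduceAdd] at u1 u2 n1 n2 n3 n4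
  have r1 := g.row1G (k := 3) (by omega) (by omega)
  have r2 := g.row1H (k := 3) (by omega) (by omega)
  have r3 := g.row1G (k := 4) (by omega) (by omega)
  have r4 := g.row1H (k := 4) (by omega) (by omega)
  have r5 := g.row2H (k := 3) (by omega) (by omega)
  have r6 := g.row2H (k := 4) (by omega) (by omega)
  rw [← hR] at b1
  have hef : g.s 3 - g.s 4 ≠ 0 := sub_ne_zero.2 (g.s_inj 3 4 (by omega) (by omega))
  -- e f (H14 - H13) = y (f - e)
  have d1 : g.s 4 * g.s 3 * (g.H 1 4 - g.H 1 3) = g.mu' 0 * (g.s 3 - g.s 4) := by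
    linear_combination g.s 3 * r4 - g.s 4 * r2
  have d2 : g.s 4 ^ 2 * g.s 3 ^ 2 * (g.H 2 4 - g.H 2 3) = (g.s 3 - g.s 4) *
      ((1 - g.mu' 1) * (1 - (1 - g.lam' 0)) * (g.s 4 * g.s 3) + g.mu' 1 * ((1 - g.mu' 0)
      * (g.s 4 * g.s 3) + g.mu' 0 * (g.s 4 + g.s 3))) := by
    linear_combination g.s 4 * g.s 3 ^ 2 * r6 - g.s 4 ^ 2 * g.s 3 * r5
      + g.s 4 * g.s 3 ^ 2 * (1 - g.mu' 1) * r3 - g.s 4 ^ 2 * g.s 3 * (1 - g.mu' 1) * r1
      + g.mu' 1 * g.s 3 ^ 2 * r4 - g.mu' 1 * g.s 4 ^ 2 * r2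
  have d3 : g.t 1 ^ 3 * (g.H 1 4 - g.H 1 3) = -(g.mu 3 * (g.t 1 - 1) * g.G 1 2) := by
    refine sub_eq_zero.1 (cancel ht1 ?_)
    linear_combination u1 + (1 - g.mu 3) * g.t 1 * n1 + (g.mu 3 - g.t 1) * n2
  have d4 : g.t 2 ^ 3 * (g.H 2 4 - g.H 2 3) = -(g.mu 3 * (g.t 2 - 1) * g.G 2 2) := by
    refine sub_eq_zero.1 (cancel ht2 ?_)
    linear_combination u2 + (1 - g.mu 3) * g.t 2 * n3 + (g.mu 3 - g.t 2) * n4
  have key : (g.s 3 - g.s 4) * (g.t 1 * g.t 2) * g.H 1 2 *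
      (g.t 2 ^ 2 * (g.t 1 - 1) * (((1 - g.mu' 1) * (1 - (1 - g.lam' 0)) + g.mu' 1 * (1 - g.mu' 0))
      * (g.s 4 * g.s 3) + g.mu' 1 * g.mu' 0 * (g.s 4 + g.s 3)) -
      g.mu' 0 * g.t 1 ^ 2 * R * (g.t 2 - 1) * (g.s 4 * g.s 3)) = 0 := by
    have k1 : g.s 4 ^ 2 * g.s 3 ^ 2 * (g.t 2 ^ 3 * (g.H 2 4 - g.H 2 3)) * ((g.t 1 - 1) * g.G 1 2) =
        g.s 4 * g.s 3 * (g.t 1 ^ 3 * (g.s 4 * g.s 3 * (g.H 1 4 - g.H 1 3)))
          * ((g.t 2 - 1) * g.G 2 2) := by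
      rw [d4]
      linear_combination (-(g.s 4 ^ 2 * g.s 3 ^ 2 * ((g.t 2 - 1) * g.G 2 2))) * d3
    have k2 : g.s 4 ^ 2 * g.s 3 ^ 2 * (g.t 2 ^ 3 * (g.H 2 4 - g.H 2 3)) =
        g.t 2 ^ 3 * (g.s 4 ^ 2 * g.s 3 ^ 2 * (g.H 2 4 - g.H 2 3)) := by ring
    rw [k2, d1, d2, a1, b1] at k1
    linear_combination k1
  exact sub_eq_zero.1 (cancel (mul_ne_zero (mul_ne_zero hef (mul_ne_zero ht1 ht2)) b4) key)

/-- the point `t_1 = -1` of the curve. -/
private theorem deg_alg {c z x y R e de : F} (hz : z ≠ 0) (hz1 : z - 1 ≠ 0)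
    (h1 : (-1 : F) ≠ 1) (ha : c * z ^ 2 = -1) (hR1 : R ≠ 1)
    (hK : c ^ 2 * z ^ 3 - c * (z - 1) * (z + 1) ^ 2 - 1 = 0)
    (hE1 : x * (c * z - 1 - c * z ^ 2 * (c - 1)) = c * z ^ 2 - 1)
    (hy : y * (c ^ 2 * z ^ 2 - c * z + 1 - c) = c * (c * z ^ 2 - 1))
    (hde : c * R = (1 - de) * (c * z ^ 2) + de)
    (h4 : (c * z ^ 2) ^ 2 * ((R - 1) * (1 - x + x * (e + c * z)) + (c * z ^ 2 - R) * (1 - y)) =
      c ^ 2 * R * (c - 1) * x)
    (h4H : c ^ 2 * (c * z ^ 2 - 1) * (((1 - de) * (1 - x) + de * (1 - y)) * (e * (c * z))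
      + de * y * (e + c * z)) = y * (c * z ^ 2) ^ 2 * R * (c - 1) * (e * (c * z))) :
    e = -1 ∨ e = c := by
  have two : (2 : F) ≠ 0 := by
    intro h
    apply h1
    linear_combination -h
  have hcz : c = -z := by linear_combination hK - c * z * ha + (z + 1) * ha
  rw [hcz] at ha hE1 hy hde h4 h4H hK
  have hzz : z ^ 2 + z + 1 = 0 := by
    refine cancel hz1 ?_
    linear_combination -ha
  have hx : x = 2 := by
    linear_combination (-1 : F) * hE1 + (-z ^ 2 * x + z - 1) * hzz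
  have hy2 : y = 2 := by
    refine sub_eq_zero.1 (cancel hz ?_)
    linear_combination hy + (-z ^ 2 * y + z ^ 2 + z * y - z - y) * hzz
  rw [hx, hy2] at h4 h4H
  have k0 : 2 * de - 1 + z * R = 0 := by
    linear_combination (-1 : F) * hde + (-z * de + z + de - 1) * hzz
  have k1 : (R - 1) * (e - z ^ 2) - (z * R - 1) = 0 := by
    refine cancel two ?_
    linear_combination h4 + (-z ^ 7 + 2 * z ^ 6 * R - z ^ 6 - 2 * z ^ 5 * R + 2 * z ^ 5
      - 2 * z ^ 4 * R * e + 2 * z ^ 4 * e - 2 * z ^ 4 + 2 * z ^ 3 * R * e + 2 * z ^ 3 * R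
      - 2 * z ^ 3 * e - 2 * z ^ 2 * R + 2 * z ^ 2 - 2 * z * R * e - 2 * z * R + 2 * z * e - 2 * z
      + 2 * R * e - 2 * e + 2) * hzz
  have k2 : (1 - z * R) * (e - z ^ 2) - (1 - R) * (e * (-z ^ 2)) = 0 := by
    refine cancel two (cancel (pow_ne_zero 2 hz) ?_)
    linear_combination (-1 : F) * h4H + (2 * z ^ 4 - 2 * z ^ 2 * e) * k0
      + (-2 * z ^ 7 * R * e + 2 * z ^ 5 * R * e - z ^ 5 * e + 2 * z ^ 5 * de - 2 * z ^ 4 * R * e
      + z ^ 4 * e - 2 * z ^ 4 * de - 2 * z ^ 3 * e * de + 2 * z ^ 2 * e * de) * hzz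
  have k3 : (e + 1) * (e + z) = 0 := by
    refine cancel (sub_ne_zero.2 hR1) ?_
    linear_combination (z + e + 1) * k1 - k2 + (2 * z * R - z - 1) * hzz
  rcases mul_eq_zero.1 k3 with h | h
  · exact Or.inl (eq_neg_of_add_eq_zero_left h)
  · right
    rw [hcz]
    exact eq_neg_of_add_eq_zero_left h

/-- the restarted strip: its column 2 is `c` again. -/
private theorem re_alg {c z X Y u S : F} (hc : c ≠ 0) (hz : z ≠ 0) (hz1 : z - 1 ≠ 0)
    (hz2 : z + 1 ≠ 0) (ha : c * z ^ 2 - 1 ≠ 0) (hf : c * z - 1 ≠ 0)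
    (hK : c ^ 2 * z ^ 3 - c * (z - 1) * (z + 1) ^ 2 - 1 = 0)
    (hX : X * (c * z * (z - 1)) = c * z ^ 2 - 1) (hY : Y * (z - 1) = c * z ^ 2 - 1)
    (hu : u * z ^ 2 = 1)
    (h1 : (S * (c * z ^ 2) - c) * (X - c * z ^ 2 * Y + c * z ^ 2 - 1) =
      (S - 1) * (c * z ^ 2 * c * X - c * z ^ 2 * Y))
    (h2 : (c * u - S) * (X - c * z ^ 2 * Y + c * z ^ 2 - 1) =
      (c - 1) * (u * S * X - c * z ^ 2 * Y)) : c = S := by
  have q1 : (X - c * z ^ 2 * Y + c * z ^ 2 - 1) * (c * z * (z - 1)) =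
      (c * z ^ 2 - 1) * (c * (1 - z ^ 3)) := by
    linear_combination hX - c * z ^ 2 * (c * z) * hY - (c * z ^ 2 - 1) * hK
  have e1 : S * z ^ 3 = 1 := by
    have : (c * z ^ 2 - 1) * c * (c * (z - 1)) * (z + 1) * (S * z ^ 3 - 1) = 0 := by
      linear_combination (-(c * z * (z - 1))) * h1 + (S * (c * z ^ 2) - c) * q1
        - (S - 1) * (c * z ^ 2 * c) * hX + (S - 1) * (c * z ^ 2) * (c * z) * hY
    exact sub_eq_zero.1 (cancel (mul_ne_zero (mul_ne_zero (mul_ne_zero ha hc)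
      (mul_ne_zero hc hz1)) hz2) this)
  have e2 : (c - S * z ^ 2) * (c * (1 - z ^ 3)) = (c - 1) * (S - c ^ 2 * z ^ 5) := by
    refine sub_eq_zero.1 (cancel ha ?_)
    linear_combination c * z * (z - 1) * z ^ 2 * h2 - (c * u - S) * z ^ 2 * q1
      + (c - 1) * (u * S) * z ^ 2 * hX - (c - 1) * (c * z ^ 2) * (c * z) * z ^ 2 * hY
      - (c * z ^ 2 - 1) * c * (c * (1 - z ^ 3)) * hu + (c * z ^ 2 - 1) * (c - 1) * S * hu
  have e3 : z * (z - 1) * (c * z - 1) ^ 2 * (c * z ^ 3 - 1) = 0 := by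
    linear_combination z ^ 3 * e2 + (z ^ 2 * (c * (1 - z ^ 3)) + (c - 1)) * e1
      + (-c * z ^ 5 + c * z ^ 4 - c * z ^ 3 + z ^ 2 - z + 1) * hK
  have e4 := cancel (mul_ne_zero (mul_ne_zero hz hz1) (pow_ne_zero 2 hf)) e3
  refine sub_eq_zero.1 (cancel (pow_ne_zero 3 hz) ?_)
  linear_combination e4 - e1

private theorem last_alg {c z x y e : F} (hc : c ≠ 0) (hz : z ≠ 0) (ha : c * z ^ 2 - 1 ≠ 0)
    (hf : c * z - 1 ≠ 0) (he : e ≠ 1)
    (hE1 : x * (c * z - 1 - c * z ^ 2 * (c - 1)) = c * z ^ 2 - 1)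
    (hy : y * (c ^ 2 * z ^ 2 - c * z + 1 - c) = c * (c * z ^ 2 - 1))
    (h1 : 1 + x * (e - 1) = c * z ^ 2 * (1 + x * (c ^ 2 * z - 1)))
    (h2 : (1 - y) * (c ^ 2 * z * e) * (c * z ^ 2 - 1) + y * (c * z ^ 2 * (c ^ 2 * z) - e) = 0) :
    False := by
  have hx : x ≠ 0 := by
    intro h
    rw [h, zero_mul] at hE1
    exact ha hE1.symm
  have e1 : e = c * z * (c ^ 2 * z ^ 2 - c * z + 1) := by
    refine sub_eq_zero.1 (cancel hx ?_)
    linear_combination h1 - hE1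
  have e2 : e * (c ^ 2 * z ^ 2 - c * z + 1) = (c * z) ^ 3 := by
    refine sub_eq_zero.1 (cancel (mul_ne_zero hc ha) ?_)
    linear_combination (-(c ^ 2 * z ^ 2 - c * z + 1 - c)) * h2
      + (c * z ^ 2 * (c ^ 2 * z) - e - c ^ 2 * z * e * (c * z ^ 2 - 1)) * hy
  rw [e1] at e2
  have e3 : (c * z - 1) ^ 2 * ((c * z) ^ 2 + 1) = 0 := by
    refine cancel (mul_ne_zero hc hz) ?_
    linear_combination e2
  have e4 := cancel (pow_ne_zero 2 hf) e3
  apply he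
  rw [e1]
  linear_combination (c * z - 1) * e4

/-- the diagonal corner closed at column 2 dies at `m = 6`. -/
theorem closed2_dead (g : GForm F m) (hm : 6 ≤ m) (hD : g.G 1 1 ≠ g.H 1 1) (h1 : g.t 1 = g.s 1)
    (h2 : g.t 2 = g.s 2) (hk : g.kap 1 2 = 0) : False := by
  obtain ⟨z, hz, f1, f2, hK⟩ := curve g (by omega) hD h2 hk
  have hk2 := kap22 g (by omega) hD h2 hk
  obtain ⟨a1, a2, a3, e1, -⟩ := col3 g (by omega) h2 hk
  obtain ⟨-, -, -, b4, hR0, b6, r1, -⟩ := rel2 g (by omega) hD h2 hk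
  have hh := (kap_iff g (by omega) h2).1 hk
  have k4 := col4 g (by omega) hD h2 hk rfl
  have k4H := col4H g (by omega) hD h2 hk rfl
  have hc := g.t_ne 2 (by omega)
  have hc1 : g.t 2 - 1 ≠ 0 := by
    have := g.t_inj 0 2 (by omega) (by omega)
    rw [g.t0] at this
    exact sub_ne_zero.2 this.symm
  have ha1 : g.t 2 * z ^ 2 - 1 ≠ 0 := by
    have := g.t_inj 0 1 (by omega) (by omega)
    rw [g.t0, f2] at this
    exact sub_ne_zero.2 this.symm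
  have hac : g.t 2 * z ^ 2 ≠ g.t 2 := by
    rw [← f2]
    exact g.t_inj 1 2 (by omega) (by omega)
  have hz1 : z - 1 ≠ 0 := by
    intro h
    apply hac
    rw [sub_eq_zero.1 h]
    ring
  have hz2 : z + 1 ≠ 0 := by
    intro h
    apply hac
    rw [eq_neg_of_add_eq_zero_left h]
    ring
  have hf1 : g.t 2 * z - 1 ≠ 0 := by
    have := g.s_inj 0 3 (by omega) (by omega)
    rw [g.s0, f1] at this
    exact sub_ne_zero.2 this.symm
  rw [f1, f2] at e1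
  rw [f2] at hh
  have hy := y_alg hc1 hK e1 hh
  -- the second coordinate of the curve
  have hRB : (g.t 2 * z ^ 2 + 1) * (((1 - g.lam' 1) * g.t 1 + g.lam' 1)
      * (g.t 2 ^ 2 * z ^ 2 - g.t 2 * z + 1) - g.t 2 * z ^ 2) = 0 := by
    rw [f1, f2] at r1
    rw [f2]
    refine cancel (mul_ne_zero hc hz) ?_
    linear_combination r1 + ((1 - g.lam' 1) * (g.t 2 * z ^ 2) + g.lam' 1)
      * (g.t 2 ^ 2 * z ^ 2) * hK
  rcases mul_eq_zero.1 hRB with ha | hR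
  · -- t_1 = -1
    have ha' : g.t 2 * z ^ 2 = -1 := eq_neg_of_add_eq_zero_left ha
    have hR1 : (1 - g.lam' 1) * g.t 1 + g.lam' 1 ≠ 1 := by
      intro h
      have : (1 - g.lam' 1) * (g.t 2 * z ^ 2 - 1) = 0 := by
        rw [f2] at h
        linear_combination h
      exact mul_ne_zero (sub_ne_zero.2 (g.lam'_ne 1 (by omega)).symm) ha1 this
    have hneg : (-1 : F) ≠ 1 := by
      intro h
      rw [ha', h, sub_self] at ha1
      exact ha1 rfl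
    rw [f1] at k4 k4H
    have fin := deg_alg (x := 1 - g.lam' 0) (y := g.mu' 0)
      (R := (1 - g.lam' 1) * g.t 1 + g.lam' 1) (e := g.s 4) (de := g.mu' 1) hz hz1 hneg ha' hR1 hK
      e1 hy (by rw [b6, f2]) (by rw [← f2]; exact k4) (by rw [← f2]; exact k4H)
    rcases fin with h | h
    · rw [← ha', ← f2, h1] at h
      exact g.s_inj 1 4 (by omega) (by omega) h.symm
    · rw [h2] at h
      exact g.s_inj 2 4 (by omega) (by omega) h.symm
  · have hR' : ((1 - g.lam' 1) * g.t 1 + g.lam' 1) * (g.t 2 ^ 2 * z ^ 2 - g.t 2 * z + 1)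
        = g.t 2 * z ^ 2 := sub_eq_zero.1 hR
    rw [f1] at k4
    have hs4 : z * g.s 4 = g.t 2 := s4_alg (x := 1 - g.lam' 0) (y := g.mu' 0)
      (R := (1 - g.lam' 1) * g.t 1 + g.lam' 1) hc hz ha1 hK e1 hy hR' (by rw [← f2]; exact k4)
    -- the restarted strip
    have hkk : ∀ j, j ≤ 2 → g.kap j 2 = 0 := by
      intro j hj
      interval_cases j
      · rw [GForm.kap, g.t0, g.G0' 2 (by omega), g.H0' 2 (by omega)]
        ring
      · exact hk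
      · exact hk2
    have hG13 : g.G 1 3 ≠ 0 := closed_next_ne g (j := 1) (N := 2) (by omega) (by omega) hk
    obtain ⟨g', hg'⟩ : ∃ g' : GForm F 2, g' = restart g 2 2 (by omega) hkk := ⟨_, rfl⟩
    have lp := Pool.Agent.Helper14.IP.lin22 g' le_rfl
    have t1 : g'.t 1 = g.t 2 * z ^ 2 := by rw [hg', ← f2]; rfl
    have t2 : g'.t 2 = g.t 2 := by rw [hg']; rfl
    have s1 : g'.s 1 = g.s 4 / g.s 3 := by rw [hg']; rfl
    have s2 : g'.s 2 = g.s 5 / g.s 3 := by rw [hg']; rfl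
    have G12' : g'.G 1 2 = g.G 1 5 / g.G 1 3 := by rw [hg']; rfl
    have H12' : g'.H 1 2 = g.t 1 ^ 3 * g.H 1 5 / g.G 1 3 := by rw [hg']; rfl
    have lam0 : g'.lam' 0 = g.lam' 0 * g.s 3 ^ 0 * g.G 0 3 / (g.t 0 ^ 3 * g.G 1 3) := by
      rw [hg']; rfl
    have mu0 : g'.mu' 0 = g.mu' 0 * g.t 1 ^ 3 * g.G 0 3 / (g.s 3 * g.t 0 ^ 3 * g.G 1 3) := by
      rw [hg']; rfl
    rw [g.G0' 3 (by omega), g.t0, one_pow, one_mul, mul_one, pow_zero, mul_one] at lam0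
    rw [g.G0' 3 (by omega), g.t0, one_pow, mul_one, mul_one] at mu0
    have hx := e1
    have ha0 : g.t 2 * z ^ 2 ≠ 0 := mul_ne_zero hc (pow_ne_zero _ hz)
    have hAB : g.t 2 * z - 1 - g.t 2 * z ^ 2 * (g.t 2 - 1) ≠ 0 := by
      intro h
      rw [h, mul_zero] at e1
      exact ha1 e1.symm
    have r13 := g.row1G (k := 3) (by omega) (by omega)
    rw [f1] at r13
    have hG : g.G 1 3 * (g.t 2 * z - 1 - g.t 2 * z ^ 2 * (g.t 2 - 1)) =
        g.t 2 ^ 2 * z ^ 2 * (z - 1) := by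
      rw [r13]
      linear_combination (g.t 2 * z - 1) * e1
    have hX : (1 - g'.lam' 0) * (g.t 2 * z * (z - 1)) = g.t 2 * z ^ 2 - 1 := by
      have q : (1 - g'.lam' 0) * g.G 1 3 = (1 - g.lam' 0) * (g.t 2 * z) := by
        rw [lam0, sub_mul, div_mul_cancel₀ _ hG13, one_mul, r13]
        ring
      refine sub_eq_zero.1 (cancel hG13 ?_)
      refine cancel hAB ?_
      linear_combination (g.t 2 * z * (z - 1)) * (g.t 2 * z - 1 - g.t 2 * z ^ 2 * (g.t 2 - 1)) * q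
        + g.t 2 ^ 2 * z ^ 2 * (z - 1) * e1 - (g.t 2 * z ^ 2 - 1) * hG
    have hY : g'.mu' 0 * (z - 1) = g.t 2 * z ^ 2 - 1 := by
      have q : g'.mu' 0 * (g.t 2 * z * g.G 1 3) = g.mu' 0 * (g.t 2 * z ^ 2) ^ 3 := by
        rw [mu0, f1, f2, div_mul_cancel₀ _ (mul_ne_zero (mul_ne_zero hc hz) hG13)]
      refine sub_eq_zero.1 (cancel (mul_ne_zero (mul_ne_zero hc hz) hG13) ?_)
      refine cancel (mul_ne_zero hAB (mul_ne_zero ha0 hz)) ?_
      linear_combination ((z - 1) * (g.t 2 * z - 1 - g.t 2 * z ^ 2 * (g.t 2 - 1))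
        * (g.t 2 * z ^ 2) * z) * q + (z - 1) * (g.t 2 * z ^ 2) ^ 3 * hy
        - (z - 1) * (g.t 2 * z ^ 2) ^ 3 * g.mu' 0 * (g.t 2 * z ^ 2 - 1) * hK
        - (g.t 2 * z ^ 2 - 1) * (g.t 2 * z) * (g.t 2 * z ^ 2) * z * hG
    have hu : g'.s 1 * z ^ 2 = 1 := by
      rw [s1, f1]
      field_simp
      linear_combination hs4
    have hTt : g.t 2 - g.t 2 * z ^ 2 ≠ 0 := sub_ne_zero.2 hac.symm
    have hSu : g'.s 2 - g'.s 1 ≠ 0 := sub_ne_zero.2 (g'.s_inj 1 2 (by omega) le_rfl).symm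
    rw [t1, t2] at lp
    obtain ⟨lp, lq⟩ := lp
    have hS : g.t 2 = g'.s 2 := by
      by_contra hne
      have hST : g'.s 2 - g.t 2 ≠ 0 := sub_ne_zero.2 (Ne.symm hne)
      apply hne
      refine re_alg (X := 1 - g'.lam' 0) (Y := g'.mu' 0) (u := g'.s 1) (S := g'.s 2) hc hz hz1 hz2
        ha1 hf1 hK hX hY hu ?_ ?_
      · refine sub_eq_zero.1 (cancel (mul_ne_zero hST hSu) ?_)
        linear_combination g'.s 2 * lp - lq
      · refine sub_eq_zero.1 (cancel (mul_ne_zero hST hTt) ?_)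
        linear_combination g.t 2 * lp - lq
    have hs5 : g.s 5 = g.t 2 ^ 2 * z := by
      rw [s2, f1, eq_div_iff (mul_ne_zero hc hz)] at hS
      linear_combination -hS
    -- the restarted strip is closed at its column 2
    have hk' : g'.kap 1 2 = 0 := by
      rw [kap_iff g' le_rfl (by rw [t2]; exact hS), t1, t2]
      refine sub_eq_zero.1 (cancel (mul_ne_zero hz hz1) ?_)
      linear_combination (g.t 2 - 1) * hX + (g.t 2 - 1) * (g.t 2 * z ^ 2) * z * hY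
        + (g.t 2 * z ^ 2 - 1) * hK
    have hk5 : g.kap 1 5 = 0 := by
      rw [GForm.kap, t1, G12', H12', ← f2] at hk'
      rw [GForm.kap]
      have : g.t 1 * g.G 1 5 - g.t 1 ^ 5 * g.H 1 5 =
          g.G 1 3 * (g.t 1 * (g.G 1 5 / g.G 1 3) - g.t 1 ^ 2 * (g.t 1 ^ 3 * g.H 1 5 / g.G 1 3)) := by
        field_simp
      rw [this, hk', mul_zero]
    obtain ⟨n1, n2⟩ := closed_next g (j := 1) (N := 5) (by omega) (by omega) hk5
    simp only [Nat.reduceAdd] at n1 n2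
    have ht1 := g.t_ne 1 (by omega)
    have p1 := g.row1G (k := 5) (by omega) (by omega)
    have p2 := g.row1H (k := 5) (by omega) (by omega)
    have q1 := g.row1G (k := 6) (by omega) (by omega)
    have q2 := g.row1H (k := 6) (by omega) (by omega)
    rw [GForm.kap] at hk5
    rw [hs5] at p1 p2
    have hH : g.t 1 * g.H 1 6 = g.H 1 5 := by
      refine sub_eq_zero.1 (cancel (pow_ne_zero 5 ht1) ?_)
      linear_combination n2 + hk5
    have he : g.s 6 ≠ 1 := by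
      have := g.s_inj 0 6 (by omega) (by omega)
      rw [g.s0] at this
      exact this.symm
    refine last_alg (x := 1 - g.lam' 0) (y := g.mu' 0) (e := g.s 6) hc hz ha1 hf1 he e1 hy ?_ ?_
    · rw [← f2]
      linear_combination n1 - q1 + g.t 1 * p1
    · rw [← f2]
      linear_combination (-(g.t 1 * (g.t 2 ^ 2 * z))) * q2 + g.s 6 * p2
        + (g.t 2 ^ 2 * z) * g.s 6 * hH

end Pool.Agent.Helper27.IP
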