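import Pool.Agent.Helper27.IP.E2Cols
import Pool.Agent.Helper54.IP.CTools
import Pool.Agent.Helper54.IP.C3
import Pool.Agent.Helper54.IP.CForm

/-!
TH-P, phase 2: the parameter arrays of the family E2 (`m = 5`, diagonal, closed at column 2).
-/

namespace Pool.Agent.Helper27.IPE2

open Pool.Agent.Helper54.IP Pool.Agent.Helper27.IP

variable {F : Type*} [Field F]

private theorem cancel {a b : F} (ha : a ≠ 0) (h : a * b = 0) : b = 0 :=
  (mul_eq_zero.1 h).resolve_left ha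

/-- `(t, s, f)` is in the family E2 (`f 3` is free). -/
structure E2L (a r : F) (t s f : ℕ → F) : Prop where
  curve : r ^ 2 * a ^ 2 + a * (r - 1) * (r + 1) ^ 2 - r = 0
  a0 : a ≠ 0
  r0 : r ≠ 0
  a1 : a ≠ 1
  r1 : r ≠ 1
  r1' : r ≠ -1
  r3 : r ^ 2 + r + 1 ≠ 0
  ra : r * a ≠ 1
  ra2 : r ^ 2 * a ≠ 1
  ra3 : r ^ 3 * a ≠ 1
  ra4 : r ^ 3 * a ^ 2 ≠ 1
  ar : a + r ≠ 0
  ar3 : a + r ^ 3 ≠ 0
  t0 : t 0 = 1
  t1 : t 1 = a
  t2 : t 2 = r ^ 2 * a
  t3 : t 3 = r * a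
  t4 : t 4 = r ^ 3 * a
  t5 : t 5 = r ^ 3 * a ^ 2
  s0 : s 0 = 1
  s1 : s 1 = a
  s2 : s 2 = r ^ 2 * a
  s3 : s 3 = r * a
  s4 : s 4 = r ^ 3 * a
  s5 : s 5 = r ^ 3 * a ^ 2
  f1 : f 1 = (r + 1) * (r ^ 2 * a - 1)
  f2 : f 2 = a * (r - 1) * (a - f 1)
  f3 : f 3 ≠ 0
  f3' : f 3 * ((r + 1) * (r ^ 2 * a - 1)) ≠
    r * a * (r - 1) * (r * a - 1) * (r ^ 5 * a ^ 2 - 1)
  f4 : f 4 = -(r ^ 3 * f 2)
  f5 : f 5 = -(a ^ 3 * r ^ 3 * f 1)

theorem e2_elim (g : GForm F 5) (hcl : g.Closed) (hD : g.G 1 1 ≠ g.H 1 1) (h1 : g.t 1 = g.s 1)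
    (h2 : g.t 2 = g.s 2) (hk : g.kap 1 2 = 0) {f : ℕ → F} (hf : g.IsPhi f) :
    ∃ a r : F, E2L a r g.t g.s f := by
  obtain ⟨z, hz, c3, c1, hK, c4, c5, e1, ey⟩ := closed2_cols g (by omega) hD h1 h2 hk
  obtain ⟨X, Y, hx⟩ := g.exists_XY (by omega)
  have hX0 := hx.X_ne (by omega)
  have hc := g.t_ne 2 (by omega)
  -- the swap
  have hk' : g.swap.kap 1 2 = 0 := by
    rw [kap_iff g.swap (by omega) h2.symm]
    simp only [GForm.swap_t, GForm.swap_lam', GForm.swap_mu']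
    have h := (kap_iff g (by omega) h2).1 hk
    rw [hx.x'] 
    have e : (g.t 2 - 1) * (g.t 2 * X + Y) = g.t 2 := by
      refine sub_eq_zero.1 (cancel (g.t_sub_one (k := 1) (by omega) (by omega)) ?_)
      rw [hx.x] at h
      linear_combination h - (g.t 2 - 1) * hx.y
    rw [← h2]
    linear_combination (g.s 1 - 1) * e + (g.t 2 - 1) * hx.y'
  obtain ⟨w, hw, d3, d1, -, d4, d5, d6, -⟩ := closed2_cols g.swap (by omega) hD h1.symm h2.symm hk'
  simp only [GForm.swap_t, GForm.swap_s, GForm.swap_lam', ← h2] at d3 d1 d4 d5 d6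
  obtain ⟨r, hr⟩ : ∃ r, r * z = 1 := ⟨z⁻¹, inv_mul_cancel₀ hz⟩
  have hr0 : r ≠ 0 := by
    rintro rfl
    rw [zero_mul] at hr
    exact zero_ne_one hr
  obtain ⟨a, ha⟩ : ∃ a, g.t 1 = a := ⟨_, rfl⟩
  have hax : g.t 2 * z ^ 2 = a := by rw [← c1, ha]
  have haw : g.t 2 * w ^ 2 = a := by rw [← d1, ← h1, ha]
  have ha0 : a ≠ 0 := by rw [← ha]; exact g.t_ne 1 (by omega)
  have ha1 : a - 1 ≠ 0 := by rw [← ha]; exact g.t_sub_one (by omega) (by omega)
  have hx1 := hx.x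
  have hx1' := hx.x'
  have hy1 := hx.y
  rw [← h1] at hx1'
  rw [ha] at hx1 hx1' hy1
  rw [hax] at e1
  rw [haw] at d6
  have hzw : z = w := by
    rw [hx1] at e1
    rw [hx1'] at d6
    refine sub_eq_zero.1 (cancel (mul_ne_zero (mul_ne_zero ha1 hX0) hc) ?_)
    linear_combination e1 - d6
  subst hzw
  have t2 : g.t 2 = r ^ 2 * a := by
    rw [← hax]
    linear_combination (-g.t 2 * (r * z + 1)) * hr
  have t3 : g.t 3 = r * a := by
    rw [d3, ← hax]
    linear_combination (-g.t 2 * z) * hr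
  have s3 : g.s 3 = r * a := by rw [c3, ← d3, t3]
  have t4 : g.t 4 = r ^ 3 * a := by
    refine sub_eq_zero.1 (cancel hz ?_)
    rw [t2] at d4
    linear_combination d4 - r ^ 2 * a * hr
  have s4 : g.s 4 = r ^ 3 * a := by
    refine sub_eq_zero.1 (cancel hz ?_)
    rw [t2] at c4
    linear_combination c4 - r ^ 2 * a * hr
  have t5 : g.t 5 = r ^ 3 * a ^ 2 := by
    rw [d5, t2]
    linear_combination r ^ 3 * a ^ 2 * hr
  have s5 : g.s 5 = r ^ 3 * a ^ 2 := by rw [c5, ← d5, t5]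
  have s1 : g.s 1 = a := by rw [← h1, ha]
  have s2 : g.s 2 = r ^ 2 * a := by rw [← h2, t2]
  have hrel : r ^ 2 * a ^ 2 + a * (r - 1) * (r + 1) ^ 2 - r = 0 := by
    refine cancel (pow_ne_zero 2 hr0) ?_
    rw [t2] at hK
    have e : (r ^ 2 * a) ^ 2 * (r * z) ^ 3 - (r ^ 2 * a) * (r * z - r) * (r * z + r) ^ 2 - r ^ 3
        = 0 := by linear_combination r ^ 3 * hK
    rw [hr] at e
    linear_combination e
  -- inequalities
  have n2 : r ^ 2 * a - 1 ≠ 0 := by rw [← t2]; exact g.t_sub_one (by omega) (by omega)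
  have n3 : r * a - 1 ≠ 0 := by rw [← t3]; exact g.t_sub_one (by omega) (by omega)
  have n4 : r ^ 3 * a - 1 ≠ 0 := by rw [← t4]; exact g.t_sub_one (by omega) (by omega)
  have n5 : r ^ 3 * a ^ 2 - 1 ≠ 0 := by rw [← t5]; exact g.t_sub_one (by omega) (by omega)
  have n12 : r ^ 2 - 1 ≠ 0 := by
    intro h
    apply g.t_inj 1 2 (by omega) (by omega)
    rw [ha, t2]
    linear_combination (-a) * h
  have nr1 : r - 1 ≠ 0 := fun h => n12 (by linear_combination (r + 1) * h)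
  have nr1' : r + 1 ≠ 0 := fun h => n12 (by linear_combination (r - 1) * h)
  have n14 : r ^ 3 - 1 ≠ 0 := by
    intro h
    apply g.t_inj 1 4 (by omega) (by omega)
    rw [ha, t4]
    linear_combination (-a) * h
  have nr3 : r ^ 2 + r + 1 ≠ 0 := fun h => n14 (by linear_combination (r - 1) * h)
  have na1' : a + 1 ≠ 0 := by
    intro h
    apply n14
    have : a = -1 := by linear_combination h
    rw [this] at hrel
    linear_combination -hrel
  -- X and Y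
  have eX : X * ((r + 1) * (r ^ 2 * a - 1)) = 1 := by
    refine sub_eq_zero.1 (cancel ha1 ?_)
    rw [hx1, t2] at e1
    have e : (a - 1) * X * (r * a - 1 - a * (r ^ 2 * a - 1)) = a - 1 := by
      have q : r ^ 2 * a * z = r * a := by linear_combination r * a * hr
      linear_combination e1 - (a - 1) * X * q
    linear_combination e + (a - 1) * X * hrel
  have eY : Y = r ^ 3 * a * X := by
    rw [t2] at ey
    have q1 : r ^ 2 * a * z = r * a := by linear_combination r * a * hr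
    have q2 : (r ^ 2 * a) ^ 2 * z ^ 2 = r ^ 2 * a ^ 2 := by
      linear_combination r ^ 2 * a ^ 2 * (r * z + 1) * hr
    have q3 : r ^ 2 * a * z ^ 2 = a := by linear_combination a * (r * z + 1) * hr
    rw [q1, q2, q3] at ey
    have e : Y * (r ^ 2 * a ^ 2 - r * a + 1 - r ^ 2 * a) = r ^ 2 * a ^ 2 := by
      refine sub_eq_zero.1 (cancel ha1 ?_)
      linear_combination a * ey - (r ^ 2 * a ^ 2 - r * a + 1 - r ^ 2 * a) * hy1
    have e' : Y * (a * ((r + 1) * (r ^ 2 * a - 1))) = r ^ 3 * a ^ 2 := by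
      linear_combination r * e + Y * hrel
    refine sub_eq_zero.1 (cancel (mul_ne_zero ha0 (mul_ne_zero nr1' n2)) ?_)
    linear_combination e' - r ^ 3 * a ^ 2 * eX
  have f1 : f 1 = (r + 1) * (r ^ 2 * a - 1) := by
    have h := hf.one (by omega) hx
    refine sub_eq_zero.1 (cancel hX0 ?_)
    linear_combination h - eX
  have f2' : f 2 * r = -(a * (r ^ 2 * a - 1) * (a + r ^ 3)) := by
    have h := hf.two (by omega) hx
    rw [ha, s1, s2, eY] at h
    refine sub_eq_zero.1 (cancel (mul_ne_zero (mul_ne_zero hX0 ha0) n12) ?_)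
    linear_combination -h + f 2 * a * eX
  have hG12 : (r + 1) * g.G 1 2 = a + r := by
    have h := hx.G1 (by omega) (k := 2) (by omega)
    rw [ha, s2] at h
    rw [h]
    linear_combination (a - 1) * eX
  obtain ⟨b1, b2, b3, -, -⟩ := col3 g (by omega) h2 hk
  rw [ha] at b1 b2 b3
  have hG13 : (r + 1) * g.G 1 3 = a * (a + r) := by
    rw [b2]
    linear_combination a * hG12
  have nar : a + r ≠ 0 := by
    intro h
    have e : g.G 1 2 = 0 := cancel nr1' (by rw [hG12, h])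
    refine g.ne_zero (j := 1) (k := 2) (by omega) (by omega) ⟨e, ?_⟩
    rw [e] at b1
    exact cancel ha0 b1.symm
  have nar3 : a + r ^ 3 ≠ 0 := by
    intro h
    rw [h, mul_zero, neg_zero] at f2'
    exact mul_ne_zero (hf.ne (k := 1) (by omega)) hr0 f2'
  have f2 : f 2 = a * (r - 1) * (a - f 1) := by
    refine sub_eq_zero.1 (cancel hr0 ?_)
    rw [f1]
    linear_combination f2' - a * hrel
  -- column 3
  have l3 : (1 - g.lam 3) * ((a + r) * (r ^ 2 * a - 1)) = r * (r ^ 2 - 1) := by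
    have u := g.G_succ (j := 1) (k := 3) (by omega) (by omega)
    have hk3 : g.kap 1 3 = (a - 1) * g.G 1 3 := by
      rw [GForm.kap, ha]
      linear_combination (-a ^ 2) * b3 + a * b1 + b2
    have g3 := hx.G1 (by omega) (k := 3) (by omega)
    have g4 := hx.G1 (by omega) (k := 4) (by omega)
    rw [hk3, ha] at u
    rw [ha, s3] at g3
    norm_num at u
    rw [ha, s4] at g4
    refine sub_eq_zero.1 (cancel (mul_ne_zero ha1 ha0) ?_)
    linear_combination (-((r ^ 2 * a - 1) * (a - 1) * (1 - g.lam 3))) * hG13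
      - (r ^ 2 * a - 1) * (r + 1) * u + (r ^ 2 * a - 1) * (r + 1) * (g4 - g3)
      + (a - 1) * a * r * (r ^ 2 - 1) * eX
  have hP : X * (r ^ 3 * a ^ 2 - 1) = a + 1 := by
    linear_combination (a + 1) * eX - X * hrel
  -- column 4
  have l4 : (1 - g.lam 4) * (a ^ 2 - r ^ 3) = a ^ 2 - 1 := by
    have u := g.G_succ (j := 1) (k := 4) (by omega) (by omega)
    have g4 := hx.G1 (by omega) (k := 4) (by omega)
    have g5 := hx.G1 (by omega) (k := 5) (by omega)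
    have h4 := hx.H1 (by omega) (k := 4) (by omega)
    norm_num at u
    rw [GForm.kap, ha] at u
    rw [ha, s4] at g4
    rw [ha, s5] at g5
    rw [ha, s4, eY] at h4
    have h4' : a * g.H 1 4 = a - (a - 1) * X * (r ^ 3 * a - 1) := by
      refine sub_eq_zero.1 (cancel (mul_ne_zero (pow_ne_zero 3 hr0) ha0) ?_)
      linear_combination h4
    have k1 : (r ^ 3 * a ^ 2 - 1) * (a * g.G 1 4 - a ^ 4 * g.H 1 4) =
        a ^ 2 * (a - 1) * (r ^ 3 - a ^ 2) := by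
      rw [g4]
      linear_combination (-(a ^ 3 * (r ^ 3 * a ^ 2 - 1))) * h4'
        + (a - 1) * (r ^ 3 * a - 1) * (a + a ^ 3) * hP
    have k2 : (r ^ 3 * a ^ 2 - 1) * (g.G 1 5 - a ^ 4 * g.H 1 4) =
        -(a ^ 2 * (a - 1) ^ 2 * (a + 1)) := by
      rw [g5]
      linear_combination (-(a ^ 3 * (r ^ 3 * a ^ 2 - 1))) * h4'
        + ((a - 1) * (r ^ 3 * a - 1) * a ^ 3 + (a - 1) * (r ^ 3 * a ^ 2 - 1)) * hP
    refine sub_eq_zero.1 (cancel (mul_ne_zero (pow_ne_zero 2 ha0) ha1) ?_)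
    linear_combination (1 - g.lam 4) * k1 - k2 + (r ^ 3 * a ^ 2 - 1) * u
  have f3' : f 3 * ((r + 1) * (r ^ 2 * a - 1)) ≠
      r * a * (r - 1) * (r * a - 1) * (r ^ 5 * a ^ 2 - 1) := by
    intro h3
    have q1 : g.G 5 3 ≠ 0 := hcl.swap.G_ne (j := 3) (by omega)
    have q2 := g.U1 5 2 (by omega) (by omega)
    have q3 := hcl.col' (κ := 4) rfl (k := 2) (by omega)
    have h := hf 2 (by omega)
    simp only [Finset.prod_range_succ, Finset.range_zero, Finset.prod_empty, one_mul, g.s0,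
      s1, s2, s3, Nat.reduceAdd] at h
    rw [q3, s2, t5] at q2
    norm_num at q2
    have h4 : f 3 * ((r + 1) * (r ^ 2 * a - 1) * (1 - g.lam 2)) =
        -(r * a * (r - 1) * (r * a - 1)) := by
      refine sub_eq_zero.1 (cancel (mul_ne_zero ha0 nr1) ?_)
      linear_combination h
    have h5 : 1 + (1 - g.lam 2) * (r ^ 5 * a ^ 2 - 1) = 0 := by
      refine cancel (mul_ne_zero (hf.ne (k := 2) (by omega)) (mul_ne_zero nr1' n2)) ?_
      linear_combination h3 + (r ^ 5 * a ^ 2 - 1) * h4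
    apply q1
    rw [q2]
    linear_combination (r ^ 3 * a ^ 2 * (r ^ 3 * a ^ 2) * g.H 5 2) * h5
  have f4 : f 4 = -(r ^ 3 * f 2) := by
    have h := hf 3 (by omega)
    simp only [Finset.prod_range_succ, Finset.range_zero, Finset.prod_empty, one_mul, g.s0,
      s1, s2, s3, Nat.reduceAdd, s4] at h
    refine sub_eq_zero.1 (cancel (mul_ne_zero (mul_ne_zero (mul_ne_zero (mul_ne_zero
      (pow_ne_zero 2 ha0) (pow_ne_zero 2 hr0)) (pow_ne_zero 2 nr1)) n12) n3) ?_)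
    linear_combination (-((a + r) * (r ^ 2 * a - 1))) * h
      + f 4 * ((r * a - 1) * (r * a - a) * (r * a - r ^ 2 * a)) * l3
      + a ^ 2 * r ^ 2 * (r - 1) ^ 2 * (r ^ 2 - 1) * a * r
        * (-a * r ^ 5 - a * r ^ 4 - a * r ^ 3 + r ^ 3 + r ^ 2 + 1) * hrel
      + a ^ 2 * r ^ 2 * (r - 1) ^ 2 * (r ^ 2 - 1) * (r * a - 1) * r ^ 3 * f2
      - a ^ 2 * r ^ 2 * (r - 1) ^ 2 * (r ^ 2 - 1) * (r * a - 1) * r ^ 3 * a * (r - 1) * f1
  have f5 : f 5 = -(a ^ 3 * r ^ 3 * f 1) := by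
    have h := hf 4 (by omega)
    simp only [Finset.prod_range_succ, Finset.range_zero, Finset.prod_empty, one_mul, g.s0,
      s1, s2, s3, Nat.reduceAdd, s4, s5] at h
    refine sub_eq_zero.1 (cancel (mul_ne_zero (mul_ne_zero (mul_ne_zero (mul_ne_zero n4
      (pow_ne_zero 3 ha0)) (pow_ne_zero 3 hr0)) ha1) (mul_ne_zero (mul_ne_zero (mul_ne_zero n14
      (pow_ne_zero 2 nr1)) nr1') na1')) ?_)
    linear_combination (a ^ 2 - r ^ 3) * h
      - f 5 * ((r ^ 3 * a - 1) * (r ^ 3 * a - a) * (r ^ 3 * a - r ^ 2 * a)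
        * (r ^ 3 * a - r * a)) * l4
      + (r ^ 3 * a - 1) * a ^ 3 * r ^ 3 * (a - 1) * a * r ^ 3 * (a + 1) * (r + 1)
        * (r ^ 2 * a - 1) * (a ^ 2 * r - a * r ^ 2 - a * r + r ^ 2) * hrel
      - (r ^ 3 * a - 1) * a ^ 3 * r ^ 3 * (a - 1) * a * r ^ 3
        * ((r * a - 1) * (r ^ 2 * a - 1) * (a ^ 2 - r ^ 3)) * hrel
      + (r ^ 3 * a - 1) * a ^ 3 * r ^ 3 * (a - 1) * ((r ^ 3 - 1) * (r - 1) ^ 2 * (r + 1)
        * (a + 1)) * a ^ 3 * r ^ 3 * f1
  exact ⟨a, r, {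
    curve := hrel
    a0 := ha0
    r0 := hr0
    a1 := sub_ne_zero.1 ha1
    r1 := sub_ne_zero.1 nr1
    r1' := fun h => nr1' (by rw [h]; ring)
    r3 := nr3
    ra := sub_ne_zero.1 n3
    ra2 := sub_ne_zero.1 n2
    ra3 := sub_ne_zero.1 n4
    ra4 := sub_ne_zero.1 n5
    ar := nar
    ar3 := nar3
    t0 := g.t0
    t1 := ha
    t2 := t2
    t3 := t3
    t4 := t4
    t5 := t5
    s0 := g.s0
    s1 := s1
    s2 := s2
    s3 := s3
    s4 := s4
    s5 := s5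
    f1 := f1
    f2 := f2
    f3 := hf.ne (k := 2) (by omega)
    f3' := f3'
    f4 := f4
    f5 := f5 }⟩

end Pool.Agent.Helper27.IPE2
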