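import Pool.Agent.Helper27.IP.E2Tab

/-!
TH-P, phase 2: the family E2 is realised.
-/

namespace Pool.Agent.Helper27.IPE2

open Pool.Agent.Helper54.IP

variable {F : Type*} [Field F]

private theorem cancel {a b : F} (ha : a ≠ 0) (h : a * b = 0) : b = 0 :=
  (mul_eq_zero.1 h).resolve_left ha

theorem e2_mk {a r X ai ri P R Q W O L0 L1 L3 L4 : F}
    (h : E2R a r X ai ri P R Q W O L0 L1 L3 L4)
    (k1 : a - 1 ≠ 0) (k2 : r - 1 ≠ 0) (k3 : r ^ 2 + r + 1 ≠ 0) (k4 : r * a - 1 ≠ 0)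
    (k5 : r ^ 3 * a - 1 ≠ 0) (k6 : r ^ 3 * a ^ 2 - 1 ≠ 0) (kX : X ≠ 0) (kO : O ≠ 0) :
    ∃ g : GForm F 5, g.Closed ∧ g.t = sq6 (1) (a) (r ^ 2 * a) (r * a) (r ^ 3 * a) (r ^ 3 * a ^ 2) ∧ g.s = sq6 (1) (a) (r ^ 2 * a) (r * a) (r ^ 3 * a) (r ^ 3 * a ^ 2) ∧
      g.lam = fun k => 1 - sq5 L0 L1 X L3 L4 k := by
  have a0 := h.n0
  have r0 := h.nr
  have k7 := h.nQ
  have k8 : r ^ 2 * a - 1 ≠ 0 := (mul_ne_zero_iff.1 h.n1).2
  have k9 : a + r ^ 3 ≠ 0 := (mul_ne_zero_iff.1 h.nW).2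
  have k10 : a + r ≠ 0 := (mul_ne_zero_iff.1 h.nL3).1
  have k11 : r ^ 3 - 1 ≠ 0 := by
    intro e
    exact mul_ne_zero k2 k3 (by linear_combination e)
  have k12 : a + 1 ≠ 0 := by
    intro e
    refine mul_ne_zero k2 k3 ?_
    have e' : a = -1 := by linear_combination e
    have := h.rel
    rw [e'] at this
    linear_combination -this
  have k13 : r ^ 2 - 1 ≠ 0 := by
    intro e
    exact mul_ne_zero k2 k7 (by linear_combination e)
  have hai : ai ≠ 0 := by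
    intro e
    have := h.ha
    rw [e, mul_zero] at this
    exact zero_ne_one this
  have hri : ri ≠ 0 := by
    intro e
    have := h.hr
    rw [e, mul_zero] at this
    exact zero_ne_one this
  have l0 : L0 ≠ 0 := by
    intro e
    have := h.hL0
    rw [e, mul_zero] at this
    exact k1 this.symm
  have l1 : L1 ≠ 0 := by
    intro e
    have := h.hL1
    rw [e, mul_zero] at this
    exact mul_ne_zero (neg_ne_zero.2 r0) k13 this.symm
  have l3 : L3 ≠ 0 := by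
    intro e
    have := h.hL3
    rw [e, mul_zero] at this
    exact mul_ne_zero r0 k13 this.symm
  have l4 : L4 ≠ 0 := by
    intro e
    have := h.hL4
    rw [e, mul_zero] at this
    exact mul_ne_zero k1 k12 (by linear_combination -this)
  obtain ⟨T, hT⟩ : ∃ T : ℕ → F, T = sq6 (1) (a) (r ^ 2 * a) (r * a) (r ^ 3 * a) (r ^ 3 * a ^ 2) := ⟨_, rfl⟩
  obtain ⟨GG, hG⟩ : ∃ GG : ℕ → ℕ → F, GG = sq6 (sq6 (1) (1) (1) (1) (1) (1))
        (sq6 (1) (P) (Q) ((a * Q)) ((a ^ 2 * R)) (a ^ 2))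
        (sq6 (1) (Q) (W) ((r ^ 2 * a * W)) ((r ^ 4 * a * Q)) ((r ^ 4 * a ^ 2)))
        (sq6 (1) ((a * Q)) ((r ^ 2 * a * W)) ((O * W * ri ^ 2)) ((O * r ^ 2 * Q)) ((O * r ^ 2 * a ^ 2)))
        (sq6 (1) ((a ^ 2 * R)) ((r ^ 4 * a * Q)) ((O * r ^ 2 * Q)) ((O * r ^ 6 * P)) ((O * r ^ 6 * a ^ 2)))
        (sq6 (1) (a ^ 2) ((r ^ 4 * a ^ 2)) ((O * r ^ 2 * a ^ 2)) ((O * r ^ 6 * a ^ 2)) ((O * r ^ 6 * a ^ 4))) := ⟨_, rfl⟩
  obtain ⟨HH, hH⟩ : ∃ HH : ℕ → ℕ → F, HH = sq6 (sq6 (1) (1) (1) (1) (1) (1))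
        (sq6 (1) (R) ((Q * ai)) ((Q * ai ^ 2)) ((P * ai ^ 2)) (ai ^ 2))
        (sq6 (1) ((Q * ai)) ((W * ri ^ 2 * ai)) ((W * ri ^ 4 * ai ^ 2)) ((Q * ri ^ 4 * ai ^ 2)) ((ri ^ 4 * ai ^ 2)))
        (sq6 (1) ((Q * ai ^ 2)) ((W * ri ^ 4 * ai ^ 2)) ((O * W * ai)) ((O * Q * ri ^ 2 * ai)) ((O * ri ^ 2 * ai ^ 2)))
        (sq6 (1) ((P * ai ^ 2)) ((Q * ri ^ 4 * ai ^ 2)) ((O * Q * ri ^ 2 * ai)) ((O * R * ri ^ 6)) ((O * ri ^ 6 * ai ^ 2)))
        (sq6 (1) (ai ^ 2) ((ri ^ 4 * ai ^ 2)) ((O * ri ^ 2 * ai ^ 2)) ((O * ri ^ 6 * ai ^ 2)) ((O * ri ^ 6 * ai ^ 4))) := ⟨_, rfl⟩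
  obtain ⟨LL, hL⟩ : ∃ LL : ℕ → F, LL = fun k => 1 - sq5 L0 L1 X L3 L4 k := ⟨_, rfl⟩
  obtain ⟨MM, hM⟩ : ∃ MM : ℕ → F, MM = sq5 ((r ^ 3 * L0)) ((a ^ 2 * ri * L1)) ((-a ^ 2 * r ^ 5 * X)) ((a ^ 2 * ri * L3)) ((r ^ 3 * L4)) := ⟨_, rfl⟩
  have sG : ∀ j k, j ≤ 5 → k ≤ 5 → GG j k = GG k j := by
    rw [hG]
    intro j k hj hk
    interval_cases j <;> interval_cases k <;> rfl
  have sH : ∀ j k, j ≤ 5 → k ≤ 5 → HH j k = HH k j := by
    rw [hH]
    intro j k hj hk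
    interval_cases j <;> interval_cases k <;> rfl
  have U1 : ∀ j k, j ≤ 5 → k < 5 →
      GG j (k + 1) = (1 - LL k) * (T j * GG j k) + LL k * (T j ^ k * HH j k) := by
    rw [hT, hG, hH, hL]
    intro j k hj hk
    interval_cases j <;> interval_cases k <;> simp only [sq5, sq6]
    · ring
    · ring
    · ring
    · ring
    · ring
    · linear_combination h.u1_10
    · linear_combination h.u1_11
    · linear_combination h.u1_12
    · linear_combination h.u1_13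
    · linear_combination h.u1_14
    · linear_combination h.u1_20
    · linear_combination h.u1_21
    · linear_combination h.u1_22
    · linear_combination h.u1_23
    · linear_combination h.u1_24
    · linear_combination h.u1_30
    · linear_combination h.u1_31
    · linear_combination h.u1_32
    · linear_combination h.u1_33
    · linear_combination h.u1_34
    · linear_combination h.u1_40
    · linear_combination h.u1_41
    · linear_combination h.u1_42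
    · linear_combination h.u1_43
    · linear_combination h.u1_44
    · linear_combination h.u1_50
    · linear_combination h.u1_51
    · linear_combination h.u1_52
    · linear_combination h.u1_53
    · linear_combination h.u1_54
  have U2 : ∀ j k, j ≤ 5 → k < 5 →
      T j ^ (k + 1) * HH j (k + 1) = (1 - MM k) * (T j * GG j k) + MM k * (T j ^ k * HH j k) := by
    rw [hT, hG, hH, hM]
    intro j k hj hk
    interval_cases j <;> interval_cases k <;> simp only [sq5, sq6]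
    · ring
    · ring
    · ring
    · ring
    · ring
    · linear_combination h.u2_10
    · linear_combination h.u2_11
    · linear_combination h.u2_12
    · linear_combination h.u2_13
    · linear_combination h.u2_14
    · linear_combination h.u2_20
    · linear_combination h.u2_21
    · linear_combination h.u2_22
    · linear_combination h.u2_23
    · linear_combination h.u2_24
    · linear_combination h.u2_30
    · linear_combination h.u2_31
    · linear_combination h.u2_32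
    · linear_combination h.u2_33
    · linear_combination h.u2_34
    · linear_combination h.u2_40
    · linear_combination h.u2_41
    · linear_combination h.u2_42
    · linear_combination h.u2_43
    · linear_combination h.u2_44
    · linear_combination h.u2_50
    · linear_combination h.u2_51
    · linear_combination h.u2_52
    · linear_combination h.u2_53
    · linear_combination h.u2_54
  have tn : ∀ i, i ≤ 5 → T i ≠ 0 := by
    rw [hT]
    intro i hi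
    interval_cases i <;> simp only [sq6]
    · exact one_ne_zero
    · exact a0
    · exact mul_ne_zero (pow_ne_zero _ r0) a0
    · exact mul_ne_zero r0 a0
    · exact mul_ne_zero (pow_ne_zero _ r0) a0
    · exact mul_ne_zero (pow_ne_zero _ r0) (pow_ne_zero _ a0)
  have ti : ∀ i j, i < j → j ≤ 5 → T i ≠ T j := by
    rw [hT]
    intro i j hij hj
    interval_cases j <;> interval_cases i <;> simp only [sq6] <;> intro e
    · exact k1 (by linear_combination -e)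
    · exact k8 (by linear_combination -e)
    · exact (mul_ne_zero a0 k13) (by linear_combination -e)
    · exact k4 (by linear_combination -e)
    · exact (mul_ne_zero a0 k2) (by linear_combination -e)
    · exact (mul_ne_zero (mul_ne_zero r0 a0) k2) (by linear_combination e)
    · exact k5 (by linear_combination -e)
    · exact (mul_ne_zero a0 k11) (by linear_combination -e)
    · exact (mul_ne_zero (mul_ne_zero (pow_ne_zero 2 r0) a0) k2) (by linear_combination -e)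
    · exact (mul_ne_zero (mul_ne_zero r0 a0) k13) (by linear_combination -e)
    · exact k6 (by linear_combination -e)
    · exact (mul_ne_zero a0 k5) (by linear_combination -e)
    · exact (mul_ne_zero (mul_ne_zero (pow_ne_zero 2 r0) a0) k4) (by linear_combination -e)
    · exact (mul_ne_zero (mul_ne_zero r0 a0) k8) (by linear_combination -e)
    · exact (mul_ne_zero (mul_ne_zero (pow_ne_zero 3 r0) a0) k1) (by linear_combination -e)
  have nl : ∀ k, k < 5 → LL k ≠ 1 := by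
    rw [hL]
    intro k hk
    interval_cases k <;> simp only [sq5] <;> intro e
    · exact l0 (by linear_combination -e)
    · exact l1 (by linear_combination -e)
    · exact kX (by linear_combination -e)
    · exact l3 (by linear_combination -e)
    · exact l4 (by linear_combination -e)
  have nm : ∀ k, k < 5 → MM k ≠ 0 := by
    rw [hM]
    intro k hk
    interval_cases k <;> simp only [sq5]
    · exact mul_ne_zero (pow_ne_zero _ r0) l0
    · exact mul_ne_zero (mul_ne_zero (pow_ne_zero _ a0) hri) l1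
    · exact mul_ne_zero (mul_ne_zero (neg_ne_zero.2 (pow_ne_zero _ a0)) (pow_ne_zero _ r0)) kX
    · exact mul_ne_zero (mul_ne_zero (pow_ne_zero _ a0) hri) l3
    · exact mul_ne_zero (pow_ne_zero _ r0) l4
  have nlm : ∀ k, k < 5 → LL k ≠ MM k := by
    rw [hL, hM]
    intro k hk
    interval_cases k <;> simp only [sq5] <;> intro e
    · refine mul_ne_zero k10 k13 ?_
      linear_combination (r + 1) * (r ^ 2 * a - 1) * e + (1 + r ^ 3) * h.hL0
    · refine mul_ne_zero (mul_ne_zero (mul_ne_zero a0 r0) k2) r0 ?_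
      linear_combination -(a - 1) * (a + r ^ 3) * r * e - (r + a ^ 2) * h.hL1 + r * h.rel
        - (a - 1) * (a + r ^ 3) * a ^ 2 * L1 * h.hr
    · refine kO ?_
      linear_combination e + h.hO
    · refine mul_ne_zero (mul_ne_zero k1 k9) r0 ?_
      linear_combination (a + r) * (r ^ 2 * a - 1) * r * e + (r + a ^ 2) * h.hL3
        + (a + r) * (r ^ 2 * a - 1) * a ^ 2 * L3 * h.hr
    · refine k6 ?_
      linear_combination -(a ^ 2 - r ^ 3) * e - (1 + r ^ 3) * h.hL4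
  have cl : ∀ j, j ≤ 5 → T j * GG j 5 = T j ^ 5 * HH j 5 := by
    rw [hT, hG, hH]
    intro j hj
    interval_cases j <;> simp only [sq6]
    · ring
    · linear_combination
        (-a ^ 4 * ai - a ^ 3) * h.ha
    · linear_combination
        (-a ^ 4 * r ^ 6 * ai - a ^ 3 * r ^ 6) * h.ha + (-a ^ 5 * r ^ 9 * ai ^ 2 * ri ^ 3 - a ^ 5
          * r ^ 8 * ai ^ 2 * ri ^ 2 - a ^ 5 * r ^ 7 * ai ^ 2 * ri - a ^ 5 * r ^ 6 * ai ^ 2) *
          h.hr
    · linear_combination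
        (-a ^ 4 * r ^ 3 * ai * O - a ^ 3 * r ^ 3 * O) * h.ha + (-a ^ 5 * r ^ 4 * ai ^ 2 * ri * O
          - a ^ 5 * r ^ 3 * ai ^ 2 * O) * h.hr
    · linear_combination
        (-a ^ 4 * r ^ 9 * ai * O - a ^ 3 * r ^ 9 * O) * h.ha + (-a ^ 5 * r ^ 14 * ai ^ 2 * ri ^ 5
          * O - a ^ 5 * r ^ 13 * ai ^ 2 * ri ^ 4 * O - a ^ 5 * r ^ 12 * ai ^ 2 * ri ^ 3 * O - a ^
          5 * r ^ 11 * ai ^ 2 * ri ^ 2 * O - a ^ 5 * r ^ 10 * ai ^ 2 * ri * O - a ^ 5 * r ^ 9 *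
          ai ^ 2 * O) * h.hr
    · linear_combination
        (-a ^ 9 * r ^ 9 * ai ^ 3 * O - a ^ 8 * r ^ 9 * ai ^ 2 * O - a ^ 7 * r ^ 9 * ai * O - a ^
          6 * r ^ 9 * O) * h.ha + (-a ^ 10 * r ^ 14 * ai ^ 4 * ri ^ 5 * O - a ^ 10 * r ^ 13 * ai
          ^ 4 * ri ^ 4 * O - a ^ 10 * r ^ 12 * ai ^ 4 * ri ^ 3 * O - a ^ 10 * r ^ 11 * ai ^ 4 *
          ri ^ 2 * O - a ^ 10 * r ^ 10 * ai ^ 4 * ri * O - a ^ 10 * r ^ 9 * ai ^ 4 * O) * h.hr
  have V1 : ∀ j k, j < 5 → k ≤ 5 →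
      GG (j + 1) k = (1 - LL j) * (T k * GG j k) + LL j * (T k ^ j * HH j k) := by
    intro j k hj hk
    rw [sG (j + 1) k (by omega) hk, sG j k (by omega) hk, sH j k (by omega) hk]
    exact U1 k j hk hj
  have V2 : ∀ j k, j < 5 → k ≤ 5 →
      T k ^ (j + 1) * HH (j + 1) k = (1 - MM j) * (T k * GG j k) + MM j * (T k ^ j * HH j k) := by
    intro j k hj hk
    rw [sH (j + 1) k (by omega) hk, sG j k (by omega) hk, sH j k (by omega) hk]
    exact U2 k j hk hj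
  have G0 : ∀ j, j ≤ 5 → GG j 0 = 1 := by
    rw [hG]
    intro j hj
    interval_cases j <;> rfl
  have H0 : ∀ j, j ≤ 5 → HH j 0 = 1 := by
    rw [hH]
    intro j hj
    interval_cases j <;> rfl
  have T0 : T 0 = 1 := by rw [hT]; rfl
  refine ⟨{
    t := T
    s := T
    G := GG
    H := HH
    lam := LL
    mu := MM
    lam' := LL
    mu' := MM
    t0 := T0
    s0 := T0
    t_ne := tn
    s_ne := tn
    t_inj := ti
    s_inj := ti
    G0 := G0
    G0' := fun k hk => by rw [sG 0 k (by omega) hk]; exact G0 k hk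
    H0 := H0
    H0' := fun k hk => by rw [sH 0 k (by omega) hk]; exact H0 k hk
    U1 := U1
    U2 := U2
    V1 := V1
    V2 := V2
    lam_ne := nl
    mu_ne := nm
    lm_ne := nlm
    lam'_ne := nl
    mu'_ne := nm
    lm'_ne := nlm }, ⟨cl, fun k hk => ?_⟩, hT, hT, hL⟩
  show T k * GG 5 k = T k ^ 5 * HH 5 k
  rw [sG 5 k le_rfl hk, sH 5 k le_rfl hk]
  exact cl k hk

theorem e2_isPA {a r : F} {t s f : ℕ → F} (h : E2L a r t s f) : IsPA 5 t s f := by
  have a0 := h.a0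
  have r0 := h.r0
  have k1 := sub_ne_zero.2 h.a1
  have k2 := sub_ne_zero.2 h.r1
  have k3 := h.r3
  have k4 := sub_ne_zero.2 h.ra
  have k8 := sub_ne_zero.2 h.ra2
  have k5 := sub_ne_zero.2 h.ra3
  have k6 := sub_ne_zero.2 h.ra4
  have k9 := h.ar3
  have k10 := h.ar
  have k7 : r + 1 ≠ 0 := fun e => h.r1' (by linear_combination e)
  have hrel := h.curve
  have k11 : r ^ 3 - 1 ≠ 0 := by
    intro e
    exact mul_ne_zero k2 k3 (by linear_combination e)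
  have k14 : a ^ 2 - r ^ 3 ≠ 0 := by
    intro e
    have e1 : r ^ 3 + r + a * (r + 1) = 0 := by
      refine cancel (mul_ne_zero k2 k7) ?_
      linear_combination hrel - r ^ 2 * e
    refine mul_ne_zero k2 k11 (cancel (pow_ne_zero 2 r0) ?_)
    linear_combination (r ^ 3 + r - a * (r + 1)) * e1 + (r + 1) ^ 2 * e
  have n1 : (r + 1) * (r ^ 2 * a - 1) ≠ 0 := mul_ne_zero k7 k8
  have nR : a * ((r + 1) * (r ^ 2 * a - 1)) ≠ 0 := mul_ne_zero a0 n1
  have nW : (r + 1) * (a + r ^ 3) ≠ 0 := mul_ne_zero k7 k9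
  have nL1 : (a - 1) * (a + r ^ 3) ≠ 0 := mul_ne_zero k1 k9
  have nL3 : (a + r) * (r ^ 2 * a - 1) ≠ 0 := mul_ne_zero k10 k8
  have n3 : f 3 * ((r + 1) * (r ^ 2 * a - 1)) ≠ 0 := mul_ne_zero h.f3 n1
  obtain ⟨X, hX⟩ : ∃ X, f 3 * ((r + 1) * (r ^ 2 * a - 1)) * X =
      -(r * a * (r - 1) * (r * a - 1)) := ⟨_, mul_div_cancel₀ _ n3⟩
  have hR : E2R a r X a⁻¹ r⁻¹ (((r + 1) * (r ^ 2 * a - 1) + (a - 1) ^ 2) /
      ((r + 1) * (r ^ 2 * a - 1))) ((a * ((r + 1) * (r ^ 2 * a - 1)) - r ^ 3 * (a - 1) ^ 2) /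
      (a * ((r + 1) * (r ^ 2 * a - 1)))) ((a + r) / (r + 1))
      ((r ^ 2 * (a + r) ^ 2) / ((r + 1) * (a + r ^ 3))) (1 + X * (r ^ 5 * a ^ 2 - 1))
      ((a - 1) / ((r + 1) * (r ^ 2 * a - 1)))
      ((-r * (r ^ 2 - 1)) / ((a - 1) * (a + r ^ 3)))
      ((r * (r ^ 2 - 1)) / ((a + r) * (r ^ 2 * a - 1)))
      ((a ^ 2 - 1) / (a ^ 2 - r ^ 3)) := {
    rel := hrel
    ha := mul_inv_cancel₀ a0
    hr := mul_inv_cancel₀ r0
    hP := mul_div_cancel₀ _ n1
    hR := mul_div_cancel₀ _ nR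
    hQ := mul_div_cancel₀ _ k7
    hW := mul_div_cancel₀ _ nW
    hO := rfl
    hL0 := mul_div_cancel₀ _ n1
    hL1 := mul_div_cancel₀ _ nL1
    hL3 := mul_div_cancel₀ _ nL3
    hL4 := mul_div_cancel₀ _ k14
    n0 := a0
    nr := r0
    n1 := n1
    nR := nR
    nQ := k7
    nW := nW
    nL1 := nL1
    nL3 := nL3
    nL4 := k14 }
  have hX0 : X ≠ 0 := by
    intro e
    rw [e, mul_zero] at hX
    exact mul_ne_zero (mul_ne_zero (mul_ne_zero r0 a0) k2) k4 (by linear_combination hX)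
  have hO0 : 1 + X * (r ^ 5 * a ^ 2 - 1) ≠ 0 := by
    intro e
    apply h.f3'
    linear_combination f 3 * ((r + 1) * (r ^ 2 * a - 1)) * e - (r ^ 5 * a ^ 2 - 1) * hX
  obtain ⟨g, hcl, gt, gs, gl⟩ := e2_mk hR k1 k2 k3 k4 k5 k6 hX0 hO0
  refine ⟨g, hcl, ?_, ?_, ?_⟩
  · intro i hi
    rw [gt]
    interval_cases i <;> simp only [sq6]
    · exact h.t0.symm
    · exact h.t1.symm
    · exact h.t2.symm
    · exact h.t3.symm
    · exact h.t4.symm
    · exact h.t5.symm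
  · intro i hi
    rw [gs]
    interval_cases i <;> simp only [sq6]
    · exact h.s0.symm
    · exact h.s1.symm
    · exact h.s2.symm
    · exact h.s3.symm
    · exact h.s4.symm
    · exact h.s5.symm
  · intro k hk
    rw [gs, gl]
    have q0 := hR.hL0
    have q1 := hR.hL1
    have q3 := hR.hL3
    have q4 := hR.hL4
    have f1 := h.f1
    have f2 := h.f2
    have f4 := h.f4
    have f5 := h.f5
    rw [f1] at f2
    rw [f2] at f4
    rw [f1] at f5
    interval_cases k <;> simp only [sq5, sq6, Finset.prod_range_succ, Finset.range_zero,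
      Finset.prod_empty, one_mul, zero_add]
    · rw [f1]
      linear_combination q0
    · rw [f2]
      refine sub_eq_zero.1 (cancel nL1 ?_)
      linear_combination
        (-a ^ 3 * r ^ 4 + a ^ 3 * r ^ 2 + a ^ 3 * r - a ^ 3 + a ^ 2 * r ^ 4 - a ^ 2 * r - a * r ^
          2 + a) * q1 + (-a ^ 2 * r ^ 2 + a ^ 2 + a * r ^ 2 - a) * hrel
    · refine sub_eq_zero.1 (cancel n1 ?_)
      linear_combination
        (a ^ 2 * r ^ 4 - a ^ 2 * r ^ 2 - a * r ^ 2 + a) * hX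
    · rw [f4]
      refine sub_eq_zero.1 (cancel nL3 ?_)
      linear_combination
        (-a ^ 5 * r ^ 11 + 2 * a ^ 5 * r ^ 10 - a ^ 5 * r ^ 8 - 2 * a ^ 5 * r ^ 7 + 3 * a ^ 5 * r
          ^ 6 - a ^ 5 * r ^ 5 + a ^ 4 * r ^ 10 - a ^ 4 * r ^ 9 - 2 * a ^ 4 * r ^ 8 + a ^ 4 * r ^
          7 + 4 * a ^ 4 * r ^ 6 - 4 * a ^ 4 * r ^ 5 + a ^ 4 * r ^ 4 - a ^ 3 * r ^ 8 + 2 * a ^ 3 *
          r ^ 7 - 2 * a ^ 3 * r ^ 5 + a ^ 3 * r ^ 4) * q3 + (-a ^ 4 * r ^ 12 + a ^ 4 * r ^ 11 + a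
          ^ 4 * r ^ 10 - a ^ 4 * r ^ 8 - a ^ 4 * r ^ 7 + a ^ 4 * r ^ 6 + a ^ 3 * r ^ 10 - a ^ 3 *
          r ^ 9 - 2 * a ^ 3 * r ^ 8 + 3 * a ^ 3 * r ^ 7 - a ^ 3 * r ^ 6 - a ^ 3 * r ^ 5 + 2 * a ^
          3 * r ^ 4 - a ^ 3 * r ^ 3) * hrel
    · rw [f5]
      refine sub_eq_zero.1 (cancel k14 ?_)
      linear_combination
        (-a ^ 8 * r ^ 18 + 2 * a ^ 8 * r ^ 16 + a ^ 8 * r ^ 15 - a ^ 8 * r ^ 14 - 2 * a ^ 8 * r ^
          13 + a ^ 8 * r ^ 11 + a ^ 7 * r ^ 16 + a ^ 7 * r ^ 15 - 2 * a ^ 7 * r ^ 14 - 3 * a ^ 7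
          * r ^ 13 + 3 * a ^ 7 * r ^ 11 + 2 * a ^ 7 * r ^ 10 - a ^ 7 * r ^ 9 - a ^ 7 * r ^ 8 - a
          ^ 6 * r ^ 13 + 2 * a ^ 6 * r ^ 11 + a ^ 6 * r ^ 10 - a ^ 6 * r ^ 9 - 2 * a ^ 6 * r ^ 8
          + a ^ 6 * r ^ 6) * q4 + (-a ^ 10 * r ^ 13 + a ^ 9 * r ^ 14 + 2 * a ^ 9 * r ^ 13 + a ^ 9
          * r ^ 10 - a ^ 8 * r ^ 15 - a ^ 8 * r ^ 14 - 2 * a ^ 8 * r ^ 11 - 2 * a ^ 8 * r ^ 10 +
          a ^ 8 * r ^ 9 + a ^ 7 * r ^ 15 - a ^ 7 * r ^ 13 + a ^ 7 * r ^ 12 + a ^ 7 * r ^ 11 - a ^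
          7 * r ^ 10 - a ^ 7 * r ^ 9 + a ^ 7 * r ^ 8 - a ^ 7 * r ^ 6 - a ^ 6 * r ^ 12 + 2 * a ^ 6
          * r ^ 11 + 2 * a ^ 6 * r ^ 10 + a ^ 6 * r ^ 7 + a ^ 6 * r ^ 6 - a ^ 5 * r ^ 11 - 2 * a
          ^ 5 * r ^ 8 - a ^ 5 * r ^ 7 + a ^ 4 * r ^ 8) * hrel

end Pool.Agent.Helper27.IPE2
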