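import Pool.Agent.Helper54.IP.Sq
import Pool.Agent.Helper54.IP.CForm
import Pool.Agent.Helper27.IP.E2Elim

/-!
TH-P, phase 2: construction of the closed corners of the family E2 (generated certificates).
-/

namespace Pool.Agent.Helper27.IPE2

open Pool.Agent.Helper54.IP

variable {F : Type*} [Field F]

private theorem cancel {a b : F} (ha : a ≠ 0) (h : a * b = 0) : b = 0 :=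
  (mul_eq_zero.1 h).resolve_left ha

/-- the atoms of the tables. -/
structure E2R (a r X ai ri P R Q W O L0 L1 L3 L4 : F) : Prop where
  rel : r ^ 2 * a ^ 2 + a * (r - 1) * (r + 1) ^ 2 - r = 0
  ha : a * ai = 1
  hr : r * ri = 1
  hP : (r + 1) * (r ^ 2 * a - 1) * P = (r + 1) * (r ^ 2 * a - 1) + (a - 1) ^ 2
  hR : a * ((r + 1) * (r ^ 2 * a - 1)) * R =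
    a * ((r + 1) * (r ^ 2 * a - 1)) - r ^ 3 * (a - 1) ^ 2
  hQ : (r + 1) * Q = a + r
  hW : (r + 1) * (a + r ^ 3) * W = r ^ 2 * (a + r) ^ 2
  hO : O = 1 + X * (r ^ 5 * a ^ 2 - 1)
  hL0 : (r + 1) * (r ^ 2 * a - 1) * L0 = a - 1
  hL1 : (a - 1) * (a + r ^ 3) * L1 = -r * (r ^ 2 - 1)
  hL3 : (a + r) * (r ^ 2 * a - 1) * L3 = r * (r ^ 2 - 1)
  hL4 : (a ^ 2 - r ^ 3) * L4 = a ^ 2 - 1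
  n0 : a ≠ 0
  nr : r ≠ 0
  n1 : (r + 1) * (r ^ 2 * a - 1) ≠ 0
  nR : a * ((r + 1) * (r ^ 2 * a - 1)) ≠ 0
  nQ : r + 1 ≠ 0
  nW : (r + 1) * (a + r ^ 3) ≠ 0
  nL1 : (a - 1) * (a + r ^ 3) ≠ 0
  nL3 : (a + r) * (r ^ 2 * a - 1) ≠ 0
  nL4 : a ^ 2 - r ^ 3 ≠ 0

variable {a r X ai ri P R Q W O L0 L1 L3 L4 : F}

theorem E2R.u1_10 (h : E2R a r X ai ri P R Q W O L0 L1 L3 L4) :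
    P = L0 * (a * 1) + (1 - L0) * (a ^ 0 * 1) := by
  refine sub_eq_zero.1 (cancel (mul_ne_zero h.n1 h.n1) ?_)
  linear_combination
    (-a + 1) * ((r + 1) * (r ^ 2 * a - 1)) * h.hL0 + (a * r ^ 3 + a * r ^ 2 - r - 1) * h.hP

theorem E2R.u2_10 (h : E2R a r X ai ri P R Q W O L0 L1 L3 L4) :
    a ^ 1 * R = (1 - (r ^ 3 * L0)) * (a * 1) + (r ^ 3 * L0) * (a ^ 0 * 1) := by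
  refine sub_eq_zero.1 (cancel (mul_ne_zero h.n1 h.nR) ?_)
  linear_combination
    (a * r ^ 3 - r ^ 3) * (a * ((r + 1) * (r ^ 2 * a - 1))) * h.hL0 + (a ^ 2 * r ^ 3 + a ^ 2 * r
      ^ 2 - a * r - a) * h.hR

theorem E2R.u1_11 (h : E2R a r X ai ri P R Q W O L0 L1 L3 L4) :
    Q = L1 * (a * P) + (1 - L1) * (a ^ 1 * R) := by
  refine sub_eq_zero.1 (cancel (mul_ne_zero (mul_ne_zero (mul_ne_zero h.nL1 h.n1) h.nR) h.nQ) ?_)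
  linear_combination
    (-a * P + a * R) * ((r + 1) * (r ^ 2 * a - 1)) * (a * ((r + 1) * (r ^ 2 * a - 1))) * (r + 1)
      * h.hL1 + (a * r ^ 3 - a * r) * (a * ((r + 1) * (r ^ 2 * a - 1))) * (r + 1) * h.hP + (-a ^
      4 * r ^ 3 - a ^ 4 * r ^ 2 - a ^ 3 * r ^ 6 - a ^ 3 * r ^ 5 + a ^ 3 * r ^ 3 + a ^ 3 * r ^ 2 +
      a ^ 3 * r + a ^ 3 + 2 * a ^ 2 * r ^ 4 + 2 * a ^ 2 * r ^ 3 - a ^ 2 * r - a ^ 2 - a * r ^ 2 -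
      a * r) * (r + 1) * h.hR + (a ^ 5 * r ^ 6 + 2 * a ^ 5 * r ^ 5 + a ^ 5 * r ^ 4 + a ^ 4 * r ^
      9 + 2 * a ^ 4 * r ^ 8 + a ^ 4 * r ^ 7 - a ^ 4 * r ^ 6 - 2 * a ^ 4 * r ^ 5 - 3 * a ^ 4 * r ^
      4 - 4 * a ^ 4 * r ^ 3 - 2 * a ^ 4 * r ^ 2 - a ^ 3 * r ^ 9 - 2 * a ^ 3 * r ^ 8 - 3 * a ^ 3 *
      r ^ 7 - 4 * a ^ 3 * r ^ 6 - 2 * a ^ 3 * r ^ 5 + 2 * a ^ 3 * r ^ 4 + 4 * a ^ 3 * r ^ 3 + 3 *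
      a ^ 3 * r ^ 2 + 2 * a ^ 3 * r + a ^ 3 + 2 * a ^ 2 * r ^ 7 + 4 * a ^ 2 * r ^ 6 + 3 * a ^ 2 *
      r ^ 5 + 2 * a ^ 2 * r ^ 4 + a ^ 2 * r ^ 3 - a ^ 2 * r ^ 2 - 2 * a ^ 2 * r - a ^ 2 - a * r ^
      5 - 2 * a * r ^ 4 - a * r ^ 3) * h.hQ

theorem E2R.u2_11 (h : E2R a r X ai ri P R Q W O L0 L1 L3 L4) :
    a ^ 2 * (Q * ai) = (1 - (a ^ 2 * ri * L1)) * (a * P) + (a ^ 2 * ri * L1) * (a ^ 1 * R) := by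
  refine sub_eq_zero.1 (cancel (mul_ne_zero (mul_ne_zero (mul_ne_zero (mul_ne_zero (mul_ne_zero h.nL1 h.n1) h.nR) h.nQ) h.n0) h.nr) ?_)
  linear_combination
    (a ^ 3 * ri * P - a ^ 3 * ri * R) * ((r + 1) * (r ^ 2 * a - 1)) * (a * ((r + 1) * (r ^ 2 * a
      - 1))) * (r + 1) * a * r * h.hL1 + (-a ^ 3 * r ^ 3 * ri + a ^ 3 * r * ri - a ^ 3 - a ^ 2 *
      r ^ 3 + a ^ 2 + a * r ^ 3) * (a * ((r + 1) * (r ^ 2 * a - 1))) * (r + 1) * a * r * h.hP +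
      (a ^ 4 * r ^ 6 * ri + a ^ 4 * r ^ 5 * ri - a ^ 4 * r ^ 4 * ri - a ^ 4 * r ^ 3 * ri - a ^ 3
      * r ^ 4 * ri - a ^ 3 * r ^ 3 * ri + a ^ 3 * r ^ 2 * ri + a ^ 3 * r * ri) * (r + 1) * a * r
      * h.hR + (a ^ 7 * r ^ 6 * ai + 2 * a ^ 7 * r ^ 5 * ai + a ^ 7 * r ^ 4 * ai + a ^ 6 * r ^ 9
      * ai + 2 * a ^ 6 * r ^ 8 * ai + a ^ 6 * r ^ 7 * ai - a ^ 6 * r ^ 6 * ai - 2 * a ^ 6 * r ^ 5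
      * ai - 3 * a ^ 6 * r ^ 4 * ai - 4 * a ^ 6 * r ^ 3 * ai - 2 * a ^ 6 * r ^ 2 * ai - a ^ 5 * r
      ^ 9 * ai - 2 * a ^ 5 * r ^ 8 * ai - 3 * a ^ 5 * r ^ 7 * ai - 4 * a ^ 5 * r ^ 6 * ai - 2 * a
      ^ 5 * r ^ 5 * ai + 2 * a ^ 5 * r ^ 4 * ai + 4 * a ^ 5 * r ^ 3 * ai + 3 * a ^ 5 * r ^ 2 * ai
      + 2 * a ^ 5 * r * ai + a ^ 5 * ai + 2 * a ^ 4 * r ^ 7 * ai + 4 * a ^ 4 * r ^ 6 * ai + 3 * a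
      ^ 4 * r ^ 5 * ai + 2 * a ^ 4 * r ^ 4 * ai + a ^ 4 * r ^ 3 * ai - a ^ 4 * r ^ 2 * ai - 2 * a
      ^ 4 * r * ai - a ^ 4 * ai - a ^ 3 * r ^ 5 * ai - 2 * a ^ 3 * r ^ 4 * ai - a ^ 3 * r ^ 3 *
      ai) * a * r * h.hQ + (a ^ 8 * r ^ 6 + 2 * a ^ 8 * r ^ 5 + a ^ 8 * r ^ 4 + a ^ 7 * r ^ 9 + 2
      * a ^ 7 * r ^ 8 + 2 * a ^ 7 * r ^ 7 + a ^ 7 * r ^ 6 - a ^ 7 * r ^ 5 - 3 * a ^ 7 * r ^ 4 - 4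
      * a ^ 7 * r ^ 3 - 2 * a ^ 7 * r ^ 2 + a ^ 6 * r ^ 10 + a ^ 6 * r ^ 9 - a ^ 6 * r ^ 8 - 4 *
      a ^ 6 * r ^ 7 - 6 * a ^ 6 * r ^ 6 - 5 * a ^ 6 * r ^ 5 - 2 * a ^ 6 * r ^ 4 + 2 * a ^ 6 * r ^
      3 + 3 * a ^ 6 * r ^ 2 + 2 * a ^ 6 * r + a ^ 6 - a ^ 5 * r ^ 10 - 2 * a ^ 5 * r ^ 9 - 3 * a
      ^ 5 * r ^ 8 - 2 * a ^ 5 * r ^ 7 + 2 * a ^ 5 * r ^ 6 + 5 * a ^ 5 * r ^ 5 + 6 * a ^ 5 * r ^ 4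
      + 4 * a ^ 5 * r ^ 3 + a ^ 5 * r ^ 2 - a ^ 5 * r - a ^ 5 + 2 * a ^ 4 * r ^ 8 + 4 * a ^ 4 * r
      ^ 7 + 3 * a ^ 4 * r ^ 6 + a ^ 4 * r ^ 5 - a ^ 4 * r ^ 4 - 2 * a ^ 4 * r ^ 3 - 2 * a ^ 4 * r
      ^ 2 - a ^ 4 * r - a ^ 3 * r ^ 6 - 2 * a ^ 3 * r ^ 5 - a ^ 3 * r ^ 4) * r * h.ha + (-a ^ 8 *
      r ^ 7 - 2 * a ^ 8 * r ^ 6 + 2 * a ^ 8 * r ^ 4 + a ^ 8 * r ^ 3 - a ^ 7 * r ^ 10 - 2 * a ^ 7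
      * r ^ 9 + 4 * a ^ 7 * r ^ 7 + 5 * a ^ 7 * r ^ 6 + a ^ 7 * r ^ 5 - 2 * a ^ 7 * r ^ 4 - 2 * a
      ^ 7 * r ^ 3 - 2 * a ^ 7 * r ^ 2 - a ^ 7 * r + 2 * a ^ 6 * r ^ 10 + 4 * a ^ 6 * r ^ 9 + a ^
      6 * r ^ 8 - 3 * a ^ 6 * r ^ 7 - 4 * a ^ 6 * r ^ 6 - 4 * a ^ 6 * r ^ 5 - 3 * a ^ 6 * r ^ 4 +
      a ^ 6 * r ^ 3 + 4 * a ^ 6 * r ^ 2 + 2 * a ^ 6 * r - a ^ 5 * r ^ 10 - 2 * a ^ 5 * r ^ 9 - 2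
      * a ^ 5 * r ^ 8 - 2 * a ^ 5 * r ^ 7 + a ^ 5 * r ^ 6 + 5 * a ^ 5 * r ^ 5 + 4 * a ^ 5 * r ^ 4
      - 2 * a ^ 5 * r ^ 2 - a ^ 5 * r + a ^ 4 * r ^ 8 + 2 * a ^ 4 * r ^ 7 - 2 * a ^ 4 * r ^ 5 - a
      ^ 4 * r ^ 4) * h.hr

theorem E2R.u1_12 (h : E2R a r X ai ri P R Q W O L0 L1 L3 L4) :
    (a * Q) = X * (a * Q) + (1 - X) * (a ^ 2 * (Q * ai)) := by
  refine sub_eq_zero.1 (cancel (mul_ne_zero h.nQ h.n0) ?_)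
  linear_combination
    (a ^ 2 * X * ai - a ^ 2 * ai - a * X + a) * a * h.hQ + (a ^ 3 * X - a ^ 3 + a ^ 2 * r * X - a
      ^ 2 * r) * h.ha

theorem E2R.u2_12 (h : E2R a r X ai ri P R Q W O L0 L1 L3 L4) :
    a ^ 3 * (Q * ai ^ 2) = (1 - (-a ^ 2 * r ^ 5 * X)) * (a * Q) + (-a ^ 2 * r ^ 5 * X) * (a ^ 2 *
      (Q * ai)) := by
  refine sub_eq_zero.1 (cancel (mul_ne_zero h.nQ (pow_ne_zero 2 h.n0)) ?_)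
  linear_combination
    (a ^ 4 * r ^ 5 * X * ai - a ^ 3 * r ^ 5 * X + a ^ 3 * ai ^ 2 - a) * a ^ 2 * h.hQ + (a ^ 6 * r
      ^ 5 * X + a ^ 5 * r ^ 6 * X + a ^ 5 * ai + a ^ 4 * r * ai + a ^ 4 + a ^ 3 * r) * h.ha

theorem E2R.u1_13 (h : E2R a r X ai ri P R Q W O L0 L1 L3 L4) :
    (a ^ 2 * R) = L3 * (a * (a * Q)) + (1 - L3) * (a ^ 3 * (Q * ai ^ 2)) := by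
  refine sub_eq_zero.1 (cancel (mul_ne_zero (mul_ne_zero (mul_ne_zero h.nL3 h.nR) h.nQ) (pow_ne_zero 2 h.n0)) ?_)
  linear_combination
    (a ^ 3 * ai ^ 2 * Q - a ^ 2 * Q) * (a * ((r + 1) * (r ^ 2 * a - 1))) * (r + 1) * a ^ 2 *
      h.hL3 + (a ^ 4 * r ^ 2 + a ^ 3 * r ^ 3 - a ^ 3 - a ^ 2 * r) * (r + 1) * a ^ 2 * h.hR + (-a
      ^ 7 * r ^ 5 * ai ^ 2 - a ^ 7 * r ^ 4 * ai ^ 2 - a ^ 6 * r ^ 6 * ai ^ 2 - a ^ 6 * r ^ 5 * ai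
      ^ 2 + 2 * a ^ 6 * r ^ 3 * ai ^ 2 + 2 * a ^ 6 * r ^ 2 * ai ^ 2 + a ^ 5 * r ^ 6 * ai ^ 2 + a
      ^ 5 * r ^ 5 * ai ^ 2 + a ^ 5 * r ^ 4 * ai ^ 2 + a ^ 5 * r ^ 3 * ai ^ 2 - a ^ 5 * r * ai ^ 2
      - a ^ 5 * ai ^ 2 - a ^ 4 * r ^ 6 - a ^ 4 * r ^ 5 - a ^ 4 * r ^ 4 * ai ^ 2 + a ^ 4 * r ^ 4 -
      a ^ 4 * r ^ 3 * ai ^ 2 + a ^ 4 * r ^ 3 + a ^ 3 * r ^ 4 + a ^ 3 * r ^ 3 - a ^ 3 * r ^ 2 - a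
      ^ 3 * r) * a ^ 2 * h.hQ + (-a ^ 9 * r ^ 5 * ai - a ^ 9 * r ^ 4 * ai - 2 * a ^ 8 * r ^ 6 *
      ai - 2 * a ^ 8 * r ^ 5 * ai - a ^ 8 * r ^ 5 - a ^ 8 * r ^ 4 + 2 * a ^ 8 * r ^ 3 * ai + 2 *
      a ^ 8 * r ^ 2 * ai - a ^ 7 * r ^ 7 * ai - 2 * a ^ 7 * r ^ 6 + a ^ 7 * r ^ 5 * ai - 2 * a ^
      7 * r ^ 5 + 3 * a ^ 7 * r ^ 4 * ai + 3 * a ^ 7 * r ^ 3 * ai + 2 * a ^ 7 * r ^ 3 + 2 * a ^ 7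
      * r ^ 2 - a ^ 7 * r * ai - a ^ 7 * ai + a ^ 6 * r ^ 7 * ai - a ^ 6 * r ^ 7 + a ^ 6 * r ^ 6
      * ai + a ^ 6 * r ^ 5 * ai + a ^ 6 * r ^ 5 + 3 * a ^ 6 * r ^ 4 - a ^ 6 * r ^ 3 * ai + 3 * a
      ^ 6 * r ^ 3 - a ^ 6 * r ^ 2 * ai - a ^ 6 * r * ai - a ^ 6 * r - a ^ 6 + a ^ 5 * r ^ 7 + a ^
      5 * r ^ 6 - a ^ 5 * r ^ 5 * ai + a ^ 5 * r ^ 5 - a ^ 5 * r ^ 4 * ai - a ^ 5 * r ^ 3 - a ^ 5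
      * r ^ 2 - a ^ 5 * r - a ^ 4 * r ^ 5 - a ^ 4 * r ^ 4) * h.ha

theorem E2R.u2_13 (h : E2R a r X ai ri P R Q W O L0 L1 L3 L4) :
    a ^ 4 * (P * ai ^ 2) = (1 - (a ^ 2 * ri * L3)) * (a * (a * Q)) + (a ^ 2 * ri * L3) * (a ^ 3 *
      (Q * ai ^ 2)) := by
  refine sub_eq_zero.1 (cancel (mul_ne_zero (mul_ne_zero (mul_ne_zero (mul_ne_zero h.nL3 h.n1) h.nQ) (pow_ne_zero 2 h.n0)) h.nr) ?_)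
  linear_combination
    (-a ^ 5 * ai ^ 2 * ri * Q + a ^ 4 * ri * Q) * ((r + 1) * (r ^ 2 * a - 1)) * (r + 1) * a ^ 2 *
      r * h.hL3 + (a ^ 6 * r ^ 2 * ai ^ 2 + a ^ 5 * r ^ 3 * ai ^ 2 - a ^ 5 * ai ^ 2 - a ^ 4 * r *
      ai ^ 2) * (r + 1) * a ^ 2 * r * h.hP + (-a ^ 6 * r ^ 6 * ai ^ 2 * ri - a ^ 6 * r ^ 5 * ai ^
      2 * ri + a ^ 6 * r ^ 4 * ai ^ 2 * ri + a ^ 6 * r ^ 3 * ai ^ 2 * ri + a ^ 5 * r ^ 6 * ri + a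
      ^ 5 * r ^ 5 * ri - a ^ 5 * r ^ 5 + a ^ 5 * r ^ 4 * ai ^ 2 * ri - a ^ 5 * r ^ 4 * ri - a ^ 5
      * r ^ 4 + a ^ 5 * r ^ 3 * ai ^ 2 * ri - a ^ 5 * r ^ 3 * ri - a ^ 5 * r ^ 2 * ai ^ 2 * ri -
      a ^ 5 * r * ai ^ 2 * ri - a ^ 4 * r ^ 6 - a ^ 4 * r ^ 5 - a ^ 4 * r ^ 4 * ri - a ^ 4 * r ^
      3 * ri + 2 * a ^ 4 * r ^ 3 + a ^ 4 * r ^ 2 * ri + 2 * a ^ 4 * r ^ 2 + a ^ 4 * r * ri + 2 *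
      a ^ 3 * r ^ 4 + 2 * a ^ 3 * r ^ 3 - a ^ 3 * r - a ^ 3 - a ^ 2 * r ^ 2 - a ^ 2 * r) * a ^ 2
      * r * h.hQ + (a ^ 9 * r ^ 3 * ai + a ^ 9 * r ^ 2 * ai - a ^ 8 * r ^ 6 * ai * ri + a ^ 8 * r
      ^ 6 * ai - a ^ 8 * r ^ 5 * ai * ri + 2 * a ^ 8 * r ^ 5 * ai + a ^ 8 * r ^ 4 * ai * ri + 2 *
      a ^ 8 * r ^ 4 * ai + a ^ 8 * r ^ 3 * ai * ri - a ^ 8 * r ^ 3 * ai + a ^ 8 * r ^ 3 - 2 * a ^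
      8 * r ^ 2 * ai + a ^ 8 * r ^ 2 - a ^ 8 * r * ai - a ^ 8 * ai - a ^ 7 * r ^ 7 * ai * ri + a
      ^ 7 * r ^ 7 * ai - a ^ 7 * r ^ 6 * ai * ri + 2 * a ^ 7 * r ^ 6 * ai - a ^ 7 * r ^ 6 * ri +
      a ^ 7 * r ^ 6 + a ^ 7 * r ^ 5 * ai * ri + a ^ 7 * r ^ 5 * ai - a ^ 7 * r ^ 5 * ri + 2 * a ^
      7 * r ^ 5 + 2 * a ^ 7 * r ^ 4 * ai * ri - 4 * a ^ 7 * r ^ 4 * ai + a ^ 7 * r ^ 4 * ri + 2 *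
      a ^ 7 * r ^ 4 + a ^ 7 * r ^ 3 * ai * ri - 5 * a ^ 7 * r ^ 3 * ai + a ^ 7 * r ^ 3 * ri - a ^
      7 * r ^ 3 - a ^ 7 * r ^ 2 * ai * ri - 2 * a ^ 7 * r ^ 2 * ai - 2 * a ^ 7 * r ^ 2 - a ^ 7 *
      r * ai * ri + a ^ 7 * r * ai - a ^ 7 * r + 2 * a ^ 7 * ai - a ^ 7 - a ^ 6 * r ^ 7 * ri + a
      ^ 6 * r ^ 7 - a ^ 6 * r ^ 6 * ri + 2 * a ^ 6 * r ^ 6 + a ^ 6 * r ^ 5 * ai * ri - 2 * a ^ 6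
      * r ^ 5 * ai + a ^ 6 * r ^ 5 * ri + a ^ 6 * r ^ 5 + a ^ 6 * r ^ 4 * ai * ri - 3 * a ^ 6 * r
      ^ 4 * ai + 2 * a ^ 6 * r ^ 4 * ri - 4 * a ^ 6 * r ^ 4 - a ^ 6 * r ^ 3 * ai * ri - a ^ 6 * r
      ^ 3 * ai + a ^ 6 * r ^ 3 * ri - 5 * a ^ 6 * r ^ 3 - a ^ 6 * r ^ 2 * ai * ri + 3 * a ^ 6 * r
      ^ 2 * ai - a ^ 6 * r ^ 2 * ri - 2 * a ^ 6 * r ^ 2 + 3 * a ^ 6 * r * ai - a ^ 6 * r * ri + a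
      ^ 6 * r + 2 * a ^ 6 + a ^ 5 * r ^ 5 * ri - 2 * a ^ 5 * r ^ 5 + a ^ 5 * r ^ 4 * ri - 3 * a ^
      5 * r ^ 4 + a ^ 5 * r ^ 3 * ai - a ^ 5 * r ^ 3 * ri - a ^ 5 * r ^ 3 + a ^ 5 * r ^ 2 * ai -
      a ^ 5 * r ^ 2 * ri + 3 * a ^ 5 * r ^ 2 + 3 * a ^ 5 * r + a ^ 4 * r ^ 3 + a ^ 4 * r ^ 2) * r
      * h.ha + (a ^ 8 * r ^ 6 + a ^ 8 * r ^ 5 - a ^ 8 * r ^ 4 - a ^ 8 * r ^ 3 + a ^ 7 * r ^ 7 - 2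
      * a ^ 7 * r ^ 5 - a ^ 7 * r ^ 4 + a ^ 7 * r ^ 2 + a ^ 7 * r - a ^ 6 * r ^ 7 - a ^ 6 * r ^ 6
      + a ^ 6 * r ^ 4 + 2 * a ^ 6 * r ^ 3 - a ^ 6 * r + a ^ 5 * r ^ 5 + a ^ 5 * r ^ 4 - a ^ 5 * r
      ^ 3 - a ^ 5 * r ^ 2) * h.hr

theorem E2R.u1_14 (h : E2R a r X ai ri P R Q W O L0 L1 L3 L4) :
    a ^ 2 = L4 * (a * (a ^ 2 * R)) + (1 - L4) * (a ^ 4 * (P * ai ^ 2)) := by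
  refine sub_eq_zero.1 (cancel (mul_ne_zero (mul_ne_zero (mul_ne_zero h.nL4 h.n1) h.nR) (pow_ne_zero 2 h.n0)) ?_)
  linear_combination
    (a ^ 4 * ai ^ 2 * P - a ^ 3 * R) * ((r + 1) * (r ^ 2 * a - 1)) * (a * ((r + 1) * (r ^ 2 * a -
      1))) * a ^ 2 * h.hL4 + (a ^ 4 * r ^ 3 * ai ^ 2 - a ^ 4 * ai ^ 2) * (a * ((r + 1) * (r ^ 2 *
      a - 1))) * a ^ 2 * h.hP + (-a ^ 6 * r ^ 3 - a ^ 6 * r ^ 2 + a ^ 5 * r + a ^ 5 + a ^ 4 * r ^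
      3 + a ^ 4 * r ^ 2 - a ^ 3 * r - a ^ 3) * a ^ 2 * h.hR + (a ^ 9 * r ^ 6 * ai + a ^ 9 * r ^ 5
      * ai - a ^ 9 * r ^ 3 * ai - a ^ 9 * r ^ 2 * ai + a ^ 8 * r ^ 9 * ai + 2 * a ^ 8 * r ^ 8 *
      ai + a ^ 8 * r ^ 7 * ai - 3 * a ^ 8 * r ^ 6 * ai + a ^ 8 * r ^ 6 - 4 * a ^ 8 * r ^ 5 * ai +
      a ^ 8 * r ^ 5 - 2 * a ^ 8 * r ^ 4 * ai + a ^ 8 * r ^ 3 * ai - a ^ 8 * r ^ 3 + 2 * a ^ 8 * r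
      ^ 2 * ai - a ^ 8 * r ^ 2 + a ^ 8 * r * ai + a ^ 8 * ai + a ^ 7 * r ^ 9 + 2 * a ^ 7 * r ^ 8
      - 2 * a ^ 7 * r ^ 7 * ai + a ^ 7 * r ^ 7 - 3 * a ^ 7 * r ^ 6 * ai - 3 * a ^ 7 * r ^ 6 - a ^
      7 * r ^ 5 * ai - 4 * a ^ 7 * r ^ 5 + 4 * a ^ 7 * r ^ 4 * ai - 2 * a ^ 7 * r ^ 4 + 5 * a ^ 7
      * r ^ 3 * ai + a ^ 7 * r ^ 3 + a ^ 7 * r ^ 2 * ai + 2 * a ^ 7 * r ^ 2 - 2 * a ^ 7 * r * ai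
      + a ^ 7 * r - 2 * a ^ 7 * ai + a ^ 7 - 2 * a ^ 6 * r ^ 7 - 3 * a ^ 6 * r ^ 6 + a ^ 6 * r ^
      5 * ai - a ^ 6 * r ^ 5 + a ^ 6 * r ^ 4 * ai + 4 * a ^ 6 * r ^ 4 + 5 * a ^ 6 * r ^ 3 - a ^ 6
      * r ^ 2 * ai + a ^ 6 * r ^ 2 - a ^ 6 * r * ai - 2 * a ^ 6 * r - 2 * a ^ 6 + a ^ 5 * r ^ 5 +
      a ^ 5 * r ^ 4 - a ^ 5 * r ^ 2 - a ^ 5 * r) * h.ha + (-a ^ 8 * r ^ 3 - a ^ 8 * r ^ 2 + 2 * a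
      ^ 7 * r ^ 3 + 2 * a ^ 7 * r ^ 2 + a ^ 7 * r + a ^ 7 - a ^ 6 * r ^ 3 - a ^ 6 * r ^ 2 - 2 * a
      ^ 6 * r - 2 * a ^ 6 + a ^ 5 * r + a ^ 5) * h.rel

theorem E2R.u2_14 (h : E2R a r X ai ri P R Q W O L0 L1 L3 L4) :
    a ^ 5 * ai ^ 2 = (1 - (r ^ 3 * L4)) * (a * (a ^ 2 * R)) + (r ^ 3 * L4) * (a ^ 4 * (P * ai ^
      2)) := by
  refine sub_eq_zero.1 (cancel (mul_ne_zero (mul_ne_zero (mul_ne_zero h.nL4 h.n1) h.nR) (pow_ne_zero 2 h.n0)) ?_)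
  linear_combination
    (-a ^ 4 * r ^ 3 * ai ^ 2 * P + a ^ 3 * r ^ 3 * R) * ((r + 1) * (r ^ 2 * a - 1)) * (a * ((r +
      1) * (r ^ 2 * a - 1))) * a ^ 2 * h.hL4 + (-a ^ 6 * r ^ 3 * ai ^ 2 + a ^ 4 * r ^ 3 * ai ^ 2)
      * (a * ((r + 1) * (r ^ 2 * a - 1))) * a ^ 2 * h.hP + (a ^ 6 * r ^ 6 + a ^ 6 * r ^ 5 - a ^ 6
      * r ^ 3 - a ^ 6 * r ^ 2 - a ^ 5 * r ^ 4 - a ^ 5 * r ^ 3 + a ^ 5 * r + a ^ 5) * a ^ 2 * h.hR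
      + (a ^ 11 * r ^ 5 * ai + a ^ 11 * r ^ 4 * ai - a ^ 10 * r ^ 9 * ai - 2 * a ^ 10 * r ^ 8 *
      ai - a ^ 10 * r ^ 7 * ai + 2 * a ^ 10 * r ^ 6 * ai + 2 * a ^ 10 * r ^ 5 * ai + a ^ 10 * r ^
      5 - a ^ 10 * r ^ 4 * ai + a ^ 10 * r ^ 4 - 3 * a ^ 10 * r ^ 3 * ai - 2 * a ^ 10 * r ^ 2 *
      ai - a ^ 9 * r ^ 9 * ai - a ^ 9 * r ^ 9 - 2 * a ^ 9 * r ^ 8 * ai - 2 * a ^ 9 * r ^ 8 + a ^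
      9 * r ^ 7 * ai - a ^ 9 * r ^ 7 + 4 * a ^ 9 * r ^ 6 * ai + 2 * a ^ 9 * r ^ 6 + 2 * a ^ 9 * r
      ^ 5 * ai + 2 * a ^ 9 * r ^ 5 - 2 * a ^ 9 * r ^ 4 * ai - a ^ 9 * r ^ 4 - 2 * a ^ 9 * r ^ 3 *
      ai - 3 * a ^ 9 * r ^ 3 + a ^ 9 * r ^ 2 * ai - 2 * a ^ 9 * r ^ 2 + 2 * a ^ 9 * r * ai + a ^
      9 * ai + a ^ 8 * r ^ 9 * ai - a ^ 8 * r ^ 9 + 2 * a ^ 8 * r ^ 8 * ai - 2 * a ^ 8 * r ^ 8 +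
      3 * a ^ 8 * r ^ 7 * ai + a ^ 8 * r ^ 7 + 2 * a ^ 8 * r ^ 6 * ai + 4 * a ^ 8 * r ^ 6 - a ^ 8
      * r ^ 5 * ai + 2 * a ^ 8 * r ^ 5 - 2 * a ^ 8 * r ^ 4 * ai - 2 * a ^ 8 * r ^ 4 - a ^ 8 * r ^
      3 * ai - 2 * a ^ 8 * r ^ 3 + a ^ 8 * r ^ 2 + 2 * a ^ 8 * r + a ^ 8 + a ^ 7 * r ^ 9 + 2 * a
      ^ 7 * r ^ 8 - 2 * a ^ 7 * r ^ 7 * ai + 3 * a ^ 7 * r ^ 7 - 3 * a ^ 7 * r ^ 6 * ai + 2 * a ^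
      7 * r ^ 6 - 2 * a ^ 7 * r ^ 5 * ai - a ^ 7 * r ^ 5 - 2 * a ^ 7 * r ^ 4 + a ^ 7 * r ^ 3 * ai
      - a ^ 7 * r ^ 3 - 2 * a ^ 6 * r ^ 7 - 3 * a ^ 6 * r ^ 6 + a ^ 6 * r ^ 5 * ai - 2 * a ^ 6 *
      r ^ 5 + a ^ 6 * r ^ 4 * ai + a ^ 6 * r ^ 3 + a ^ 5 * r ^ 5 + a ^ 5 * r ^ 4) * h.ha + (a ^ 8
      * r ^ 6 + a ^ 8 * r ^ 5 - 2 * a ^ 7 * r ^ 6 - 2 * a ^ 7 * r ^ 5 - a ^ 7 * r ^ 4 - a ^ 7 * r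
      ^ 3 + a ^ 6 * r ^ 6 + a ^ 6 * r ^ 5 + 2 * a ^ 6 * r ^ 4 + 2 * a ^ 6 * r ^ 3 - a ^ 5 * r ^ 4
      - a ^ 5 * r ^ 3) * h.rel

theorem E2R.u1_20 (h : E2R a r X ai ri P R Q W O L0 L1 L3 L4) :
    Q = L0 * ((r ^ 2 * a) * 1) + (1 - L0) * ((r ^ 2 * a) ^ 0 * 1) := by
  refine sub_eq_zero.1 (cancel (mul_ne_zero h.n1 h.nQ) ?_)
  linear_combination
    (-a * r ^ 2 + 1) * (r + 1) * h.hL0 + (a * r ^ 3 + a * r ^ 2 - r - 1) * h.hQ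

theorem E2R.u2_20 (h : E2R a r X ai ri P R Q W O L0 L1 L3 L4) :
    (r ^ 2 * a) ^ 1 * (Q * ai) = (1 - (r ^ 3 * L0)) * ((r ^ 2 * a) * 1) + (r ^ 3 * L0) * ((r ^ 2
      * a) ^ 0 * 1) := by
  refine sub_eq_zero.1 (cancel (mul_ne_zero (mul_ne_zero h.n1 h.nQ) h.n0) ?_)
  linear_combination
    (a * r ^ 5 - r ^ 3) * (r + 1) * a * h.hL0 + (a ^ 2 * r ^ 5 * ai + a ^ 2 * r ^ 4 * ai - a * r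
      ^ 3 * ai - a * r ^ 2 * ai) * a * h.hQ + (a ^ 3 * r ^ 5 + a ^ 3 * r ^ 4 + a ^ 2 * r ^ 6 + a
      ^ 2 * r ^ 5 - a ^ 2 * r ^ 3 - a ^ 2 * r ^ 2 - a * r ^ 4 - a * r ^ 3) * h.ha

theorem E2R.u1_21 (h : E2R a r X ai ri P R Q W O L0 L1 L3 L4) :
    W = L1 * ((r ^ 2 * a) * Q) + (1 - L1) * ((r ^ 2 * a) ^ 1 * (Q * ai)) := by
  refine sub_eq_zero.1 (cancel (mul_ne_zero (mul_ne_zero (mul_ne_zero h.nL1 h.nW) h.nQ) h.n0) ?_)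
  linear_combination
    (a * r ^ 2 * ai * Q - a * r ^ 2 * Q) * ((r + 1) * (a + r ^ 3)) * (r + 1) * a * h.hL1 + (a ^ 2
      + a * r ^ 3 - a - r ^ 3) * (r + 1) * a * h.hW + (-a ^ 4 * r ^ 3 * ai - a ^ 4 * r ^ 2 * ai -
      2 * a ^ 3 * r ^ 6 * ai - 2 * a ^ 3 * r ^ 5 * ai + a ^ 3 * r ^ 3 * ai + a ^ 3 * r ^ 2 * ai -
      a ^ 2 * r ^ 9 * ai - a ^ 2 * r ^ 8 * ai + a ^ 2 * r ^ 6 * ai + a ^ 2 * r ^ 6 + a ^ 2 * r ^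
      5 * ai + a ^ 2 * r ^ 5 + a ^ 2 * r ^ 4 * ai - a ^ 2 * r ^ 4 + a ^ 2 * r ^ 3 * ai - a ^ 2 *
      r ^ 3 + a * r ^ 9 + a * r ^ 8 + a * r ^ 7 * ai - a * r ^ 7 + a * r ^ 6 * ai - a * r ^ 6) *
      a * h.hQ + (-a ^ 5 * r ^ 3 - a ^ 5 * r ^ 2 - 2 * a ^ 4 * r ^ 6 - 2 * a ^ 4 * r ^ 5 - a ^ 4
      * r ^ 4 + a ^ 4 * r ^ 2 - a ^ 3 * r ^ 9 - a ^ 3 * r ^ 8 - 2 * a ^ 3 * r ^ 7 - a ^ 3 * r ^ 6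
      + a ^ 3 * r ^ 5 + 2 * a ^ 3 * r ^ 4 + 2 * a ^ 3 * r ^ 3 - a ^ 2 * r ^ 10 - a ^ 2 * r ^ 9 +
      2 * a ^ 2 * r ^ 7 + 2 * a ^ 2 * r ^ 6 + a ^ 2 * r ^ 5 + a ^ 2 * r ^ 4 + a * r ^ 8 + a * r ^
      7) * h.ha

theorem E2R.u2_21 (h : E2R a r X ai ri P R Q W O L0 L1 L3 L4) :
    (r ^ 2 * a) ^ 2 * (W * ri ^ 2 * ai) = (1 - (a ^ 2 * ri * L1)) * ((r ^ 2 * a) * Q) + (a ^ 2 *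
      ri * L1) * ((r ^ 2 * a) ^ 1 * (Q * ai)) := by
  refine sub_eq_zero.1 (cancel (mul_ne_zero (mul_ne_zero (mul_ne_zero (mul_ne_zero h.nL1 h.nW) h.nQ) h.n0) (pow_ne_zero 2 h.nr)) ?_)
  linear_combination
    (-a ^ 3 * r ^ 2 * ai * ri * Q + a ^ 3 * r ^ 2 * ri * Q) * ((r + 1) * (a + r ^ 3)) * (r + 1) *
      a * r ^ 2 * h.hL1 + (a ^ 4 * r ^ 4 * ai * ri ^ 2 + a ^ 3 * r ^ 7 * ai * ri ^ 2 - a ^ 3 * r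
      ^ 4 * ai * ri ^ 2 - a ^ 2 * r ^ 7 * ai * ri ^ 2) * (r + 1) * a * r ^ 2 * h.hW + (a ^ 4 * r
      ^ 6 * ai * ri - a ^ 4 * r ^ 6 * ri + a ^ 4 * r ^ 5 * ai * ri - a ^ 4 * r ^ 5 * ri - a ^ 4 *
      r ^ 4 * ai * ri + a ^ 4 * r ^ 4 * ri - a ^ 4 * r ^ 3 * ai * ri + a ^ 4 * r ^ 3 * ri - a ^ 4
      * r ^ 3 - a ^ 4 * r ^ 2 + a ^ 3 * r ^ 9 * ai * ri - a ^ 3 * r ^ 9 * ri + a ^ 3 * r ^ 8 * ai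
      * ri - a ^ 3 * r ^ 8 * ri - a ^ 3 * r ^ 7 * ai * ri + a ^ 3 * r ^ 7 * ri - a ^ 3 * r ^ 6 *
      ai * ri + a ^ 3 * r ^ 6 * ri - 2 * a ^ 3 * r ^ 6 - 2 * a ^ 3 * r ^ 5 + a ^ 3 * r ^ 3 + a ^
      3 * r ^ 2 - a ^ 2 * r ^ 9 - a ^ 2 * r ^ 8 + 2 * a ^ 2 * r ^ 6 + 2 * a ^ 2 * r ^ 5 + a * r ^
      9 + a * r ^ 8) * a * r ^ 2 * h.hQ + (a ^ 6 * r ^ 7 * ri ^ 2 + a ^ 6 * r ^ 6 * ri ^ 2 + a ^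
      5 * r ^ 10 * ri ^ 2 + a ^ 5 * r ^ 9 * ri ^ 2 + 2 * a ^ 5 * r ^ 8 * ri ^ 2 + a ^ 5 * r ^ 7 *
      ri ^ 2 - a ^ 5 * r ^ 6 * ri ^ 2 + a ^ 5 * r ^ 6 * ri + a ^ 5 * r ^ 5 * ri - a ^ 5 * r ^ 4 *
      ri - a ^ 5 * r ^ 3 * ri + 2 * a ^ 4 * r ^ 11 * ri ^ 2 + a ^ 4 * r ^ 10 * ri ^ 2 + a ^ 4 * r
      ^ 9 * ri - a ^ 4 * r ^ 8 * ri ^ 2 + a ^ 4 * r ^ 8 * ri - 2 * a ^ 4 * r ^ 7 * ri ^ 2 - a ^ 4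
      * r ^ 5 * ri - a ^ 4 * r ^ 4 * ri + a ^ 3 * r ^ 12 * ri ^ 2 - a ^ 3 * r ^ 11 * ri ^ 2 - 2 *
      a ^ 3 * r ^ 10 * ri ^ 2 + a ^ 3 * r ^ 10 * ri - a ^ 3 * r ^ 9 * ri ^ 2 + a ^ 3 * r ^ 9 * ri
      - a ^ 3 * r ^ 8 * ri ^ 2 - a ^ 3 * r ^ 8 * ri - a ^ 3 * r ^ 7 * ri - a ^ 2 * r ^ 12 * ri ^
      2 - a ^ 2 * r ^ 11 * ri ^ 2) * r ^ 2 * h.ha + (a ^ 6 * r ^ 8 * ri + a ^ 6 * r ^ 7 * ri + a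
      ^ 6 * r ^ 5 + a ^ 6 * r ^ 4 + a ^ 5 * r ^ 11 * ri + a ^ 5 * r ^ 10 * ri + 2 * a ^ 5 * r ^ 9
      * ri + a ^ 5 * r ^ 8 * ri + 2 * a ^ 5 * r ^ 8 - a ^ 5 * r ^ 7 * ri + 2 * a ^ 5 * r ^ 7 + a
      ^ 5 * r ^ 6 - a ^ 5 * r ^ 4 + 2 * a ^ 4 * r ^ 12 * ri + a ^ 4 * r ^ 11 * ri + a ^ 4 * r ^
      11 + a ^ 4 * r ^ 10 - a ^ 4 * r ^ 9 * ri + 2 * a ^ 4 * r ^ 9 - 2 * a ^ 4 * r ^ 8 * ri - 2 *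
      a ^ 4 * r ^ 7 - a ^ 4 * r ^ 6 - a ^ 4 * r ^ 5 + a ^ 3 * r ^ 13 * ri - a ^ 3 * r ^ 12 * ri +
      a ^ 3 * r ^ 12 - 2 * a ^ 3 * r ^ 11 * ri - a ^ 3 * r ^ 10 * ri - a ^ 3 * r ^ 10 - a ^ 3 * r
      ^ 9 * ri - 2 * a ^ 3 * r ^ 9 - 2 * a ^ 3 * r ^ 8 - a ^ 2 * r ^ 13 * ri - a ^ 2 * r ^ 12 *
      ri - a ^ 2 * r ^ 12 - a ^ 2 * r ^ 11) * h.hr

theorem E2R.u1_22 (h : E2R a r X ai ri P R Q W O L0 L1 L3 L4) :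
    (r ^ 2 * a * W) = X * ((r ^ 2 * a) * W) + (1 - X) * ((r ^ 2 * a) ^ 2 * (W * ri ^ 2 * ai)) :=
      by
  refine sub_eq_zero.1 (cancel (mul_ne_zero (mul_ne_zero h.nW h.n0) (pow_ne_zero 2 h.nr)) ?_)
  linear_combination
    (a ^ 2 * r ^ 4 * X * ai * ri ^ 2 - a ^ 2 * r ^ 4 * ai * ri ^ 2 - a * r ^ 2 * X + a * r ^ 2) *
      a * r ^ 2 * h.hW + (a ^ 4 * r ^ 6 * X * ri ^ 2 - a ^ 4 * r ^ 6 * ri ^ 2 + 2 * a ^ 3 * r ^ 7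
      * X * ri ^ 2 - 2 * a ^ 3 * r ^ 7 * ri ^ 2 + a ^ 2 * r ^ 8 * X * ri ^ 2 - a ^ 2 * r ^ 8 * ri
      ^ 2) * r ^ 2 * h.ha + (a ^ 4 * r ^ 7 * X * ri - a ^ 4 * r ^ 7 * ri + a ^ 4 * r ^ 6 * X - a
      ^ 4 * r ^ 6 + 2 * a ^ 3 * r ^ 8 * X * ri - 2 * a ^ 3 * r ^ 8 * ri + 2 * a ^ 3 * r ^ 7 * X -
      2 * a ^ 3 * r ^ 7 + a ^ 2 * r ^ 9 * X * ri - a ^ 2 * r ^ 9 * ri + a ^ 2 * r ^ 8 * X - a ^ 2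
      * r ^ 8) * h.hr

theorem E2R.u2_22 (h : E2R a r X ai ri P R Q W O L0 L1 L3 L4) :
    (r ^ 2 * a) ^ 3 * (W * ri ^ 4 * ai ^ 2) = (1 - (-a ^ 2 * r ^ 5 * X)) * ((r ^ 2 * a) * W) +
      (-a ^ 2 * r ^ 5 * X) * ((r ^ 2 * a) ^ 2 * (W * ri ^ 2 * ai)) := by
  refine sub_eq_zero.1 (cancel (mul_ne_zero (mul_ne_zero h.nW (pow_ne_zero 2 h.n0)) (pow_ne_zero 4 h.nr)) ?_)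
  linear_combination
    (a ^ 4 * r ^ 9 * X * ai * ri ^ 2 - a ^ 3 * r ^ 7 * X + a ^ 3 * r ^ 6 * ai ^ 2 * ri ^ 4 - a *
      r ^ 2) * a ^ 2 * r ^ 4 * h.hW + (a ^ 7 * r ^ 11 * X * ri ^ 2 + 2 * a ^ 6 * r ^ 12 * X * ri
      ^ 2 + a ^ 6 * r ^ 8 * ai * ri ^ 4 + a ^ 5 * r ^ 13 * X * ri ^ 2 + 2 * a ^ 5 * r ^ 9 * ai *
      ri ^ 4 + a ^ 5 * r ^ 8 * ri ^ 4 + a ^ 4 * r ^ 10 * ai * ri ^ 4 + 2 * a ^ 4 * r ^ 9 * ri ^ 4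
      + a ^ 3 * r ^ 10 * ri ^ 4) * r ^ 4 * h.ha + (a ^ 7 * r ^ 14 * X * ri + a ^ 7 * r ^ 13 * X +
      2 * a ^ 6 * r ^ 15 * X * ri + 2 * a ^ 6 * r ^ 14 * X + a ^ 5 * r ^ 16 * X * ri + a ^ 5 * r
      ^ 15 * X + a ^ 5 * r ^ 11 * ri ^ 3 + a ^ 5 * r ^ 10 * ri ^ 2 + a ^ 5 * r ^ 9 * ri + a ^ 5 *
      r ^ 8 + 2 * a ^ 4 * r ^ 12 * ri ^ 3 + 2 * a ^ 4 * r ^ 11 * ri ^ 2 + 2 * a ^ 4 * r ^ 10 * ri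
      + 2 * a ^ 4 * r ^ 9 + a ^ 3 * r ^ 13 * ri ^ 3 + a ^ 3 * r ^ 12 * ri ^ 2 + a ^ 3 * r ^ 11 *
      ri + a ^ 3 * r ^ 10) * h.hr

theorem E2R.u1_23 (h : E2R a r X ai ri P R Q W O L0 L1 L3 L4) :
    (r ^ 4 * a * Q) = L3 * ((r ^ 2 * a) * (r ^ 2 * a * W)) + (1 - L3) * ((r ^ 2 * a) ^ 3 * (W *
      ri ^ 4 * ai ^ 2)) := by
  refine sub_eq_zero.1 (cancel (mul_ne_zero (mul_ne_zero (mul_ne_zero (mul_ne_zero h.nL3 h.nW) h.nQ) (pow_ne_zero 2 h.n0)) (pow_ne_zero 4 h.nr)) ?_)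
  linear_combination
    (a ^ 3 * r ^ 6 * ai ^ 2 * ri ^ 4 * W - a ^ 2 * r ^ 4 * W) * ((r + 1) * (a + r ^ 3)) * (r + 1)
      * a ^ 2 * r ^ 4 * h.hL3 + (-a ^ 5 * r ^ 8 * ai ^ 2 * ri ^ 4 - a ^ 4 * r ^ 9 * ai ^ 2 * ri ^
      4 + a ^ 4 * r ^ 6 * ai ^ 2 * ri ^ 4 + a ^ 3 * r ^ 9 * ai ^ 2 * ri ^ 4 - a ^ 2 * r ^ 7 + a ^
      2 * r ^ 5) * (r + 1) * a ^ 2 * r ^ 4 * h.hW + (a ^ 4 * r ^ 7 + a ^ 4 * r ^ 6 + a ^ 3 * r ^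
      10 + a ^ 3 * r ^ 9 + a ^ 3 * r ^ 8 + a ^ 3 * r ^ 7 - a ^ 3 * r ^ 5 - a ^ 3 * r ^ 4 + a ^ 2
      * r ^ 11 + a ^ 2 * r ^ 10 - a ^ 2 * r ^ 8 - a ^ 2 * r ^ 7 - a ^ 2 * r ^ 6 - a ^ 2 * r ^ 5 -
      a * r ^ 9 - a * r ^ 8) * a ^ 2 * r ^ 4 * h.hQ + (-a ^ 8 * r ^ 11 * ai * ri ^ 4 - a ^ 8 * r
      ^ 10 * ai * ri ^ 4 - 3 * a ^ 7 * r ^ 12 * ai * ri ^ 4 - 3 * a ^ 7 * r ^ 11 * ai * ri ^ 4 -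
      a ^ 7 * r ^ 11 * ri ^ 4 - a ^ 7 * r ^ 10 * ri ^ 4 + a ^ 7 * r ^ 9 * ai * ri ^ 4 + a ^ 7 * r
      ^ 8 * ai * ri ^ 4 - 3 * a ^ 6 * r ^ 13 * ai * ri ^ 4 - 2 * a ^ 6 * r ^ 12 * ai * ri ^ 4 - 3
      * a ^ 6 * r ^ 12 * ri ^ 4 + a ^ 6 * r ^ 11 * ai * ri ^ 4 - 3 * a ^ 6 * r ^ 11 * ri ^ 4 + 2
      * a ^ 6 * r ^ 10 * ai * ri ^ 4 + 2 * a ^ 6 * r ^ 9 * ai * ri ^ 4 + a ^ 6 * r ^ 9 * ri ^ 4 +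
      a ^ 6 * r ^ 8 * ri ^ 4 - a ^ 5 * r ^ 14 * ai * ri ^ 4 + a ^ 5 * r ^ 13 * ai * ri ^ 4 - 3 *
      a ^ 5 * r ^ 13 * ri ^ 4 + 2 * a ^ 5 * r ^ 12 * ai * ri ^ 4 - 2 * a ^ 5 * r ^ 12 * ri ^ 4 +
      a ^ 5 * r ^ 11 * ai * ri ^ 4 + a ^ 5 * r ^ 11 * ri ^ 4 + a ^ 5 * r ^ 10 * ai * ri ^ 4 + 2 *
      a ^ 5 * r ^ 10 * ri ^ 4 + 2 * a ^ 5 * r ^ 9 * ri ^ 4 + a ^ 4 * r ^ 14 * ai * ri ^ 4 - a ^ 4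
      * r ^ 14 * ri ^ 4 + a ^ 4 * r ^ 13 * ai * ri ^ 4 + a ^ 4 * r ^ 13 * ri ^ 4 + 2 * a ^ 4 * r
      ^ 12 * ri ^ 4 + a ^ 4 * r ^ 11 * ri ^ 4 + a ^ 4 * r ^ 10 * ri ^ 4 + a ^ 3 * r ^ 14 * ri ^ 4
      + a ^ 3 * r ^ 13 * ri ^ 4) * r ^ 4 * h.ha + (-a ^ 7 * r ^ 14 * ri ^ 3 - a ^ 7 * r ^ 13 * ri
      ^ 3 - a ^ 7 * r ^ 13 * ri ^ 2 - a ^ 7 * r ^ 12 * ri ^ 2 - a ^ 7 * r ^ 12 * ri - a ^ 7 * r ^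
      11 * ri - a ^ 7 * r ^ 11 - a ^ 7 * r ^ 10 - 3 * a ^ 6 * r ^ 15 * ri ^ 3 - 3 * a ^ 6 * r ^
      14 * ri ^ 3 - 3 * a ^ 6 * r ^ 14 * ri ^ 2 - 3 * a ^ 6 * r ^ 13 * ri ^ 2 - 3 * a ^ 6 * r ^
      13 * ri + a ^ 6 * r ^ 12 * ri ^ 3 - 3 * a ^ 6 * r ^ 12 * ri - 3 * a ^ 6 * r ^ 12 + a ^ 6 *
      r ^ 11 * ri ^ 3 + a ^ 6 * r ^ 11 * ri ^ 2 - 3 * a ^ 6 * r ^ 11 + a ^ 6 * r ^ 10 * ri ^ 2 +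
      a ^ 6 * r ^ 10 * ri + a ^ 6 * r ^ 9 * ri + a ^ 6 * r ^ 9 + a ^ 6 * r ^ 8 - 3 * a ^ 5 * r ^
      16 * ri ^ 3 - 2 * a ^ 5 * r ^ 15 * ri ^ 3 - 3 * a ^ 5 * r ^ 15 * ri ^ 2 + a ^ 5 * r ^ 14 *
      ri ^ 3 - 2 * a ^ 5 * r ^ 14 * ri ^ 2 - 3 * a ^ 5 * r ^ 14 * ri + 2 * a ^ 5 * r ^ 13 * ri ^
      3 + a ^ 5 * r ^ 13 * ri ^ 2 - 2 * a ^ 5 * r ^ 13 * ri - 3 * a ^ 5 * r ^ 13 + 2 * a ^ 5 * r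
      ^ 12 * ri ^ 3 + 2 * a ^ 5 * r ^ 12 * ri ^ 2 + a ^ 5 * r ^ 12 * ri - 2 * a ^ 5 * r ^ 12 + 2
      * a ^ 5 * r ^ 11 * ri ^ 2 + 2 * a ^ 5 * r ^ 11 * ri + a ^ 5 * r ^ 11 + 2 * a ^ 5 * r ^ 10 *
      ri + 2 * a ^ 5 * r ^ 10 + 2 * a ^ 5 * r ^ 9 - a ^ 4 * r ^ 17 * ri ^ 3 + a ^ 4 * r ^ 16 * ri
      ^ 3 - a ^ 4 * r ^ 16 * ri ^ 2 + 2 * a ^ 4 * r ^ 15 * ri ^ 3 + a ^ 4 * r ^ 15 * ri ^ 2 - a ^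
      4 * r ^ 15 * ri + a ^ 4 * r ^ 14 * ri ^ 3 + 2 * a ^ 4 * r ^ 14 * ri ^ 2 + a ^ 4 * r ^ 14 *
      ri - a ^ 4 * r ^ 14 + a ^ 4 * r ^ 13 * ri ^ 3 + a ^ 4 * r ^ 13 * ri ^ 2 + 2 * a ^ 4 * r ^
      13 * ri + a ^ 4 * r ^ 13 + a ^ 4 * r ^ 12 * ri ^ 2 + a ^ 4 * r ^ 12 * ri + 2 * a ^ 4 * r ^
      12 + a ^ 4 * r ^ 11 * ri + a ^ 4 * r ^ 11 + a ^ 4 * r ^ 10 + a ^ 3 * r ^ 17 * ri ^ 3 + a ^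
      3 * r ^ 16 * ri ^ 3 + a ^ 3 * r ^ 16 * ri ^ 2 + a ^ 3 * r ^ 15 * ri ^ 2 + a ^ 3 * r ^ 15 *
      ri + a ^ 3 * r ^ 14 * ri + a ^ 3 * r ^ 14 + a ^ 3 * r ^ 13) * h.hr

theorem E2R.u2_23 (h : E2R a r X ai ri P R Q W O L0 L1 L3 L4) :
    (r ^ 2 * a) ^ 4 * (Q * ri ^ 4 * ai ^ 2) = (1 - (a ^ 2 * ri * L3)) * ((r ^ 2 * a) * (r ^ 2 * a
      * W)) + (a ^ 2 * ri * L3) * ((r ^ 2 * a) ^ 3 * (W * ri ^ 4 * ai ^ 2)) := by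
  refine sub_eq_zero.1 (cancel (mul_ne_zero (mul_ne_zero (mul_ne_zero (mul_ne_zero h.nL3 h.nW) h.nQ) (pow_ne_zero 2 h.n0)) (pow_ne_zero 5 h.nr)) ?_)
  linear_combination
    (-a ^ 5 * r ^ 6 * ai ^ 2 * ri ^ 5 * W + a ^ 4 * r ^ 4 * ri * W) * ((r + 1) * (a + r ^ 3)) *
      (r + 1) * a ^ 2 * r ^ 5 * h.hL3 + (-a ^ 5 * r ^ 9 * ai ^ 2 * ri ^ 5 + a ^ 5 * r ^ 7 * ai ^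
      2 * ri ^ 5 + a ^ 4 * r ^ 7 * ri - a ^ 4 * r ^ 6 - a ^ 4 * r ^ 5 * ri - a ^ 3 * r ^ 7 + a ^
      3 * r ^ 4 + a ^ 2 * r ^ 5) * (r + 1) * a ^ 2 * r ^ 5 * h.hW + (a ^ 7 * r ^ 11 * ai ^ 2 * ri
      ^ 4 + a ^ 7 * r ^ 10 * ai ^ 2 * ri ^ 4 + a ^ 6 * r ^ 14 * ai ^ 2 * ri ^ 4 + a ^ 6 * r ^ 13
      * ai ^ 2 * ri ^ 4 + a ^ 6 * r ^ 12 * ai ^ 2 * ri ^ 4 + a ^ 6 * r ^ 11 * ai ^ 2 * ri ^ 4 - a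
      ^ 6 * r ^ 9 * ai ^ 2 * ri ^ 4 - a ^ 6 * r ^ 8 * ai ^ 2 * ri ^ 4 + a ^ 5 * r ^ 15 * ai ^ 2 *
      ri ^ 4 + a ^ 5 * r ^ 14 * ai ^ 2 * ri ^ 4 - a ^ 5 * r ^ 12 * ai ^ 2 * ri ^ 4 - a ^ 5 * r ^
      11 * ai ^ 2 * ri ^ 4 - a ^ 5 * r ^ 10 * ai ^ 2 * ri ^ 4 - a ^ 5 * r ^ 9 * ai ^ 2 * ri ^ 4 -
      a ^ 4 * r ^ 13 * ai ^ 2 * ri ^ 4 - a ^ 4 * r ^ 12 * ai ^ 2 * ri ^ 4) * a ^ 2 * r ^ 5 * h.hQ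
      + (a ^ 9 * r ^ 11 * ai * ri ^ 4 + a ^ 9 * r ^ 10 * ai * ri ^ 4 + a ^ 8 * r ^ 14 * ai * ri ^
      4 + a ^ 8 * r ^ 13 * ai * ri ^ 4 - a ^ 8 * r ^ 12 * ai * ri ^ 5 + 2 * a ^ 8 * r ^ 12 * ai *
      ri ^ 4 - a ^ 8 * r ^ 11 * ai * ri ^ 5 + 2 * a ^ 8 * r ^ 11 * ai * ri ^ 4 + a ^ 8 * r ^ 11 *
      ri ^ 4 + a ^ 8 * r ^ 10 * ai * ri ^ 5 + a ^ 8 * r ^ 10 * ri ^ 4 + a ^ 8 * r ^ 9 * ai * ri ^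
      5 - a ^ 8 * r ^ 9 * ai * ri ^ 4 - a ^ 8 * r ^ 8 * ai * ri ^ 4 + 2 * a ^ 7 * r ^ 15 * ai *
      ri ^ 4 + 2 * a ^ 7 * r ^ 14 * ai * ri ^ 4 + a ^ 7 * r ^ 14 * ri ^ 4 - 2 * a ^ 7 * r ^ 13 *
      ai * ri ^ 5 + a ^ 7 * r ^ 13 * ai * ri ^ 4 + a ^ 7 * r ^ 13 * ri ^ 4 - 2 * a ^ 7 * r ^ 12 *
      ai * ri ^ 5 - a ^ 7 * r ^ 12 * ri ^ 5 + 2 * a ^ 7 * r ^ 12 * ri ^ 4 + 2 * a ^ 7 * r ^ 11 *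
      ai * ri ^ 5 - a ^ 7 * r ^ 11 * ai * ri ^ 4 - a ^ 7 * r ^ 11 * ri ^ 5 + 2 * a ^ 7 * r ^ 11 *
      ri ^ 4 + 2 * a ^ 7 * r ^ 10 * ai * ri ^ 5 - 2 * a ^ 7 * r ^ 10 * ai * ri ^ 4 + a ^ 7 * r ^
      10 * ri ^ 5 - 2 * a ^ 7 * r ^ 9 * ai * ri ^ 4 + a ^ 7 * r ^ 9 * ri ^ 5 - a ^ 7 * r ^ 9 * ri
      ^ 4 - a ^ 7 * r ^ 8 * ri ^ 4 + a ^ 6 * r ^ 16 * ai * ri ^ 4 + a ^ 6 * r ^ 15 * ai * ri ^ 4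
      + 2 * a ^ 6 * r ^ 15 * ri ^ 4 - a ^ 6 * r ^ 14 * ai * ri ^ 5 + 2 * a ^ 6 * r ^ 14 * ri ^ 4
      - a ^ 6 * r ^ 13 * ai * ri ^ 5 - 2 * a ^ 6 * r ^ 13 * ai * ri ^ 4 - 2 * a ^ 6 * r ^ 13 * ri
      ^ 5 + a ^ 6 * r ^ 13 * ri ^ 4 + a ^ 6 * r ^ 12 * ai * ri ^ 5 - 2 * a ^ 6 * r ^ 12 * ai * ri
      ^ 4 - 2 * a ^ 6 * r ^ 12 * ri ^ 5 + a ^ 6 * r ^ 11 * ai * ri ^ 5 - a ^ 6 * r ^ 11 * ai * ri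
      ^ 4 + 2 * a ^ 6 * r ^ 11 * ri ^ 5 - a ^ 6 * r ^ 11 * ri ^ 4 - a ^ 6 * r ^ 10 * ai * ri ^ 4
      + 2 * a ^ 6 * r ^ 10 * ri ^ 5 - 2 * a ^ 6 * r ^ 10 * ri ^ 4 - 2 * a ^ 6 * r ^ 9 * ri ^ 4 +
      a ^ 5 * r ^ 16 * ri ^ 4 + a ^ 5 * r ^ 15 * ri ^ 4 - a ^ 5 * r ^ 14 * ai * ri ^ 4 - a ^ 5 *
      r ^ 14 * ri ^ 5 - a ^ 5 * r ^ 13 * ai * ri ^ 4 - a ^ 5 * r ^ 13 * ri ^ 5 - 2 * a ^ 5 * r ^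
      13 * ri ^ 4 + a ^ 5 * r ^ 12 * ri ^ 5 - 2 * a ^ 5 * r ^ 12 * ri ^ 4 + a ^ 5 * r ^ 11 * ri ^
      5 - a ^ 5 * r ^ 11 * ri ^ 4 - a ^ 5 * r ^ 10 * ri ^ 4 - a ^ 4 * r ^ 14 * ri ^ 4 - a ^ 4 * r
      ^ 13 * ri ^ 4) * r ^ 5 * h.ha + (a ^ 8 * r ^ 15 * ri ^ 3 + a ^ 8 * r ^ 14 * ri ^ 3 + a ^ 8
      * r ^ 14 * ri ^ 2 + a ^ 8 * r ^ 14 + a ^ 8 * r ^ 13 * ri ^ 2 + a ^ 8 * r ^ 13 * ri + a ^ 8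
      * r ^ 13 + a ^ 8 * r ^ 12 * ri + a ^ 7 * r ^ 18 * ri ^ 3 + a ^ 7 * r ^ 17 * ri ^ 3 + a ^ 7
      * r ^ 17 * ri ^ 2 - a ^ 7 * r ^ 16 * ri ^ 4 + 2 * a ^ 7 * r ^ 16 * ri ^ 3 + a ^ 7 * r ^ 16
      * ri ^ 2 + a ^ 7 * r ^ 16 * ri - a ^ 7 * r ^ 15 * ri ^ 4 + a ^ 7 * r ^ 15 * ri ^ 3 + 2 * a
      ^ 7 * r ^ 15 * ri ^ 2 + a ^ 7 * r ^ 15 * ri + 3 * a ^ 7 * r ^ 15 + a ^ 7 * r ^ 14 * ri ^ 4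
      - a ^ 7 * r ^ 14 * ri ^ 3 + a ^ 7 * r ^ 14 * ri ^ 2 + 2 * a ^ 7 * r ^ 14 * ri + 3 * a ^ 7 *
      r ^ 14 + a ^ 7 * r ^ 13 * ri ^ 4 - a ^ 7 * r ^ 13 * ri ^ 2 + a ^ 7 * r ^ 13 * ri - a ^ 7 *
      r ^ 12 * ri - a ^ 7 * r ^ 12 - a ^ 7 * r ^ 11 + 2 * a ^ 6 * r ^ 19 * ri ^ 3 + 2 * a ^ 6 * r
      ^ 18 * ri ^ 3 + 2 * a ^ 6 * r ^ 18 * ri ^ 2 - 2 * a ^ 6 * r ^ 17 * ri ^ 4 + a ^ 6 * r ^ 17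
      * ri ^ 3 + 2 * a ^ 6 * r ^ 17 * ri ^ 2 + 2 * a ^ 6 * r ^ 17 * ri - 2 * a ^ 6 * r ^ 16 * ri
      ^ 4 - 2 * a ^ 6 * r ^ 16 * ri ^ 3 + a ^ 6 * r ^ 16 * ri ^ 2 + 2 * a ^ 6 * r ^ 16 * ri + 3 *
      a ^ 6 * r ^ 16 + 2 * a ^ 6 * r ^ 15 * ri ^ 4 - 3 * a ^ 6 * r ^ 15 * ri ^ 3 - 2 * a ^ 6 * r
      ^ 15 * ri ^ 2 + a ^ 6 * r ^ 15 * ri + 3 * a ^ 6 * r ^ 15 + 2 * a ^ 6 * r ^ 14 * ri ^ 4 - 3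
      * a ^ 6 * r ^ 14 * ri ^ 2 - 2 * a ^ 6 * r ^ 14 * ri - 3 * a ^ 6 * r ^ 13 * ri - 3 * a ^ 6 *
      r ^ 13 - 3 * a ^ 6 * r ^ 12 + a ^ 5 * r ^ 20 * ri ^ 3 + a ^ 5 * r ^ 19 * ri ^ 3 + a ^ 5 * r
      ^ 19 * ri ^ 2 - a ^ 5 * r ^ 18 * ri ^ 4 + a ^ 5 * r ^ 18 * ri ^ 2 + a ^ 5 * r ^ 18 * ri - a
      ^ 5 * r ^ 17 * ri ^ 4 - 3 * a ^ 5 * r ^ 17 * ri ^ 3 + a ^ 5 * r ^ 17 * ri + a ^ 5 * r ^ 17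
      + a ^ 5 * r ^ 16 * ri ^ 4 - 3 * a ^ 5 * r ^ 16 * ri ^ 3 - 3 * a ^ 5 * r ^ 16 * ri ^ 2 + a ^
      5 * r ^ 16 + a ^ 5 * r ^ 15 * ri ^ 4 - 3 * a ^ 5 * r ^ 15 * ri ^ 2 - 3 * a ^ 5 * r ^ 15 *
      ri - 3 * a ^ 5 * r ^ 14 * ri - 3 * a ^ 5 * r ^ 14 - 3 * a ^ 5 * r ^ 13 - a ^ 4 * r ^ 18 *
      ri ^ 3 - a ^ 4 * r ^ 17 * ri ^ 3 - a ^ 4 * r ^ 17 * ri ^ 2 - a ^ 4 * r ^ 16 * ri ^ 2 - a ^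
      4 * r ^ 16 * ri - a ^ 4 * r ^ 15 * ri - a ^ 4 * r ^ 15 - a ^ 4 * r ^ 14) * h.hr

theorem E2R.u1_24 (h : E2R a r X ai ri P R Q W O L0 L1 L3 L4) :
    (r ^ 4 * a ^ 2) = L4 * ((r ^ 2 * a) * (r ^ 4 * a * Q)) + (1 - L4) * ((r ^ 2 * a) ^ 4 * (Q *
      ri ^ 4 * ai ^ 2)) := by
  refine sub_eq_zero.1 (cancel (mul_ne_zero (mul_ne_zero (mul_ne_zero h.nL4 h.nQ) (pow_ne_zero 2 h.n0)) (pow_ne_zero 4 h.nr)) ?_)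
  linear_combination
    (a ^ 4 * r ^ 8 * ai ^ 2 * ri ^ 4 * Q - a ^ 2 * r ^ 6 * Q) * (r + 1) * a ^ 2 * r ^ 4 * h.hL4 +
      (a ^ 4 * r ^ 11 * ai ^ 2 * ri ^ 4 - a ^ 4 * r ^ 8 * ai ^ 2 * ri ^ 4 - a ^ 4 * r ^ 6 + a ^ 2
      * r ^ 6) * a ^ 2 * r ^ 4 * h.hQ + (a ^ 6 * r ^ 11 * ai * ri ^ 4 - a ^ 6 * r ^ 8 * ai * ri ^
      4 + a ^ 5 * r ^ 12 * ai * ri ^ 4 + a ^ 5 * r ^ 11 * ri ^ 4 - a ^ 5 * r ^ 9 * ai * ri ^ 4 -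
      a ^ 5 * r ^ 8 * ri ^ 4 + a ^ 4 * r ^ 12 * ri ^ 4 - a ^ 4 * r ^ 9 * ri ^ 4) * r ^ 4 * h.ha +
      (a ^ 5 * r ^ 14 * ri ^ 3 + a ^ 5 * r ^ 13 * ri ^ 2 + a ^ 5 * r ^ 12 * ri - a ^ 5 * r ^ 11 *
      ri ^ 3 + a ^ 5 * r ^ 11 - a ^ 5 * r ^ 10 * ri ^ 2 - a ^ 5 * r ^ 9 * ri - a ^ 5 * r ^ 8 + a
      ^ 4 * r ^ 15 * ri ^ 3 + a ^ 4 * r ^ 14 * ri ^ 2 + a ^ 4 * r ^ 13 * ri - a ^ 4 * r ^ 12 * ri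
      ^ 3 + a ^ 4 * r ^ 12 - a ^ 4 * r ^ 11 * ri ^ 2 - a ^ 4 * r ^ 10 * ri - a ^ 4 * r ^ 9) *
      h.hr + (-a ^ 5 * r ^ 8 + a ^ 4 * r ^ 8) * h.rel

theorem E2R.u2_24 (h : E2R a r X ai ri P R Q W O L0 L1 L3 L4) :
    (r ^ 2 * a) ^ 5 * (ri ^ 4 * ai ^ 2) = (1 - (r ^ 3 * L4)) * ((r ^ 2 * a) * (r ^ 4 * a * Q)) +
      (r ^ 3 * L4) * ((r ^ 2 * a) ^ 4 * (Q * ri ^ 4 * ai ^ 2)) := by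
  refine sub_eq_zero.1 (cancel (mul_ne_zero (mul_ne_zero (mul_ne_zero h.nL4 h.nQ) (pow_ne_zero 2 h.n0)) (pow_ne_zero 4 h.nr)) ?_)
  linear_combination
    (-a ^ 4 * r ^ 11 * ai ^ 2 * ri ^ 4 * Q + a ^ 2 * r ^ 9 * Q) * (r + 1) * a ^ 2 * r ^ 4 * h.hL4
      + (-a ^ 6 * r ^ 11 * ai ^ 2 * ri ^ 4 + a ^ 4 * r ^ 11 * ai ^ 2 * ri ^ 4 + a ^ 4 * r ^ 9 - a
      ^ 4 * r ^ 6) * a ^ 2 * r ^ 4 * h.hQ + (a ^ 8 * r ^ 10 * ai * ri ^ 4 - a ^ 7 * r ^ 12 * ai *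
      ri ^ 4 + a ^ 7 * r ^ 10 * ri ^ 4 - a ^ 6 * r ^ 14 * ai * ri ^ 4 - a ^ 6 * r ^ 13 * ai * ri
      ^ 4 - a ^ 6 * r ^ 12 * ri ^ 4 + a ^ 6 * r ^ 11 * ai * ri ^ 4 - a ^ 5 * r ^ 14 * ri ^ 4 - a
      ^ 5 * r ^ 13 * ri ^ 4 + a ^ 5 * r ^ 12 * ai * ri ^ 4 + a ^ 5 * r ^ 11 * ri ^ 4 + a ^ 4 * r
      ^ 12 * ri ^ 4) * r ^ 4 * h.ha + (a ^ 7 * r ^ 13 * ri ^ 3 + a ^ 7 * r ^ 12 * ri ^ 2 + a ^ 7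
      * r ^ 11 * ri + a ^ 7 * r ^ 10 - a ^ 6 * r ^ 15 * ri ^ 3 - a ^ 6 * r ^ 14 * ri ^ 2 - a ^ 6
      * r ^ 13 * ri - a ^ 6 * r ^ 12 - a ^ 5 * r ^ 17 * ri ^ 3 - a ^ 5 * r ^ 16 * ri ^ 3 - a ^ 5
      * r ^ 16 * ri ^ 2 - a ^ 5 * r ^ 15 * ri ^ 2 - a ^ 5 * r ^ 15 * ri + a ^ 5 * r ^ 14 * ri ^ 3
      - a ^ 5 * r ^ 14 * ri - a ^ 5 * r ^ 14 + a ^ 5 * r ^ 13 * ri ^ 2 - a ^ 5 * r ^ 13 + a ^ 5 *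
      r ^ 12 * ri + a ^ 5 * r ^ 11 + a ^ 4 * r ^ 15 * ri ^ 3 + a ^ 4 * r ^ 14 * ri ^ 2 + a ^ 4 *
      r ^ 13 * ri + a ^ 4 * r ^ 12) * h.hr + (a ^ 5 * r ^ 11 - a ^ 4 * r ^ 11) * h.rel

theorem E2R.u1_30 (h : E2R a r X ai ri P R Q W O L0 L1 L3 L4) :
    (a * Q) = L0 * ((r * a) * 1) + (1 - L0) * ((r * a) ^ 0 * 1) := by
  refine sub_eq_zero.1 (cancel (mul_ne_zero h.n1 h.nQ) ?_)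
  linear_combination
    (-a * r + 1) * (r + 1) * h.hL0 + (a ^ 2 * r ^ 3 + a ^ 2 * r ^ 2 - a * r - a) * h.hQ + (a * r
      + a - r - 1) * h.rel

theorem E2R.u2_30 (h : E2R a r X ai ri P R Q W O L0 L1 L3 L4) :
    (r * a) ^ 1 * (Q * ai ^ 2) = (1 - (r ^ 3 * L0)) * ((r * a) * 1) + (r ^ 3 * L0) * ((r * a) ^ 0
      * 1) := by
  refine sub_eq_zero.1 (cancel (mul_ne_zero (mul_ne_zero h.n1 h.nQ) (pow_ne_zero 2 h.n0)) ?_)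
  linear_combination
    (a * r ^ 4 - r ^ 3) * (r + 1) * a ^ 2 * h.hL0 + (a ^ 2 * r ^ 4 * ai ^ 2 + a ^ 2 * r ^ 3 * ai
      ^ 2 - a * r ^ 2 * ai ^ 2 - a * r * ai ^ 2) * a ^ 2 * h.hQ + (a ^ 4 * r ^ 4 * ai + a ^ 4 * r
      ^ 3 * ai + a ^ 3 * r ^ 5 * ai + a ^ 3 * r ^ 4 * ai + a ^ 3 * r ^ 4 + a ^ 3 * r ^ 3 - a ^ 3
      * r ^ 2 * ai - a ^ 3 * r * ai + a ^ 2 * r ^ 5 + a ^ 2 * r ^ 4 - a ^ 2 * r ^ 3 * ai - a ^ 2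
      * r ^ 2 * ai - a ^ 2 * r ^ 2 - a ^ 2 * r - a * r ^ 3 - a * r ^ 2) * h.ha + (-a ^ 2 * r ^ 2
      - a ^ 2 * r + a * r ^ 2 + a * r) * h.rel

theorem E2R.u1_31 (h : E2R a r X ai ri P R Q W O L0 L1 L3 L4) :
    (r ^ 2 * a * W) = L1 * ((r * a) * (a * Q)) + (1 - L1) * ((r * a) ^ 1 * (Q * ai ^ 2)) := by
  refine sub_eq_zero.1 (cancel (mul_ne_zero (mul_ne_zero (mul_ne_zero h.nL1 h.nW) h.nQ) (pow_ne_zero 2 h.n0)) ?_)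
  linear_combination
    (-a ^ 2 * r * Q + a * r * ai ^ 2 * Q) * ((r + 1) * (a + r ^ 3)) * (r + 1) * a ^ 2 * h.hL1 +
      (a ^ 3 * r ^ 2 + a ^ 2 * r ^ 5 - a ^ 2 * r ^ 2 - a * r ^ 5) * (r + 1) * a ^ 2 * h.hW + (-a
      ^ 4 * r ^ 2 * ai ^ 2 - a ^ 4 * r * ai ^ 2 - 2 * a ^ 3 * r ^ 5 * ai ^ 2 + a ^ 3 * r ^ 5 - 2
      * a ^ 3 * r ^ 4 * ai ^ 2 + a ^ 3 * r ^ 4 - a ^ 3 * r ^ 3 + a ^ 3 * r ^ 2 * ai ^ 2 - a ^ 3 *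
      r ^ 2 + a ^ 3 * r * ai ^ 2 - a ^ 2 * r ^ 8 * ai ^ 2 + a ^ 2 * r ^ 8 - a ^ 2 * r ^ 7 * ai ^
      2 + a ^ 2 * r ^ 7 - a ^ 2 * r ^ 6 + a ^ 2 * r ^ 5 * ai ^ 2 - a ^ 2 * r ^ 5 + a ^ 2 * r ^ 4
      * ai ^ 2 + a ^ 2 * r ^ 3 * ai ^ 2 + a ^ 2 * r ^ 2 * ai ^ 2 + a * r ^ 6 * ai ^ 2 + a * r ^ 5
      * ai ^ 2) * a ^ 2 * h.hQ + (-a ^ 6 * r ^ 2 * ai - a ^ 6 * r * ai - 2 * a ^ 5 * r ^ 5 * ai -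
      2 * a ^ 5 * r ^ 4 * ai - a ^ 5 * r ^ 3 * ai - a ^ 5 * r ^ 2 + a ^ 5 * r * ai - a ^ 5 * r -
      a ^ 4 * r ^ 8 * ai - a ^ 4 * r ^ 7 * ai - 2 * a ^ 4 * r ^ 6 * ai - a ^ 4 * r ^ 5 * ai - 2 *
      a ^ 4 * r ^ 5 + a ^ 4 * r ^ 4 * ai - 2 * a ^ 4 * r ^ 4 + 2 * a ^ 4 * r ^ 3 * ai - a ^ 4 * r
      ^ 3 + 2 * a ^ 4 * r ^ 2 * ai + a ^ 4 * r - a ^ 3 * r ^ 9 * ai - a ^ 3 * r ^ 8 * ai - a ^ 3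
      * r ^ 8 - a ^ 3 * r ^ 7 + 2 * a ^ 3 * r ^ 6 * ai - 2 * a ^ 3 * r ^ 6 + 2 * a ^ 3 * r ^ 5 *
      ai - a ^ 3 * r ^ 5 + a ^ 3 * r ^ 4 * ai + a ^ 3 * r ^ 4 + a ^ 3 * r ^ 3 * ai + 2 * a ^ 3 *
      r ^ 3 + 2 * a ^ 3 * r ^ 2 - a ^ 2 * r ^ 9 - a ^ 2 * r ^ 8 + a ^ 2 * r ^ 7 * ai + a ^ 2 * r
      ^ 6 * ai + 2 * a ^ 2 * r ^ 6 + 2 * a ^ 2 * r ^ 5 + a ^ 2 * r ^ 4 + a ^ 2 * r ^ 3 + a * r ^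
      7 + a * r ^ 6) * h.ha + (a ^ 5 * r ^ 3 + a ^ 5 * r ^ 2 + a ^ 4 * r ^ 6 + a ^ 4 * r ^ 5 + a
      ^ 4 * r ^ 4 + a ^ 4 * r + a ^ 3 * r ^ 7 - a ^ 3 * r - a ^ 2 * r ^ 7 - a ^ 2 * r ^ 4 - a ^ 2
      * r ^ 3 - a ^ 2 * r ^ 2 - a * r ^ 6 - a * r ^ 5) * h.rel

theorem E2R.u2_31 (h : E2R a r X ai ri P R Q W O L0 L1 L3 L4) :
    (r * a) ^ 2 * (W * ri ^ 4 * ai ^ 2) = (1 - (a ^ 2 * ri * L1)) * ((r * a) * (a * Q)) + (a ^ 2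
      * ri * L1) * ((r * a) ^ 1 * (Q * ai ^ 2)) := by
  refine sub_eq_zero.1 (cancel (mul_ne_zero (mul_ne_zero (mul_ne_zero (mul_ne_zero h.nL1 h.nW) h.nQ) (pow_ne_zero 2 h.n0)) (pow_ne_zero 4 h.nr)) ?_)
  linear_combination
    (a ^ 4 * r * ri * Q - a ^ 3 * r * ai ^ 2 * ri * Q) * ((r + 1) * (a + r ^ 3)) * (r + 1) * a ^
      2 * r ^ 4 * h.hL1 + (a ^ 4 * r ^ 2 * ai ^ 2 * ri ^ 4 + a ^ 3 * r ^ 5 * ai ^ 2 * ri ^ 4 - a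
      ^ 3 * r ^ 2 * ai ^ 2 * ri ^ 4 - a ^ 2 * r ^ 5 * ai ^ 2 * ri ^ 4) * (r + 1) * a ^ 2 * r ^ 4
      * h.hW + (-a ^ 5 * r ^ 5 * ri - a ^ 5 * r ^ 4 * ri + a ^ 5 * r ^ 3 * ri + a ^ 5 * r ^ 2 *
      ri - a ^ 5 * r ^ 2 - a ^ 5 * r - a ^ 4 * r ^ 8 * ri - a ^ 4 * r ^ 7 * ri + a ^ 4 * r ^ 6 *
      ri + a ^ 4 * r ^ 5 * ai ^ 2 * ri + a ^ 4 * r ^ 5 * ri - 2 * a ^ 4 * r ^ 5 + a ^ 4 * r ^ 4 *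
      ai ^ 2 * ri - 2 * a ^ 4 * r ^ 4 - a ^ 4 * r ^ 3 * ai ^ 2 * ri - a ^ 4 * r ^ 2 * ai ^ 2 * ri
      + a ^ 4 * r ^ 2 + a ^ 4 * r + a ^ 3 * r ^ 8 * ai ^ 2 * ri - a ^ 3 * r ^ 8 + a ^ 3 * r ^ 7 *
      ai ^ 2 * ri - a ^ 3 * r ^ 7 - a ^ 3 * r ^ 6 * ai ^ 2 * ri - a ^ 3 * r ^ 5 * ai ^ 2 * ri + 2
      * a ^ 3 * r ^ 5 + 2 * a ^ 3 * r ^ 4 + a ^ 2 * r ^ 8 + a ^ 2 * r ^ 7) * a ^ 2 * r ^ 4 * h.hQ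
      + (a ^ 7 * r ^ 5 * ai * ri ^ 4 + a ^ 7 * r ^ 4 * ai * ri ^ 4 + a ^ 6 * r ^ 8 * ai * ri ^ 4
      + a ^ 6 * r ^ 7 * ai * ri ^ 4 + 2 * a ^ 6 * r ^ 6 * ai * ri ^ 4 + a ^ 6 * r ^ 5 * ai * ri ^
      4 + a ^ 6 * r ^ 5 * ai * ri + a ^ 6 * r ^ 5 * ri ^ 4 - a ^ 6 * r ^ 4 * ai * ri ^ 4 + a ^ 6
      * r ^ 4 * ai * ri + a ^ 6 * r ^ 4 * ri ^ 4 - a ^ 6 * r ^ 3 * ai * ri - a ^ 6 * r ^ 2 * ai *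
      ri + 2 * a ^ 5 * r ^ 9 * ai * ri ^ 4 + a ^ 5 * r ^ 8 * ai * ri ^ 4 + a ^ 5 * r ^ 8 * ai *
      ri + a ^ 5 * r ^ 8 * ri ^ 4 + a ^ 5 * r ^ 7 * ai * ri + a ^ 5 * r ^ 7 * ri ^ 4 - a ^ 5 * r
      ^ 6 * ai * ri ^ 4 + 2 * a ^ 5 * r ^ 6 * ri ^ 4 - 2 * a ^ 5 * r ^ 5 * ai * ri ^ 4 + a ^ 5 *
      r ^ 5 * ri ^ 4 + a ^ 5 * r ^ 5 * ri - a ^ 5 * r ^ 4 * ai * ri - a ^ 5 * r ^ 4 * ri ^ 4 + a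
      ^ 5 * r ^ 4 * ri - a ^ 5 * r ^ 3 * ai * ri - a ^ 5 * r ^ 3 * ri - a ^ 5 * r ^ 2 * ri + a ^
      4 * r ^ 10 * ai * ri ^ 4 - a ^ 4 * r ^ 9 * ai * ri ^ 4 + a ^ 4 * r ^ 9 * ai * ri + 2 * a ^
      4 * r ^ 9 * ri ^ 4 - 2 * a ^ 4 * r ^ 8 * ai * ri ^ 4 + a ^ 4 * r ^ 8 * ai * ri + a ^ 4 * r
      ^ 8 * ri ^ 4 + a ^ 4 * r ^ 8 * ri - a ^ 4 * r ^ 7 * ai * ri ^ 4 - a ^ 4 * r ^ 7 * ai * ri +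
      a ^ 4 * r ^ 7 * ri - a ^ 4 * r ^ 6 * ai * ri ^ 4 - a ^ 4 * r ^ 6 * ai * ri - a ^ 4 * r ^ 6
      * ri ^ 4 - 2 * a ^ 4 * r ^ 5 * ri ^ 4 - a ^ 4 * r ^ 4 * ri - a ^ 4 * r ^ 3 * ri - a ^ 3 * r
      ^ 10 * ai * ri ^ 4 + a ^ 3 * r ^ 10 * ri ^ 4 - a ^ 3 * r ^ 9 * ai * ri ^ 4 - a ^ 3 * r ^ 9
      * ri ^ 4 + a ^ 3 * r ^ 9 * ri - 2 * a ^ 3 * r ^ 8 * ri ^ 4 + a ^ 3 * r ^ 8 * ri - a ^ 3 * r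
      ^ 7 * ri ^ 4 - a ^ 3 * r ^ 7 * ri - a ^ 3 * r ^ 6 * ri ^ 4 - a ^ 3 * r ^ 6 * ri - a ^ 2 * r
      ^ 10 * ri ^ 4 - a ^ 2 * r ^ 9 * ri ^ 4) * r ^ 4 * h.ha + (-a ^ 8 * r ^ 8 - a ^ 8 * r ^ 7 +
      a ^ 8 * r ^ 6 + a ^ 8 * r ^ 5 - a ^ 7 * r ^ 11 - a ^ 7 * r ^ 10 + a ^ 7 * r ^ 7 + a ^ 7 * r
      ^ 6 - a ^ 6 * r ^ 12 - a ^ 6 * r ^ 11 + a ^ 6 * r ^ 10 + a ^ 6 * r ^ 9 + a ^ 6 * r ^ 8 * ri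
      ^ 3 + a ^ 6 * r ^ 7 * ri ^ 3 + a ^ 6 * r ^ 7 * ri ^ 2 + a ^ 6 * r ^ 6 * ri ^ 2 + a ^ 6 * r
      ^ 6 * ri + a ^ 6 * r ^ 5 * ri + a ^ 6 * r ^ 5 + a ^ 6 * r ^ 4 + a ^ 5 * r ^ 11 * ri ^ 3 + a
      ^ 5 * r ^ 10 * ri ^ 3 + a ^ 5 * r ^ 10 * ri ^ 2 + 2 * a ^ 5 * r ^ 9 * ri ^ 3 + a ^ 5 * r ^
      9 * ri ^ 2 + a ^ 5 * r ^ 9 * ri + a ^ 5 * r ^ 8 * ri ^ 3 + 2 * a ^ 5 * r ^ 8 * ri ^ 2 + a ^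
      5 * r ^ 8 * ri + 2 * a ^ 5 * r ^ 8 - a ^ 5 * r ^ 7 * ri ^ 3 + a ^ 5 * r ^ 7 * ri ^ 2 + 2 *
      a ^ 5 * r ^ 7 * ri + 2 * a ^ 5 * r ^ 7 - a ^ 5 * r ^ 6 * ri ^ 2 + a ^ 5 * r ^ 6 * ri + a ^
      5 * r ^ 6 - a ^ 5 * r ^ 5 * ri - a ^ 5 * r ^ 4 + 2 * a ^ 4 * r ^ 12 * ri ^ 3 + a ^ 4 * r ^
      11 * ri ^ 3 + 2 * a ^ 4 * r ^ 11 * ri ^ 2 + a ^ 4 * r ^ 11 + a ^ 4 * r ^ 10 * ri ^ 2 + 2 *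
      a ^ 4 * r ^ 10 * ri + a ^ 4 * r ^ 10 - a ^ 4 * r ^ 9 * ri ^ 3 + a ^ 4 * r ^ 9 * ri + 2 * a
      ^ 4 * r ^ 9 - 2 * a ^ 4 * r ^ 8 * ri ^ 3 - a ^ 4 * r ^ 8 * ri ^ 2 + a ^ 4 * r ^ 8 - 2 * a ^
      4 * r ^ 7 * ri ^ 2 - a ^ 4 * r ^ 7 * ri - a ^ 4 * r ^ 7 - 2 * a ^ 4 * r ^ 6 * ri - 2 * a ^
      4 * r ^ 6 - 2 * a ^ 4 * r ^ 5 + a ^ 3 * r ^ 13 * ri ^ 3 - a ^ 3 * r ^ 12 * ri ^ 3 + a ^ 3 *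
      r ^ 12 * ri ^ 2 + a ^ 3 * r ^ 12 - 2 * a ^ 3 * r ^ 11 * ri ^ 3 - a ^ 3 * r ^ 11 * ri ^ 2 +
      a ^ 3 * r ^ 11 * ri + a ^ 3 * r ^ 11 - a ^ 3 * r ^ 10 * ri ^ 3 - 2 * a ^ 3 * r ^ 10 * ri ^
      2 - a ^ 3 * r ^ 10 * ri - a ^ 3 * r ^ 9 * ri ^ 3 - a ^ 3 * r ^ 9 * ri ^ 2 - 2 * a ^ 3 * r ^
      9 * ri - 2 * a ^ 3 * r ^ 9 - a ^ 3 * r ^ 8 * ri ^ 2 - a ^ 3 * r ^ 8 * ri - 2 * a ^ 3 * r ^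
      8 - a ^ 3 * r ^ 7 * ri - a ^ 3 * r ^ 7 - a ^ 3 * r ^ 6 - a ^ 2 * r ^ 13 * ri ^ 3 - a ^ 2 *
      r ^ 12 * ri ^ 3 - a ^ 2 * r ^ 12 * ri ^ 2 - a ^ 2 * r ^ 11 * ri ^ 2 - a ^ 2 * r ^ 11 * ri -
      a ^ 2 * r ^ 10 * ri - a ^ 2 * r ^ 10 - a ^ 2 * r ^ 9) * h.hr + (-a ^ 6 * r ^ 6 - a ^ 6 * r
      ^ 5 - a ^ 5 * r ^ 9 - a ^ 5 * r ^ 8 - a ^ 5 * r ^ 7 - a ^ 5 * r ^ 4 - a ^ 4 * r ^ 10 + a ^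
      4 * r ^ 4 + a ^ 3 * r ^ 10 + a ^ 3 * r ^ 7 + a ^ 3 * r ^ 6 + a ^ 3 * r ^ 5 + a ^ 2 * r ^ 9
      + a ^ 2 * r ^ 8) * h.rel

theorem E2R.u1_32 (h : E2R a r X ai ri P R Q W O L0 L1 L3 L4) :
    (O * W * ri ^ 2) = X * ((r * a) * (r ^ 2 * a * W)) + (1 - X) * ((r * a) ^ 2 * (W * ri ^ 4 *
      ai ^ 2)) := by
  refine sub_eq_zero.1 (cancel (mul_ne_zero (mul_ne_zero h.nW (pow_ne_zero 2 h.n0)) (pow_ne_zero 4 h.nr)) ?_)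
  linear_combination
    (ri ^ 2 * W) * ((r + 1) * (a + r ^ 3)) * a ^ 2 * r ^ 4 * h.hO + (a ^ 2 * r ^ 5 * X * ri ^ 2 -
      a ^ 2 * r ^ 3 * X + a ^ 2 * r ^ 2 * X * ai ^ 2 * ri ^ 4 - a ^ 2 * r ^ 2 * ai ^ 2 * ri ^ 4 -
      X * ri ^ 2 + ri ^ 2) * a ^ 2 * r ^ 4 * h.hW + (a ^ 5 * r ^ 4 * X * ai * ri ^ 4 - a ^ 5 * r
      ^ 4 * ai * ri ^ 4 + 2 * a ^ 4 * r ^ 5 * X * ai * ri ^ 4 - 2 * a ^ 4 * r ^ 5 * ai * ri ^ 4 +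
      a ^ 4 * r ^ 4 * X * ri ^ 4 - a ^ 4 * r ^ 4 * ri ^ 4 + a ^ 3 * r ^ 6 * X * ai * ri ^ 4 - a ^
      3 * r ^ 6 * ai * ri ^ 4 + 2 * a ^ 3 * r ^ 5 * X * ri ^ 4 - 2 * a ^ 3 * r ^ 5 * ri ^ 4 + a ^
      2 * r ^ 6 * X * ri ^ 4 - a ^ 2 * r ^ 6 * ri ^ 4) * r ^ 4 * h.ha + (a ^ 6 * r ^ 10 * X * ri
      + a ^ 6 * r ^ 9 * X + 2 * a ^ 5 * r ^ 11 * X * ri + 2 * a ^ 5 * r ^ 10 * X + a ^ 4 * r ^ 12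
      * X * ri + a ^ 4 * r ^ 11 * X + a ^ 4 * r ^ 7 * X * ri ^ 3 - a ^ 4 * r ^ 7 * ri ^ 3 + a ^ 4
      * r ^ 6 * X * ri ^ 2 - a ^ 4 * r ^ 6 * ri ^ 2 + 2 * a ^ 3 * r ^ 8 * X * ri ^ 3 - 2 * a ^ 3
      * r ^ 8 * ri ^ 3 + 2 * a ^ 3 * r ^ 7 * X * ri ^ 2 - 2 * a ^ 3 * r ^ 7 * ri ^ 2 + a ^ 2 * r
      ^ 9 * X * ri ^ 3 - a ^ 2 * r ^ 9 * ri ^ 3 + a ^ 2 * r ^ 8 * X * ri ^ 2 - a ^ 2 * r ^ 8 * ri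
      ^ 2) * h.hr

theorem E2R.u2_32 (h : E2R a r X ai ri P R Q W O L0 L1 L3 L4) :
    (r * a) ^ 3 * (O * W * ai) = (1 - (-a ^ 2 * r ^ 5 * X)) * ((r * a) * (r ^ 2 * a * W)) + (-a ^
      2 * r ^ 5 * X) * ((r * a) ^ 2 * (W * ri ^ 4 * ai ^ 2)) := by
  refine sub_eq_zero.1 (cancel (mul_ne_zero (mul_ne_zero h.nW (pow_ne_zero 2 h.n0)) (pow_ne_zero 4 h.nr)) ?_)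
  linear_combination
    (a ^ 3 * r ^ 3 * ai * W) * ((r + 1) * (a + r ^ 3)) * a ^ 2 * r ^ 4 * h.hO + (a ^ 5 * r ^ 8 *
      X * ai - a ^ 4 * r ^ 8 * X + a ^ 4 * r ^ 7 * X * ai ^ 2 * ri ^ 4 - a ^ 3 * r ^ 3 * X * ai +
      a ^ 3 * r ^ 3 * ai - a ^ 2 * r ^ 3) * a ^ 2 * r ^ 4 * h.hW + (a ^ 8 * r ^ 10 * X + 2 * a ^
      7 * r ^ 11 * X + a ^ 7 * r ^ 9 * X * ai * ri ^ 4 + a ^ 6 * r ^ 12 * X + 2 * a ^ 6 * r ^ 10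
      * X * ai * ri ^ 4 + a ^ 6 * r ^ 9 * X * ri ^ 4 - a ^ 6 * r ^ 5 * X + a ^ 6 * r ^ 5 + a ^ 5
      * r ^ 11 * X * ai * ri ^ 4 + 2 * a ^ 5 * r ^ 10 * X * ri ^ 4 - 2 * a ^ 5 * r ^ 6 * X + 2 *
      a ^ 5 * r ^ 6 + a ^ 4 * r ^ 11 * X * ri ^ 4 - a ^ 4 * r ^ 7 * X + a ^ 4 * r ^ 7) * r ^ 4 *
      h.ha + (a ^ 6 * r ^ 12 * X * ri ^ 3 + a ^ 6 * r ^ 11 * X * ri ^ 2 + a ^ 6 * r ^ 10 * X * ri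
      + a ^ 6 * r ^ 9 * X + 2 * a ^ 5 * r ^ 13 * X * ri ^ 3 + 2 * a ^ 5 * r ^ 12 * X * ri ^ 2 + 2
      * a ^ 5 * r ^ 11 * X * ri + 2 * a ^ 5 * r ^ 10 * X + a ^ 4 * r ^ 14 * X * ri ^ 3 + a ^ 4 *
      r ^ 13 * X * ri ^ 2 + a ^ 4 * r ^ 12 * X * ri + a ^ 4 * r ^ 11 * X) * h.hr

theorem E2R.u1_33 (h : E2R a r X ai ri P R Q W O L0 L1 L3 L4) :
    (O * r ^ 2 * Q) = L3 * ((r * a) * (O * W * ri ^ 2)) + (1 - L3) * ((r * a) ^ 3 * (O * W * ai))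
      := by
  refine sub_eq_zero.1 (cancel (mul_ne_zero (mul_ne_zero (mul_ne_zero (mul_ne_zero h.nL3 h.nW) h.nQ) h.n0) (pow_ne_zero 2 h.nr)) ?_)
  linear_combination
    (a ^ 3 * r ^ 3 * ai * W * O - a * r * ri ^ 2 * W * O) * ((r + 1) * (a + r ^ 3)) * (r + 1) * a
      * r ^ 2 * h.hL3 + (-a ^ 5 * r ^ 5 * ai * O - a ^ 4 * r ^ 6 * ai * O + a ^ 4 * r ^ 3 * ai *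
      O + a ^ 3 * r ^ 6 * ai * O - a * r ^ 4 * ri ^ 2 * O + a * r ^ 2 * ri ^ 2 * O) * (r + 1) * a
      * r ^ 2 * h.hW + (a ^ 3 * r ^ 5 * O + a ^ 3 * r ^ 4 * O + a ^ 2 * r ^ 8 * O + a ^ 2 * r ^ 7
      * O + a ^ 2 * r ^ 6 * O + a ^ 2 * r ^ 5 * O - a ^ 2 * r ^ 3 * O - a ^ 2 * r ^ 2 * O + a * r
      ^ 9 * O + a * r ^ 8 * O - a * r ^ 6 * O - a * r ^ 5 * O - a * r ^ 4 * O - a * r ^ 3 * O - r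
      ^ 7 * O - r ^ 6 * O) * a * r ^ 2 * h.hQ + (-a ^ 7 * r ^ 8 * O - a ^ 7 * r ^ 7 * O - 3 * a ^
      6 * r ^ 9 * O - 3 * a ^ 6 * r ^ 8 * O + a ^ 6 * r ^ 6 * O + a ^ 6 * r ^ 5 * O - 3 * a ^ 5 *
      r ^ 10 * O - 2 * a ^ 5 * r ^ 9 * O + a ^ 5 * r ^ 8 * O + 2 * a ^ 5 * r ^ 7 * O + 2 * a ^ 5
      * r ^ 6 * O - a ^ 4 * r ^ 11 * O + a ^ 4 * r ^ 10 * O + 2 * a ^ 4 * r ^ 9 * O + a ^ 4 * r ^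
      8 * O + a ^ 4 * r ^ 7 * O + a ^ 3 * r ^ 11 * O + a ^ 3 * r ^ 10 * O) * r ^ 2 * h.ha + (-a ^
      4 * r ^ 8 * ri * O - a ^ 4 * r ^ 7 * ri * O - a ^ 4 * r ^ 7 * O + a ^ 4 * r ^ 6 * ri * O -
      a ^ 4 * r ^ 6 * O + a ^ 4 * r ^ 5 * ri * O + a ^ 4 * r ^ 5 * O + a ^ 4 * r ^ 4 * O - 2 * a
      ^ 3 * r ^ 9 * ri * O - 2 * a ^ 3 * r ^ 8 * ri * O - 2 * a ^ 3 * r ^ 8 * O + 2 * a ^ 3 * r ^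
      7 * ri * O - 2 * a ^ 3 * r ^ 7 * O + 2 * a ^ 3 * r ^ 6 * ri * O + 2 * a ^ 3 * r ^ 6 * O + 2
      * a ^ 3 * r ^ 5 * O - a ^ 2 * r ^ 10 * ri * O - a ^ 2 * r ^ 9 * ri * O - a ^ 2 * r ^ 9 * O
      + a ^ 2 * r ^ 8 * ri * O - a ^ 2 * r ^ 8 * O + a ^ 2 * r ^ 7 * ri * O + a ^ 2 * r ^ 7 * O +
      a ^ 2 * r ^ 6 * O) * h.hr + (-a ^ 5 * r ^ 8 * O - a ^ 5 * r ^ 7 * O - 2 * a ^ 4 * r ^ 9 * O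
      - a ^ 4 * r ^ 8 * O - a ^ 4 * r ^ 6 * O - a ^ 3 * r ^ 10 * O + a ^ 3 * r ^ 9 * O - a ^ 3 *
      r ^ 7 * O + a ^ 3 * r ^ 6 * O + a ^ 2 * r ^ 10 * O + a ^ 2 * r ^ 8 * O + 2 * a ^ 2 * r ^ 7
      * O + a * r ^ 9 * O + a * r ^ 8 * O) * h.rel

theorem E2R.u2_33 (h : E2R a r X ai ri P R Q W O L0 L1 L3 L4) :
    (r * a) ^ 4 * (O * Q * ri ^ 2 * ai) = (1 - (a ^ 2 * ri * L3)) * ((r * a) * (O * W * ri ^ 2))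
      + (a ^ 2 * ri * L3) * ((r * a) ^ 3 * (O * W * ai)) := by
  refine sub_eq_zero.1 (cancel (mul_ne_zero (mul_ne_zero (mul_ne_zero (mul_ne_zero h.nL3 h.nW) h.nQ) h.n0) (pow_ne_zero 3 h.nr)) ?_)
  linear_combination
    (-a ^ 5 * r ^ 3 * ai * ri * W * O + a ^ 3 * r * ri ^ 3 * W * O) * ((r + 1) * (a + r ^ 3)) *
      (r + 1) * a * r ^ 3 * h.hL3 + (-a ^ 5 * r ^ 6 * ai * ri * O + a ^ 5 * r ^ 4 * ai * ri * O +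
      a ^ 3 * r ^ 4 * ri ^ 3 * O - a ^ 3 * r ^ 3 * ri ^ 2 * O - a ^ 3 * r ^ 2 * ri ^ 3 * O - a ^
      2 * r ^ 4 * ri ^ 2 * O + a ^ 2 * r * ri ^ 2 * O + a * r ^ 2 * ri ^ 2 * O) * (r + 1) * a * r
      ^ 3 * h.hW + (a ^ 7 * r ^ 7 * ai * ri ^ 2 * O + a ^ 7 * r ^ 6 * ai * ri ^ 2 * O + a ^ 6 * r
      ^ 10 * ai * ri ^ 2 * O + a ^ 6 * r ^ 9 * ai * ri ^ 2 * O + a ^ 6 * r ^ 8 * ai * ri ^ 2 * O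
      + a ^ 6 * r ^ 7 * ai * ri ^ 2 * O - a ^ 6 * r ^ 5 * ai * ri ^ 2 * O - a ^ 6 * r ^ 4 * ai *
      ri ^ 2 * O + a ^ 5 * r ^ 11 * ai * ri ^ 2 * O + a ^ 5 * r ^ 10 * ai * ri ^ 2 * O - a ^ 5 *
      r ^ 8 * ai * ri ^ 2 * O - a ^ 5 * r ^ 7 * ai * ri ^ 2 * O - a ^ 5 * r ^ 6 * ai * ri ^ 2 * O
      - a ^ 5 * r ^ 5 * ai * ri ^ 2 * O - a ^ 4 * r ^ 9 * ai * ri ^ 2 * O - a ^ 4 * r ^ 8 * ai *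
      ri ^ 2 * O) * a * r ^ 3 * h.hQ + (a ^ 8 * r ^ 7 * ri ^ 2 * O + a ^ 8 * r ^ 6 * ri ^ 2 * O +
      a ^ 7 * r ^ 10 * ri ^ 2 * O + a ^ 7 * r ^ 9 * ri ^ 2 * O - a ^ 7 * r ^ 9 * ri * O + 2 * a ^
      7 * r ^ 8 * ri ^ 2 * O - a ^ 7 * r ^ 8 * ri * O + 2 * a ^ 7 * r ^ 7 * ri ^ 2 * O + a ^ 7 *
      r ^ 7 * ri * O + a ^ 7 * r ^ 6 * ri * O - a ^ 7 * r ^ 5 * ri ^ 2 * O - a ^ 7 * r ^ 4 * ri ^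
      2 * O + 2 * a ^ 6 * r ^ 11 * ri ^ 2 * O + 2 * a ^ 6 * r ^ 10 * ri ^ 2 * O - 2 * a ^ 6 * r ^
      10 * ri * O + a ^ 6 * r ^ 9 * ri ^ 2 * O - 2 * a ^ 6 * r ^ 9 * ri * O + 2 * a ^ 6 * r ^ 8 *
      ri * O - a ^ 6 * r ^ 7 * ri ^ 2 * O + 2 * a ^ 6 * r ^ 7 * ri * O - 2 * a ^ 6 * r ^ 6 * ri ^
      2 * O - 2 * a ^ 6 * r ^ 5 * ri ^ 2 * O + a ^ 5 * r ^ 12 * ri ^ 2 * O + a ^ 5 * r ^ 11 * ri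
      ^ 2 * O - a ^ 5 * r ^ 11 * ri * O - a ^ 5 * r ^ 10 * ri * O - 2 * a ^ 5 * r ^ 9 * ri ^ 2 *
      O + a ^ 5 * r ^ 9 * ri * O - 2 * a ^ 5 * r ^ 8 * ri ^ 2 * O + a ^ 5 * r ^ 8 * ri * O - a ^
      5 * r ^ 7 * ri ^ 2 * O - a ^ 5 * r ^ 6 * ri ^ 2 * O - a ^ 4 * r ^ 10 * ri ^ 2 * O - a ^ 4 *
      r ^ 9 * ri ^ 2 * O) * r ^ 3 * h.ha + (a ^ 8 * r ^ 9 * ri * O + a ^ 8 * r ^ 8 * ri * O + a ^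
      8 * r ^ 8 * O + a ^ 8 * r ^ 7 * O + a ^ 7 * r ^ 12 * ri * O + a ^ 7 * r ^ 11 * ri * O + 2 *
      a ^ 7 * r ^ 10 * ri * O + 2 * a ^ 7 * r ^ 9 * ri * O + 3 * a ^ 7 * r ^ 9 * O + 3 * a ^ 7 *
      r ^ 8 * O - a ^ 7 * r ^ 7 * ri * O - a ^ 7 * r ^ 6 * ri * O - a ^ 7 * r ^ 6 * O - a ^ 7 * r
      ^ 5 * O + 2 * a ^ 6 * r ^ 13 * ri * O + 2 * a ^ 6 * r ^ 12 * ri * O + a ^ 6 * r ^ 11 * ri *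
      O + 3 * a ^ 6 * r ^ 10 * O + a ^ 6 * r ^ 9 * ri ^ 2 * O - a ^ 6 * r ^ 9 * ri * O + 2 * a ^
      6 * r ^ 9 * O + a ^ 6 * r ^ 8 * ri ^ 2 * O - 2 * a ^ 6 * r ^ 8 * ri * O - a ^ 6 * r ^ 8 * O
      - a ^ 6 * r ^ 7 * ri ^ 2 * O - 2 * a ^ 6 * r ^ 7 * ri * O - 2 * a ^ 6 * r ^ 7 * O - a ^ 6 *
      r ^ 6 * ri ^ 2 * O - a ^ 6 * r ^ 6 * ri * O - 2 * a ^ 6 * r ^ 6 * O - a ^ 6 * r ^ 5 * ri *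
      O - a ^ 6 * r ^ 5 * O - a ^ 6 * r ^ 4 * O + a ^ 5 * r ^ 14 * ri * O + a ^ 5 * r ^ 13 * ri *
      O - 2 * a ^ 5 * r ^ 11 * ri * O + a ^ 5 * r ^ 11 * O + 2 * a ^ 5 * r ^ 10 * ri ^ 2 * O - 2
      * a ^ 5 * r ^ 10 * ri * O - a ^ 5 * r ^ 10 * O + 2 * a ^ 5 * r ^ 9 * ri ^ 2 * O - 2 * a ^ 5
      * r ^ 9 * ri * O - 2 * a ^ 5 * r ^ 9 * O - 2 * a ^ 5 * r ^ 8 * ri ^ 2 * O - 2 * a ^ 5 * r ^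
      8 * ri * O - 2 * a ^ 5 * r ^ 8 * O - 2 * a ^ 5 * r ^ 7 * ri ^ 2 * O - 2 * a ^ 5 * r ^ 7 *
      ri * O - 2 * a ^ 5 * r ^ 7 * O - a ^ 5 * r ^ 6 * ri * O - 2 * a ^ 5 * r ^ 6 * O + a ^ 5 * r
      ^ 5 * ri * O - a ^ 5 * r ^ 5 * O + a ^ 5 * r ^ 4 * O - a ^ 4 * r ^ 12 * ri * O + a ^ 4 * r
      ^ 11 * ri ^ 2 * O - a ^ 4 * r ^ 11 * ri * O - a ^ 4 * r ^ 11 * O + a ^ 4 * r ^ 10 * ri ^ 2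
      * O - 2 * a ^ 4 * r ^ 10 * ri * O - a ^ 4 * r ^ 10 * O - a ^ 4 * r ^ 9 * ri ^ 2 * O - 2 * a
      ^ 4 * r ^ 9 * ri * O - 2 * a ^ 4 * r ^ 9 * O - a ^ 4 * r ^ 8 * ri ^ 2 * O - a ^ 4 * r ^ 8 *
      ri * O - 2 * a ^ 4 * r ^ 8 * O + 2 * a ^ 4 * r ^ 7 * ri * O - a ^ 4 * r ^ 7 * O + 3 * a ^ 4
      * r ^ 6 * ri * O + 2 * a ^ 4 * r ^ 6 * O + 3 * a ^ 4 * r ^ 5 * O - a ^ 3 * r ^ 11 * ri * O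
      - a ^ 3 * r ^ 10 * ri * O - a ^ 3 * r ^ 10 * O - a ^ 3 * r ^ 9 * O + 3 * a ^ 3 * r ^ 8 * ri
      * O + 3 * a ^ 3 * r ^ 7 * ri * O + 3 * a ^ 3 * r ^ 7 * O + 3 * a ^ 3 * r ^ 6 * O + a ^ 2 *
      r ^ 9 * ri * O + a ^ 2 * r ^ 8 * ri * O + a ^ 2 * r ^ 8 * O + a ^ 2 * r ^ 7 * O) * h.hr +
      (a ^ 6 * r ^ 6 * O + a ^ 6 * r ^ 5 * O + 2 * a ^ 5 * r ^ 7 * O + a ^ 5 * r ^ 6 * O + a ^ 5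
      * r ^ 4 * O + a ^ 4 * r ^ 8 * O - a ^ 4 * r ^ 7 * O + a ^ 4 * r ^ 5 * O - a ^ 4 * r ^ 4 * O
      - a ^ 3 * r ^ 8 * O - a ^ 3 * r ^ 6 * O - 2 * a ^ 3 * r ^ 5 * O - a ^ 2 * r ^ 7 * O - a ^ 2
      * r ^ 6 * O) * h.rel

theorem E2R.u1_34 (h : E2R a r X ai ri P R Q W O L0 L1 L3 L4) :
    (O * r ^ 2 * a ^ 2) = L4 * ((r * a) * (O * r ^ 2 * Q)) + (1 - L4) * ((r * a) ^ 4 * (O * Q *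
      ri ^ 2 * ai)) := by
  refine sub_eq_zero.1 (cancel (mul_ne_zero (mul_ne_zero (mul_ne_zero h.nL4 h.nQ) h.n0) (pow_ne_zero 2 h.nr)) ?_)
  linear_combination
    (a ^ 4 * r ^ 4 * ai * ri ^ 2 * Q * O - a * r ^ 3 * Q * O) * (r + 1) * a * r ^ 2 * h.hL4 + (a
      ^ 4 * r ^ 7 * ai * ri ^ 2 * O - a ^ 4 * r ^ 4 * ai * ri ^ 2 * O - a ^ 3 * r ^ 3 * O + a * r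
      ^ 3 * O) * a * r ^ 2 * h.hQ + (a ^ 5 * r ^ 7 * ri ^ 2 * O - a ^ 5 * r ^ 4 * ri ^ 2 * O + a
      ^ 4 * r ^ 8 * ri ^ 2 * O - a ^ 4 * r ^ 5 * ri ^ 2 * O) * r ^ 2 * h.ha + (a ^ 5 * r ^ 8 * ri
      * O + a ^ 5 * r ^ 7 * O - a ^ 5 * r ^ 5 * ri * O - a ^ 5 * r ^ 4 * O + a ^ 4 * r ^ 9 * ri *
      O + a ^ 4 * r ^ 8 * O - a ^ 4 * r ^ 6 * ri * O - a ^ 4 * r ^ 5 * O) * h.hr + (a ^ 3 * r ^ 5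
      * O - a ^ 2 * r ^ 5 * O) * h.rel

theorem E2R.u2_34 (h : E2R a r X ai ri P R Q W O L0 L1 L3 L4) :
    (r * a) ^ 5 * (O * ri ^ 2 * ai ^ 2) = (1 - (r ^ 3 * L4)) * ((r * a) * (O * r ^ 2 * Q)) + (r ^
      3 * L4) * ((r * a) ^ 4 * (O * Q * ri ^ 2 * ai)) := by
  refine sub_eq_zero.1 (cancel (mul_ne_zero (mul_ne_zero (mul_ne_zero h.nL4 h.nQ) (pow_ne_zero 2 h.n0)) (pow_ne_zero 2 h.nr)) ?_)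
  linear_combination
    (-a ^ 4 * r ^ 7 * ai * ri ^ 2 * Q * O + a * r ^ 6 * Q * O) * (r + 1) * a ^ 2 * r ^ 2 * h.hL4
      + (-a ^ 6 * r ^ 7 * ai * ri ^ 2 * O + a ^ 4 * r ^ 7 * ai * ri ^ 2 * O + a ^ 3 * r ^ 6 * O -
      a ^ 3 * r ^ 3 * O) * a ^ 2 * r ^ 2 * h.hQ + (-a ^ 8 * r ^ 7 * ri ^ 2 * O + a ^ 8 * r ^ 6 *
      ai * ri ^ 2 * O + a ^ 8 * r ^ 5 * ai * ri ^ 2 * O - a ^ 7 * r ^ 8 * ri ^ 2 * O + a ^ 7 * r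
      ^ 6 * ri ^ 2 * O + a ^ 7 * r ^ 5 * ri ^ 2 * O - a ^ 6 * r ^ 9 * ai * ri ^ 2 * O - a ^ 6 * r
      ^ 8 * ai * ri ^ 2 * O + a ^ 6 * r ^ 7 * ri ^ 2 * O - a ^ 5 * r ^ 9 * ri ^ 2 * O) * r ^ 2 *
      h.ha + (-a ^ 8 * r ^ 8 * ri * O - a ^ 8 * r ^ 7 * O - a ^ 7 * r ^ 9 * ri * O - a ^ 7 * r ^
      8 * O + a ^ 7 * r ^ 7 * ri * O + a ^ 7 * r ^ 6 * ri * O + a ^ 7 * r ^ 6 * O + a ^ 7 * r ^ 5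
      * O + a ^ 6 * r ^ 8 * ri * O + a ^ 6 * r ^ 7 * O - a ^ 5 * r ^ 10 * ri * O - a ^ 5 * r ^ 9
      * O) * h.hr + (-a ^ 6 * r ^ 5 * O + a ^ 5 * r ^ 5 * O) * h.rel

theorem E2R.u1_40 (h : E2R a r X ai ri P R Q W O L0 L1 L3 L4) :
    (a ^ 2 * R) = L0 * ((r ^ 3 * a) * 1) + (1 - L0) * ((r ^ 3 * a) ^ 0 * 1) := by
  refine sub_eq_zero.1 (cancel (mul_ne_zero h.n1 h.nR) ?_)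
  linear_combination
    (-a * r ^ 3 + 1) * (a * ((r + 1) * (r ^ 2 * a - 1))) * h.hL0 + (a ^ 3 * r ^ 3 + a ^ 3 * r ^ 2
      - a ^ 2 * r - a ^ 2) * h.hR + (a ^ 3 * r ^ 3 + a ^ 3 * r ^ 2 - a ^ 2 * r ^ 3 - a ^ 2 * r ^
      2 - a ^ 2 * r - a ^ 2 + a * r + a) * h.rel

theorem E2R.u2_40 (h : E2R a r X ai ri P R Q W O L0 L1 L3 L4) :
    (r ^ 3 * a) ^ 1 * (P * ai ^ 2) = (1 - (r ^ 3 * L0)) * ((r ^ 3 * a) * 1) + (r ^ 3 * L0) * ((r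
      ^ 3 * a) ^ 0 * 1) := by
  refine sub_eq_zero.1 (cancel (mul_ne_zero (mul_ne_zero h.n1 h.n1) (pow_ne_zero 2 h.n0)) ?_)
  linear_combination
    (a * r ^ 6 - r ^ 3) * ((r + 1) * (r ^ 2 * a - 1)) * a ^ 2 * h.hL0 + (a ^ 2 * r ^ 6 * ai ^ 2 +
      a ^ 2 * r ^ 5 * ai ^ 2 - a * r ^ 4 * ai ^ 2 - a * r ^ 3 * ai ^ 2) * a ^ 2 * h.hP + (a ^ 5 *
      r ^ 6 * ai + a ^ 5 * r ^ 5 * ai + a ^ 4 * r ^ 9 * ai + 2 * a ^ 4 * r ^ 8 * ai + a ^ 4 * r ^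
      7 * ai - 2 * a ^ 4 * r ^ 6 * ai + a ^ 4 * r ^ 6 - 2 * a ^ 4 * r ^ 5 * ai + a ^ 4 * r ^ 5 -
      a ^ 4 * r ^ 4 * ai - a ^ 4 * r ^ 3 * ai + a ^ 3 * r ^ 9 + 2 * a ^ 3 * r ^ 8 - 2 * a ^ 3 * r
      ^ 7 * ai + a ^ 3 * r ^ 7 - 3 * a ^ 3 * r ^ 6 * ai - 2 * a ^ 3 * r ^ 6 - a ^ 3 * r ^ 5 * ai
      - 2 * a ^ 3 * r ^ 5 + 2 * a ^ 3 * r ^ 4 * ai - a ^ 3 * r ^ 4 + 2 * a ^ 3 * r ^ 3 * ai - a ^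
      3 * r ^ 3 - 2 * a ^ 2 * r ^ 7 - 3 * a ^ 2 * r ^ 6 + a ^ 2 * r ^ 5 * ai - a ^ 2 * r ^ 5 + a
      ^ 2 * r ^ 4 * ai + 2 * a ^ 2 * r ^ 4 + 2 * a ^ 2 * r ^ 3 + a * r ^ 5 + a * r ^ 4) * h.ha +
      (-a ^ 3 * r ^ 6 - a ^ 3 * r ^ 5 + a ^ 2 * r ^ 6 + a ^ 2 * r ^ 5 + a ^ 2 * r ^ 4 + a ^ 2 * r
      ^ 3 - a * r ^ 4 - a * r ^ 3) * h.rel

theorem E2R.u1_41 (h : E2R a r X ai ri P R Q W O L0 L1 L3 L4) :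
    (r ^ 4 * a * Q) = L1 * ((r ^ 3 * a) * (a ^ 2 * R)) + (1 - L1) * ((r ^ 3 * a) ^ 1 * (P * ai ^
      2)) := by
  refine sub_eq_zero.1 (cancel (mul_ne_zero (mul_ne_zero (mul_ne_zero (mul_ne_zero h.nL1 h.n1) h.nR) h.nQ) (pow_ne_zero 2 h.n0)) ?_)
  linear_combination
    (-a ^ 3 * r ^ 3 * R + a * r ^ 3 * ai ^ 2 * P) * ((r + 1) * (r ^ 2 * a - 1)) * (a * ((r + 1) *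
      (r ^ 2 * a - 1))) * (r + 1) * a ^ 2 * h.hL1 + (-a ^ 3 * r ^ 3 * ai ^ 2 - a ^ 2 * r ^ 6 * ai
      ^ 2 + a ^ 2 * r ^ 3 * ai ^ 2 + a * r ^ 4 * ai ^ 2) * (a * ((r + 1) * (r ^ 2 * a - 1))) * (r
      + 1) * a ^ 2 * h.hP + (a ^ 4 * r ^ 9 + a ^ 4 * r ^ 8 - a ^ 4 * r ^ 7 - a ^ 4 * r ^ 6 - a ^
      3 * r ^ 7 - a ^ 3 * r ^ 6 + a ^ 3 * r ^ 5 + a ^ 3 * r ^ 4) * (r + 1) * a ^ 2 * h.hR + (a ^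
      6 * r ^ 10 + 2 * a ^ 6 * r ^ 9 + a ^ 6 * r ^ 8 + a ^ 5 * r ^ 13 + 2 * a ^ 5 * r ^ 12 + a ^
      5 * r ^ 11 - a ^ 5 * r ^ 10 - 2 * a ^ 5 * r ^ 9 - 3 * a ^ 5 * r ^ 8 - 4 * a ^ 5 * r ^ 7 - 2
      * a ^ 5 * r ^ 6 - a ^ 4 * r ^ 13 - 2 * a ^ 4 * r ^ 12 - 3 * a ^ 4 * r ^ 11 - 4 * a ^ 4 * r
      ^ 10 - 2 * a ^ 4 * r ^ 9 + 2 * a ^ 4 * r ^ 8 + 4 * a ^ 4 * r ^ 7 + 3 * a ^ 4 * r ^ 6 + 2 *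
      a ^ 4 * r ^ 5 + a ^ 4 * r ^ 4 + 2 * a ^ 3 * r ^ 11 + 4 * a ^ 3 * r ^ 10 + 3 * a ^ 3 * r ^ 9
      + 2 * a ^ 3 * r ^ 8 + a ^ 3 * r ^ 7 - a ^ 3 * r ^ 6 - 2 * a ^ 3 * r ^ 5 - a ^ 3 * r ^ 4 - a
      ^ 2 * r ^ 9 - 2 * a ^ 2 * r ^ 8 - a ^ 2 * r ^ 7) * a ^ 2 * h.hQ + (-a ^ 8 * r ^ 7 * ai - 2
      * a ^ 8 * r ^ 6 * ai - a ^ 8 * r ^ 5 * ai - 2 * a ^ 7 * r ^ 10 * ai - 5 * a ^ 7 * r ^ 9 *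
      ai - 4 * a ^ 7 * r ^ 8 * ai + 2 * a ^ 7 * r ^ 7 * ai - a ^ 7 * r ^ 7 + 6 * a ^ 7 * r ^ 6 *
      ai - 2 * a ^ 7 * r ^ 6 + 4 * a ^ 7 * r ^ 5 * ai - a ^ 7 * r ^ 5 + 2 * a ^ 7 * r ^ 4 * ai +
      a ^ 7 * r ^ 3 * ai - a ^ 6 * r ^ 13 * ai - 3 * a ^ 6 * r ^ 12 * ai - 3 * a ^ 6 * r ^ 11 *
      ai + 2 * a ^ 6 * r ^ 10 * ai - 2 * a ^ 6 * r ^ 10 + 7 * a ^ 6 * r ^ 9 * ai - 5 * a ^ 6 * r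
      ^ 9 + 9 * a ^ 6 * r ^ 8 * ai - 4 * a ^ 6 * r ^ 8 + 8 * a ^ 6 * r ^ 7 * ai + 2 * a ^ 6 * r ^
      7 + 2 * a ^ 6 * r ^ 6 * ai + 6 * a ^ 6 * r ^ 6 - 4 * a ^ 6 * r ^ 5 * ai + 4 * a ^ 6 * r ^ 5
      - 6 * a ^ 6 * r ^ 4 * ai + 2 * a ^ 6 * r ^ 4 - 3 * a ^ 6 * r ^ 3 * ai + a ^ 6 * r ^ 3 - a ^
      5 * r ^ 13 - 3 * a ^ 5 * r ^ 12 + 3 * a ^ 5 * r ^ 11 * ai - 3 * a ^ 5 * r ^ 11 + 8 * a ^ 5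
      * r ^ 10 * ai + 2 * a ^ 5 * r ^ 10 + 7 * a ^ 5 * r ^ 9 * ai + 7 * a ^ 5 * r ^ 9 - 4 * a ^ 5
      * r ^ 8 * ai + 9 * a ^ 5 * r ^ 8 - 13 * a ^ 5 * r ^ 7 * ai + 8 * a ^ 5 * r ^ 7 - 10 * a ^ 5
      * r ^ 6 * ai + 2 * a ^ 5 * r ^ 6 - 3 * a ^ 5 * r ^ 5 * ai - 4 * a ^ 5 * r ^ 5 + 2 * a ^ 5 *
      r ^ 4 * ai - 6 * a ^ 5 * r ^ 4 + 2 * a ^ 5 * r ^ 3 * ai - 3 * a ^ 5 * r ^ 3 + 3 * a ^ 4 * r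
      ^ 11 + 8 * a ^ 4 * r ^ 10 - 3 * a ^ 4 * r ^ 9 * ai + 7 * a ^ 4 * r ^ 9 - 7 * a ^ 4 * r ^ 8
      * ai - 4 * a ^ 4 * r ^ 8 - 5 * a ^ 4 * r ^ 7 * ai - 13 * a ^ 4 * r ^ 7 + 2 * a ^ 4 * r ^ 6
      * ai - 10 * a ^ 4 * r ^ 6 + 6 * a ^ 4 * r ^ 5 * ai - 3 * a ^ 4 * r ^ 5 + 3 * a ^ 4 * r ^ 4
      * ai + 2 * a ^ 4 * r ^ 4 + 2 * a ^ 4 * r ^ 3 - 3 * a ^ 3 * r ^ 9 - 7 * a ^ 3 * r ^ 8 + a ^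
      3 * r ^ 7 * ai - 5 * a ^ 3 * r ^ 7 + 2 * a ^ 3 * r ^ 6 * ai + 2 * a ^ 3 * r ^ 6 + a ^ 3 * r
      ^ 5 * ai + 6 * a ^ 3 * r ^ 5 + 3 * a ^ 3 * r ^ 4 + a ^ 2 * r ^ 7 + 2 * a ^ 2 * r ^ 6 + a ^
      2 * r ^ 5) * h.ha + (a ^ 7 * r ^ 8 + 2 * a ^ 7 * r ^ 7 + a ^ 7 * r ^ 6 + a ^ 6 * r ^ 11 + 3
      * a ^ 6 * r ^ 10 + 3 * a ^ 6 * r ^ 9 - 2 * a ^ 6 * r ^ 8 - 5 * a ^ 6 * r ^ 7 - 2 * a ^ 6 *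
      r ^ 6 - a ^ 6 * r ^ 5 - a ^ 6 * r ^ 4 - a ^ 5 * r ^ 11 - 2 * a ^ 5 * r ^ 10 - 2 * a ^ 5 * r
      ^ 9 - a ^ 5 * r ^ 8 - 2 * a ^ 5 * r ^ 7 - 2 * a ^ 5 * r ^ 6 + 2 * a ^ 5 * r ^ 5 + a ^ 5 * r
      ^ 4 - a ^ 5 * r ^ 3 - a ^ 4 * r ^ 10 - a ^ 4 * r ^ 9 + a ^ 4 * r ^ 7 + a ^ 4 * r ^ 6 + a ^
      4 * r ^ 5 + 4 * a ^ 4 * r ^ 4 + 3 * a ^ 4 * r ^ 3 + 2 * a ^ 3 * r ^ 8 + 4 * a ^ 3 * r ^ 7 +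
      3 * a ^ 3 * r ^ 6 - 3 * a ^ 3 * r ^ 4 - 2 * a ^ 3 * r ^ 3 - a ^ 2 * r ^ 6 - 2 * a ^ 2 * r ^
      5 - a ^ 2 * r ^ 4) * h.rel

theorem E2R.u2_41 (h : E2R a r X ai ri P R Q W O L0 L1 L3 L4) :
    (r ^ 3 * a) ^ 2 * (Q * ri ^ 4 * ai ^ 2) = (1 - (a ^ 2 * ri * L1)) * ((r ^ 3 * a) * (a ^ 2 *
      R)) + (a ^ 2 * ri * L1) * ((r ^ 3 * a) ^ 1 * (P * ai ^ 2)) := by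
  refine sub_eq_zero.1 (cancel (mul_ne_zero (mul_ne_zero (mul_ne_zero (mul_ne_zero (mul_ne_zero h.nL1 h.n1) h.nR) h.nQ) (pow_ne_zero 2 h.n0)) (pow_ne_zero 4 h.nr)) ?_)
  linear_combination
    (a ^ 5 * r ^ 3 * ri * R - a ^ 3 * r ^ 3 * ai ^ 2 * ri * P) * ((r + 1) * (r ^ 2 * a - 1)) * (a
      * ((r + 1) * (r ^ 2 * a - 1))) * (r + 1) * a ^ 2 * r ^ 4 * h.hL1 + (a ^ 3 * r ^ 6 * ai ^ 2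
      * ri - a ^ 3 * r ^ 4 * ai ^ 2 * ri) * (a * ((r + 1) * (r ^ 2 * a - 1))) * (r + 1) * a ^ 2 *
      r ^ 4 * h.hP + (-a ^ 6 * r ^ 9 * ri - a ^ 6 * r ^ 8 * ri + a ^ 6 * r ^ 7 * ri + a ^ 6 * r ^
      6 * ri - a ^ 6 * r ^ 6 - a ^ 6 * r ^ 5 - a ^ 5 * r ^ 9 - a ^ 5 * r ^ 8 + a ^ 5 * r ^ 7 * ri
      + a ^ 5 * r ^ 6 * ri + a ^ 5 * r ^ 6 - a ^ 5 * r ^ 5 * ri + a ^ 5 * r ^ 5 - a ^ 5 * r ^ 4 *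
      ri + a ^ 5 * r ^ 4 + a ^ 5 * r ^ 3 + a ^ 4 * r ^ 9 + a ^ 4 * r ^ 8 + a ^ 4 * r ^ 7 + a ^ 4
      * r ^ 6 - a ^ 4 * r ^ 4 - a ^ 4 * r ^ 3 - a ^ 3 * r ^ 7 - a ^ 3 * r ^ 6) * (r + 1) * a ^ 2
      * r ^ 4 * h.hR + (a ^ 7 * r ^ 12 * ai ^ 2 * ri ^ 4 + 2 * a ^ 7 * r ^ 11 * ai ^ 2 * ri ^ 4 +
      a ^ 7 * r ^ 10 * ai ^ 2 * ri ^ 4 + a ^ 6 * r ^ 15 * ai ^ 2 * ri ^ 4 + 2 * a ^ 6 * r ^ 14 *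
      ai ^ 2 * ri ^ 4 + a ^ 6 * r ^ 13 * ai ^ 2 * ri ^ 4 - a ^ 6 * r ^ 12 * ai ^ 2 * ri ^ 4 - 2 *
      a ^ 6 * r ^ 11 * ai ^ 2 * ri ^ 4 - 3 * a ^ 6 * r ^ 10 * ai ^ 2 * ri ^ 4 - 4 * a ^ 6 * r ^ 9
      * ai ^ 2 * ri ^ 4 - 2 * a ^ 6 * r ^ 8 * ai ^ 2 * ri ^ 4 - a ^ 5 * r ^ 15 * ai ^ 2 * ri ^ 4
      - 2 * a ^ 5 * r ^ 14 * ai ^ 2 * ri ^ 4 - 3 * a ^ 5 * r ^ 13 * ai ^ 2 * ri ^ 4 - 4 * a ^ 5 *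
      r ^ 12 * ai ^ 2 * ri ^ 4 - 2 * a ^ 5 * r ^ 11 * ai ^ 2 * ri ^ 4 + 2 * a ^ 5 * r ^ 10 * ai ^
      2 * ri ^ 4 + 4 * a ^ 5 * r ^ 9 * ai ^ 2 * ri ^ 4 + 3 * a ^ 5 * r ^ 8 * ai ^ 2 * ri ^ 4 + 2
      * a ^ 5 * r ^ 7 * ai ^ 2 * ri ^ 4 + a ^ 5 * r ^ 6 * ai ^ 2 * ri ^ 4 + 2 * a ^ 4 * r ^ 13 *
      ai ^ 2 * ri ^ 4 + 4 * a ^ 4 * r ^ 12 * ai ^ 2 * ri ^ 4 + 3 * a ^ 4 * r ^ 11 * ai ^ 2 * ri ^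
      4 + 2 * a ^ 4 * r ^ 10 * ai ^ 2 * ri ^ 4 + a ^ 4 * r ^ 9 * ai ^ 2 * ri ^ 4 - a ^ 4 * r ^ 8
      * ai ^ 2 * ri ^ 4 - 2 * a ^ 4 * r ^ 7 * ai ^ 2 * ri ^ 4 - a ^ 4 * r ^ 6 * ai ^ 2 * ri ^ 4 -
      a ^ 3 * r ^ 11 * ai ^ 2 * ri ^ 4 - 2 * a ^ 3 * r ^ 10 * ai ^ 2 * ri ^ 4 - a ^ 3 * r ^ 9 *
      ai ^ 2 * ri ^ 4) * a ^ 2 * r ^ 4 * h.hQ + (a ^ 9 * r ^ 12 * ai * ri ^ 4 + 2 * a ^ 9 * r ^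
      11 * ai * ri ^ 4 + a ^ 9 * r ^ 10 * ai * ri ^ 4 + a ^ 8 * r ^ 15 * ai * ri ^ 4 + 2 * a ^ 8
      * r ^ 14 * ai * ri ^ 4 + 2 * a ^ 8 * r ^ 13 * ai * ri ^ 4 + a ^ 8 * r ^ 12 * ai * ri ^ 4 +
      a ^ 8 * r ^ 12 * ri ^ 4 - a ^ 8 * r ^ 11 * ai * ri ^ 4 + 2 * a ^ 8 * r ^ 11 * ri ^ 4 - 3 *
      a ^ 8 * r ^ 10 * ai * ri ^ 4 + a ^ 8 * r ^ 10 * ai * ri + a ^ 8 * r ^ 10 * ri ^ 4 - 4 * a ^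
      8 * r ^ 9 * ai * ri ^ 4 + 2 * a ^ 8 * r ^ 9 * ai * ri - 2 * a ^ 8 * r ^ 8 * ai * ri ^ 4 - 2
      * a ^ 8 * r ^ 7 * ai * ri - a ^ 8 * r ^ 6 * ai * ri + a ^ 7 * r ^ 16 * ai * ri ^ 4 + a ^ 7
      * r ^ 15 * ai * ri ^ 4 + a ^ 7 * r ^ 15 * ri ^ 4 - a ^ 7 * r ^ 14 * ai * ri ^ 4 + 2 * a ^ 7
      * r ^ 14 * ri ^ 4 - 4 * a ^ 7 * r ^ 13 * ai * ri ^ 4 + a ^ 7 * r ^ 13 * ai * ri + 2 * a ^ 7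
      * r ^ 13 * ri ^ 4 - 6 * a ^ 7 * r ^ 12 * ai * ri ^ 4 + 3 * a ^ 7 * r ^ 12 * ai * ri + a ^ 7
      * r ^ 12 * ri ^ 4 - 5 * a ^ 7 * r ^ 11 * ai * ri ^ 4 + 2 * a ^ 7 * r ^ 11 * ai * ri - a ^ 7
      * r ^ 11 * ri ^ 4 - 2 * a ^ 7 * r ^ 10 * ai * ri ^ 4 - 4 * a ^ 7 * r ^ 10 * ai * ri - 3 * a
      ^ 7 * r ^ 10 * ri ^ 4 + a ^ 7 * r ^ 10 * ri + 2 * a ^ 7 * r ^ 9 * ai * ri ^ 4 - 7 * a ^ 7 *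
      r ^ 9 * ai * ri - 4 * a ^ 7 * r ^ 9 * ri ^ 4 + 2 * a ^ 7 * r ^ 9 * ri + 3 * a ^ 7 * r ^ 8 *
      ai * ri ^ 4 - 2 * a ^ 7 * r ^ 8 * ai * ri - 2 * a ^ 7 * r ^ 8 * ri ^ 4 + 2 * a ^ 7 * r ^ 7
      * ai * ri ^ 4 + 2 * a ^ 7 * r ^ 7 * ai * ri - 2 * a ^ 7 * r ^ 7 * ri + a ^ 7 * r ^ 6 * ai *
      ri ^ 4 + 2 * a ^ 7 * r ^ 6 * ai * ri - a ^ 7 * r ^ 6 * ri + 2 * a ^ 7 * r ^ 5 * ai * ri + a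
      ^ 7 * r ^ 4 * ai * ri - a ^ 6 * r ^ 16 * ai * ri ^ 4 + a ^ 6 * r ^ 16 * ri ^ 4 - 2 * a ^ 6
      * r ^ 15 * ai * ri ^ 4 + a ^ 6 * r ^ 15 * ri ^ 4 - 3 * a ^ 6 * r ^ 14 * ai * ri ^ 4 - a ^ 6
      * r ^ 14 * ri ^ 4 - 2 * a ^ 6 * r ^ 13 * ai * ri ^ 4 - 4 * a ^ 6 * r ^ 13 * ri ^ 4 + a ^ 6
      * r ^ 13 * ri + 2 * a ^ 6 * r ^ 12 * ai * ri ^ 4 - 6 * a ^ 6 * r ^ 12 * ri ^ 4 + 3 * a ^ 6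
      * r ^ 12 * ri + 5 * a ^ 6 * r ^ 11 * ai * ri ^ 4 - 2 * a ^ 6 * r ^ 11 * ai * ri - 5 * a ^ 6
      * r ^ 11 * ri ^ 4 + 2 * a ^ 6 * r ^ 11 * ri + 6 * a ^ 6 * r ^ 10 * ai * ri ^ 4 - 5 * a ^ 6
      * r ^ 10 * ai * ri - 2 * a ^ 6 * r ^ 10 * ri ^ 4 - 4 * a ^ 6 * r ^ 10 * ri + 4 * a ^ 6 * r
      ^ 9 * ai * ri ^ 4 - 2 * a ^ 6 * r ^ 9 * ai * ri + 2 * a ^ 6 * r ^ 9 * ri ^ 4 - 7 * a ^ 6 *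
      r ^ 9 * ri + a ^ 6 * r ^ 8 * ai * ri ^ 4 + 6 * a ^ 6 * r ^ 8 * ai * ri + 3 * a ^ 6 * r ^ 8
      * ri ^ 4 - 2 * a ^ 6 * r ^ 8 * ri - a ^ 6 * r ^ 7 * ai * ri ^ 4 + 8 * a ^ 6 * r ^ 7 * ai *
      ri + 2 * a ^ 6 * r ^ 7 * ri ^ 4 + 2 * a ^ 6 * r ^ 7 * ri - a ^ 6 * r ^ 6 * ai * ri ^ 4 + a
      ^ 6 * r ^ 6 * ai * ri + a ^ 6 * r ^ 6 * ri ^ 4 + 2 * a ^ 6 * r ^ 6 * ri - 4 * a ^ 6 * r ^ 5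
      * ai * ri + 2 * a ^ 6 * r ^ 5 * ri - 2 * a ^ 6 * r ^ 4 * ai * ri + a ^ 6 * r ^ 4 * ri - a ^
      5 * r ^ 16 * ri ^ 4 - 2 * a ^ 5 * r ^ 15 * ri ^ 4 + 2 * a ^ 5 * r ^ 14 * ai * ri ^ 4 - 3 *
      a ^ 5 * r ^ 14 * ri ^ 4 + 4 * a ^ 5 * r ^ 13 * ai * ri ^ 4 - 2 * a ^ 5 * r ^ 13 * ri ^ 4 +
      3 * a ^ 5 * r ^ 12 * ai * ri ^ 4 + 2 * a ^ 5 * r ^ 12 * ri ^ 4 + a ^ 5 * r ^ 11 * ai * ri ^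
      4 + 5 * a ^ 5 * r ^ 11 * ri ^ 4 - 2 * a ^ 5 * r ^ 11 * ri - a ^ 5 * r ^ 10 * ai * ri ^ 4 +
      6 * a ^ 5 * r ^ 10 * ri ^ 4 - 5 * a ^ 5 * r ^ 10 * ri - 2 * a ^ 5 * r ^ 9 * ai * ri ^ 4 + a
      ^ 5 * r ^ 9 * ai * ri + 4 * a ^ 5 * r ^ 9 * ri ^ 4 - 2 * a ^ 5 * r ^ 9 * ri - 2 * a ^ 5 * r
      ^ 8 * ai * ri ^ 4 + 2 * a ^ 5 * r ^ 8 * ai * ri + a ^ 5 * r ^ 8 * ri ^ 4 + 6 * a ^ 5 * r ^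
      8 * ri - a ^ 5 * r ^ 7 * ai * ri ^ 4 - a ^ 5 * r ^ 7 * ri ^ 4 + 8 * a ^ 5 * r ^ 7 * ri - 2
      * a ^ 5 * r ^ 6 * ai * ri - a ^ 5 * r ^ 6 * ri ^ 4 + a ^ 5 * r ^ 6 * ri - a ^ 5 * r ^ 5 *
      ai * ri - 4 * a ^ 5 * r ^ 5 * ri - 2 * a ^ 5 * r ^ 4 * ri + 2 * a ^ 4 * r ^ 14 * ri ^ 4 + 4
      * a ^ 4 * r ^ 13 * ri ^ 4 - a ^ 4 * r ^ 12 * ai * ri ^ 4 + 3 * a ^ 4 * r ^ 12 * ri ^ 4 - 2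
      * a ^ 4 * r ^ 11 * ai * ri ^ 4 + a ^ 4 * r ^ 11 * ri ^ 4 - a ^ 4 * r ^ 10 * ai * ri ^ 4 - a
      ^ 4 * r ^ 10 * ri ^ 4 - 2 * a ^ 4 * r ^ 9 * ri ^ 4 + a ^ 4 * r ^ 9 * ri - 2 * a ^ 4 * r ^ 8
      * ri ^ 4 + 2 * a ^ 4 * r ^ 8 * ri - a ^ 4 * r ^ 7 * ri ^ 4 - 2 * a ^ 4 * r ^ 6 * ri - a ^ 4
      * r ^ 5 * ri - a ^ 3 * r ^ 12 * ri ^ 4 - 2 * a ^ 3 * r ^ 11 * ri ^ 4 - a ^ 3 * r ^ 10 * ri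
      ^ 4) * r ^ 4 * h.ha + (-a ^ 10 * r ^ 15 - 2 * a ^ 10 * r ^ 14 + 2 * a ^ 10 * r ^ 12 + a ^
      10 * r ^ 11 - 2 * a ^ 9 * r ^ 16 - 4 * a ^ 9 * r ^ 15 + a ^ 9 * r ^ 14 + 8 * a ^ 9 * r ^ 13
      + 6 * a ^ 9 * r ^ 12 - 2 * a ^ 9 * r ^ 11 - 5 * a ^ 9 * r ^ 10 - 2 * a ^ 9 * r ^ 9 + a ^ 8
      * r ^ 16 + a ^ 8 * r ^ 15 * ri ^ 3 + 2 * a ^ 8 * r ^ 15 + 2 * a ^ 8 * r ^ 14 * ri ^ 3 + a ^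
      8 * r ^ 14 * ri ^ 2 + 2 * a ^ 8 * r ^ 14 + a ^ 8 * r ^ 13 * ri ^ 3 + 2 * a ^ 8 * r ^ 13 *
      ri ^ 2 + a ^ 8 * r ^ 13 * ri + 2 * a ^ 8 * r ^ 13 + a ^ 8 * r ^ 12 * ri ^ 2 + 2 * a ^ 8 * r
      ^ 12 * ri - a ^ 8 * r ^ 12 + a ^ 8 * r ^ 11 * ri - 5 * a ^ 8 * r ^ 11 - 3 * a ^ 8 * r ^ 10
      + 2 * a ^ 8 * r ^ 9 + 3 * a ^ 8 * r ^ 8 + a ^ 8 * r ^ 7 + a ^ 7 * r ^ 18 * ri ^ 3 + 2 * a ^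
      7 * r ^ 17 * ri ^ 3 + a ^ 7 * r ^ 17 * ri ^ 2 + 2 * a ^ 7 * r ^ 16 * ri ^ 3 + 2 * a ^ 7 * r
      ^ 16 * ri ^ 2 + a ^ 7 * r ^ 16 * ri + a ^ 7 * r ^ 15 * ri ^ 3 + 2 * a ^ 7 * r ^ 15 * ri ^ 2
      + 2 * a ^ 7 * r ^ 15 * ri + a ^ 7 * r ^ 15 - a ^ 7 * r ^ 14 * ri ^ 3 + a ^ 7 * r ^ 14 * ri
      ^ 2 + 2 * a ^ 7 * r ^ 14 * ri + a ^ 7 * r ^ 14 - 3 * a ^ 7 * r ^ 13 * ri ^ 3 - a ^ 7 * r ^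
      13 * ri ^ 2 + a ^ 7 * r ^ 13 * ri + a ^ 7 * r ^ 13 - 4 * a ^ 7 * r ^ 12 * ri ^ 3 - 3 * a ^
      7 * r ^ 12 * ri ^ 2 - a ^ 7 * r ^ 12 * ri + 3 * a ^ 7 * r ^ 12 - 2 * a ^ 7 * r ^ 11 * ri ^
      3 - 4 * a ^ 7 * r ^ 11 * ri ^ 2 - 3 * a ^ 7 * r ^ 11 * ri + a ^ 7 * r ^ 11 - 2 * a ^ 7 * r
      ^ 10 * ri ^ 2 - 4 * a ^ 7 * r ^ 10 * ri - 4 * a ^ 7 * r ^ 10 - 2 * a ^ 7 * r ^ 9 * ri - 5 *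
      a ^ 7 * r ^ 9 - 2 * a ^ 7 * r ^ 8 + a ^ 6 * r ^ 19 * ri ^ 3 + a ^ 6 * r ^ 18 * ri ^ 3 + a ^
      6 * r ^ 18 * ri ^ 2 - a ^ 6 * r ^ 17 * ri ^ 3 + a ^ 6 * r ^ 17 * ri ^ 2 + a ^ 6 * r ^ 17 *
      ri - 4 * a ^ 6 * r ^ 16 * ri ^ 3 - a ^ 6 * r ^ 16 * ri ^ 2 + a ^ 6 * r ^ 16 * ri + 2 * a ^
      6 * r ^ 16 - 6 * a ^ 6 * r ^ 15 * ri ^ 3 - 4 * a ^ 6 * r ^ 15 * ri ^ 2 - a ^ 6 * r ^ 15 *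
      ri + 4 * a ^ 6 * r ^ 15 - 5 * a ^ 6 * r ^ 14 * ri ^ 3 - 6 * a ^ 6 * r ^ 14 * ri ^ 2 - 4 * a
      ^ 6 * r ^ 14 * ri + a ^ 6 * r ^ 14 - 2 * a ^ 6 * r ^ 13 * ri ^ 3 - 5 * a ^ 6 * r ^ 13 * ri
      ^ 2 - 6 * a ^ 6 * r ^ 13 * ri - 8 * a ^ 6 * r ^ 13 + 2 * a ^ 6 * r ^ 12 * ri ^ 3 - 2 * a ^
      6 * r ^ 12 * ri ^ 2 - 5 * a ^ 6 * r ^ 12 * ri - 13 * a ^ 6 * r ^ 12 + 3 * a ^ 6 * r ^ 11 *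
      ri ^ 3 + 2 * a ^ 6 * r ^ 11 * ri ^ 2 - 2 * a ^ 6 * r ^ 11 * ri - 7 * a ^ 6 * r ^ 11 + 2 * a
      ^ 6 * r ^ 10 * ri ^ 3 + 3 * a ^ 6 * r ^ 10 * ri ^ 2 + 2 * a ^ 6 * r ^ 10 * ri + a ^ 6 * r ^
      9 * ri ^ 3 + 2 * a ^ 6 * r ^ 9 * ri ^ 2 + 3 * a ^ 6 * r ^ 9 * ri + 4 * a ^ 6 * r ^ 9 + a ^
      6 * r ^ 8 * ri ^ 2 + 2 * a ^ 6 * r ^ 8 * ri + 5 * a ^ 6 * r ^ 8 + a ^ 6 * r ^ 7 * ri + 3 *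
      a ^ 6 * r ^ 7 + a ^ 6 * r ^ 6 - a ^ 5 * r ^ 19 * ri ^ 3 - 2 * a ^ 5 * r ^ 18 * ri ^ 3 - a ^
      5 * r ^ 18 * ri ^ 2 - 3 * a ^ 5 * r ^ 17 * ri ^ 3 - 2 * a ^ 5 * r ^ 17 * ri ^ 2 - a ^ 5 * r
      ^ 17 * ri - 2 * a ^ 5 * r ^ 16 * ri ^ 3 - 3 * a ^ 5 * r ^ 16 * ri ^ 2 - 2 * a ^ 5 * r ^ 16
      * ri - a ^ 5 * r ^ 16 + 2 * a ^ 5 * r ^ 15 * ri ^ 3 - 2 * a ^ 5 * r ^ 15 * ri ^ 2 - 3 * a ^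
      5 * r ^ 15 * ri - 2 * a ^ 5 * r ^ 15 + 5 * a ^ 5 * r ^ 14 * ri ^ 3 + 2 * a ^ 5 * r ^ 14 *
      ri ^ 2 - 2 * a ^ 5 * r ^ 14 * ri - 5 * a ^ 5 * r ^ 14 + 6 * a ^ 5 * r ^ 13 * ri ^ 3 + 5 * a
      ^ 5 * r ^ 13 * ri ^ 2 + 2 * a ^ 5 * r ^ 13 * ri - 7 * a ^ 5 * r ^ 13 + 4 * a ^ 5 * r ^ 12 *
      ri ^ 3 + 6 * a ^ 5 * r ^ 12 * ri ^ 2 + 5 * a ^ 5 * r ^ 12 * ri + a ^ 5 * r ^ 11 * ri ^ 3 +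
      4 * a ^ 5 * r ^ 11 * ri ^ 2 + 6 * a ^ 5 * r ^ 11 * ri + 11 * a ^ 5 * r ^ 11 - a ^ 5 * r ^
      10 * ri ^ 3 + a ^ 5 * r ^ 10 * ri ^ 2 + 4 * a ^ 5 * r ^ 10 * ri + 14 * a ^ 5 * r ^ 10 - a ^
      5 * r ^ 9 * ri ^ 3 - a ^ 5 * r ^ 9 * ri ^ 2 + a ^ 5 * r ^ 9 * ri + 5 * a ^ 5 * r ^ 9 - a ^
      5 * r ^ 8 * ri ^ 2 - a ^ 5 * r ^ 8 * ri - 3 * a ^ 5 * r ^ 8 - a ^ 5 * r ^ 7 * ri - 3 * a ^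
      5 * r ^ 7 - a ^ 5 * r ^ 6 + 2 * a ^ 4 * r ^ 17 * ri ^ 3 + 4 * a ^ 4 * r ^ 16 * ri ^ 3 + 2 *
      a ^ 4 * r ^ 16 * ri ^ 2 + 3 * a ^ 4 * r ^ 15 * ri ^ 3 + 4 * a ^ 4 * r ^ 15 * ri ^ 2 + 2 * a
      ^ 4 * r ^ 15 * ri + a ^ 4 * r ^ 14 * ri ^ 3 + 3 * a ^ 4 * r ^ 14 * ri ^ 2 + 4 * a ^ 4 * r ^
      14 * ri + 2 * a ^ 4 * r ^ 14 - a ^ 4 * r ^ 13 * ri ^ 3 + a ^ 4 * r ^ 13 * ri ^ 2 + 3 * a ^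
      4 * r ^ 13 * ri + 4 * a ^ 4 * r ^ 13 - 2 * a ^ 4 * r ^ 12 * ri ^ 3 - a ^ 4 * r ^ 12 * ri ^
      2 + a ^ 4 * r ^ 12 * ri + 4 * a ^ 4 * r ^ 12 - 2 * a ^ 4 * r ^ 11 * ri ^ 3 - 2 * a ^ 4 * r
      ^ 11 * ri ^ 2 - a ^ 4 * r ^ 11 * ri + 3 * a ^ 4 * r ^ 11 - a ^ 4 * r ^ 10 * ri ^ 3 - 2 * a
      ^ 4 * r ^ 10 * ri ^ 2 - 2 * a ^ 4 * r ^ 10 * ri - a ^ 4 * r ^ 10 - a ^ 4 * r ^ 9 * ri ^ 2 -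
      2 * a ^ 4 * r ^ 9 * ri - 4 * a ^ 4 * r ^ 9 - a ^ 4 * r ^ 8 * ri - 3 * a ^ 4 * r ^ 8 - a ^ 4
      * r ^ 7 - a ^ 3 * r ^ 15 * ri ^ 3 - 2 * a ^ 3 * r ^ 14 * ri ^ 3 - a ^ 3 * r ^ 14 * ri ^ 2 -
      a ^ 3 * r ^ 13 * ri ^ 3 - 2 * a ^ 3 * r ^ 13 * ri ^ 2 - a ^ 3 * r ^ 13 * ri - a ^ 3 * r ^
      12 * ri ^ 2 - 2 * a ^ 3 * r ^ 12 * ri - a ^ 3 * r ^ 12 - a ^ 3 * r ^ 11 * ri - 2 * a ^ 3 *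
      r ^ 11 - a ^ 3 * r ^ 10) * h.hr + (-a ^ 8 * r ^ 13 - 2 * a ^ 8 * r ^ 12 - a ^ 8 * r ^ 11 -
      2 * a ^ 7 * r ^ 14 - 3 * a ^ 7 * r ^ 13 + 3 * a ^ 7 * r ^ 11 + 4 * a ^ 7 * r ^ 10 + 2 * a ^
      7 * r ^ 9 + 3 * a ^ 6 * r ^ 14 + 4 * a ^ 6 * r ^ 13 + a ^ 6 * r ^ 12 + a ^ 6 * r ^ 11 + a ^
      6 * r ^ 10 - a ^ 6 * r ^ 8 - a ^ 6 * r ^ 7 - a ^ 5 * r ^ 14 + a ^ 5 * r ^ 13 + 2 * a ^ 5 *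
      r ^ 12 - 2 * a ^ 5 * r ^ 11 - 2 * a ^ 5 * r ^ 10 - a ^ 5 * r ^ 9 - 2 * a ^ 5 * r ^ 8 - 2 *
      a ^ 5 * r ^ 7 - a ^ 5 * r ^ 6 - a ^ 4 * r ^ 13 - a ^ 4 * r ^ 12 - 2 * a ^ 4 * r ^ 11 - 5 *
      a ^ 4 * r ^ 10 - 2 * a ^ 4 * r ^ 9 + 3 * a ^ 4 * r ^ 8 + 3 * a ^ 4 * r ^ 7 + a ^ 4 * r ^ 6
      + a ^ 3 * r ^ 11 + 2 * a ^ 3 * r ^ 10 + a ^ 3 * r ^ 9) * h.rel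

theorem E2R.u1_42 (h : E2R a r X ai ri P R Q W O L0 L1 L3 L4) :
    (O * r ^ 2 * Q) = X * ((r ^ 3 * a) * (r ^ 4 * a * Q)) + (1 - X) * ((r ^ 3 * a) ^ 2 * (Q * ri
      ^ 4 * ai ^ 2)) := by
  refine sub_eq_zero.1 (cancel (mul_ne_zero (mul_ne_zero h.nQ (pow_ne_zero 2 h.n0)) (pow_ne_zero 4 h.nr)) ?_)
  linear_combination
    (r ^ 2 * Q) * (r + 1) * a ^ 2 * r ^ 4 * h.hO + (a ^ 2 * r ^ 6 * X * ai ^ 2 * ri ^ 4 - a ^ 2 *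
      r ^ 6 * ai ^ 2 * ri ^ 4 - r ^ 2 * X + r ^ 2) * a ^ 2 * r ^ 4 * h.hQ + (a ^ 4 * r ^ 6 * X *
      ai * ri ^ 4 - a ^ 4 * r ^ 6 * ai * ri ^ 4 + a ^ 3 * r ^ 7 * X * ai * ri ^ 4 - a ^ 3 * r ^ 7
      * ai * ri ^ 4 + a ^ 3 * r ^ 6 * X * ri ^ 4 - a ^ 3 * r ^ 6 * ri ^ 4 + a ^ 2 * r ^ 7 * X *
      ri ^ 4 - a ^ 2 * r ^ 7 * ri ^ 4) * r ^ 4 * h.ha + (a ^ 3 * r ^ 9 * X * ri ^ 3 - a ^ 3 * r ^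
      9 * ri ^ 3 + a ^ 3 * r ^ 8 * X * ri ^ 2 - a ^ 3 * r ^ 8 * ri ^ 2 + a ^ 3 * r ^ 7 * X * ri -
      a ^ 3 * r ^ 7 * ri + a ^ 3 * r ^ 6 * X - a ^ 3 * r ^ 6 + a ^ 2 * r ^ 10 * X * ri ^ 3 - a ^
      2 * r ^ 10 * ri ^ 3 + a ^ 2 * r ^ 9 * X * ri ^ 2 - a ^ 2 * r ^ 9 * ri ^ 2 + a ^ 2 * r ^ 8 *
      X * ri - a ^ 2 * r ^ 8 * ri + a ^ 2 * r ^ 7 * X - a ^ 2 * r ^ 7) * h.hr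

theorem E2R.u2_42 (h : E2R a r X ai ri P R Q W O L0 L1 L3 L4) :
    (r ^ 3 * a) ^ 3 * (O * Q * ri ^ 2 * ai) = (1 - (-a ^ 2 * r ^ 5 * X)) * ((r ^ 3 * a) * (r ^ 4
      * a * Q)) + (-a ^ 2 * r ^ 5 * X) * ((r ^ 3 * a) ^ 2 * (Q * ri ^ 4 * ai ^ 2)) := by
  refine sub_eq_zero.1 (cancel (mul_ne_zero (mul_ne_zero h.nQ (pow_ne_zero 2 h.n0)) (pow_ne_zero 4 h.nr)) ?_)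
  linear_combination
    (a ^ 3 * r ^ 9 * ai * ri ^ 2 * Q) * (r + 1) * a ^ 2 * r ^ 4 * h.hO + (a ^ 5 * r ^ 14 * X * ai
      * ri ^ 2 - a ^ 4 * r ^ 12 * X + a ^ 4 * r ^ 11 * X * ai ^ 2 * ri ^ 4 - a ^ 3 * r ^ 9 * X *
      ai * ri ^ 2 + a ^ 3 * r ^ 9 * ai * ri ^ 2 - a ^ 2 * r ^ 7) * a ^ 2 * r ^ 4 * h.hQ + (a ^ 7
      * r ^ 14 * X * ri ^ 2 + a ^ 6 * r ^ 15 * X * ri ^ 2 + a ^ 6 * r ^ 11 * X * ai * ri ^ 4 + a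
      ^ 5 * r ^ 12 * X * ai * ri ^ 4 + a ^ 5 * r ^ 11 * X * ri ^ 4 - a ^ 5 * r ^ 9 * X * ri ^ 2 +
      a ^ 5 * r ^ 9 * ri ^ 2 + a ^ 4 * r ^ 12 * X * ri ^ 4 - a ^ 4 * r ^ 10 * X * ri ^ 2 + a ^ 4
      * r ^ 10 * ri ^ 2) * r ^ 4 * h.ha + (a ^ 7 * r ^ 17 * X * ri + a ^ 7 * r ^ 16 * X + a ^ 6 *
      r ^ 18 * X * ri + a ^ 6 * r ^ 17 * X + a ^ 5 * r ^ 14 * X * ri ^ 3 + a ^ 5 * r ^ 13 * X *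
      ri ^ 2 + a ^ 5 * r ^ 12 * ri + a ^ 5 * r ^ 11 + a ^ 4 * r ^ 15 * X * ri ^ 3 + a ^ 4 * r ^
      14 * X * ri ^ 2 + a ^ 4 * r ^ 13 * ri + a ^ 4 * r ^ 12) * h.hr

theorem E2R.u1_43 (h : E2R a r X ai ri P R Q W O L0 L1 L3 L4) :
    (O * r ^ 6 * P) = L3 * ((r ^ 3 * a) * (O * r ^ 2 * Q)) + (1 - L3) * ((r ^ 3 * a) ^ 3 * (O * Q
      * ri ^ 2 * ai)) := by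
  refine sub_eq_zero.1 (cancel (mul_ne_zero (mul_ne_zero (mul_ne_zero (mul_ne_zero h.nL3 h.n1) h.nQ) h.n0) (pow_ne_zero 2 h.nr)) ?_)
  linear_combination
    (a ^ 3 * r ^ 9 * ai * ri ^ 2 * Q * O - a * r ^ 5 * Q * O) * ((r + 1) * (r ^ 2 * a - 1)) * (r
      + 1) * a * r ^ 2 * h.hL3 + (a ^ 2 * r ^ 8 * O + a * r ^ 9 * O - a * r ^ 6 * O - r ^ 7 * O)
      * (r + 1) * a * r ^ 2 * h.hP + (-a ^ 6 * r ^ 14 * ai * ri ^ 2 * O - a ^ 6 * r ^ 13 * ai *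
      ri ^ 2 * O - a ^ 5 * r ^ 15 * ai * ri ^ 2 * O - a ^ 5 * r ^ 14 * ai * ri ^ 2 * O + 2 * a ^
      5 * r ^ 12 * ai * ri ^ 2 * O + 2 * a ^ 5 * r ^ 11 * ai * ri ^ 2 * O + a ^ 4 * r ^ 15 * ai *
      ri ^ 2 * O + a ^ 4 * r ^ 14 * ai * ri ^ 2 * O + a ^ 4 * r ^ 13 * ai * ri ^ 2 * O + a ^ 4 *
      r ^ 12 * ai * ri ^ 2 * O - a ^ 4 * r ^ 10 * ai * ri ^ 2 * O - a ^ 4 * r ^ 9 * ai * ri ^ 2 *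
      O - a ^ 3 * r ^ 13 * ai * ri ^ 2 * O - a ^ 3 * r ^ 12 * ai * ri ^ 2 * O - a ^ 2 * r ^ 11 *
      O - a ^ 2 * r ^ 10 * O + a ^ 2 * r ^ 9 * O + a ^ 2 * r ^ 8 * O + a * r ^ 9 * O + a * r ^ 8
      * O - a * r ^ 7 * O - a * r ^ 6 * O) * a * r ^ 2 * h.hQ + (-a ^ 7 * r ^ 14 * ri ^ 2 * O - a
      ^ 7 * r ^ 13 * ri ^ 2 * O - 2 * a ^ 6 * r ^ 15 * ri ^ 2 * O - 2 * a ^ 6 * r ^ 14 * ri ^ 2 *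
      O + 2 * a ^ 6 * r ^ 12 * ri ^ 2 * O + 2 * a ^ 6 * r ^ 11 * ri ^ 2 * O - a ^ 5 * r ^ 16 * ri
      ^ 2 * O + a ^ 5 * r ^ 14 * ri ^ 2 * O + 3 * a ^ 5 * r ^ 13 * ri ^ 2 * O + 3 * a ^ 5 * r ^
      12 * ri ^ 2 * O - a ^ 5 * r ^ 10 * ri ^ 2 * O - a ^ 5 * r ^ 9 * ri ^ 2 * O + a ^ 4 * r ^ 16
      * ri ^ 2 * O + a ^ 4 * r ^ 15 * ri ^ 2 * O + a ^ 4 * r ^ 14 * ri ^ 2 * O - a ^ 4 * r ^ 12 *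
      ri ^ 2 * O - a ^ 4 * r ^ 11 * ri ^ 2 * O - a ^ 4 * r ^ 10 * ri ^ 2 * O - a ^ 3 * r ^ 14 *
      ri ^ 2 * O - a ^ 3 * r ^ 13 * ri ^ 2 * O) * r ^ 2 * h.ha + (-a ^ 7 * r ^ 15 * ri * O - a ^
      7 * r ^ 14 * ri * O - a ^ 7 * r ^ 14 * O - a ^ 7 * r ^ 13 * O - 2 * a ^ 6 * r ^ 16 * ri * O
      - 2 * a ^ 6 * r ^ 15 * ri * O - 2 * a ^ 6 * r ^ 15 * O - 2 * a ^ 6 * r ^ 14 * O + 2 * a ^ 6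
      * r ^ 13 * ri * O + 2 * a ^ 6 * r ^ 12 * ri * O + 2 * a ^ 6 * r ^ 12 * O + 2 * a ^ 6 * r ^
      11 * O - a ^ 5 * r ^ 17 * ri * O - a ^ 5 * r ^ 16 * O + a ^ 5 * r ^ 15 * ri * O + 3 * a ^ 5
      * r ^ 14 * ri * O + a ^ 5 * r ^ 14 * O + 3 * a ^ 5 * r ^ 13 * ri * O + 3 * a ^ 5 * r ^ 13 *
      O + 3 * a ^ 5 * r ^ 12 * O - a ^ 5 * r ^ 11 * ri * O - a ^ 5 * r ^ 10 * ri * O - a ^ 5 * r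
      ^ 10 * O - a ^ 5 * r ^ 9 * O + a ^ 4 * r ^ 17 * ri * O + a ^ 4 * r ^ 16 * ri * O + a ^ 4 *
      r ^ 16 * O + a ^ 4 * r ^ 15 * ri * O + a ^ 4 * r ^ 15 * O + a ^ 4 * r ^ 14 * O - a ^ 4 * r
      ^ 13 * ri * O - a ^ 4 * r ^ 12 * ri * O - a ^ 4 * r ^ 12 * O - a ^ 4 * r ^ 11 * ri * O - a
      ^ 4 * r ^ 11 * O - a ^ 4 * r ^ 10 * O - a ^ 3 * r ^ 15 * ri * O - a ^ 3 * r ^ 14 * ri * O -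
      a ^ 3 * r ^ 14 * O - a ^ 3 * r ^ 13 * O) * h.hr + (-a ^ 5 * r ^ 12 * O - a ^ 5 * r ^ 11 * O
      - a ^ 4 * r ^ 13 * O + a ^ 4 * r ^ 9 * O + a ^ 3 * r ^ 13 * O + a ^ 3 * r ^ 11 * O + a ^ 3
      * r ^ 10 * O + a ^ 3 * r ^ 8 * O + a ^ 2 * r ^ 12 * O - a ^ 2 * r ^ 8 * O - a * r ^ 10 * O
      - a * r ^ 9 * O) * h.rel

theorem E2R.u2_43 (h : E2R a r X ai ri P R Q W O L0 L1 L3 L4) :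
    (r ^ 3 * a) ^ 4 * (O * R * ri ^ 6) = (1 - (a ^ 2 * ri * L3)) * ((r ^ 3 * a) * (O * r ^ 2 *
      Q)) + (a ^ 2 * ri * L3) * ((r ^ 3 * a) ^ 3 * (O * Q * ri ^ 2 * ai)) := by
  refine sub_eq_zero.1 (cancel (mul_ne_zero (mul_ne_zero (mul_ne_zero (mul_ne_zero h.nL3 h.nR) h.nQ) h.n0) (pow_ne_zero 6 h.nr)) ?_)
  linear_combination
    (-a ^ 5 * r ^ 9 * ai * ri ^ 3 * Q * O + a ^ 3 * r ^ 5 * ri * Q * O) * (a * ((r + 1) * (r ^ 2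
      * a - 1))) * (r + 1) * a * r ^ 6 * h.hL3 + (a ^ 6 * r ^ 14 * ri ^ 6 * O + a ^ 5 * r ^ 15 *
      ri ^ 6 * O - a ^ 5 * r ^ 12 * ri ^ 6 * O - a ^ 4 * r ^ 13 * ri ^ 6 * O) * (r + 1) * a * r ^
      6 * h.hR + (-a ^ 7 * r ^ 15 * ai * ri ^ 3 * O - a ^ 7 * r ^ 14 * ai * ri ^ 3 * O + a ^ 7 *
      r ^ 13 * ai * ri ^ 3 * O + a ^ 7 * r ^ 12 * ai * ri ^ 3 * O + a ^ 6 * r ^ 13 * ai * ri ^ 3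
      * O + a ^ 6 * r ^ 12 * ai * ri ^ 3 * O - a ^ 6 * r ^ 11 * ai * ri ^ 3 * O - a ^ 6 * r ^ 10
      * ai * ri ^ 3 * O + a ^ 5 * r ^ 11 * ri * O + a ^ 5 * r ^ 10 * ri * O - a ^ 5 * r ^ 10 * O
      - a ^ 5 * r ^ 9 * ri * O - a ^ 5 * r ^ 9 * O - a ^ 5 * r ^ 8 * ri * O - a ^ 4 * r ^ 11 * O
      - a ^ 4 * r ^ 10 * O - a ^ 4 * r ^ 9 * ri * O - a ^ 4 * r ^ 8 * ri * O + 2 * a ^ 4 * r ^ 8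
      * O + a ^ 4 * r ^ 7 * ri * O + 2 * a ^ 4 * r ^ 7 * O + a ^ 4 * r ^ 6 * ri * O + 2 * a ^ 3 *
      r ^ 9 * O + 2 * a ^ 3 * r ^ 8 * O - a ^ 3 * r ^ 6 * O - a ^ 3 * r ^ 5 * O - a ^ 2 * r ^ 7 *
      O - a ^ 2 * r ^ 6 * O) * a * r ^ 6 * h.hQ + (-a ^ 8 * r ^ 15 * ri ^ 3 * O - a ^ 8 * r ^ 14
      * ri ^ 3 * O + a ^ 8 * r ^ 13 * ri ^ 3 * O + a ^ 8 * r ^ 12 * ri ^ 3 * O - a ^ 7 * r ^ 16 *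
      ri ^ 3 * O - a ^ 7 * r ^ 15 * ri ^ 3 * O + a ^ 7 * r ^ 14 * ri ^ 3 * O + 2 * a ^ 7 * r ^ 13
      * ri ^ 3 * O + a ^ 7 * r ^ 12 * ri ^ 3 * O - a ^ 7 * r ^ 11 * ri ^ 3 * O - a ^ 7 * r ^ 10 *
      ri ^ 3 * O + a ^ 6 * r ^ 14 * ri ^ 3 * O + a ^ 6 * r ^ 13 * ri ^ 3 * O - a ^ 6 * r ^ 12 *
      ri ^ 3 * O - a ^ 6 * r ^ 11 * ri ^ 3 * O) * r ^ 6 * h.ha + (a ^ 9 * r ^ 22 * ri ^ 5 * O + a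
      ^ 9 * r ^ 21 * ri ^ 5 * O + a ^ 9 * r ^ 21 * ri ^ 4 * O + a ^ 9 * r ^ 20 * ri ^ 4 * O + a ^
      9 * r ^ 20 * ri ^ 3 * O + a ^ 9 * r ^ 19 * ri ^ 3 * O + a ^ 9 * r ^ 19 * ri ^ 2 * O + a ^ 9
      * r ^ 18 * ri ^ 2 * O + a ^ 9 * r ^ 18 * ri * O + a ^ 9 * r ^ 17 * ri * O + a ^ 9 * r ^ 17
      * O + a ^ 9 * r ^ 16 * O + 3 * a ^ 8 * r ^ 23 * ri ^ 5 * O + 3 * a ^ 8 * r ^ 22 * ri ^ 5 *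
      O + 3 * a ^ 8 * r ^ 22 * ri ^ 4 * O - a ^ 8 * r ^ 21 * ri ^ 5 * O + 3 * a ^ 8 * r ^ 21 * ri
      ^ 4 * O + 3 * a ^ 8 * r ^ 21 * ri ^ 3 * O - 3 * a ^ 8 * r ^ 20 * ri ^ 5 * O - a ^ 8 * r ^
      20 * ri ^ 4 * O + 3 * a ^ 8 * r ^ 20 * ri ^ 3 * O + 2 * a ^ 8 * r ^ 20 * ri ^ 2 * O - 2 * a
      ^ 8 * r ^ 19 * ri ^ 5 * O - 3 * a ^ 8 * r ^ 19 * ri ^ 4 * O - a ^ 8 * r ^ 19 * ri ^ 3 * O +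
      2 * a ^ 8 * r ^ 19 * ri ^ 2 * O + 2 * a ^ 8 * r ^ 19 * ri * O - 2 * a ^ 8 * r ^ 18 * ri ^ 4
      * O - 3 * a ^ 8 * r ^ 18 * ri ^ 3 * O + 2 * a ^ 8 * r ^ 18 * ri * O + 2 * a ^ 8 * r ^ 18 *
      O - 2 * a ^ 8 * r ^ 17 * ri ^ 3 * O - 2 * a ^ 8 * r ^ 17 * ri ^ 2 * O + 2 * a ^ 8 * r ^ 17
      * O - 2 * a ^ 8 * r ^ 16 * ri ^ 2 * O - 2 * a ^ 8 * r ^ 16 * ri * O - 2 * a ^ 8 * r ^ 15 *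
      ri * O - 2 * a ^ 8 * r ^ 15 * O - 2 * a ^ 8 * r ^ 14 * O + 2 * a ^ 7 * r ^ 24 * ri ^ 5 * O
      + a ^ 7 * r ^ 23 * ri ^ 5 * O + 2 * a ^ 7 * r ^ 23 * ri ^ 4 * O - 2 * a ^ 7 * r ^ 22 * ri ^
      5 * O + a ^ 7 * r ^ 22 * ri ^ 4 * O + 2 * a ^ 7 * r ^ 22 * ri ^ 3 * O - 5 * a ^ 7 * r ^ 21
      * ri ^ 5 * O - 2 * a ^ 7 * r ^ 21 * ri ^ 4 * O + a ^ 7 * r ^ 21 * ri ^ 3 * O + a ^ 7 * r ^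
      21 * ri ^ 2 * O - 4 * a ^ 7 * r ^ 20 * ri ^ 5 * O - 5 * a ^ 7 * r ^ 20 * ri ^ 4 * O - 2 * a
      ^ 7 * r ^ 20 * ri ^ 3 * O + a ^ 7 * r ^ 20 * ri * O + a ^ 7 * r ^ 19 * ri ^ 5 * O - 4 * a ^
      7 * r ^ 19 * ri ^ 4 * O - 5 * a ^ 7 * r ^ 19 * ri ^ 3 * O - a ^ 7 * r ^ 19 * ri ^ 2 * O + a
      ^ 7 * r ^ 19 * O + 2 * a ^ 7 * r ^ 18 * ri ^ 5 * O + a ^ 7 * r ^ 18 * ri ^ 4 * O - 4 * a ^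
      7 * r ^ 18 * ri ^ 3 * O - 3 * a ^ 7 * r ^ 18 * ri ^ 2 * O - a ^ 7 * r ^ 18 * ri * O + a ^ 7
      * r ^ 17 * ri ^ 5 * O + 2 * a ^ 7 * r ^ 17 * ri ^ 4 * O + a ^ 7 * r ^ 17 * ri ^ 3 * O - 3 *
      a ^ 7 * r ^ 17 * ri ^ 2 * O - 3 * a ^ 7 * r ^ 17 * ri * O - a ^ 7 * r ^ 17 * O + a ^ 7 * r
      ^ 16 * ri ^ 4 * O + 2 * a ^ 7 * r ^ 16 * ri ^ 3 * O - 3 * a ^ 7 * r ^ 16 * ri * O - 2 * a ^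
      7 * r ^ 16 * O + a ^ 7 * r ^ 15 * ri ^ 3 * O + a ^ 7 * r ^ 15 * ri ^ 2 * O - 2 * a ^ 7 * r
      ^ 15 * O + a ^ 7 * r ^ 14 * ri ^ 2 * O + a ^ 7 * r ^ 14 * ri * O - a ^ 7 * r ^ 14 * O + a ^
      7 * r ^ 13 * ri * O + a ^ 7 * r ^ 12 * O - a ^ 6 * r ^ 24 * ri ^ 5 * O - a ^ 6 * r ^ 23 *
      ri ^ 5 * O - a ^ 6 * r ^ 23 * ri ^ 4 * O - 2 * a ^ 6 * r ^ 22 * ri ^ 5 * O - a ^ 6 * r ^ 22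
      * ri ^ 4 * O - a ^ 6 * r ^ 22 * ri ^ 3 * O - a ^ 6 * r ^ 21 * ri ^ 5 * O - 2 * a ^ 6 * r ^
      21 * ri ^ 4 * O - a ^ 6 * r ^ 21 * ri ^ 3 * O - a ^ 6 * r ^ 21 * ri ^ 2 * O + 2 * a ^ 6 * r
      ^ 20 * ri ^ 5 * O - a ^ 6 * r ^ 20 * ri ^ 4 * O - 2 * a ^ 6 * r ^ 20 * ri ^ 3 * O - a ^ 6 *
      r ^ 20 * ri ^ 2 * O - a ^ 6 * r ^ 20 * ri * O + 2 * a ^ 6 * r ^ 19 * ri ^ 5 * O + 2 * a ^ 6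
      * r ^ 19 * ri ^ 4 * O - a ^ 6 * r ^ 19 * ri ^ 3 * O - a ^ 6 * r ^ 19 * ri ^ 2 * O - a ^ 6 *
      r ^ 19 * ri * O - a ^ 6 * r ^ 19 * O + a ^ 6 * r ^ 18 * ri ^ 5 * O + 2 * a ^ 6 * r ^ 18 *
      ri ^ 4 * O + 2 * a ^ 6 * r ^ 18 * ri ^ 3 * O - a ^ 6 * r ^ 18 * ri * O - a ^ 6 * r ^ 18 * O
      + a ^ 6 * r ^ 17 * ri ^ 4 * O + 2 * a ^ 6 * r ^ 17 * ri ^ 3 * O + a ^ 6 * r ^ 17 * ri ^ 2 *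
      O + a ^ 6 * r ^ 16 * ri ^ 3 * O + a ^ 6 * r ^ 16 * ri ^ 2 * O + a ^ 6 * r ^ 16 * ri * O + a
      ^ 6 * r ^ 16 * O + a ^ 6 * r ^ 15 * ri ^ 2 * O + a ^ 6 * r ^ 15 * ri * O + a ^ 6 * r ^ 14 *
      ri * O - a ^ 6 * r ^ 14 * O + a ^ 6 * r ^ 12 * O + a ^ 6 * r ^ 11 * O + a ^ 5 * r ^ 22 * ri
      ^ 5 * O + a ^ 5 * r ^ 21 * ri ^ 5 * O + a ^ 5 * r ^ 21 * ri ^ 4 * O + a ^ 5 * r ^ 20 * ri ^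
      4 * O + a ^ 5 * r ^ 20 * ri ^ 3 * O + a ^ 5 * r ^ 19 * ri ^ 3 * O + a ^ 5 * r ^ 19 * ri ^ 2
      * O + a ^ 5 * r ^ 18 * ri ^ 2 * O + a ^ 5 * r ^ 18 * ri * O + a ^ 5 * r ^ 17 * ri * O + a ^
      5 * r ^ 17 * O + a ^ 5 * r ^ 16 * O - a ^ 5 * r ^ 15 * O - a ^ 5 * r ^ 14 * O + a ^ 5 * r ^
      13 * O + a ^ 5 * r ^ 12 * O) * h.hr + (a ^ 7 * r ^ 15 * O + a ^ 7 * r ^ 14 * O + a ^ 6 * r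
      ^ 16 * O - a ^ 6 * r ^ 12 * O - a ^ 5 * r ^ 16 * O - a ^ 5 * r ^ 14 * O - a ^ 5 * r ^ 13 *
      O - a ^ 5 * r ^ 11 * O - a ^ 4 * r ^ 15 * O + a ^ 4 * r ^ 11 * O + a ^ 3 * r ^ 13 * O + a ^
      3 * r ^ 12 * O) * h.rel

theorem E2R.u1_44 (h : E2R a r X ai ri P R Q W O L0 L1 L3 L4) :
    (O * r ^ 6 * a ^ 2) = L4 * ((r ^ 3 * a) * (O * r ^ 6 * P)) + (1 - L4) * ((r ^ 3 * a) ^ 4 * (O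
      * R * ri ^ 6)) := by
  refine sub_eq_zero.1 (cancel (mul_ne_zero (mul_ne_zero (mul_ne_zero h.nL4 h.n1) h.nR) (pow_ne_zero 6 h.nr)) ?_)
  linear_combination
    (a ^ 4 * r ^ 12 * ri ^ 6 * R * O - a * r ^ 9 * P * O) * ((r + 1) * (r ^ 2 * a - 1)) * (a *
      ((r + 1) * (r ^ 2 * a - 1))) * r ^ 6 * h.hL4 + (-a ^ 3 * r ^ 9 * O + a * r ^ 9 * O) * (a *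
      ((r + 1) * (r ^ 2 * a - 1))) * r ^ 6 * h.hP + (a ^ 5 * r ^ 18 * ri ^ 6 * O + a ^ 5 * r ^ 17
      * ri ^ 6 * O - a ^ 5 * r ^ 15 * ri ^ 6 * O - a ^ 5 * r ^ 14 * ri ^ 6 * O - a ^ 4 * r ^ 16 *
      ri ^ 6 * O - a ^ 4 * r ^ 15 * ri ^ 6 * O + a ^ 4 * r ^ 13 * ri ^ 6 * O + a ^ 4 * r ^ 12 *
      ri ^ 6 * O) * r ^ 6 * h.hR + (a ^ 7 * r ^ 25 * ri ^ 5 * O + a ^ 7 * r ^ 24 * ri ^ 5 * O + a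
      ^ 7 * r ^ 24 * ri ^ 4 * O + a ^ 7 * r ^ 23 * ri ^ 4 * O + a ^ 7 * r ^ 23 * ri ^ 3 * O - a ^
      7 * r ^ 22 * ri ^ 5 * O + a ^ 7 * r ^ 22 * ri ^ 3 * O + a ^ 7 * r ^ 22 * ri ^ 2 * O - a ^ 7
      * r ^ 21 * ri ^ 5 * O - a ^ 7 * r ^ 21 * ri ^ 4 * O + a ^ 7 * r ^ 21 * ri ^ 2 * O + a ^ 7 *
      r ^ 21 * ri * O - a ^ 7 * r ^ 20 * ri ^ 4 * O - a ^ 7 * r ^ 20 * ri ^ 3 * O + a ^ 7 * r ^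
      20 * ri * O + a ^ 7 * r ^ 20 * O - a ^ 7 * r ^ 19 * ri ^ 3 * O - a ^ 7 * r ^ 19 * ri ^ 2 *
      O + a ^ 7 * r ^ 19 * O - a ^ 7 * r ^ 18 * ri ^ 2 * O - a ^ 7 * r ^ 18 * ri * O - a ^ 7 * r
      ^ 17 * ri * O - a ^ 7 * r ^ 17 * O - a ^ 7 * r ^ 16 * O + 2 * a ^ 6 * r ^ 26 * ri ^ 5 * O +
      2 * a ^ 6 * r ^ 25 * ri ^ 5 * O + 2 * a ^ 6 * r ^ 25 * ri ^ 4 * O - a ^ 6 * r ^ 24 * ri ^ 5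
      * O + 2 * a ^ 6 * r ^ 24 * ri ^ 4 * O + 2 * a ^ 6 * r ^ 24 * ri ^ 3 * O - 5 * a ^ 6 * r ^
      23 * ri ^ 5 * O - a ^ 6 * r ^ 23 * ri ^ 4 * O + 2 * a ^ 6 * r ^ 23 * ri ^ 3 * O + 2 * a ^ 6
      * r ^ 23 * ri ^ 2 * O - 4 * a ^ 6 * r ^ 22 * ri ^ 5 * O - 5 * a ^ 6 * r ^ 22 * ri ^ 4 * O -
      a ^ 6 * r ^ 22 * ri ^ 3 * O + 2 * a ^ 6 * r ^ 22 * ri ^ 2 * O + 2 * a ^ 6 * r ^ 22 * ri * O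
      + a ^ 6 * r ^ 21 * ri ^ 5 * O - 4 * a ^ 6 * r ^ 21 * ri ^ 4 * O - 5 * a ^ 6 * r ^ 21 * ri ^
      3 * O - a ^ 6 * r ^ 21 * ri ^ 2 * O + 2 * a ^ 6 * r ^ 21 * ri * O + 2 * a ^ 6 * r ^ 21 * O
      + 3 * a ^ 6 * r ^ 20 * ri ^ 5 * O + a ^ 6 * r ^ 20 * ri ^ 4 * O - 4 * a ^ 6 * r ^ 20 * ri ^
      3 * O - 5 * a ^ 6 * r ^ 20 * ri ^ 2 * O - a ^ 6 * r ^ 20 * ri * O + 2 * a ^ 6 * r ^ 20 * O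
      + 2 * a ^ 6 * r ^ 19 * ri ^ 5 * O + 3 * a ^ 6 * r ^ 19 * ri ^ 4 * O + a ^ 6 * r ^ 19 * ri ^
      3 * O - 4 * a ^ 6 * r ^ 19 * ri ^ 2 * O - 5 * a ^ 6 * r ^ 19 * ri * O - a ^ 6 * r ^ 19 * O
      + 2 * a ^ 6 * r ^ 18 * ri ^ 4 * O + 3 * a ^ 6 * r ^ 18 * ri ^ 3 * O + a ^ 6 * r ^ 18 * ri ^
      2 * O - 4 * a ^ 6 * r ^ 18 * ri * O - 5 * a ^ 6 * r ^ 18 * O + 2 * a ^ 6 * r ^ 17 * ri ^ 3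
      * O + 3 * a ^ 6 * r ^ 17 * ri ^ 2 * O + a ^ 6 * r ^ 17 * ri * O - 4 * a ^ 6 * r ^ 17 * O +
      2 * a ^ 6 * r ^ 16 * ri ^ 2 * O + 3 * a ^ 6 * r ^ 16 * ri * O + a ^ 6 * r ^ 16 * O + 2 * a
      ^ 6 * r ^ 15 * ri * O + 3 * a ^ 6 * r ^ 15 * O + 2 * a ^ 6 * r ^ 14 * O - a ^ 5 * r ^ 26 *
      ri ^ 5 * O - a ^ 5 * r ^ 25 * ri ^ 5 * O - a ^ 5 * r ^ 25 * ri ^ 4 * O - 2 * a ^ 5 * r ^ 24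
      * ri ^ 5 * O - a ^ 5 * r ^ 24 * ri ^ 4 * O - a ^ 5 * r ^ 24 * ri ^ 3 * O - a ^ 5 * r ^ 23 *
      ri ^ 5 * O - 2 * a ^ 5 * r ^ 23 * ri ^ 4 * O - a ^ 5 * r ^ 23 * ri ^ 3 * O - a ^ 5 * r ^ 23
      * ri ^ 2 * O + 2 * a ^ 5 * r ^ 22 * ri ^ 5 * O - a ^ 5 * r ^ 22 * ri ^ 4 * O - 2 * a ^ 5 *
      r ^ 22 * ri ^ 3 * O - a ^ 5 * r ^ 22 * ri ^ 2 * O - a ^ 5 * r ^ 22 * ri * O + 4 * a ^ 5 * r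
      ^ 21 * ri ^ 5 * O + 2 * a ^ 5 * r ^ 21 * ri ^ 4 * O - a ^ 5 * r ^ 21 * ri ^ 3 * O - 2 * a ^
      5 * r ^ 21 * ri ^ 2 * O - a ^ 5 * r ^ 21 * ri * O - a ^ 5 * r ^ 21 * O + 3 * a ^ 5 * r ^ 20
      * ri ^ 5 * O + 4 * a ^ 5 * r ^ 20 * ri ^ 4 * O + 2 * a ^ 5 * r ^ 20 * ri ^ 3 * O - a ^ 5 *
      r ^ 20 * ri ^ 2 * O - 2 * a ^ 5 * r ^ 20 * ri * O - a ^ 5 * r ^ 20 * O - a ^ 5 * r ^ 19 *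
      ri ^ 5 * O + 3 * a ^ 5 * r ^ 19 * ri ^ 4 * O + 4 * a ^ 5 * r ^ 19 * ri ^ 3 * O + 2 * a ^ 5
      * r ^ 19 * ri ^ 2 * O - a ^ 5 * r ^ 19 * ri * O - 2 * a ^ 5 * r ^ 19 * O - 2 * a ^ 5 * r ^
      18 * ri ^ 5 * O - a ^ 5 * r ^ 18 * ri ^ 4 * O + 3 * a ^ 5 * r ^ 18 * ri ^ 3 * O + 4 * a ^ 5
      * r ^ 18 * ri ^ 2 * O + 2 * a ^ 5 * r ^ 18 * ri * O - a ^ 5 * r ^ 18 * O - a ^ 5 * r ^ 17 *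
      ri ^ 5 * O - 2 * a ^ 5 * r ^ 17 * ri ^ 4 * O - a ^ 5 * r ^ 17 * ri ^ 3 * O + 3 * a ^ 5 * r
      ^ 17 * ri ^ 2 * O + 4 * a ^ 5 * r ^ 17 * ri * O + 2 * a ^ 5 * r ^ 17 * O - a ^ 5 * r ^ 16 *
      ri ^ 4 * O - 2 * a ^ 5 * r ^ 16 * ri ^ 3 * O - a ^ 5 * r ^ 16 * ri ^ 2 * O + 3 * a ^ 5 * r
      ^ 16 * ri * O + 4 * a ^ 5 * r ^ 16 * O - a ^ 5 * r ^ 15 * ri ^ 3 * O - 2 * a ^ 5 * r ^ 15 *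
      ri ^ 2 * O - a ^ 5 * r ^ 15 * ri * O + 3 * a ^ 5 * r ^ 15 * O - a ^ 5 * r ^ 14 * ri ^ 2 * O
      - 2 * a ^ 5 * r ^ 14 * ri * O - a ^ 5 * r ^ 14 * O - a ^ 5 * r ^ 13 * ri * O - 2 * a ^ 5 *
      r ^ 13 * O - a ^ 5 * r ^ 12 * O + a ^ 4 * r ^ 24 * ri ^ 5 * O + a ^ 4 * r ^ 23 * ri ^ 5 * O
      + a ^ 4 * r ^ 23 * ri ^ 4 * O + a ^ 4 * r ^ 22 * ri ^ 4 * O + a ^ 4 * r ^ 22 * ri ^ 3 * O -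
      a ^ 4 * r ^ 21 * ri ^ 5 * O + a ^ 4 * r ^ 21 * ri ^ 3 * O + a ^ 4 * r ^ 21 * ri ^ 2 * O - a
      ^ 4 * r ^ 20 * ri ^ 5 * O - a ^ 4 * r ^ 20 * ri ^ 4 * O + a ^ 4 * r ^ 20 * ri ^ 2 * O + a ^
      4 * r ^ 20 * ri * O - a ^ 4 * r ^ 19 * ri ^ 4 * O - a ^ 4 * r ^ 19 * ri ^ 3 * O + a ^ 4 * r
      ^ 19 * ri * O + a ^ 4 * r ^ 19 * O - a ^ 4 * r ^ 18 * ri ^ 3 * O - a ^ 4 * r ^ 18 * ri ^ 2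
      * O + a ^ 4 * r ^ 18 * O - a ^ 4 * r ^ 17 * ri ^ 2 * O - a ^ 4 * r ^ 17 * ri * O - a ^ 4 *
      r ^ 16 * ri * O - a ^ 4 * r ^ 16 * O - a ^ 4 * r ^ 15 * O) * h.hr + (a ^ 5 * r ^ 18 * O + a
      ^ 5 * r ^ 17 * O - 2 * a ^ 4 * r ^ 18 * O - 2 * a ^ 4 * r ^ 17 * O - a ^ 4 * r ^ 16 * O - a
      ^ 4 * r ^ 15 * O + a ^ 3 * r ^ 18 * O + a ^ 3 * r ^ 17 * O + 2 * a ^ 3 * r ^ 16 * O + 2 * a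
      ^ 3 * r ^ 15 * O - a ^ 2 * r ^ 16 * O - a ^ 2 * r ^ 15 * O) * h.rel

theorem E2R.u2_44 (h : E2R a r X ai ri P R Q W O L0 L1 L3 L4) :
    (r ^ 3 * a) ^ 5 * (O * ri ^ 6 * ai ^ 2) = (1 - (r ^ 3 * L4)) * ((r ^ 3 * a) * (O * r ^ 6 *
      P)) + (r ^ 3 * L4) * ((r ^ 3 * a) ^ 4 * (O * R * ri ^ 6)) := by
  refine sub_eq_zero.1 (cancel (mul_ne_zero (mul_ne_zero (mul_ne_zero (mul_ne_zero h.nL4 h.n1) h.nR) (pow_ne_zero 2 h.n0)) (pow_ne_zero 6 h.nr)) ?_)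
  linear_combination
    (-a ^ 4 * r ^ 15 * ri ^ 6 * R * O + a * r ^ 12 * P * O) * ((r + 1) * (r ^ 2 * a - 1)) * (a *
      ((r + 1) * (r ^ 2 * a - 1))) * a ^ 2 * r ^ 6 * h.hL4 + (a ^ 3 * r ^ 12 * O - a ^ 3 * r ^ 9
      * O) * (a * ((r + 1) * (r ^ 2 * a - 1))) * a ^ 2 * r ^ 6 * h.hP + (-a ^ 7 * r ^ 18 * ri ^ 6
      * O - a ^ 7 * r ^ 17 * ri ^ 6 * O + a ^ 6 * r ^ 16 * ri ^ 6 * O + a ^ 6 * r ^ 15 * ri ^ 6 *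
      O + a ^ 5 * r ^ 18 * ri ^ 6 * O + a ^ 5 * r ^ 17 * ri ^ 6 * O - a ^ 4 * r ^ 16 * ri ^ 6 * O
      - a ^ 4 * r ^ 15 * ri ^ 6 * O) * a ^ 2 * r ^ 6 * h.hR + (a ^ 11 * r ^ 21 * ai * ri ^ 6 * O
      + 2 * a ^ 11 * r ^ 20 * ai * ri ^ 6 * O + a ^ 11 * r ^ 19 * ai * ri ^ 6 * O + a ^ 10 * r ^
      21 * ri ^ 6 * O + 2 * a ^ 10 * r ^ 20 * ri ^ 6 * O - 2 * a ^ 10 * r ^ 19 * ai * ri ^ 6 * O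
      + a ^ 10 * r ^ 19 * ri ^ 6 * O - 4 * a ^ 10 * r ^ 18 * ai * ri ^ 6 * O - 2 * a ^ 10 * r ^
      17 * ai * ri ^ 6 * O - a ^ 9 * r ^ 24 * ai * ri ^ 6 * O - 2 * a ^ 9 * r ^ 23 * ai * ri ^ 6
      * O - a ^ 9 * r ^ 22 * ai * ri ^ 6 * O - 2 * a ^ 9 * r ^ 19 * ri ^ 6 * O - 4 * a ^ 9 * r ^
      18 * ri ^ 6 * O + a ^ 9 * r ^ 17 * ai * ri ^ 6 * O - 2 * a ^ 9 * r ^ 17 * ri ^ 6 * O + 2 *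
      a ^ 9 * r ^ 16 * ai * ri ^ 6 * O + a ^ 9 * r ^ 15 * ai * ri ^ 6 * O - a ^ 8 * r ^ 24 * ri ^
      6 * O - 2 * a ^ 8 * r ^ 23 * ri ^ 6 * O + 2 * a ^ 8 * r ^ 22 * ai * ri ^ 6 * O - a ^ 8 * r
      ^ 22 * ri ^ 6 * O + 4 * a ^ 8 * r ^ 21 * ai * ri ^ 6 * O + 2 * a ^ 8 * r ^ 20 * ai * ri ^ 6
      * O + a ^ 8 * r ^ 17 * ri ^ 6 * O + 2 * a ^ 8 * r ^ 16 * ri ^ 6 * O + a ^ 8 * r ^ 15 * ri ^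
      6 * O + 2 * a ^ 7 * r ^ 22 * ri ^ 6 * O + 4 * a ^ 7 * r ^ 21 * ri ^ 6 * O - a ^ 7 * r ^ 20
      * ai * ri ^ 6 * O + 2 * a ^ 7 * r ^ 20 * ri ^ 6 * O - 2 * a ^ 7 * r ^ 19 * ai * ri ^ 6 * O
      - a ^ 7 * r ^ 18 * ai * ri ^ 6 * O - a ^ 6 * r ^ 20 * ri ^ 6 * O - 2 * a ^ 6 * r ^ 19 * ri
      ^ 6 * O - a ^ 6 * r ^ 18 * ri ^ 6 * O) * r ^ 6 * h.ha + (-a ^ 11 * r ^ 25 * ri ^ 5 * O - a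
      ^ 11 * r ^ 24 * ri ^ 5 * O - a ^ 11 * r ^ 24 * ri ^ 4 * O - a ^ 11 * r ^ 23 * ri ^ 4 * O -
      a ^ 11 * r ^ 23 * ri ^ 3 * O - a ^ 11 * r ^ 22 * ri ^ 3 * O - a ^ 11 * r ^ 22 * ri ^ 2 * O
      - a ^ 11 * r ^ 21 * ri ^ 2 * O - a ^ 11 * r ^ 21 * ri * O - a ^ 11 * r ^ 20 * ri * O - a ^
      11 * r ^ 20 * O - a ^ 11 * r ^ 19 * O - a ^ 10 * r ^ 26 * ri ^ 5 * O - a ^ 10 * r ^ 25 * ri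
      ^ 4 * O + 2 * a ^ 10 * r ^ 24 * ri ^ 5 * O - a ^ 10 * r ^ 24 * ri ^ 3 * O + 3 * a ^ 10 * r
      ^ 23 * ri ^ 5 * O + 2 * a ^ 10 * r ^ 23 * ri ^ 4 * O - a ^ 10 * r ^ 23 * ri ^ 2 * O + 2 * a
      ^ 10 * r ^ 22 * ri ^ 5 * O + 3 * a ^ 10 * r ^ 22 * ri ^ 4 * O + 2 * a ^ 10 * r ^ 22 * ri ^
      3 * O - a ^ 10 * r ^ 22 * ri * O + 2 * a ^ 10 * r ^ 21 * ri ^ 4 * O + 3 * a ^ 10 * r ^ 21 *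
      ri ^ 3 * O + 2 * a ^ 10 * r ^ 21 * ri ^ 2 * O - a ^ 10 * r ^ 21 * O + 2 * a ^ 10 * r ^ 20 *
      ri ^ 3 * O + 3 * a ^ 10 * r ^ 20 * ri ^ 2 * O + 2 * a ^ 10 * r ^ 20 * ri * O + 2 * a ^ 10 *
      r ^ 19 * ri ^ 2 * O + 3 * a ^ 10 * r ^ 19 * ri * O + 2 * a ^ 10 * r ^ 19 * O + 2 * a ^ 10 *
      r ^ 18 * ri * O + 3 * a ^ 10 * r ^ 18 * O + 2 * a ^ 10 * r ^ 17 * O + a ^ 9 * r ^ 26 * ri ^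
      5 * O + 2 * a ^ 9 * r ^ 25 * ri ^ 5 * O + a ^ 9 * r ^ 25 * ri ^ 4 * O + a ^ 9 * r ^ 24 * ri
      ^ 5 * O + 2 * a ^ 9 * r ^ 24 * ri ^ 4 * O + a ^ 9 * r ^ 24 * ri ^ 3 * O - 2 * a ^ 9 * r ^
      23 * ri ^ 5 * O + a ^ 9 * r ^ 23 * ri ^ 4 * O + 2 * a ^ 9 * r ^ 23 * ri ^ 3 * O + a ^ 9 * r
      ^ 23 * ri ^ 2 * O - 3 * a ^ 9 * r ^ 22 * ri ^ 5 * O - 2 * a ^ 9 * r ^ 22 * ri ^ 4 * O + a ^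
      9 * r ^ 22 * ri ^ 3 * O + 2 * a ^ 9 * r ^ 22 * ri ^ 2 * O + a ^ 9 * r ^ 22 * ri * O - 2 * a
      ^ 9 * r ^ 21 * ri ^ 5 * O - 3 * a ^ 9 * r ^ 21 * ri ^ 4 * O - 2 * a ^ 9 * r ^ 21 * ri ^ 3 *
      O + a ^ 9 * r ^ 21 * ri ^ 2 * O + 2 * a ^ 9 * r ^ 21 * ri * O + a ^ 9 * r ^ 21 * O - a ^ 9
      * r ^ 20 * ri ^ 5 * O - 2 * a ^ 9 * r ^ 20 * ri ^ 4 * O - 3 * a ^ 9 * r ^ 20 * ri ^ 3 * O -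
      2 * a ^ 9 * r ^ 20 * ri ^ 2 * O + a ^ 9 * r ^ 20 * ri * O + 2 * a ^ 9 * r ^ 20 * O - a ^ 9
      * r ^ 19 * ri ^ 4 * O - 2 * a ^ 9 * r ^ 19 * ri ^ 3 * O - 3 * a ^ 9 * r ^ 19 * ri ^ 2 * O -
      2 * a ^ 9 * r ^ 19 * ri * O + a ^ 9 * r ^ 19 * O - a ^ 9 * r ^ 18 * ri ^ 3 * O - 2 * a ^ 9
      * r ^ 18 * ri ^ 2 * O - 3 * a ^ 9 * r ^ 18 * ri * O - 2 * a ^ 9 * r ^ 18 * O - a ^ 9 * r ^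
      17 * ri ^ 2 * O - 2 * a ^ 9 * r ^ 17 * ri * O - 3 * a ^ 9 * r ^ 17 * O - a ^ 9 * r ^ 16 *
      ri * O - 2 * a ^ 9 * r ^ 16 * O - a ^ 9 * r ^ 15 * O - a ^ 8 * r ^ 29 * ri ^ 5 * O - 2 * a
      ^ 8 * r ^ 28 * ri ^ 5 * O - a ^ 8 * r ^ 28 * ri ^ 4 * O - a ^ 8 * r ^ 27 * ri ^ 5 * O - 2 *
      a ^ 8 * r ^ 27 * ri ^ 4 * O - a ^ 8 * r ^ 27 * ri ^ 3 * O + 2 * a ^ 8 * r ^ 26 * ri ^ 5 * O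
      - a ^ 8 * r ^ 26 * ri ^ 4 * O - 2 * a ^ 8 * r ^ 26 * ri ^ 3 * O - a ^ 8 * r ^ 26 * ri ^ 2 *
      O + 2 * a ^ 8 * r ^ 25 * ri ^ 5 * O + 2 * a ^ 8 * r ^ 25 * ri ^ 4 * O - a ^ 8 * r ^ 25 * ri
      ^ 3 * O - 2 * a ^ 8 * r ^ 25 * ri ^ 2 * O - a ^ 8 * r ^ 25 * ri * O - 2 * a ^ 8 * r ^ 24 *
      ri ^ 5 * O + 2 * a ^ 8 * r ^ 24 * ri ^ 4 * O + 2 * a ^ 8 * r ^ 24 * ri ^ 3 * O - a ^ 8 * r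
      ^ 24 * ri ^ 2 * O - 2 * a ^ 8 * r ^ 24 * ri * O - a ^ 8 * r ^ 24 * O - 4 * a ^ 8 * r ^ 23 *
      ri ^ 5 * O - 2 * a ^ 8 * r ^ 23 * ri ^ 4 * O + 2 * a ^ 8 * r ^ 23 * ri ^ 3 * O + 2 * a ^ 8
      * r ^ 23 * ri ^ 2 * O - a ^ 8 * r ^ 23 * ri * O - 2 * a ^ 8 * r ^ 23 * O - a ^ 8 * r ^ 22 *
      ri ^ 5 * O - 4 * a ^ 8 * r ^ 22 * ri ^ 4 * O - 2 * a ^ 8 * r ^ 22 * ri ^ 3 * O + 2 * a ^ 8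
      * r ^ 22 * ri ^ 2 * O + 2 * a ^ 8 * r ^ 22 * ri * O - a ^ 8 * r ^ 22 * O + 2 * a ^ 8 * r ^
      21 * ri ^ 5 * O - a ^ 8 * r ^ 21 * ri ^ 4 * O - 4 * a ^ 8 * r ^ 21 * ri ^ 3 * O - 2 * a ^ 8
      * r ^ 21 * ri ^ 2 * O + 2 * a ^ 8 * r ^ 21 * ri * O + 2 * a ^ 8 * r ^ 21 * O + a ^ 8 * r ^
      20 * ri ^ 5 * O + 2 * a ^ 8 * r ^ 20 * ri ^ 4 * O - a ^ 8 * r ^ 20 * ri ^ 3 * O - 4 * a ^ 8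
      * r ^ 20 * ri ^ 2 * O - 2 * a ^ 8 * r ^ 20 * ri * O + 2 * a ^ 8 * r ^ 20 * O + a ^ 8 * r ^
      19 * ri ^ 4 * O + 2 * a ^ 8 * r ^ 19 * ri ^ 3 * O - a ^ 8 * r ^ 19 * ri ^ 2 * O - 4 * a ^ 8
      * r ^ 19 * ri * O - 2 * a ^ 8 * r ^ 19 * O + a ^ 8 * r ^ 18 * ri ^ 3 * O + 2 * a ^ 8 * r ^
      18 * ri ^ 2 * O - a ^ 8 * r ^ 18 * ri * O - 4 * a ^ 8 * r ^ 18 * O + a ^ 8 * r ^ 17 * ri ^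
      2 * O + 2 * a ^ 8 * r ^ 17 * ri * O - a ^ 8 * r ^ 17 * O + a ^ 8 * r ^ 16 * ri * O + 2 * a
      ^ 8 * r ^ 16 * O + a ^ 8 * r ^ 15 * O + 2 * a ^ 7 * r ^ 27 * ri ^ 5 * O + 3 * a ^ 7 * r ^
      26 * ri ^ 5 * O + 2 * a ^ 7 * r ^ 26 * ri ^ 4 * O + a ^ 7 * r ^ 25 * ri ^ 5 * O + 3 * a ^ 7
      * r ^ 25 * ri ^ 4 * O + 2 * a ^ 7 * r ^ 25 * ri ^ 3 * O - 2 * a ^ 7 * r ^ 24 * ri ^ 5 * O +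
      a ^ 7 * r ^ 24 * ri ^ 4 * O + 3 * a ^ 7 * r ^ 24 * ri ^ 3 * O + 2 * a ^ 7 * r ^ 24 * ri ^ 2
      * O - 2 * a ^ 7 * r ^ 23 * ri ^ 5 * O - 2 * a ^ 7 * r ^ 23 * ri ^ 4 * O + a ^ 7 * r ^ 23 *
      ri ^ 3 * O + 3 * a ^ 7 * r ^ 23 * ri ^ 2 * O + 2 * a ^ 7 * r ^ 23 * ri * O + a ^ 7 * r ^ 22
      * ri ^ 5 * O - 2 * a ^ 7 * r ^ 22 * ri ^ 4 * O - 2 * a ^ 7 * r ^ 22 * ri ^ 3 * O + a ^ 7 *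
      r ^ 22 * ri ^ 2 * O + 3 * a ^ 7 * r ^ 22 * ri * O + 2 * a ^ 7 * r ^ 22 * O + 2 * a ^ 7 * r
      ^ 21 * ri ^ 5 * O + a ^ 7 * r ^ 21 * ri ^ 4 * O - 2 * a ^ 7 * r ^ 21 * ri ^ 3 * O - 2 * a ^
      7 * r ^ 21 * ri ^ 2 * O + a ^ 7 * r ^ 21 * ri * O + 3 * a ^ 7 * r ^ 21 * O + a ^ 7 * r ^ 20
      * ri ^ 5 * O + 2 * a ^ 7 * r ^ 20 * ri ^ 4 * O + a ^ 7 * r ^ 20 * ri ^ 3 * O - 2 * a ^ 7 *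
      r ^ 20 * ri ^ 2 * O - 2 * a ^ 7 * r ^ 20 * ri * O + a ^ 7 * r ^ 20 * O + a ^ 7 * r ^ 19 *
      ri ^ 4 * O + 2 * a ^ 7 * r ^ 19 * ri ^ 3 * O + a ^ 7 * r ^ 19 * ri ^ 2 * O - 2 * a ^ 7 * r
      ^ 19 * ri * O - 2 * a ^ 7 * r ^ 19 * O + a ^ 7 * r ^ 18 * ri ^ 3 * O + 2 * a ^ 7 * r ^ 18 *
      ri ^ 2 * O + a ^ 7 * r ^ 18 * ri * O - 2 * a ^ 7 * r ^ 18 * O + a ^ 7 * r ^ 17 * ri ^ 2 * O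
      + 2 * a ^ 7 * r ^ 17 * ri * O + a ^ 7 * r ^ 17 * O + a ^ 7 * r ^ 16 * ri * O + 2 * a ^ 7 *
      r ^ 16 * O + a ^ 7 * r ^ 15 * O - a ^ 6 * r ^ 25 * ri ^ 5 * O - a ^ 6 * r ^ 24 * ri ^ 5 * O
      - a ^ 6 * r ^ 24 * ri ^ 4 * O - a ^ 6 * r ^ 23 * ri ^ 4 * O - a ^ 6 * r ^ 23 * ri ^ 3 * O -
      a ^ 6 * r ^ 22 * ri ^ 3 * O - a ^ 6 * r ^ 22 * ri ^ 2 * O - a ^ 6 * r ^ 21 * ri ^ 2 * O - a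
      ^ 6 * r ^ 21 * ri * O - a ^ 6 * r ^ 20 * ri * O - a ^ 6 * r ^ 20 * O - a ^ 6 * r ^ 19 * O)
      * h.hr + (-a ^ 9 * r ^ 18 * O - a ^ 9 * r ^ 17 * O + 2 * a ^ 8 * r ^ 18 * O + 2 * a ^ 8 * r
      ^ 17 * O + a ^ 8 * r ^ 16 * O + a ^ 8 * r ^ 15 * O - a ^ 7 * r ^ 18 * O - a ^ 7 * r ^ 17 *
      O - 2 * a ^ 7 * r ^ 16 * O - 2 * a ^ 7 * r ^ 15 * O + a ^ 6 * r ^ 16 * O + a ^ 6 * r ^ 15 *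
      O) * h.rel

theorem E2R.u1_50 (h : E2R a r X ai ri P R Q W O L0 L1 L3 L4) :
    a ^ 2 = L0 * ((r ^ 3 * a ^ 2) * 1) + (1 - L0) * ((r ^ 3 * a ^ 2) ^ 0 * 1) := by
  refine sub_eq_zero.1 (cancel h.n1 ?_)
  linear_combination
    (-a ^ 2 * r ^ 3 + 1) * h.hL0 + (a - 1) * h.rel

theorem E2R.u2_50 (h : E2R a r X ai ri P R Q W O L0 L1 L3 L4) :
    (r ^ 3 * a ^ 2) ^ 1 * ai ^ 2 = (1 - (r ^ 3 * L0)) * ((r ^ 3 * a ^ 2) * 1) + (r ^ 3 * L0) *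
      ((r ^ 3 * a ^ 2) ^ 0 * 1) := by
  refine sub_eq_zero.1 (cancel (mul_ne_zero h.n1 (pow_ne_zero 2 h.n0)) ?_)
  linear_combination
    (a ^ 2 * r ^ 6 - r ^ 3) * a ^ 2 * h.hL0 + (a ^ 4 * r ^ 6 * ai + a ^ 4 * r ^ 5 * ai + a ^ 3 *
      r ^ 6 + a ^ 3 * r ^ 5 - a ^ 3 * r ^ 4 * ai - a ^ 3 * r ^ 3 * ai - a ^ 2 * r ^ 4 - a ^ 2 * r
      ^ 3) * h.ha + (-a ^ 3 * r ^ 3 + a ^ 2 * r ^ 3) * h.rel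

theorem E2R.u1_51 (h : E2R a r X ai ri P R Q W O L0 L1 L3 L4) :
    (r ^ 4 * a ^ 2) = L1 * ((r ^ 3 * a ^ 2) * a ^ 2) + (1 - L1) * ((r ^ 3 * a ^ 2) ^ 1 * ai ^ 2)
      := by
  refine sub_eq_zero.1 (cancel (mul_ne_zero h.nL1 (pow_ne_zero 2 h.n0)) ?_)
  linear_combination
    (-a ^ 4 * r ^ 3 + a ^ 2 * r ^ 3 * ai ^ 2) * a ^ 2 * h.hL1 + (-a ^ 5 * r ^ 3 * ai - a ^ 4 * r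
      ^ 6 * ai + a ^ 4 * r ^ 3 * ai - a ^ 4 * r ^ 3 - a ^ 3 * r ^ 6 + a ^ 3 * r ^ 4 * ai + a ^ 3
      * r ^ 3 + a ^ 2 * r ^ 4) * h.ha + (a ^ 4 * r ^ 4 - a ^ 3 * r ^ 4 + a ^ 3 * r ^ 3 - a ^ 2 *
      r ^ 3) * h.rel

theorem E2R.u2_51 (h : E2R a r X ai ri P R Q W O L0 L1 L3 L4) :
    (r ^ 3 * a ^ 2) ^ 2 * (ri ^ 4 * ai ^ 2) = (1 - (a ^ 2 * ri * L1)) * ((r ^ 3 * a ^ 2) * a ^ 2)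
      + (a ^ 2 * ri * L1) * ((r ^ 3 * a ^ 2) ^ 1 * ai ^ 2) := by
  refine sub_eq_zero.1 (cancel (mul_ne_zero (mul_ne_zero h.nL1 (pow_ne_zero 2 h.n0)) (pow_ne_zero 4 h.nr)) ?_)
  linear_combination
    (a ^ 6 * r ^ 3 * ri - a ^ 4 * r ^ 3 * ai ^ 2 * ri) * a ^ 2 * r ^ 4 * h.hL1 + (a ^ 7 * r ^ 6 *
      ai * ri ^ 4 + a ^ 6 * r ^ 9 * ai * ri ^ 4 - a ^ 6 * r ^ 6 * ai * ri ^ 4 + a ^ 6 * r ^ 6 *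
      ri ^ 4 - a ^ 5 * r ^ 9 * ai * ri ^ 4 + a ^ 5 * r ^ 9 * ri ^ 4 + a ^ 5 * r ^ 6 * ai * ri - a
      ^ 5 * r ^ 6 * ri ^ 4 - a ^ 5 * r ^ 4 * ai * ri - a ^ 4 * r ^ 9 * ri ^ 4 + a ^ 4 * r ^ 6 *
      ri - a ^ 4 * r ^ 4 * ri) * r ^ 4 * h.ha + (-a ^ 8 * r ^ 9 + a ^ 8 * r ^ 7 + a ^ 6 * r ^ 9 *
      ri ^ 3 + a ^ 6 * r ^ 8 * ri ^ 2 + a ^ 6 * r ^ 7 * ri + a ^ 6 * r ^ 6 + a ^ 5 * r ^ 12 * ri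
      ^ 3 + a ^ 5 * r ^ 11 * ri ^ 2 + a ^ 5 * r ^ 10 * ri - a ^ 5 * r ^ 9 * ri ^ 3 + a ^ 5 * r ^
      9 - a ^ 5 * r ^ 8 * ri ^ 2 - a ^ 5 * r ^ 7 * ri - a ^ 5 * r ^ 6 - a ^ 4 * r ^ 12 * ri ^ 3 -
      a ^ 4 * r ^ 11 * ri ^ 2 - a ^ 4 * r ^ 10 * ri - a ^ 4 * r ^ 7) * h.hr + (-a ^ 6 * r ^ 7 + a
      ^ 5 * r ^ 7 - a ^ 5 * r ^ 6 + a ^ 4 * r ^ 6) * h.rel

theorem E2R.u1_52 (h : E2R a r X ai ri P R Q W O L0 L1 L3 L4) :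
    (O * r ^ 2 * a ^ 2) = X * ((r ^ 3 * a ^ 2) * (r ^ 4 * a ^ 2)) + (1 - X) * ((r ^ 3 * a ^ 2) ^
      2 * (ri ^ 4 * ai ^ 2)) := by
  refine sub_eq_zero.1 (cancel (mul_ne_zero (pow_ne_zero 2 h.n0) (pow_ne_zero 4 h.nr)) ?_)
  linear_combination
    (a ^ 2 * r ^ 2) * a ^ 2 * r ^ 4 * h.hO + (a ^ 5 * r ^ 6 * X * ai * ri ^ 4 - a ^ 5 * r ^ 6 *
      ai * ri ^ 4 + a ^ 4 * r ^ 6 * X * ri ^ 4 - a ^ 4 * r ^ 6 * ri ^ 4) * r ^ 4 * h.ha + (a ^ 4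
      * r ^ 9 * X * ri ^ 3 - a ^ 4 * r ^ 9 * ri ^ 3 + a ^ 4 * r ^ 8 * X * ri ^ 2 - a ^ 4 * r ^ 8
      * ri ^ 2 + a ^ 4 * r ^ 7 * X * ri - a ^ 4 * r ^ 7 * ri + a ^ 4 * r ^ 6 * X - a ^ 4 * r ^ 6)
      * h.hr

theorem E2R.u2_52 (h : E2R a r X ai ri P R Q W O L0 L1 L3 L4) :
    (r ^ 3 * a ^ 2) ^ 3 * (O * ri ^ 2 * ai ^ 2) = (1 - (-a ^ 2 * r ^ 5 * X)) * ((r ^ 3 * a ^ 2) *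
      (r ^ 4 * a ^ 2)) + (-a ^ 2 * r ^ 5 * X) * ((r ^ 3 * a ^ 2) ^ 2 * (ri ^ 4 * ai ^ 2)) := by
  refine sub_eq_zero.1 (cancel (mul_ne_zero (pow_ne_zero 2 h.n0) (pow_ne_zero 4 h.nr)) ?_)
  linear_combination
    (a ^ 6 * r ^ 9 * ai ^ 2 * ri ^ 2) * a ^ 2 * r ^ 4 * h.hO + (a ^ 9 * r ^ 14 * X * ai * ri ^ 2
      + a ^ 8 * r ^ 14 * X * ri ^ 2 + a ^ 7 * r ^ 11 * X * ai * ri ^ 4 - a ^ 7 * r ^ 9 * X * ai *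
      ri ^ 2 + a ^ 7 * r ^ 9 * ai * ri ^ 2 + a ^ 6 * r ^ 11 * X * ri ^ 4 - a ^ 6 * r ^ 9 * X * ri
      ^ 2 + a ^ 6 * r ^ 9 * ri ^ 2) * r ^ 4 * h.ha + (a ^ 8 * r ^ 17 * X * ri + a ^ 8 * r ^ 16 *
      X + a ^ 6 * r ^ 14 * X * ri ^ 3 + a ^ 6 * r ^ 13 * X * ri ^ 2 + a ^ 6 * r ^ 12 * ri + a ^ 6
      * r ^ 11) * h.hr

theorem E2R.u1_53 (h : E2R a r X ai ri P R Q W O L0 L1 L3 L4) :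
    (O * r ^ 6 * a ^ 2) = L3 * ((r ^ 3 * a ^ 2) * (O * r ^ 2 * a ^ 2)) + (1 - L3) * ((r ^ 3 * a ^
      2) ^ 3 * (O * ri ^ 2 * ai ^ 2)) := by
  refine sub_eq_zero.1 (cancel (mul_ne_zero (mul_ne_zero h.nL3 (pow_ne_zero 2 h.n0)) (pow_ne_zero 2 h.nr)) ?_)
  linear_combination
    (a ^ 6 * r ^ 9 * ai ^ 2 * ri ^ 2 * O - a ^ 4 * r ^ 5 * O) * a ^ 2 * r ^ 2 * h.hL3 + (-a ^ 9 *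
      r ^ 11 * ai * ri ^ 2 * O - a ^ 8 * r ^ 12 * ai * ri ^ 2 * O - a ^ 8 * r ^ 11 * ri ^ 2 * O +
      a ^ 8 * r ^ 9 * ai * ri ^ 2 * O + a ^ 7 * r ^ 12 * ai * ri ^ 2 * O - a ^ 7 * r ^ 12 * ri ^
      2 * O + a ^ 7 * r ^ 9 * ri ^ 2 * O + a ^ 6 * r ^ 12 * ri ^ 2 * O) * r ^ 2 * h.ha + (-a ^ 8
      * r ^ 12 * ri * O - a ^ 8 * r ^ 11 * O - a ^ 7 * r ^ 13 * ri * O - a ^ 7 * r ^ 12 * O + a ^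
      7 * r ^ 10 * ri * O + a ^ 7 * r ^ 9 * O + a ^ 6 * r ^ 13 * ri * O + a ^ 6 * r ^ 12 * O) *
      h.hr + (-a ^ 6 * r ^ 9 * O + a ^ 5 * r ^ 9 * O - a ^ 5 * r ^ 8 * O + a ^ 4 * r ^ 8 * O) *
      h.rel

theorem E2R.u2_53 (h : E2R a r X ai ri P R Q W O L0 L1 L3 L4) :
    (r ^ 3 * a ^ 2) ^ 4 * (O * ri ^ 6 * ai ^ 2) = (1 - (a ^ 2 * ri * L3)) * ((r ^ 3 * a ^ 2) * (O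
      * r ^ 2 * a ^ 2)) + (a ^ 2 * ri * L3) * ((r ^ 3 * a ^ 2) ^ 3 * (O * ri ^ 2 * ai ^ 2)) := by
  refine sub_eq_zero.1 (cancel (mul_ne_zero (mul_ne_zero h.nL3 (pow_ne_zero 2 h.n0)) (pow_ne_zero 6 h.nr)) ?_)
  linear_combination
    (-a ^ 8 * r ^ 9 * ai ^ 2 * ri ^ 3 * O + a ^ 6 * r ^ 5 * ri * O) * a ^ 2 * r ^ 6 * h.hL3 + (a
      ^ 11 * r ^ 14 * ai * ri ^ 6 * O + a ^ 10 * r ^ 15 * ai * ri ^ 6 * O + a ^ 10 * r ^ 14 * ri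
      ^ 6 * O - a ^ 10 * r ^ 12 * ai * ri ^ 6 * O + a ^ 9 * r ^ 15 * ri ^ 6 * O - a ^ 9 * r ^ 13
      * ai * ri ^ 6 * O - a ^ 9 * r ^ 12 * ai * ri ^ 3 * O - a ^ 9 * r ^ 12 * ri ^ 6 * O + a ^ 9
      * r ^ 10 * ai * ri ^ 3 * O - a ^ 8 * r ^ 13 * ri ^ 6 * O - a ^ 8 * r ^ 12 * ri ^ 3 * O + a
      ^ 8 * r ^ 10 * ri ^ 3 * O) * r ^ 6 * h.ha + (a ^ 10 * r ^ 19 * ri ^ 5 * O + a ^ 10 * r ^ 18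
      * ri ^ 4 * O + a ^ 10 * r ^ 17 * ri ^ 3 * O + a ^ 10 * r ^ 16 * ri ^ 2 * O + a ^ 10 * r ^
      15 * ri * O + a ^ 10 * r ^ 14 * O + a ^ 9 * r ^ 20 * ri ^ 5 * O + a ^ 9 * r ^ 19 * ri ^ 4 *
      O + a ^ 9 * r ^ 18 * ri ^ 3 * O - a ^ 9 * r ^ 17 * ri ^ 5 * O + a ^ 9 * r ^ 17 * ri ^ 2 * O
      - a ^ 9 * r ^ 16 * ri ^ 4 * O + a ^ 9 * r ^ 16 * ri * O - a ^ 9 * r ^ 15 * ri ^ 3 * O + a ^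
      9 * r ^ 15 * O - a ^ 9 * r ^ 14 * ri ^ 2 * O - a ^ 9 * r ^ 13 * ri * O - a ^ 9 * r ^ 12 * O
      - a ^ 8 * r ^ 18 * ri ^ 5 * O - a ^ 8 * r ^ 17 * ri ^ 4 * O - a ^ 8 * r ^ 17 * ri ^ 2 * O -
      a ^ 8 * r ^ 16 * ri ^ 3 * O - a ^ 8 * r ^ 16 * ri * O - a ^ 8 * r ^ 15 * O + a ^ 8 * r ^ 13
      * O - a ^ 8 * r ^ 11 * O) * h.hr + (a ^ 8 * r ^ 12 * O - a ^ 7 * r ^ 12 * O + a ^ 7 * r ^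
      11 * O - a ^ 6 * r ^ 11 * O) * h.rel

theorem E2R.u1_54 (h : E2R a r X ai ri P R Q W O L0 L1 L3 L4) :
    (O * r ^ 6 * a ^ 4) = L4 * ((r ^ 3 * a ^ 2) * (O * r ^ 6 * a ^ 2)) + (1 - L4) * ((r ^ 3 * a ^
      2) ^ 4 * (O * ri ^ 6 * ai ^ 2)) := by
  refine sub_eq_zero.1 (cancel (mul_ne_zero (mul_ne_zero h.nL4 (pow_ne_zero 2 h.n0)) (pow_ne_zero 6 h.nr)) ?_)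
  linear_combination
    (a ^ 8 * r ^ 12 * ai ^ 2 * ri ^ 6 * O - a ^ 4 * r ^ 9 * O) * a ^ 2 * r ^ 6 * h.hL4 + (a ^ 9 *
      r ^ 15 * ai * ri ^ 6 * O - a ^ 9 * r ^ 12 * ai * ri ^ 6 * O + a ^ 8 * r ^ 15 * ri ^ 6 * O -
      a ^ 8 * r ^ 12 * ri ^ 6 * O) * r ^ 6 * h.ha + (a ^ 8 * r ^ 20 * ri ^ 5 * O + a ^ 8 * r ^ 19
      * ri ^ 4 * O + a ^ 8 * r ^ 18 * ri ^ 3 * O - a ^ 8 * r ^ 17 * ri ^ 5 * O + a ^ 8 * r ^ 17 *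
      ri ^ 2 * O - a ^ 8 * r ^ 16 * ri ^ 4 * O + a ^ 8 * r ^ 16 * ri * O - a ^ 8 * r ^ 15 * ri ^
      3 * O + a ^ 8 * r ^ 15 * O - a ^ 8 * r ^ 14 * ri ^ 2 * O - a ^ 8 * r ^ 13 * ri * O - a ^ 8
      * r ^ 12 * O) * h.hr

theorem E2R.u2_54 (h : E2R a r X ai ri P R Q W O L0 L1 L3 L4) :
    (r ^ 3 * a ^ 2) ^ 5 * (O * ri ^ 6 * ai ^ 4) = (1 - (r ^ 3 * L4)) * ((r ^ 3 * a ^ 2) * (O * r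
      ^ 6 * a ^ 2)) + (r ^ 3 * L4) * ((r ^ 3 * a ^ 2) ^ 4 * (O * ri ^ 6 * ai ^ 2)) := by
  refine sub_eq_zero.1 (cancel (mul_ne_zero (mul_ne_zero h.nL4 (pow_ne_zero 4 h.n0)) (pow_ne_zero 6 h.nr)) ?_)
  linear_combination
    (-a ^ 8 * r ^ 15 * ai ^ 2 * ri ^ 6 * O + a ^ 4 * r ^ 12 * O) * a ^ 4 * r ^ 6 * h.hL4 + (a ^
      15 * r ^ 15 * ai ^ 3 * ri ^ 6 * O + a ^ 14 * r ^ 15 * ai ^ 2 * ri ^ 6 * O - a ^ 13 * r ^ 18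
      * ai ^ 3 * ri ^ 6 * O - a ^ 12 * r ^ 18 * ai ^ 2 * ri ^ 6 * O - a ^ 11 * r ^ 18 * ai * ri ^
      6 * O + a ^ 11 * r ^ 15 * ai * ri ^ 6 * O - a ^ 10 * r ^ 18 * ri ^ 6 * O + a ^ 10 * r ^ 15
      * ri ^ 6 * O) * r ^ 6 * h.ha + (-a ^ 10 * r ^ 23 * ri ^ 5 * O - a ^ 10 * r ^ 22 * ri ^ 4 *
      O - a ^ 10 * r ^ 21 * ri ^ 3 * O + a ^ 10 * r ^ 20 * ri ^ 5 * O - a ^ 10 * r ^ 20 * ri ^ 2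
      * O + a ^ 10 * r ^ 19 * ri ^ 4 * O - a ^ 10 * r ^ 19 * ri * O + a ^ 10 * r ^ 18 * ri ^ 3 *
      O - a ^ 10 * r ^ 18 * O + a ^ 10 * r ^ 17 * ri ^ 2 * O + a ^ 10 * r ^ 16 * ri * O + a ^ 10
      * r ^ 15 * O) * h.hr

end Pool.Agent.Helper27.IPE2
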