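import Pool.Agent.Helper27.IP.Restart
import Pool.Agent.Helper16.IP.Inv

/-!
TH-P: the closed-column lemma.  If the column `N = k + 1` is closed in the rows 1 and 2 and is not
the last one, then the step `N - 1 -> N` is of type 0: `s_(N-1) t_2 = t_1 s_N` (for `t_1 ≠ -1`).

`a = t_1`, `b = t_2`, `w, u, v = s_k, s_(k+1), s_(k+2)`, `X = t_1 ^ k`, `Y = t_2 ^ k`,
`al = 1 - lam'_1`, `be = lam'_1`, `de = mu'_1`, `ga = 1 - mu'_1`, `S = al X + be`.
-/

namespace Pool.Agent.Helper27.IP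

open Pool.Agent.Helper54.IP

variable {F : Type*} [Field F] {m : ℕ}

private theorem cancel {a b : F} (ha : a ≠ 0) (h : a * b = 0) : b = 0 :=
  (mul_eq_zero.1 h).resolve_left ha

private theorem star_alg {a b w u v x y al be X P G H HN Hv G2 G2N : F} (ha : a ≠ 0)
    (ha1 : a - 1 ≠ 0) (hP : P ≠ 0) (huw : u - w ≠ 0) (hu : u ≠ 0)
    (rk : G = 1 - x + x * w) (rN : P = 1 - x + x * u) (rv : a * P = 1 - x + x * v)
    (rk' : w * H = (1 - y) * w + y) (rN' : u * HN = (1 - y) * u + y)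
    (rv' : v * Hv = (1 - y) * v + y)
    (hN : X * HN = P) (hv : a * X * Hv = P)
    (g2 : G2 = w * (al * G + be * H)) (g2N : G2N = u * (al * P + be * HN))
    (g2v : b * G2N = v * (al * (a * P) + be * Hv))
    (hU : (a * G - P) * ((b - 1) * G2N) = (b * G2 - G2N) * ((a - 1) * P)) :
    v * (al * (a ^ 2 * X) + be) = a * b * u * (al * X + be) ∧
    b * (a - 1) * (al * X) * (v - w) = u * (al * X + be) * (b - 1) * (b - a) := by
  have hA : v * (al * (a ^ 2 * X) + be) = a * b * u * (al * X + be) := by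
    refine sub_eq_zero.1 (cancel hP ?_)
    linear_combination (-a * X) * g2v + a * b * X * g2N - v * be * hv + a * b * u * be * hN
  refine ⟨hA, ?_⟩
  have r1 : (v - u) * (P - G) = (u - w) * (a - 1) * P := by
    linear_combination (v - u) * (rN - rk) - (u - w) * (rv - rN)
  have r2 : (v - u) * w * a * (X * H - P) = (u - w) * (a - 1) * v * P := by
    refine sub_eq_zero.1 (cancel hu ?_)
    linear_combination (v - u) * a * X * (u * rk' - w * rN') + (v - u) * w * a * u * hN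
      - (u - w) * a * X * (v * rN' - u * rv') - (u - w) * u * v * (hv - a * hN)
  have h5 : (a * G - P) * (b - 1) * u * (al * X + be) =
      (b * w * (al * X * G + be * (X * H)) - u * P * (al * X + be)) * (a - 1) := by
    refine sub_eq_zero.1 (cancel hP ?_)
    linear_combination X * hU + ((a * G - P) * (b - 1) + (a - 1) * P) * (-X) * g2N
      + b * (a - 1) * P * X * g2 - ((a * G - P) * (b - 1) + (a - 1) * P) * u * be * hN
  have h7 : -(a * b) * (v - u) * (al * X + be) - a * b * (a - 1) * w * (al * X)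
      + b * (a - 1) * v * be + a ^ 2 * (b - 1) * u * (al * X + be) = 0 := by
    refine cancel (mul_ne_zero (mul_ne_zero ha1 hP) huw) ?_
    linear_combination (-(a * (v - u))) * h5 + (b - 1) * u * (al * X + be) * a * (-a) * r1
      + (a - 1) * a * b * w * al * X * r1 - (a - 1) * b * be * r2
  refine sub_eq_zero.1 (cancel ha ?_)
  linear_combination h7 + b * hA

/-- the relations of the closed column `k + 1` and the column `k + 2`. -/
private theorem star (g : GForm F m) {k : ℕ} (hk : k + 2 ≤ m) (h1 : g.kap 1 (k + 1) = 0)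
    (h2 : g.kap 2 (k + 1) = 0) :
    g.s (k + 2) * ((1 - g.lam' 1) * (g.t 1 ^ 2 * g.t 1 ^ k) + g.lam' 1) =
      g.t 1 * g.t 2 * g.s (k + 1) * ((1 - g.lam' 1) * g.t 1 ^ k + g.lam' 1) ∧
    g.t 2 * (g.t 1 - 1) * ((1 - g.lam' 1) * g.t 1 ^ k) * (g.s (k + 2) - g.s k) =
      g.s (k + 1) * ((1 - g.lam' 1) * g.t 1 ^ k + g.lam' 1) * (g.t 2 - 1) * (g.t 2 - g.t 1) := by
  have ht := g.t_ne 1 (by omega)
  have ht1 : g.t 1 - 1 ≠ 0 := by
    have := g.t_inj 0 1 (by omega) (by omega)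
    rw [g.t0] at this
    exact sub_ne_zero.2 this.symm
  obtain ⟨n1, n2⟩ := closed_next g (j := 1) (N := k + 1) (by omega) (by omega) h1
  obtain ⟨n3, -⟩ := closed_next g (j := 2) (N := k + 1) (by omega) (by omega) h2
  have u1 := g.G_succ (j := 1) (k := k) (by omega) (by omega)
  have u2 := g.H_succ (j := 1) (k := k) (by omega) (by omega)
  have u3 := g.G_succ (j := 2) (k := k) (by omega) (by omega)
  have u4 := g.H_succ (j := 2) (k := k) (by omega) (by omega)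
  have c1 := h1
  have c2 := h2
  rw [GForm.kap] at c1 c2
  have hP : g.G 1 (k + 1) ≠ 0 := by
    intro h
    refine closed_next_ne g (j := 1) (N := k + 1) (by omega) (by omega) h1 ?_
    rw [n1, h, mul_zero]
  have r1 := g.row1G (k := k) (by omega) (by omega)
  have r2 := g.row1G (k := k + 1) (by omega) (by omega)
  have r3 := g.row1G (k := k + 2) (by omega) (by omega)
  have hN : g.t 1 ^ k * g.H 1 (k + 1) = g.G 1 (k + 1) := by
    refine sub_eq_zero.1 (cancel ht ?_)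
    rw [pow_succ] at c1
    linear_combination -c1
  have hv : g.t 1 * g.t 1 ^ k * g.H 1 (k + 2) = g.G 1 (k + 1) := by
    refine sub_eq_zero.1 (cancel ht ?_)
    have e : g.t 1 ^ (k + 1 + 1) = g.t 1 * (g.t 1 * g.t 1 ^ k) := by ring
    rw [e] at n2
    linear_combination n2
  have hd : g.lam k - g.mu k ≠ 0 := sub_ne_zero.2 (g.lm_ne k (by omega))
  -- (t_j - 1) G_j(N) = (lam - mu) kap_j(k),  t_j G_jk - G_jN = lam kap_j(k)
  have e1 : (g.t 1 - 1) * g.G 1 (k + 1) = (g.lam k - g.mu k) * g.kap 1 k := by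
    linear_combination c1 - u1 + u2
  have e2 : (g.t 2 - 1) * g.G 2 (k + 1) = (g.lam k - g.mu k) * g.kap 2 k := by
    linear_combination c2 - u3 + u4
  have hU : (g.t 1 * g.G 1 k - g.G 1 (k + 1)) * ((g.t 2 - 1) * g.G 2 (k + 1)) =
      (g.t 2 * g.G 2 k - g.G 2 (k + 1)) * ((g.t 1 - 1) * g.G 1 (k + 1)) := by
    rw [e1, e2]
    linear_combination (-((g.lam k - g.mu k) * g.kap 2 k)) * u1
      + ((g.lam k - g.mu k) * g.kap 1 k) * u3
  refine star_alg (x := 1 - g.lam' 0) (y := g.mu' 0) (G := g.G 1 k) (H := g.H 1 k)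
    (P := g.G 1 (k + 1)) (HN := g.H 1 (k + 1)) (Hv := g.H 1 (k + 2)) (G2 := g.G 2 k)
    (G2N := g.G 2 (k + 1)) ht ht1 hP ?_ (g.s_ne (k + 1) (by omega)) ?_ ?_ ?_
    (g.row1H (k := k) (by omega) (by omega)) (g.row1H (k := k + 1) (by omega) (by omega))
    (g.row1H (k := k + 2) (by omega) (by omega)) hN hv
    (g.row2G (k := k) (by omega) (by omega)) (g.row2G (k := k + 1) (by omega) (by omega)) ?_ hU
  · exact sub_ne_zero.2 (g.s_inj k (k + 1) (by omega) (by omega)).symm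
  · rw [r1]; ring
  · rw [r2]; ring
  · rw [← n1, r3]; ring
  · rw [← n3, ← n1]
    exact g.row2G (k := k + 2) (by omega) (by omega)

private theorem inv_kap (g : GForm F m) {j k : ℕ} (hj : j ≤ m) (h : g.kap j k = 0) :
    g.inv.kap j k = 0 := by
  have ht := g.t_ne j hj
  have hp := pow_ne_zero k ht
  rw [GForm.kap] at h ⊢
  simp only [GForm.inv_t, GForm.inv_G, GForm.inv_H, inv_pow]
  have e : (g.t j)⁻¹ * g.H j k - (g.t j ^ k)⁻¹ * g.G j k =
      -((g.t j ^ k * g.t j)⁻¹ * (g.t j * g.G j k - g.t j ^ k * g.H j k)) := by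
    field_simp
    ring
  rw [e, h, mul_zero, neg_zero]

/-- the relations of a closed column `k + 1` (rows 1, 2) and of the next column. -/
theorem closed_rel (g : GForm F m) {k : ℕ} (hk : k + 2 ≤ m) (h1 : g.kap 1 (k + 1) = 0)
    (h2 : g.kap 2 (k + 1) = 0) :
    -- row 2 at the next column
    g.s (k + 2) * ((1 - g.lam' 1) * (g.t 1 ^ 2 * g.t 1 ^ k) + g.lam' 1) =
      g.t 1 * g.t 2 * g.s (k + 1) * ((1 - g.lam' 1) * g.t 1 ^ k + g.lam' 1) ∧
    g.t 2 * g.s (k + 1) * (g.mu' 1 + (1 - g.mu' 1) * (g.t 1 ^ 2 * g.t 1 ^ k)) =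
      g.t 1 * g.s (k + 2) * (g.mu' 1 + (1 - g.mu' 1) * g.t 1 ^ k) ∧
    -- row 2 at the closed column
    g.s (k + 1) ^ 2 * ((1 - g.lam' 1) * g.t 1 ^ k + g.lam' 1) =
      g.t 2 ^ k * (g.mu' 1 + (1 - g.mu' 1) * g.t 1 ^ k) ∧
    -- row 2 at the three columns
    g.t 2 * (g.t 1 - 1) * ((1 - g.lam' 1) * g.t 1 ^ k) * (g.s (k + 2) - g.s k) =
      g.s (k + 1) * ((1 - g.lam' 1) * g.t 1 ^ k + g.lam' 1) * (g.t 2 - 1) * (g.t 2 - g.t 1) ∧
    g.mu' 1 * g.t 2 ^ k = g.s (k + 2) * g.s k * ((1 - g.lam' 1) * g.t 1 ^ k) := by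
  have ht := g.t_ne 1 (by omega)
  have hT := g.t_ne 2 (by omega)
  have hX := pow_ne_zero k ht
  have ht1 : g.t 1 - 1 ≠ 0 := by
    have := g.t_inj 0 1 (by omega) (by omega)
    rw [g.t0] at this
    exact sub_ne_zero.2 this.symm
  have hw := g.s_ne k (by omega)
  have hu := g.s_ne (k + 1) (by omega)
  have hv := g.s_ne (k + 2) (by omega)
  have hvw : g.s (k + 2) - g.s k ≠ 0 := sub_ne_zero.2 (g.s_inj k (k + 2) (by omega) (by omega)).symm
  obtain ⟨hA, s1⟩ := star g hk h1 h2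
  obtain ⟨hB, s2⟩ := star g.inv hk (inv_kap g (by omega) h1) (inv_kap g (by omega) h2)
  simp only [GForm.inv_t, GForm.inv_s, GForm.inv_lam', sub_sub_cancel, inv_pow] at hB s2
  have hB' : g.t 2 * g.s (k + 1) * (g.mu' 1 + (1 - g.mu' 1) * (g.t 1 ^ 2 * g.t 1 ^ k)) =
      g.t 1 * g.s (k + 2) * (g.mu' 1 + (1 - g.mu' 1) * g.t 1 ^ k) := by
    have e : g.t 2 * g.s (k + 1) * (g.mu' 1 + (1 - g.mu' 1) * (g.t 1 ^ 2 * g.t 1 ^ k)) -
        g.t 1 * g.s (k + 2) * (g.mu' 1 + (1 - g.mu' 1) * g.t 1 ^ k) =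
        g.t 1 ^ 2 * g.t 1 ^ k * g.t 2 * g.s (k + 1) * g.s (k + 2) *
        ((g.s (k + 2))⁻¹ * (g.mu' 1 * ((g.t 1 ^ 2)⁻¹ * (g.t 1 ^ k)⁻¹) + (1 - g.mu' 1)) -
        (g.t 1)⁻¹ * (g.t 2)⁻¹ * (g.s (k + 1))⁻¹ * (g.mu' 1 * (g.t 1 ^ k)⁻¹ + (1 - g.mu' 1))) := by
      field_simp
    rw [hB, sub_self, mul_zero] at e
    exact sub_eq_zero.1 e
  have s2' : g.t 2 * g.s (k + 1) * (g.t 1 - 1) * (g.s (k + 2) - g.s k) * g.mu' 1 =
      g.s (k + 2) * g.s k * (g.mu' 1 + (1 - g.mu' 1) * g.t 1 ^ k) * (g.t 2 - 1)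
        * (g.t 2 - g.t 1) := by
    have e : g.t 2 * g.s (k + 1) * (g.t 1 - 1) * (g.s (k + 2) - g.s k) * g.mu' 1 -
      g.s (k + 2) * g.s k * (g.mu' 1 + (1 - g.mu' 1) * g.t 1 ^ k) * (g.t 2 - 1)
        * (g.t 2 - g.t 1) = g.t 1 * g.t 2 ^ 2 * g.t 1 ^ k * g.s (k + 1) * g.s (k + 2) * g.s k *
        ((g.t 2)⁻¹ * ((g.t 1)⁻¹ - 1) * (g.mu' 1 * (g.t 1 ^ k)⁻¹) * ((g.s (k + 2))⁻¹ - (g.s k)⁻¹) -
        (g.s (k + 1))⁻¹ * (g.mu' 1 * (g.t 1 ^ k)⁻¹ + (1 - g.mu' 1)) * ((g.t 2)⁻¹ - 1)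
          * ((g.t 2)⁻¹ - (g.t 1)⁻¹)) := by
      field_simp
      ring
    rw [s2, sub_self, mul_zero] at e
    exact sub_eq_zero.1 e
  -- closedness of row 2
  have c1 := h1
  have c2 := h2
  rw [GForm.kap] at c1 c2
  have p1 := g.row2G (k := k + 1) (by omega) (by omega)
  have p2 := g.row2H (k := k + 1) (by omega) (by omega)
  have hN : g.t 1 ^ k * g.H 1 (k + 1) = g.G 1 (k + 1) := by
    refine sub_eq_zero.1 (cancel ht ?_)
    rw [pow_succ] at c1
    linear_combination -c1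
  have hN2 : g.t 2 ^ k * g.H 2 (k + 1) = g.G 2 (k + 1) := by
    refine sub_eq_zero.1 (cancel hT ?_)
    rw [pow_succ] at c2
    linear_combination -c2
  have hP : g.G 1 (k + 1) ≠ 0 := by
    intro h
    refine closed_next_ne g (j := 1) (N := k + 1) (by omega) (by omega) h1 ?_
    rw [(closed_next g (j := 1) (N := k + 1) (by omega) (by omega) h1).1, h, mul_zero]
  have hC : g.s (k + 1) ^ 2 * ((1 - g.lam' 1) * g.t 1 ^ k + g.lam' 1) =
      g.t 2 ^ k * (g.mu' 1 + (1 - g.mu' 1) * g.t 1 ^ k) := by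
    refine sub_eq_zero.1 (cancel hP ?_)
    linear_combination (-(g.t 1 ^ k * g.s (k + 1))) * p1 + g.t 1 ^ k * g.t 2 ^ k * p2
      - g.t 1 ^ k * g.s (k + 1) * hN2
      - (g.s (k + 1) ^ 2 * g.lam' 1 - g.t 2 ^ k * g.mu' 1) * hN
  refine ⟨hA, hB', hC, s1, ?_⟩
  refine sub_eq_zero.1 (cancel (mul_ne_zero (mul_ne_zero (mul_ne_zero hT hu) ht1) hvw) ?_)
  linear_combination g.t 2 ^ k * s2' - g.s (k + 2) * g.s k * (g.t 2 - 1) * (g.t 2 - g.t 1) * hC
    - g.s (k + 2) * g.s k * g.s (k + 1) * s1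

/-- after a closed column the next step is of type 1. -/
theorem closed_type1 (g : GForm F m) {k : ℕ} (hk : k + 2 ≤ m) (h1 : g.kap 1 (k + 1) = 0)
    (h2 : g.kap 2 (k + 1) = 0) (ha : g.t 1 ≠ -1) :
    g.t 2 * (g.mu' 1 * g.t 2 ^ k) =
      g.t 1 * g.s (k + 1) * g.s (k + 2) * ((1 - g.lam' 1) * g.t 1 ^ k) := by
  obtain ⟨hA, hB, hC, -, -⟩ := closed_rel g hk h1 h2
  have ht1 : g.t 1 - 1 ≠ 0 := by
    have := g.t_inj 0 1 (by omega) (by omega)
    rw [g.t0] at this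
    exact sub_ne_zero.2 this.symm
  have ht2 : g.t 1 + 1 ≠ 0 := fun h => ha (eq_neg_of_add_eq_zero_left h)
  refine sub_eq_zero.1 (cancel (mul_ne_zero (mul_ne_zero (g.s_ne (k + 1) (by omega)) ht1) ht2) ?_)
  linear_combination (-g.t 2 ^ k) * hB + (g.t 1 ^ 2 * g.t 2 * g.s (k + 1)
    - g.t 1 * g.s (k + 2)) * (-1 : F) * hC - g.t 1 * g.s (k + 1) ^ 2 * hA

/-- THE CLOSED-COLUMN LEMMA: the step to a closed column is of type 0. -/
theorem closed_type0 (g : GForm F m) {k : ℕ} (hk : k + 2 ≤ m) (h1 : g.kap 1 (k + 1) = 0)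
    (h2 : g.kap 2 (k + 1) = 0) (ha : g.t 1 ≠ -1) :
    g.s k * g.t 2 = g.t 1 * g.s (k + 1) := by
  obtain ⟨-, -, -, -, hS⟩ := closed_rel g hk h1 h2
  have hT := closed_type1 g hk h1 h2 ha
  have hal : 1 - g.lam' 1 ≠ 0 := sub_ne_zero.2 (g.lam'_ne 1 (by omega)).symm
  refine sub_eq_zero.1 (cancel (mul_ne_zero (g.s_ne (k + 2) (by omega))
    (mul_ne_zero hal (pow_ne_zero k (g.t_ne 1 (by omega))))) ?_)
  linear_combination hT - g.t 2 * hS

end Pool.Agent.Helper27.IP
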