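import Pool.Agent.Helper27.IP.K2Closed
import Pool.Agent.Helper76.IP.K2Row
import Pool.Agent.Helper76.IP.K2Cell
import Pool.Agent.Helper36.IP.Mono

/-!
TH-P phase 2, `n = 6` (`m = 5`, closed), N branch, `kap_1^(2) = 0` (K2).
-/

namespace Pool.Agent.Helper27.IP

open Pool.Agent.Helper54.IP Pool.Agent.Helper36.IP Pool.Agent.Helper76.IP

variable {F : Type*} [Field F] {m : ℕ}

private theorem cancel {a b : F} (ha : a ≠ 0) (h : a * b = 0) : b = 0 :=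
  (mul_eq_zero.1 h).resolve_left ha

/-- K2, the row strip: `s_4 = s_1 r^3` and `F41 = 0` (copy of helper76's `k2_F` without column 5,
valid for `5 ≤ m`) -/
theorem k2_F41 (g : GForm F m) (hm : 5 ≤ m) (hD : g.G 1 1 ≠ g.H 1 1)
    (hn1 : (g.s 2 * g.t 1 - g.t 2) * ((1 - g.lam' 0) - g.t 1 * g.mu' 0 + g.t 1 - 1) =
        (g.s 2 - 1) * (g.t 1 * g.t 2 * (1 - g.lam' 0) - g.t 1 * g.mu' 0))
    (hn2 : (g.t 2 * g.s 1 - g.s 2) * ((1 - g.lam' 0) - g.t 1 * g.mu' 0 + g.t 1 - 1) =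
        (g.t 2 - 1) * (g.s 1 * g.s 2 * (1 - g.lam' 0) - g.t 1 * g.mu' 0))
    (hk : g.kap 1 2 = 0) {v r : F} (hv : g.s 2 = v * g.t 2) (hr : g.t 2 = g.t 1 * r) :
    g.s 4 = g.s 1 * r ^ 3 ∧
    k2F (g.t 1) r (g.s 2) v (g.s 1) (g.t 1) r + k2F (g.t 1) r (g.s 2) v (g.s 1) (g.t 1 ^ 2) (r ^ 2)
      + k2F (g.t 1) r (g.s 2) v (g.s 1) (g.t 1 ^ 3) (r ^ 3) = 0 := by
  obtain ⟨v', hv0, hv1, hS, hs3, R, hx1, hy, h1x, h1y, hp, hk', e1, hG13, hw, hal, hde⟩ :=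
    k2_base g (by omega) hD hn1 hn2 hk
  have ht := g.t_ne 1 (by omega)
  have hT := g.t_ne 2 (by omega)
  have hvv : v' = v := by
    apply mul_right_cancel₀ hT
    rw [← hS, ← hv]
  subst hvv
  have hs4 := k2_s4 g (by omega) hD hn1 hn2 hk
  have h14 := k2_kap14_ne g (by omega) hD hn1 hn2 hk
  have h13 : g.kap 1 3 ≠ 0 := Pool.Agent.Helper14.IP.deg_next g (by omega) hk
  have h11 : g.kap 1 1 ≠ 0 := fun h =>
    Pool.Agent.Helper14.IP.deg_next g (k := 1) (by omega) h hk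
  have hr0 : r ≠ 0 := by
    rintro rfl
    rw [mul_zero] at hr
    exact hT hr
  have hu := g.s_ne 1 (by omega)
  have hs2 := g.s_ne 2 (by omega)
  have hx : 1 - g.lam' 0 ≠ 0 := sub_ne_zero.mpr (g.lam'_ne 0 (by omega)).symm
  have hal0 : 1 - g.lam' 1 ≠ 0 := sub_ne_zero.mpr (g.lam'_ne 1 (by omega)).symm
  have hT1 : g.t 2 - 1 ≠ 0 := by
    rw [← g.t0]; exact sub_ne_zero.mpr (g.t_inj 0 2 (by omega) (by omega)).symm
  have ht1 : g.t 1 - 1 ≠ 0 := by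
    rw [← g.t0]; exact sub_ne_zero.mpr (g.t_inj 0 1 (by omega) (by omega)).symm
  have hTt : g.t 2 - g.t 1 ≠ 0 := sub_ne_zero.mpr (g.t_inj 1 2 (by omega) (by omega)).symm
  have hSv : g.s 2 - v' ≠ 0 := by
    rw [hS]
    intro h
    exact mul_ne_zero hv0 hT1 (by linear_combination h)
  have h10 : g.kap 1 0 ≠ 0 := by
    rw [g.kap_zero (by omega)]
    exact ht1
  -- letters
  have h4 : g.s 4 = g.s 1 * r ^ 3 := by
    apply mul_right_cancel₀ (pow_ne_zero 3 ht)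
    rw [hs4, hr]
    ring
  have q1 := qx_col g (by omega) (k := 0) (by omega) h10 h11
  have q4 := qx_col g (by omega) (k := 3) (by omega) h13 h14
  norm_num at q1 q4
  rw [h4] at q4
  have h1x' : (1 - (1 - g.lam' 0)) * ((g.s 2 - 1) * (v' + 1)) = g.t 1 * (v' - g.s 2) := by
    linear_combination h1x
  have h1y' : 1 - (1 - g.lam' 0) = g.t 1 ^ 2 * (1 - g.mu' 0) := by
    linear_combination h1y
  have d1 := k2_dq (X := g.t 1) (P := r) (s := g.s 1) ht hu hr0 hr hS (by ring) hx1 hy h1x' h1y'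
    hal hde
  have d2 := k2_dq (X := g.t 1 ^ 2) (P := r ^ 2) (s := g.s 1 * r) ht hu hr0 hr hS (by ring) hx1 hy
    h1x' h1y' hal hde
  have d3 := k2_dq (X := g.t 1 ^ 3) (P := r ^ 3) (s := g.s 1 * r ^ 2) ht hu hr0 hr hS (by ring) hx1
    hy h1x' h1y' hal hde
  have d4 := k2_dq (X := g.t 1 ^ 4) (P := r ^ 4) (s := g.s 1 * r ^ 3) ht hu hr0 hr hS (by ring) hx1
    hy h1x' h1y' hal hde
  have hc : (g.t 2 - g.t 1) * (g.t 1 - 1) * (1 - g.lam' 1) * (1 - g.lam' 0) * (g.s 2 - v') ≠ 0 :=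
    mul_ne_zero (mul_ne_zero (mul_ne_zero (mul_ne_zero hTt ht1) hal0) hx) hSv
  have e : ∀ X P : F, (v' + 1 - g.s 2) * k2G (g.t 1) r (g.s 2) v' (g.s 1) X P =
      g.s 2 * k2F (g.t 1) r (g.s 2) v' (g.s 1) X P := fun X P => by
    have hS' : g.s 2 = v' * (g.t 1 * r) := by rw [← hr]; exact hS
    exact k2G_eq hr0 hS' R
  have p2 : g.t 1 * g.t 1 = g.t 1 ^ 2 := by ring
  have p3 : g.t 1 * g.t 1 ^ 2 = g.t 1 ^ 3 := by ring
  have p4 : g.t 1 * g.t 1 ^ 3 = g.t 1 ^ 4 := by ring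
  rw [p2] at d1
  rw [p3] at d2
  rw [p4, q4] at d3
  rw [q1] at d1
  have G1 : k2G (g.t 1) r (g.s 2) v' (g.s 1) (g.t 1) r +
      k2G (g.t 1) r (g.s 2) v' (g.s 1) (g.t 1 ^ 2) (r ^ 2) +
      k2G (g.t 1) r (g.s 2) v' (g.s 1) (g.t 1 ^ 3) (r ^ 3) = 0 := by
    refine cancel hc ?_
    linear_combination -(d1 + d2 + d3)
  refine ⟨h4, ?_⟩
  refine cancel hs2 ?_
  linear_combination (v' + 1 - g.s 2) * G1 - e (g.t 1) r - e (g.t 1 ^ 2) (r ^ 2)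
    - e (g.t 1 ^ 3) (r ^ 3)

end Pool.Agent.Helper27.IP
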