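import Pool.Agent.Helper36.IP.E23
import Pool.Agent.Helper43.IPL.Flat2
import Pool.Agent.Helper27.IP.Type0

/-!
TH-P, N branch: `kap_1^(3) = 0` is impossible (paper proof of helper85).

`a = t_1`, `c = t_2 = a r`, `b = s_1`, `e = s_2`, `S = s_3`, `P = s_4`.
-/

namespace Pool.Agent.Helper27.IP

open Pool.Agent.Helper54.IP Pool.Agent.Helper36.IP

variable {F : Type*} [Field F] {m : ℕ}

private theorem cancel {a b : F} (ha : a ≠ 0) (h : a * b = 0) : b = 0 :=
  (mul_eq_zero.1 h).resolve_left ha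

/-- row 1 at the closed column `S` and the next column `P`. -/
theorem k3_R {a S P x y g H13 H14 : F} (ha1 : a - 1 ≠ 0)
    (hS0 : S ≠ 0) (hPS : P - S ≠ 0) (hx0 : x ≠ 0)
    (r13 : g = 1 - x + x * S) (r14 : a * g = 1 - x + x * P)
    (q13 : S * H13 = (1 - y) * S + y) (q14 : P * H14 = (1 - y) * P + y)
    (hN : a ^ 2 * H13 = g) (hv : a ^ 3 * H14 = g) :
    (a - 1) * g = x * (P - S) ∧ S * P * x = a ^ 3 * y ∧
    x * (P - a * S + a - 1) = a - 1 ∧
    P * (S - (1 + a + a ^ 2)) = a * (a ^ 2 - (1 + a + a ^ 2) * S) := by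
  have d1 : (a - 1) * g = x * (P - S) := by
    linear_combination r14 - r13
  have d2 : S * P * x = a ^ 3 * y := by
    refine sub_eq_zero.1 (cancel hPS ?_)
    linear_combination (-(S * P)) * d1 + a ^ 3 * (P * q13 - S * q14) - S * P * a * hN + S * P * hv
  have hZ : x * (P - a * S + a - 1) = a - 1 := by
    linear_combination -d1 + (a - 1) * r13
  refine ⟨d1, d2, hZ, ?_⟩
  have e1 : a * (P - S) = a ^ 3 * (P - a * S + a - 1) - (a - 1) * P * (S - 1) := by
    refine sub_eq_zero.1 (cancel (mul_ne_zero hx0 hS0) ?_)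
    linear_combination (-(a * S)) * d1 + (-(a * (a - 1) * S)) * hN + (a * (a - 1) * a ^ 2) * q13
      + (a - 1) * (S - 1) * d2 - a ^ 3 * S * hZ
  refine sub_eq_zero.1 (cancel ha1 ?_)
  linear_combination e1

/-- the relation of row 2. -/
theorem k3_E {a r b e S P x y al g h G12 H12 G21 G11 H11 G22 H13 H14 : F} (ha : a ≠ 0)
    (ha1 : a - 1 ≠ 0) (hPS : P - S ≠ 0) (heS : e - S ≠ 0) (hx0 : x ≠ 0) (hh : h ≠ 0)
    (hS : S = r * e) (hP : P = r * b)
    (d1 : (a - 1) * g = x * (P - S)) (hZ : x * (P - a * S + a - 1) = a - 1)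
    (r13 : g = 1 - x + x * S) (r14 : a * g = 1 - x + x * P)
    (r11 : G11 = 1 - x + x * b) (q11 : b * H11 = (1 - y) * b + y)
    (r12 : G12 = 1 - x + x * e) (q12 : e * H12 = (1 - y) * e + y)
    (q13 : S * H13 = (1 - y) * S + y) (q14 : P * H14 = (1 - y) * P + y)
    (p21 : G21 = b * (al * G11 + (1 - al) * H11))
    (p22 : G22 = e * (al * G12 + (1 - al) * H12))
    (p23 : h = S * (al * g + (1 - al) * H13))
    (p24 : a * r * h = P * (al * (a * g) + (1 - al) * H14))
    (cG : (a - 1) * (G21 - 1) = x * (b - 1) * (a * r - 1))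
    (hU : (a * G12 - g) * ((a * r - 1) * h) = (a * r * G22 - h) * ((a - 1) * g)) :
    (r ^ 2 * (P - S) * (S - r * P) + (a * r - 1) * r * (P - r * S) * (S - r * P)
      + (a * r - 1) * (1 - r) ^ 2 * P * (P - r * S)) * (P - a * S + a - 1) =
    r * ((P - S) * (S - r * P) + (a * r - 1) * (1 - S) * (S - r * P)
        + (a * r - 1) * (1 - r) * (1 - S) * (1 - P))
        * (r * (P - a * S + a - 1) + (P - r) * (a * r - 1)) := by
  -- Newton form of row 2 in the nodes S, P
  have w0 : P - S = h * ((P - S) + (a * r - 1) * (1 - S)) + al * x * (1 - S) * (1 - P) * (P - S) := by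
    linear_combination (1 - P) * p23 - (1 - S) * p24 + al * S * (1 - P) * r13
      - al * P * (1 - S) * r14 + (1 - al) * (1 - P) * q13 - (1 - al) * (1 - S) * q14
  have w1 : (P - S) * G21 = h * ((P - S) + (a * r - 1) * (b - S))
      + al * x * (b - S) * (b - P) * (P - S) := by
    linear_combination (P - S) * p21 + (P - S) * al * b * r11 + (P - S) * (1 - al) * q11
      + (b - P) * p23 - (b - S) * p24 + al * S * (b - P) * r13
      - al * P * (b - S) * r14 + (1 - al) * (b - P) * q13 - (1 - al) * (b - S) * q14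
  have w2 : (P - S) * G22 = h * ((P - S) + (a * r - 1) * (e - S))
      + al * x * (e - S) * (e - P) * (P - S) := by
    linear_combination (P - S) * p22 + (P - S) * al * e * r12 + (P - S) * (1 - al) * q12
      + (e - P) * p23 - (e - S) * p24 + al * S * (e - P) * r13
      - al * P * (e - S) * r14 + (1 - al) * (e - P) * q13 - (1 - al) * (e - S) * q14
  have w3 : (a * r - 1) * (1 - r) * h = al * x * (S - r * P) * (P - S) := by
    refine sub_eq_zero.1 (cancel (mul_ne_zero (mul_ne_zero (mul_ne_zero ha hx0) hPS) heS) ?_)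
    linear_combination (P - S) * hU - (a * r - 1) * h * (P - S) * (a * (r12 - r13) + d1)
      + (a * r * G22 - h) * (P - S) * d1 + x * (P - S) * a * r * w2
      - a * x ^ 2 * al * (P - S) ^ 2 * (e - S) * hS
  have e1 : h * (r ^ 2 * (P - S) * (S - r * P) + (a * r - 1) * r * (P - r * S) * (S - r * P)
      + (a * r - 1) * (1 - r) ^ 2 * P * (P - r * S)) = r ^ 2 * (P - S) * (S - r * P) * G21 := by
    have w1' : r ^ 2 * ((P - S) * G21) = h * (r ^ 2 * (P - S) + (a * r - 1) * r * (P - r * S))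
      + al * x * (P - r * S) * (P - r * P) * (P - S) := by
      rw [w1]
      have hb : r * b = P := hP.symm
      have t1 : r ^ 2 * (b - S) * (b - P) = (P - r * S) * (P - r * P) := by
        rw [← hb]; ring
      have t2 : r ^ 2 * (b - S) = r * (P - r * S) := by
        rw [← hb]; ring
      linear_combination h * (a * r - 1) * t2 + al * x * (P - S) * t1
    linear_combination (-(S - r * P)) * w1' + (P - r * S) * (P - r * P) * w3
  have e2 : h * ((P - S) * (S - r * P) + (a * r - 1) * (1 - S) * (S - r * P)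
        + (a * r - 1) * (1 - r) * (1 - S) * (1 - P)) = (P - S) * (S - r * P) := by
    linear_combination (-(S - r * P)) * w0 + (1 - S) * (1 - P) * w3
  have e3 : (G21 - 1) * (P - a * S + a - 1) = (b - 1) * (a * r - 1) := by
    refine sub_eq_zero.1 (cancel ha1 ?_)
    linear_combination (P - a * S + a - 1) * cG + (b - 1) * (a * r - 1) * hZ
  refine sub_eq_zero.1 (cancel hh ?_)
  linear_combination (P - a * S + a - 1) * e1
    - r * (r * (P - a * S + a - 1) + (P - r) * (a * r - 1)) * e2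
    + r ^ 2 * (P - S) * (S - r * P) * e3 - r * (P - S) * (S - r * P) * (a * r - 1) * hP

theorem k3_A1 {a r S P d n : F} (ha : a ≠ 0) (hr1 : r - 1 ≠ 0) (har : a * r - 1 ≠ 0)
    (hS1 : S - 1 ≠ 0) (hPr : P - r ≠ 0) (hd : d ≠ 0) (hdd : d = S - (1 + a + a ^ 2))
    (hn : n = a ^ 2 - (1 + a + a ^ 2) * S) (hR : P * d = a * n)
    (hE : (r ^ 2 * (P - S) * (S - r * P) + (a * r - 1) * r * (P - r * S) * (S - r * P)
      + (a * r - 1) * (1 - r) ^ 2 * P * (P - r * S)) * (P - a * S + a - 1) =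
    r * ((P - S) * (S - r * P) + (a * r - 1) * (1 - S) * (S - r * P)
        + (a * r - 1) * (1 - r) * (1 - S) * (1 - P))
        * (r * (P - a * S + a - 1) + (P - r) * (a * r - 1))) :
    (a * S + 1) * n + r * d ^ 2 = 0 := by
  have hP : P = a * n / d := by
    rw [eq_div_iff hd]; exact hR
  have key : d ^ 3 * ((r ^ 2 * (P - S) * (S - r * P) + (a * r - 1) * r * (P - r * S) * (S - r * P)
      + (a * r - 1) * (1 - r) ^ 2 * P * (P - r * S)) * (P - a * S + a - 1) -
      r * ((P - S) * (S - r * P) + (a * r - 1) * (1 - S) * (S - r * P)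
        + (a * r - 1) * (1 - r) * (1 - S) * (1 - P))
        * (r * (P - a * S + a - 1) + (P - r) * (a * r - 1))) =
      -(a * (r - 1) ^ 2 * (a * r - 1) * (S - 1) * (a * n - r * d)
        * ((a * S + 1) * n + r * d ^ 2)) := by
    rw [hP]
    field_simp
    rw [hn, hdd]
    ring
  rw [hE, sub_self, mul_zero] at key
  have h4 : a * n - r * d = d * (P - r) := by linear_combination -hR
  rw [h4] at key
  refine cancel (mul_ne_zero (mul_ne_zero (mul_ne_zero (mul_ne_zero ha (pow_ne_zero 2 hr1)) har) hS1)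
    (mul_ne_zero hd hPr)) ?_
  linear_combination key

theorem k3_J {a r S P : F} (ha : a ^ 2 = -1) (hr1 : r - 1 ≠ 0) (har : a * r - 1 ≠ 0)
    (hPr : P - r ≠ 0) (hS : S = a)
    (hE : (r ^ 2 * (P - S) * (S - r * P) + (a * r - 1) * r * (P - r * S) * (S - r * P)
      + (a * r - 1) * (1 - r) ^ 2 * P * (P - r * S)) * (P - a * S + a - 1) =
    r * ((P - S) * (S - r * P) + (a * r - 1) * (1 - S) * (S - r * P)
        + (a * r - 1) * (1 - r) * (1 - S) * (1 - P))
        * (r * (P - a * S + a - 1) + (P - r) * (a * r - 1))) :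
    P ^ 2 + a * P + r * (a + 1) = 0 := by
  subst hS
  refine cancel (mul_ne_zero (mul_ne_zero (pow_ne_zero 2 hr1) har) hPr) ?_
  linear_combination hE + (-r^5*S + 2*r^4*S + r^4 + r^3*P^2*S - r^3*S - 2*r^3 - 2*r^2*P^2*S
    - r^2*P^2 + r^2 + r*P^2*S + 2*r*P^2 - P^2) * ha

/-- the polynomial relations of the closed column 3 (columns `0, 1, 2, 3, 4`, rows `≤ 2`). -/
theorem k3_rel (g : GForm F m) (hm : 4 ≤ m) (h1 : g.kap 1 3 = 0) (h2 : g.kap 2 3 = 0) {r : F}
    (hr : g.t 2 = g.t 1 * r) (hS : g.s 3 = r * g.s 2) (hP : g.s 4 = r * g.s 1) :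
    g.s 4 * (g.s 3 - (1 + g.t 1 + g.t 1 ^ 2)) =
      g.t 1 * (g.t 1 ^ 2 - (1 + g.t 1 + g.t 1 ^ 2) * g.s 3) ∧
    (r ^ 2 * (g.s 4 - g.s 3) * (g.s 3 - r * g.s 4)
      + (g.t 1 * r - 1) * r * (g.s 4 - r * g.s 3) * (g.s 3 - r * g.s 4)
      + (g.t 1 * r - 1) * (1 - r) ^ 2 * g.s 4 * (g.s 4 - r * g.s 3))
        * (g.s 4 - g.t 1 * g.s 3 + g.t 1 - 1) =
      r * ((g.s 4 - g.s 3) * (g.s 3 - r * g.s 4)
        + (g.t 1 * r - 1) * (1 - g.s 3) * (g.s 3 - r * g.s 4)
        + (g.t 1 * r - 1) * (1 - r) * (1 - g.s 3) * (1 - g.s 4))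
        * (r * (g.s 4 - g.t 1 * g.s 3 + g.t 1 - 1) + (g.s 4 - r) * (g.t 1 * r - 1)) := by
  have ha := g.t_ne 1 (by omega)
  have ha1 : g.t 1 - 1 ≠ 0 := by
    have := g.t_inj 0 1 (by omega) (by omega)
    rw [g.t0] at this
    exact sub_ne_zero.2 this.symm
  have hPS : g.s 4 - g.s 3 ≠ 0 := sub_ne_zero.2 (g.s_inj 3 4 (by omega) (by omega)).symm
  have heS : g.s 2 - g.s 3 ≠ 0 := sub_ne_zero.2 (g.s_inj 2 3 (by omega) (by omega))
  have hx0 : 1 - g.lam' 0 ≠ 0 := sub_ne_zero.2 (g.lam'_ne 0 (by omega)).symm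
  obtain ⟨n1, n2⟩ := closed_next g (j := 1) (N := 3) (by omega) (by omega) h1
  obtain ⟨n3, -⟩ := closed_next g (j := 2) (N := 3) (by omega) (by omega) h2
  have hne := closed_next_ne g (j := 2) (N := 3) (by omega) (by omega) h2
  have u1 := g.G_succ (j := 1) (k := 2) (by omega) (by omega)
  have u2 := g.H_succ (j := 1) (k := 2) (by omega) (by omega)
  have u3 := g.G_succ (j := 2) (k := 2) (by omega) (by omega)
  have u4 := g.H_succ (j := 2) (k := 2) (by omega) (by omega)
  have c1 := h1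
  have c2 := h2
  rw [GForm.kap] at c1 c2
  simp only [Nat.reduceAdd] at n1 n2 n3 hne u1 u2 u3 u4
  have hh : g.G 2 3 ≠ 0 := by
    intro h
    rw [n3, h, mul_zero] at hne
    exact hne rfl
  have hN : g.t 1 ^ 2 * g.H 1 3 = g.G 1 3 := by
    refine sub_eq_zero.1 (cancel ha ?_)
    linear_combination -c1
  have hv : g.t 1 ^ 3 * g.H 1 4 = g.G 1 3 := by
    refine sub_eq_zero.1 (cancel ha ?_)
    linear_combination n2
  have r11 := g.row1G (k := 1) (by omega) (by omega)
  have r12 := g.row1G (k := 2) (by omega) (by omega)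
  have r13 := g.row1G (k := 3) (by omega) (by omega)
  have r14 := g.row1G (k := 4) (by omega) (by omega)
  have p24 := g.row2G (k := 4) (by omega) (by omega)
  have cG := colG g (by omega) (j := 2) (by omega)
  have e1 : (g.t 1 - 1) * g.G 1 3 = (g.lam 2 - g.mu 2) * g.kap 1 2 := by
    linear_combination c1 - u1 + u2
  have e2 : (g.t 2 - 1) * g.G 2 3 = (g.lam 2 - g.mu 2) * g.kap 2 2 := by
    linear_combination c2 - u3 + u4
  have hU : (g.t 1 * g.G 1 2 - g.G 1 3) * ((g.t 2 - 1) * g.G 2 3) =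
      (g.t 2 * g.G 2 2 - g.G 2 3) * ((g.t 1 - 1) * g.G 1 3) := by
    rw [e1, e2]
    linear_combination (-((g.lam 2 - g.mu 2) * g.kap 2 2)) * u1
      + ((g.lam 2 - g.mu 2) * g.kap 1 2) * u3
  rw [n3, n1] at p24
  rw [n1] at r14
  rw [hr] at hU p24 cG
  have r13' : g.G 1 3 = 1 - (1 - g.lam' 0) + (1 - g.lam' 0) * g.s 3 := by rw [r13]; ring
  have r14' : g.t 1 * g.G 1 3 = 1 - (1 - g.lam' 0) + (1 - g.lam' 0) * g.s 4 := by rw [r14]; ring
  obtain ⟨d1, d2, hZ, hR⟩ := k3_R ha1 (g.s_ne 3 (by omega)) hPS hx0 r13' r14'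
    (g.row1H (k := 3) (by omega) (by omega)) (g.row1H (k := 4) (by omega) (by omega)) hN hv
  refine ⟨hR, ?_⟩
  exact k3_E (x := 1 - g.lam' 0) (y := g.mu' 0) (al := 1 - g.lam' 1) (g := g.G 1 3) (h := g.G 2 3)
    (G12 := g.G 1 2) (H12 := g.H 1 2) (G21 := g.G 2 1) (G11 := g.G 1 1) (H11 := g.H 1 1)
    (G22 := g.G 2 2) (H13 := g.H 1 3) (H14 := g.H 1 4) (b := g.s 1) (e := g.s 2)
    ha ha1 hPS heS hx0 hh hS hP d1 hZ r13' r14' (by rw [r11]; ring)
    (g.row1H (k := 1) (by omega) (by omega)) (by rw [r12]; ring)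
    (g.row1H (k := 2) (by omega) (by omega)) (g.row1H (k := 3) (by omega) (by omega))
    (g.row1H (k := 4) (by omega) (by omega))
    (by rw [g.row2G (k := 1) (by omega) (by omega)]; ring)
    (by rw [g.row2G (k := 2) (by omega) (by omega)]; ring)
    (by rw [g.row2G (k := 3) (by omega) (by omega)]; ring)
    (by rw [p24]; ring) cG hU

private theorem inv_kap3 (g : GForm F m) {j k : ℕ} (hj : j ≤ m) (h : g.kap j k = 0) :
    g.inv.kap j k = 0 := by
  have ht := g.t_ne j hj
  have hp := pow_ne_zero k ht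
  rw [GForm.kap] at h ⊢
  simp only [GForm.inv_t, GForm.inv_G, GForm.inv_H, inv_pow]
  have e : (g.t j)⁻¹ * g.H j k - (g.t j ^ k)⁻¹ * g.G j k =
      -((g.t j ^ k * g.t j)⁻¹ * (g.t j * g.G j k - g.t j ^ k * g.H j k)) := by
    field_simp
    ring
  rw [e, h, mul_zero, neg_zero]

/-- the closed case. -/
theorem k3_closed_dead (g : GForm F m) (hm : 4 ≤ m) (h1 : g.kap 1 3 = 0) (h2 : g.kap 2 3 = 0)
    (ha2 : g.t 1 ≠ -1) {r : F}
    (hr : g.t 2 = g.t 1 * r) (hS : g.s 3 = r * g.s 2) (hP : g.s 4 = r * g.s 1) : False := by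
  have nd : ∀ (g : GForm F m) {r : F}, g.t 2 = g.t 1 * r → g.s 4 = r * g.s 1 →
      r ≠ 0 ∧ r - 1 ≠ 0 ∧ g.t 1 * r - 1 ≠ 0 ∧ g.s 3 - 1 ≠ 0 ∧ g.s 4 - r ≠ 0 := by
    intro g r hr hP
    have ht2 := g.t_ne 2 (by omega)
    have hr0 : r ≠ 0 := by
      rintro rfl
      rw [mul_zero] at hr
      exact ht2 hr
    refine ⟨hr0, ?_, ?_, ?_, ?_⟩
    · intro h
      have : r = 1 := sub_eq_zero.1 h
      rw [this, mul_one] at hr
      exact g.t_inj 1 2 (by omega) (by omega) hr.symm
    · intro h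
      have h' := g.t_inj 0 2 (by omega) (by omega)
      rw [g.t0, hr] at h'
      exact h' (sub_eq_zero.1 h).symm
    · intro h
      have h' := g.s_inj 0 3 (by omega) (by omega)
      rw [g.s0] at h'
      exact h' (sub_eq_zero.1 h).symm
    · intro h
      have h' := g.s_inj 0 1 (by omega) (by omega)
      rw [g.s0] at h'
      rw [hP] at h
      apply h'
      apply mul_left_cancel₀ hr0
      linear_combination -h
  obtain ⟨hr0, hr1, har, hS1, hPr⟩ := nd g hr hP
  have ha := g.t_ne 1 (by omega)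
  have hS0 := g.s_ne 3 (by omega)
  have hP0 := g.s_ne 4 (by omega)
  have he1 : g.s 2 ≠ 1 := by
    have := g.s_inj 0 2 (by omega) (by omega)
    rw [g.s0] at this
    exact this.symm
  have hP1 : g.s 4 ≠ 1 := by
    have := g.s_inj 0 4 (by omega) (by omega)
    rw [g.s0] at this
    exact this.symm
  have ha1 : g.t 1 - 1 ≠ 0 := by
    have := g.t_inj 0 1 (by omega) (by omega)
    rw [g.t0] at this
    exact sub_ne_zero.2 this.symm
  have ha2' : g.t 1 + 1 ≠ 0 := fun h => ha2 (eq_neg_of_add_eq_zero_left h)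
  -- the inverse form
  have hri : g.inv.t 2 = g.inv.t 1 * r⁻¹ := by
    simp only [GForm.inv_t]
    rw [hr, mul_inv]
  have hSi : g.inv.s 3 = r⁻¹ * g.inv.s 2 := by
    simp only [GForm.inv_s]
    rw [hS, mul_inv]
  have hPi : g.inv.s 4 = r⁻¹ * g.inv.s 1 := by
    simp only [GForm.inv_s]
    rw [hP, mul_inv]
  obtain ⟨hr0', hr1', har', hS1', hPr'⟩ := nd g.inv hri hPi
  obtain ⟨R, E⟩ := k3_rel g hm h1 h2 hr hS hP
  obtain ⟨R', E'⟩ := k3_rel g.inv hm (inv_kap3 g (by omega) h1) (inv_kap3 g (by omega) h2)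
    hri hSi hPi
  simp only [GForm.inv_t, GForm.inv_s] at R' E' hr1' har' hS1' hPr'
  obtain ⟨a, hadef⟩ : ∃ a, a = g.t 1 := ⟨_, rfl⟩
  obtain ⟨S, hSdef⟩ : ∃ S, S = g.s 3 := ⟨_, rfl⟩
  obtain ⟨P, hPdef⟩ : ∃ P, P = g.s 4 := ⟨_, rfl⟩
  rw [← hadef] at ha ha1 ha2' har har' R E R' E'
  rw [← hSdef] at hS0 hS1 hS1' R E R' E' hS
  rw [← hPdef] at hP0 hP1 hPr hPr' R E R' E'
  obtain ⟨d, hd⟩ : ∃ d, d = S - (1 + a + a ^ 2) := ⟨_, rfl⟩
  obtain ⟨n, hn⟩ : ∃ n, n = a ^ 2 - (1 + a + a ^ 2) * S := ⟨_, rfl⟩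
  have hRd : P * d = a * n := by rw [hd, hn]; exact R
  by_cases hd0 : d = 0
  · -- d = n = 0
    have hn0 : n = 0 := by
      rw [hd0, mul_zero] at hRd
      exact (mul_eq_zero.1 hRd.symm).resolve_left ha
    have hSa : S = 1 + a + a ^ 2 := by
      rw [hd0] at hd
      linear_combination -hd
    have ha4 : a ^ 2 + 1 = 0 := by
      refine cancel (pow_ne_zero 2 ha2') ?_
      rw [hn0, hSa] at hn
      linear_combination hn
    have hSa' : S = a := by rw [hSa]; linear_combination ha4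
    have ha3 : a ^ 2 = -1 := by linear_combination ha4
    have J := k3_J ha3 hr1 har hPr hSa' E
    have ha3' : a⁻¹ ^ 2 = -1 := by
      rw [inv_pow, ha3]
      norm_num
    have J' := k3_J ha3' hr1' har' hPr' (by rw [hSa']) E'
    have J2 : r - a * r * P + (1 - a) * P ^ 2 = 0 := by
      have e : r * P ^ 2 * a * (P⁻¹ ^ 2 + a⁻¹ * P⁻¹ + r⁻¹ * (a⁻¹ + 1)) =
          a * r + r * P + P ^ 2 * (1 + a) := by
        field_simp
      rw [J', mul_zero] at e
      refine cancel ha ?_
      linear_combination -e - (r * P + P ^ 2) * ha4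
    -- (J), (J2) => P = -1, r = a
    have hPm : P = -1 := by
      have h5 : a * P * (P - 1) * (P + 1) = 0 := by
        linear_combination (-(1 - a * P)) * J + (a + 1) * J2
      have h6 := cancel (mul_ne_zero (mul_ne_zero ha hP0) (sub_ne_zero.2 hP1)) h5
      exact eq_neg_of_add_eq_zero_left h6
    have hra : r = a := by
      refine sub_eq_zero.1 (cancel ha2' ?_)
      rw [hPm] at J
      linear_combination J - ha4
    apply he1
    apply mul_left_cancel₀ ha
    rw [hSa', hra] at hS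
    rw [← hS, mul_one]
  · have hn0 : n ≠ 0 := by
      intro h
      rw [h, mul_zero] at hRd
      exact (mul_ne_zero hP0 hd0) hRd
    have A1 := k3_A1 ha hr1 har hS1 hPr hd0 hd hn hRd E
    have hd' : n / (a ^ 2 * S) = S⁻¹ - (1 + a⁻¹ + a⁻¹ ^ 2) := by
      rw [hn]
      field_simp
      ring
    have hn' : d / (a ^ 2 * S) = a⁻¹ ^ 2 - (1 + a⁻¹ + a⁻¹ ^ 2) * S⁻¹ := by
      rw [hd]
      field_simp
      ring
    have haS : a ^ 2 * S ≠ 0 := mul_ne_zero (pow_ne_zero 2 ha) hS0
    have A2 := k3_A1 (inv_ne_zero ha) hr1' har' hS1' hPr' (div_ne_zero hn0 haS) hd' hn'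
      (by rw [hd', hn']; exact R') E'
    have A2' : n ^ 2 + r * a * (a * S + 1) * d = 0 := by
      have e : r * a ^ 4 * S ^ 2 * ((a⁻¹ * S⁻¹ + 1) * (d / (a ^ 2 * S))
          + r⁻¹ * (n / (a ^ 2 * S)) ^ 2) = n ^ 2 + r * a * (a * S + 1) * d := by
        field_simp
        ring
      rw [← e, A2, mul_zero]
    have A3 : n * d = a * (a * S + 1) ^ 2 := by
      refine sub_eq_zero.1 (cancel hn0 ?_)
      linear_combination d * A2' - a * (a * S + 1) * A1
    have A4 : (1 + a ^ 2) * (S - a) = 0 := by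
      refine cancel (mul_ne_zero ha2' hS1) ?_
      rw [hn, hd] at A3
      linear_combination -A3
    rcases mul_eq_zero.1 A4 with h | h
    · -- a ^ 2 = -1: P = 1
      apply hP1
      refine sub_eq_zero.1 (cancel hd0 ?_)
      rw [hn, hd] at hRd
      rw [hd]
      linear_combination hRd + (1 + a) * (1 - S) * h
    · -- S = a: r = a, s_2 = 1
      have hSa : S = a := sub_eq_zero.1 h
      have hd2 : d = -(1 + a ^ 2) := by rw [hd, hSa]; ring
      have hn2 : n = -(a * (1 + a ^ 2)) := by rw [hn, hSa]; ring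
      have hra : r = a := by
        refine sub_eq_zero.1 (cancel (pow_ne_zero 2 hd0) ?_)
        rw [hn2, hd2, hSa] at A1
        rw [hd2]
        linear_combination A1
      apply he1
      apply mul_left_cancel₀ ha
      rw [hSa, hra] at hS
      rw [← hS, mul_one]

/-- the exceptional case (`kap_1^(3) = 0`, `kap_2^(3) ≠ 0`), scalar part. -/
theorem k3_exc {a c e S P x y g G14 : F} (ha : a ≠ 0) (ha1 : a - 1 ≠ 0) (hc1 : c - 1 ≠ 0)
    (hca : c - a ≠ 0) (heS : S - e ≠ 0) (hS0 : S ≠ 0) (hx0 : x ≠ 0) (hP1 : P ≠ 1)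
    (r13 : g = 1 - x + x * S) (r14 : G14 = 1 - x + x * P) (n1 : G14 = a * g)
    (q13 : S * g = a ^ 2 * ((1 - y) * S + y))
    (i1 : (c - 1) * g = (c - a) * (a ^ 2 * (1 - y)))
    (i2 : a * ((c - 1) * g) = (c - a) * (1 - x))
    (hn1 : (e * a - c) * (x - a * y + a - 1) = (e - 1) * (a * c * x - a * y)) : False := by
  have f3 : 1 - x = a ^ 3 * (1 - y) := by
    refine sub_eq_zero.1 (cancel hca ?_)
    linear_combination a * i1 - i2
  have f1 : a * (c - 1) * x * S = -(c * (a - 1) * (1 - x)) := by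
    linear_combination i2 - a * (c - 1) * r13
  have f2 : (c - 1) * y = -((a - 1) * (1 - y) * S) := by
    refine sub_eq_zero.1 (cancel (pow_ne_zero 2 ha) ?_)
    linear_combination S * i1 - (c - 1) * q13
  obtain ⟨W, hW⟩ : ∃ W, W = x - a * y + a - 1 := ⟨_, rfl⟩
  have k1 : e * (a * W - a * c * x + a * y) = c * W - a * c * x + a * y := by
    rw [hW]; linear_combination hn1
  have k2 : S * (a * W - a * c * x + a * y) = c * W - a * c * x + a * y := by
    rw [hW]
    linear_combination (-1 : F) * f1 + a * f2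
  have k3 : a * W - a * c * x + a * y = 0 := by
    refine cancel heS ?_
    linear_combination k2 - k1
  have hW0 : W = 0 := by
    refine cancel hca ?_
    rw [k3, mul_zero] at k2
    linear_combination -k2 - k3
  have hcx : c * x = y := by
    refine sub_eq_zero.1 (cancel ha ?_)
    rw [hW0] at k3
    linear_combination -k3
  have hw : x - a * y + a - 1 = 0 := by rw [← hW, hW0]
  have h5 : (1 - y) * (a + 1) = 0 := by
    refine cancel (mul_ne_zero ha ha1) ?_
    linear_combination -f3 - hw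
  rcases mul_eq_zero.1 h5 with h | h
  · -- x = y = 1
    apply hc1
    have hy : y = 1 := by linear_combination -h
    have hx1 : x = 1 := by
      rw [hy] at hw
      linear_combination hw
    rw [hx1, hy] at hcx
    linear_combination hcx
  · have hA : a = -1 := eq_neg_of_add_eq_zero_left h
    subst hA
    have h2 : (2 : F) ≠ 0 := by
      intro h2
      apply ha1
      linear_combination -h2
    have g1 : (c + 1) * x = 2 := by linear_combination hw + hcx
    have g2 : S = -c := by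
      refine sub_eq_zero.1 (cancel (mul_ne_zero h2 hc1) ?_)
      linear_combination (-(c + 1)) * f1 - ((c - 1) * S - 2 * c) * g1
    have g3 : g = -1 := by
      rw [r13, g2]
      linear_combination -g1
    apply hP1
    refine sub_eq_zero.1 (cancel hx0 ?_)
    rw [g3, r14] at n1
    linear_combination n1

/-- N branch: `kap_1^(3) = 0` is impossible. -/
theorem n_kap3_dead (g : GForm F m) (hm : 4 ≤ m) (hD : g.G 1 1 ≠ g.H 1 1)
    (hn1 : (g.s 2 * g.t 1 - g.t 2) * ((1 - g.lam' 0) - g.t 1 * g.mu' 0 + g.t 1 - 1) =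
        (g.s 2 - 1) * (g.t 1 * g.t 2 * (1 - g.lam' 0) - g.t 1 * g.mu' 0))
    (hk : g.kap 1 3 = 0) : False := by
  have ha := g.t_ne 1 (by omega)
  have hc := g.t_ne 2 (by omega)
  have hb := g.s_ne 1 (by omega)
  have he := g.s_ne 2 (by omega)
  have hS := g.s_ne 3 (by omega)
  have ha1 : g.t 1 - 1 ≠ 0 := by
    have := g.t_inj 0 1 (by omega) (by omega)
    rw [g.t0] at this
    exact sub_ne_zero.2 this.symm
  have hc1 : g.t 2 - 1 ≠ 0 := by
    have := g.t_inj 0 2 (by omega) (by omega)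
    rw [g.t0] at this
    exact sub_ne_zero.2 this.symm
  have hca : g.t 2 - g.t 1 ≠ 0 := sub_ne_zero.2 (g.t_inj 1 2 (by omega) (by omega)).symm
  have hal : 1 - g.lam' 1 ≠ 0 := sub_ne_zero.2 (g.lam'_ne 1 (by omega)).symm
  have hN : g.t 1 ^ 2 * g.H 1 3 = g.G 1 3 := by
    have c1 := hk
    rw [GForm.kap] at c1
    refine sub_eq_zero.1 (cancel ha ?_)
    linear_combination -c1
  have ty := type1_of g (by omega) hD hn1
  rcases Helper43.IPL.deg_flat g (by omega) 2 (by omega) hN with h | ⟨i1, i2⟩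
  · -- closed
    have h2 : g.kap 2 3 = 0 := by
      rw [GForm.kap]
      linear_combination (-g.t 2) * h
    by_cases hA : g.t 1 = -1
    · obtain ⟨rA, -, -, -, rS⟩ := closed_rel g (k := 2) (by omega) hk h2
      simp only [Nat.reduceAdd] at rA rS
      rw [hA] at rA rS ty
      have e1 : g.s 4 = -(g.t 2 * g.s 3) := by linear_combination rA
      have e2 : g.mu' 1 * g.t 2 = -(g.s 3 * g.s 2 * (1 - g.lam' 1)) := by
        refine sub_eq_zero.1 (cancel hc ?_)
        rw [e1] at rS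
        linear_combination rS
      have e3 : g.s 1 = g.s 3 := by
        refine sub_eq_zero.1 (cancel (mul_ne_zero hal he) ?_)
        linear_combination -ty - e2
      exact g.s_inj 1 3 (by omega) (by omega) e3
    · have t0 := closed_type0 g (k := 2) (by omega) hk h2 hA
      have t1 := closed_type1 g (k := 2) (by omega) hk h2 hA
      simp only [Nat.reduceAdd] at t0 t1
      have hr : g.t 2 = g.t 1 * (g.t 2 / g.t 1) := by field_simp
      have hS' : g.s 3 = g.t 2 / g.t 1 * g.s 2 := by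
        rw [div_mul_eq_mul_div, eq_div_iff ha]
        linear_combination -t0
      have hP' : g.s 4 = g.t 2 / g.t 1 * g.s 1 := by
        rw [div_mul_eq_mul_div, eq_div_iff ha]
        refine sub_eq_zero.1 (cancel (mul_ne_zero (mul_ne_zero hal hS) (pow_ne_zero 2 ha)) ?_)
        linear_combination -t1 - g.t 2 ^ 2 * ty
          + (1 - g.lam' 1) * g.t 2 * g.s 1 * g.t 1 * t0
      exact k3_closed_dead g hm hk h2 hA hr hS' hP'
  · -- exceptional
    obtain ⟨n1, -⟩ := closed_next g (j := 1) (N := 3) (by omega) (by omega) hk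
    simp only [Nat.reduceAdd] at n1 i1 i2
    have q13 := g.row1H (k := 3) (by omega) (by omega)
    have hP1 : g.s 4 ≠ 1 := by
      have := g.s_inj 0 4 (by omega) (by omega)
      rw [g.s0] at this
      exact this.symm
    exact k3_exc (a := g.t 1) (c := g.t 2) (e := g.s 2) (S := g.s 3) (P := g.s 4)
      (x := 1 - g.lam' 0) (y := g.mu' 0) (g := g.G 1 3) (G14 := g.G 1 4) ha ha1 hc1 hca
      (sub_ne_zero.2 (g.s_inj 2 3 (by omega) (by omega)).symm) hS
      (sub_ne_zero.2 (g.lam'_ne 0 (by omega)).symm) hP1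
      (by rw [g.row1G (k := 3) (by omega) (by omega)]; ring)
      (by rw [g.row1G (k := 4) (by omega) (by omega)]; ring) n1
      (by rw [← hN]; linear_combination g.t 1 ^ 2 * q13) i1
      (by rw [i2]; ring) hn1

end Pool.Agent.Helper27.IP
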