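import Pool.Agent.Helper27.IP.K21M5
import Pool.Agent.Helper85.IP.K21Data

/-!
TH-P, the state K2-1, letter 0, case `S = -v`: characteristic 257 and the explicit point.
-/

namespace Pool.Agent.Helper27.IP

open Pool.Agent.Helper54.IP Pool.Agent.Helper76.IP Pool.Agent.Helper85.IP

variable {F : Type*} [Field F]

private theorem cancel {a b : F} (ha : a ≠ 0) (h : a * b = 0) : b = 0 :=
  (mul_eq_zero.1 h).resolve_left ha

/-- the case `S = -v`. -/
theorem k21A_point {t v u : F} (h2 : (2 : F) ≠ 0) (h3 : (3 : F) ≠ 0) (t0 : t ≠ 0) (v0 : v ≠ 0)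
    (v1 : v - 1 ≠ 0) (v1' : v + 1 ≠ 0) (R : v ^ 2 + 2 * (t + 1) * v + t = 0)
    (C1 : u ^ 2 * ((v + 1) * t - 1) + u * (t * (1 + v)) + (t * (1 + v) - v * t ^ 2) = 0)
    (C3 : u ^ 2 * (t - 2 * v) + u * t * (v + 1) + t * v - 2 * t ^ 2 = 0)
    (F1 : u ^ 2 * (2 * t - v) + u * (v ^ 2 + v - t - t ^ 2) - t ^ 2 + 2 * t * v = 0) :
    (257 : F) = 0 ∧ v ^ 2 = 50 * v - 1 ∧ t = 22 - 118 * v ∧ u = 128 - 19 * v := by
  have hT : (2 * v + 1) * t + v * (v + 2) = 0 := by linear_combination R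
  have n1 : 2 * v + 1 ≠ 0 := by
    intro h
    rw [h, zero_mul, zero_add] at hT
    apply h3
    linear_combination 2 * cancel v0 hT - h
  have n2 : v + 2 ≠ 0 := by
    intro h
    rw [h, mul_zero, add_zero] at hT
    exact mul_ne_zero n1 t0 hT
  have E1 : -v ^ 5 - 2 * v ^ 4 * u ^ 2 - 2 * v ^ 4 * u - 6 * v ^ 4 - 7 * v ^ 3 * u ^ 2 - 7 * v ^ 3 * u
      - 11 * v ^ 3 - 11 * v ^ 2 * u ^ 2 - 7 * v ^ 2 * u - 7 * v ^ 2 - 6 * v * u ^ 2 - 2 * v * u -
      2 * v - u ^ 2 = 0 := by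
    linear_combination (2 * v + 1) ^ 2 * C1
      - (-2 * t * v ^ 2 - t * v + v ^ 3 + 2 * v ^ 2 * u ^ 2 + 2 * v ^ 2 * u + 4 * v ^ 2 + 3 * v * u
      ^ 2 + 3 * v * u + 3 * v + u ^ 2 + u + 1) * hT
  have E3 : -2 * v ^ 4 * u - 4 * v ^ 4 - 10 * v ^ 3 * u ^ 2 - 7 * v ^ 3 * u - 13 * v ^ 3 - 13 * v ^ 2 *
      u ^ 2 - 7 * v ^ 2 * u - 10 * v ^ 2 - 4 * v * u ^ 2 - 2 * v * u = 0 := by
    linear_combination (2 * v + 1) ^ 2 * C3
      - (-4 * t * v - 2 * t + 2 * v ^ 2 * u + 4 * v ^ 2 + 2 * v * u ^ 2 + 3 * v * u + 5 * v + u ^ 2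
      + u) * hT
  have EF : 3 * v ^ 4 * u - 5 * v ^ 4 - 8 * v ^ 3 * u ^ 2 + 6 * v ^ 3 * u - 14 * v ^ 3 - 14 * v ^ 2 * u
      ^ 2 + 6 * v ^ 2 * u - 8 * v ^ 2 - 5 * v * u ^ 2 + 3 * v * u = 0 := by
    linear_combination (2 * v + 1) ^ 2 * F1
      - (-2 * t * v * u - 2 * t * v - t * u - t + v ^ 2 * u + 5 * v ^ 2 + 4 * v * u ^ 2 + 4 * v + 2
      * u ^ 2 - u) * hT
  have hK : v * (v - 1) * (v + 1) * (2 * v + 1) * (v + 2) ≠ 0 :=
    mul_ne_zero (mul_ne_zero (mul_ne_zero (mul_ne_zero v0 v1) v1') n1) n2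
  have hU : (2 * v + 1) * (1 + v - v ^ 2) * u + v * (v ^ 2 + 7 * v + 1) = 0 := by
    refine cancel hK ?_
    linear_combination (-10 * v ^ 3 - 13 * v ^ 2 - 4 * v) * E1
      - (-2 * v ^ 4 - 7 * v ^ 3 - 11 * v ^ 2 - 6 * v - 1) * E3
  have hU2 : (2 * v + 1) * (1 + v - v ^ 2) * u ^ 2 - v * (v + 2) * (v ^ 2 + v - 1) = 0 := by
    refine cancel hK ?_
    linear_combination (-2 * v ^ 4 - 7 * v ^ 3 - 7 * v ^ 2 - 2 * v) * E3
      - (-2 * v ^ 4 - 7 * v ^ 3 - 7 * v ^ 2 - 2 * v) * E1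
  have P6 : v ^ 6 + 3 * v ^ 5 + 5 * v ^ 4 + 18 * v ^ 3 + 5 * v ^ 2 + 3 * v + 1 = 0 := by
    refine cancel (mul_ne_zero v0 h2) ?_
    linear_combination (v * (v ^ 2 + 7 * v + 1) - (2 * v + 1) * (1 + v - v ^ 2) * u) * hU
      + (2 * v + 1) * (1 + v - v ^ 2) * hU2
  have P4 : v ^ 4 + 41 * v ^ 3 + 78 * v ^ 2 + 41 * v + 1 = 0 := by
    refine cancel (mul_ne_zero (pow_ne_zero 2 v0) v1') ?_
    linear_combination (-8 * v ^ 3 - 14 * v ^ 2 - 5 * v) * hU2
      + (3 * v ^ 4 + 6 * v ^ 3 + 6 * v ^ 2 + 3 * v) * hU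
      - (2 * v + 1) * (1 + v - v ^ 2) * EF
  have q : 371 * v ^ 2 + 725 * v + 371 = 0 := by
    refine cancel (mul_ne_zero (mul_ne_zero h2 h2) (pow_ne_zero 2 v0)) ?_
    linear_combination P6 - (v ^ 2 - 38 * v + 1) * P4
  have hp : (257 : F) = 0 := by
    have h4 : (2 : F) * (3 * 3 * (3 * 3)) * v ^ 2 * 257 = 0 := by
      linear_combination (371 * (v ^ 2 + 1) + 14486 * v) * q - 371 ^ 2 * P4
    exact cancel (mul_ne_zero (mul_ne_zero h2 (mul_ne_zero (mul_ne_zero h3 h3)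
      (mul_ne_zero h3 h3))) (pow_ne_zero 2 v0)) h4
  have hv : v ^ 2 - 50 * v + 1 = 0 := by
    linear_combination 124 * q - (179 * v ^ 2 + 350 * v + 179) * hp
  have ht : t = 22 - 118 * v := by
    linear_combination (-71 * v + 116) * hT + (142 * t + 71 * v + 3576) * hv
      + (27 * t * v - t + 695 * v - 14) * hp
  have hu : u = 128 - 19 * v := by
    linear_combination (-118 * v + 122) * hU + (-236 * v ^ 2 * u + 118 * v ^ 2 - 11438 * v * u + 6604 * v - 571432 * u + 329346) * hv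
      + (-111130 * v * u + 64049 * v + 2223 * u - 1282) * hp
  exact ⟨hp, by linear_combination hv, ht, hu⟩

theorem k21A_pow {t v u : F} (hp : (257 : F) = 0) (hv : v ^ 2 = 50 * v - 1)
    (ht : t = 22 - 118 * v) (hu : u = 128 - 19 * v) (h : (t * v) ^ 12 = u ^ 8 * v ^ 4) : False := by
  have x1 : t * v = 33 * v + 118 := by
    rw [ht]
    linear_combination (-118) * hv + (-23 * v) * hp
  have x2 : (t * v) ^ 2 = 44 * v - 15 := by
    have e : (t * v) ^ 2 = (33 * v + 118) * (33 * v + 118) := by rw [← x1]; ring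
    linear_combination e + (1089) * hv + (242 * v + 50) * hp
  have x3 : (t * v) ^ 3 = -60 * v + 119 := by
    have e : (t * v) ^ 3 = (44 * v - 15) * (33 * v + 118) := by rw [← x2, ← x1]; ring
    linear_combination e + (1452) * hv + (301 * v - 13) * hp
  have x6 : (t * v) ^ 6 = -45 * v + 24 := by
    have e : (t * v) ^ 6 = (-60 * v + 119) * (-60 * v + 119) := by rw [← x3]; ring
    linear_combination e + (3600) * hv + (645 * v + 41) * hp
  have x12 : (t * v) ^ 12 = -112 * v + 93 := by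
    have e : (t * v) ^ 12 = (-45 * v + 24) * (-45 * v + 24) := by rw [← x6]; ring
    linear_combination e + (2025) * hv + (386 * v - 6) * hp
  have u2 : u ^ 2 = 79 * v + 89 := by
    have e : u ^ 2 = (-19 * v + 128) * (-19 * v + 128) := by rw [hu]; ring
    linear_combination e + (361) * hv + (51 * v + 62) * hp
  have u4 : u ^ 4 = -21 * v - 119 := by
    have e : u ^ 4 = (79 * v + 89) * (79 * v + 89) := by rw [← u2]; ring
    linear_combination e + (6241) * hv + (1269 * v + 7) * hp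
  have u8 : u ^ 8 = 63 * v + 99 := by
    have e : u ^ 8 = (-21 * v - 119) * (-21 * v - 119) := by rw [← u4]; ring
    linear_combination e + (441) * hv + (105 * v + 53) * hp
  have v4 : v ^ 4 = -2 * v + 71 := by
    linear_combination (v ^ 2 + 50 * v + 2499) * hv + (486 * v - 10) * hp
  rw [x12, u8, v4] at h
  have e : (1 : F) = 0 := by
    linear_combination (-101 * v - 84) * h + (12726 * v + 203797) * hv + (35440 * v - 3060) * hp
  exact one_ne_zero e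

end Pool.Agent.Helper27.IP
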