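import Mathlib

/-!
TH-P, the state K2-1, letter 0, case `t^2 u S = v^2`: the explicit point in characteristic 953
does not close at `m = 5`.
-/

namespace Pool.Agent.Helper27.IP

variable {F : Type*} [Field F]

theorem k21B_pow {t v u S : F} (hp : (953 : F) = 0) (hq : t ^ 2 = -96 * t - 1)
    (hv : v = 475 - 337 * t) (hu : u = -108 - 6 * t) (hS : S = 161 + 92 * t)
    (h : (t * v) ^ 12 = u ^ 8 * S ^ 4) : False := by
  have x1 : t * v = 425 * t + 337 := by
    rw [hv]
    linear_combination (-337) * hq + (34 * t) * hp
  have x2 : (t * v) ^ 2 = 385 * t - 346 := by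
    have e : (t * v) ^ 2 = (425 * t + 337) * (425 * t + 337) := by rw [← x1]; ring
    linear_combination e + (180625) * hq + (-17895 * t - 70) * hp
  have x3 : (t * v) ^ 3 = 148 * t - 45 := by
    have e : (t * v) ^ 3 = (385 * t - 346) * (425 * t + 337) := by rw [← x2, ← x1]; ring
    linear_combination e + (163625) * hq + (-16501 * t - 294) * hp
  have x6 : (t * v) ^ 6 = -444 * t + 134 := by
    have e : (t * v) ^ 6 = (148 * t - 45) * (148 * t - 45) := by rw [← x3]; ring
    linear_combination e + (21904) * hq + (-2220 * t - 21) * hp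
  have x12 : (t * v) ^ 12 = -249 * t - 16 := by
    have e : (t * v) ^ 12 = (-444 * t + 134) * (-444 * t + 134) := by rw [← x6]; ring
    linear_combination e + (197136) * hq + (-19983 * t - 188) * hp
  have u2 : u ^ 2 = -254 * t + 192 := by
    have e : u ^ 2 = (-6 * t - 108) * (-6 * t - 108) := by rw [hu]; ring
    linear_combination e + (36) * hq + (-2 * t + 12) * hp
  have u4 : u ^ 4 = -319 * t - 15 := by
    have e : u ^ 4 = (-254 * t + 192) * (-254 * t + 192) := by rw [← u2]; ring
    linear_combination e + (64516) * hq + (-6601 * t - 29) * hp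
  have u8 : u ^ 8 = 187 * t + 435 := by
    have e : u ^ 8 = (-319 * t - 15) * (-319 * t - 15) := by rw [← u4]; ring
    linear_combination e + (101761) * hq + (-10241 * t - 107) * hp
  have S2 : S ^ 2 = 446 * t + 303 := by
    have e : S ^ 2 = (92 * t + 161) * (92 * t + 161) := by rw [hS]; ring
    linear_combination e + (8464) * hq + (-822 * t + 18) * hp
  have S4 : S ^ 4 = -98 * t - 371 := by
    have e : S ^ 4 = (446 * t + 303) * (446 * t + 303) := by rw [← S2]; ring
    linear_combination e + (198916) * hq + (-19754 * t - 112) * hp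
  rw [x12, u8, S4] at h
  have e : (1 : F) = 0 := by
    linear_combination (187 * t + 21) * h + (-3426962 * t + 307704760) * hq + (-31027023 * t - 326436) * hp
  exact one_ne_zero e

end Pool.Agent.Helper27.IP
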