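import Pool.Agent.Helper27.IP.K21A5
import Pool.Agent.Helper27.IP.K21B5
import Pool.Agent.Helper43.IPL.K21Char2

/-!
TH-P, `n = 6` (`m = 5`, closed): the leaf N, modulo the explicit point of case B.
-/

namespace Pool.Agent.Helper27.IP

open Pool.Agent.Helper54.IP Pool.Agent.Helper36.IP Pool.Agent.Helper76.IP Pool.Agent.Helper85.IP

variable {F : Type*} [Field F]

/-- the explicit point of the case `t^2 u S = v^2` (letter 0, `2, 3 ≠ 0`) -/
def K21BPoint (F : Type*) [Field F] : Prop :=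
  ∀ t v u S T r : F, K21 t v u S T r → (2 : F) ≠ 0 → (3 : F) ≠ 0 → u + S ≠ 0 → pI S v u = 0 →
    r ^ 3 - 1 ≠ 0 → u * r ^ 3 - 1 ≠ 0 → t ^ 2 * u * S = v ^ 2 →
    (953 : F) = 0 ∧ t ^ 2 = -96 * t - 1 ∧ v = 475 - 337 * t ∧ u = -108 - 6 * t ∧ S = 161 + 92 * t

theorem k21_leaf5_of (PB : K21BPoint F) : K21Leaf5 F := by
  intro g hcl hD h2 hn1 hn2 hk v D htd hk2 hk3 h3 hB
  obtain ⟨r, K, s4, h4⟩ := k21_data g (by omega) hD h2 hn1 hn2 hk D htd hk2 hk3 h3 hB
  have hu := g.s_ne 1 (by omega)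
  rcases h4 with ⟨h4, hI⟩ | ⟨h4, hB3⟩
  · have c2 : (2 : F) ≠ 0 := fun h => K.char2 h hI
    have c3 : (3 : F) ≠ 0 := fun h => K.char3 h hI
    have e1 : g.s 1 + g.s 2 ≠ 0 := by
      intro h
      apply g.t_inj 1 4 (by omega) (by omega)
      apply mul_right_cancel₀ (pow_ne_zero 2 hu)
      rw [h4]
      linear_combination g.t 1 * (g.s 1 - g.s 2) * h
    have e2 : r ^ 3 - 1 ≠ 0 := by
      intro h
      apply g.s_inj 1 4 (by omega) (by omega)
      rw [s4]
      linear_combination -g.s 1 * h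
    have e3 : g.s 1 * r ^ 3 - 1 ≠ 0 := by
      intro h
      apply g.s_inj 0 4 (by omega) (by omega)
      rw [s4, g.s0]
      linear_combination -h
    have hp := k21_pow12 g hcl K.hr K.hST s4 h4
    rcases K.letter0' hI with h | h
    · obtain ⟨R, C1, -, C3, -, F1, -⟩ := k21_small K.t0 K.v0 K.u0 K.S0 K.Sv K.td K.uS K.u1 K.R
        K.Ea K.B2 hI
      rw [h] at R C1 C3 F1 hp
      obtain ⟨p, hv, ht, hu⟩ := k21A_point (u := g.s 1) c2 c3 K.t0 K.v0 K.v1 K.v1' (by linear_combination -R)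
        (mul_left_cancel₀ K.v0 (by linear_combination C1))
        (mul_left_cancel₀ K.v0 (by linear_combination C3))
        (mul_left_cancel₀ K.v0 (by linear_combination F1))
      exact k21A_pow p hv ht hu (by linear_combination hp)
    · obtain ⟨p, hq, hv, hu, hS⟩ := PB _ _ _ _ _ _ K c2 c3 e1 hI e2 e3 h
      exact k21B_pow p hq hv hu hS hp
  · obtain ⟨hu', hr'⟩ := K.letter1 hB3
    apply g.s_inj 0 4 (by omega) (by omega)
    rw [s4, g.s0, hu', hr']
    norm_num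

theorem n5_of_point (PB : K21BPoint F) : Pool.Agent.Helper31.IP5.N5 F :=
  n5_of (k2_leaf5_of (k21_leaf5_of PB))

end Pool.Agent.Helper27.IP
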