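import Pool.Agent.Helper27.IP.N5Dead

/-!
TH-P, `n = 6` (`m = 5`, closed): the state K2-1.
-/

namespace Pool.Agent.Helper27.IP

open Pool.Agent.Helper54.IP Pool.Agent.Helper36.IP

variable {F : Type*} [Field F]

private theorem cancel {a b : F} (ha : a ≠ 0) (h : a * b = 0) : b = 0 :=
  (mul_eq_zero.1 h).resolve_left ha

theorem k21_pow12 (g : GForm F 5) (hcl : g.Closed) {v r : F}
    (hr : g.t 2 = g.t 1 * r) (hS : g.s 2 = v * g.t 2)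
    (h4 : g.s 4 = g.s 1 * r ^ 3) (h4' : g.t 4 * g.s 1 ^ 2 = g.s 2 ^ 2 * g.t 1) :
    (g.t 1 * v) ^ 12 = g.s 1 ^ 8 * g.s 2 ^ 4 := by
  have hmono : (g.s 1 * g.t 4) ^ 4 = (g.t 1 * g.s 4) ^ 4 := by
    have e1 := mono_closed hcl (n := 2) (by omega)
    have e2 := hcl.corner (κ := 4) (by omega)
    simp only [Nat.reduceAdd] at e1
    have h5 := g.s_ne 5 (by omega)
    refine sub_eq_zero.1 (cancel (pow_ne_zero 4 h5) ?_)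
    linear_combination ((g.s 1 * g.t 4) ^ 2 * g.s 5 ^ 2 + (g.t 1 * g.s 4) ^ 2 * g.t 5 ^ 2) * e1
      + (g.t 1 * g.s 4) ^ 4 * e2
  have ht := g.t_ne 1 (by omega)
  have hs := g.s_ne 2 (by omega)
  have e3 : (g.s 2 ^ 2 * g.t 1) ^ 4 = g.t 1 ^ 4 * g.s 1 ^ 8 * r ^ 12 := by
    rw [← h4', ← mul_one (g.t 1 ^ 4)]
    calc (g.t 4 * g.s 1 ^ 2) ^ 4 = (g.s 1 * g.t 4) ^ 4 * g.s 1 ^ 4 := by ring
      _ = g.t 1 ^ 4 * 1 * g.s 1 ^ 8 * r ^ 12 := by rw [hmono, h4]; ring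
  have e4 : (g.t 1 * v) ^ 12 * r ^ 12 = g.s 2 ^ 12 := by
    rw [hS, hr]
    ring
  refine sub_eq_zero.1 (cancel (mul_ne_zero (pow_ne_zero 4 ht) (pow_ne_zero 8 hs)) ?_)
  linear_combination (g.t 1 * v) ^ 12 * e3 + g.t 1 ^ 4 * g.s 1 ^ 8 * e4

end Pool.Agent.Helper27.IP
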