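import Pool.Agent.Helper27.IP.K2Dual

/-!
TH-P, N branch, `kap_1^(2) = 0` (K2): closed columns of the dual strip.
-/

namespace Pool.Agent.Helper27.IP

open Pool.Agent.Helper54.IP Pool.Agent.Helper36.IP

variable {F : Type*} [Field F] {m : ℕ}

private theorem cancel {a b : F} (ha : a ≠ 0) (h : a * b = 0) : b = 0 :=
  (mul_eq_zero.1 h).resolve_left ha

section data

variable {g : GForm F m} {v : F} (D : K2Data g v)
include D

/-- a degenerate column of the dual strip is closed. -/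
theorem K2Data.closed (hm : 2 ≤ m) {k : ℕ} (hk2 : 2 ≤ k) (hk : k < m)
    (h : g.swap.kap 1 (k + 1) = 0) : g.swap.kap 2 (k + 1) = 0 := by
  have hu := g.s_ne 1 (by omega)
  have hS := g.s_ne 2 (by omega)
  have hv := D.v0
  have hST := D.hS
  have hz := g.t_ne (k + 1) (by omega)
  have hu1 : g.s 1 - 1 ≠ 0 := by
    rw [← g.s0]; exact sub_ne_zero.mpr (g.s_inj 0 1 (by omega) (by omega)).symm
  have hSu : g.s 2 - g.s 1 ≠ 0 := sub_ne_zero.mpr (g.s_inj 1 2 (by omega) (by omega)).symm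
  have hX : g.s 1 ^ k ≠ 0 := pow_ne_zero k hu
  rw [GForm.kap] at h ⊢
  simp only [GForm.swap_t, GForm.swap_G, GForm.swap_H] at h ⊢
  have hN : g.s 1 ^ k * g.H (k + 1) 1 = g.G (k + 1) 1 := by
    refine sub_eq_zero.1 (cancel hu ?_)
    linear_combination -h
  rcases Helper43.IPL.deg_flat g.swap (by omega) k (by omega)
    (by simpa only [GForm.swap_t, GForm.swap_G, GForm.swap_H] using hN) with h' | ⟨i1, i2⟩
  · simp only [GForm.swap_t, GForm.swap_G, GForm.swap_H] at h'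
    linear_combination (-g.s 2) * h'
  · exfalso
    simp only [GForm.swap_t, GForm.swap_G, GForm.swap_lam', GForm.swap_mu'] at i1 i2
    have e1 := D.G1 (by omega) (j := k + 1) hk
    have e2 := D.H1 (by omega) (j := k + 1) hk
    have hxx := D.hx
    have hyy := D.hy
    -- f1
    have f1 : g.s 1 * (g.s 2 - 1) * g.t (k + 1)
        + g.s 2 * (g.s 2 * (v + 1) - v - g.s 1) = 0 := by
      refine cancel hu1 ?_
      linear_combination (g.s 2 - 1) * (v + 1) * i2 - g.s 1 * (g.s 2 - 1) * e1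
        - (g.s 2 - g.s 1) * hxx
    have i3 : (g.s 2 - 1) * g.H (k + 1) 1 = (g.s 2 - g.s 1) * (1 - g.mu 0) := by
      refine sub_eq_zero.1 (cancel hX ?_)
      linear_combination (g.s 2 - 1) * hN + i1
    have f2 : g.t (k + 1) * (g.s 2 * v - g.s 1 * (v + 1 - g.s 2))
        + (g.s 2 - 1) * (g.s 2 * v) = 0 := by
      refine cancel hu1 ?_
      linear_combination (g.s 1 * ((g.s 2 - 1) * (v + 1)) * g.t (k + 1)) * i3
        - (g.s 2 - 1) * e2 - (g.s 2 - g.s 1) * g.t (k + 1) * hyy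
    have f3 : g.s 2 * (g.s 2 - g.s 1) * (v * g.t (k + 1) - g.s 2) = 0 := by
      linear_combination g.s 2 * f2 - g.s 2 * f1
    have f4 := cancel (mul_ne_zero hS hSu) f3
    apply g.t_inj 2 (k + 1) (by omega) (by omega)
    refine sub_eq_zero.1 (cancel hv ?_)
    linear_combination -f4 - hST

/-- row 1 of a closed column of the dual strip. -/
theorem K2Data.closed_row (hm : 2 ≤ m) {k : ℕ} (hk : k + 3 ≤ m)
    (h : g.swap.kap 1 (k + 2) = 0) :
    g.t (k + 3) - g.s 1 * g.t (k + 2) = g.s 2 * (v + 1) - v - g.s 1 ∧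
    g.t (k + 2) * g.t (k + 3) = g.s 1 ^ (k + 1) * (g.s 2 * v) ∧
    g.s 1 ^ (k + 1) * (g.s 2 * v - g.s 1 * (v + 1 - g.s 2)) = g.s 2 * (v + 1) - v - g.s 1 := by
  have hu := g.s_ne 1 (by omega)
  have hu1 : g.s 1 - 1 ≠ 0 := by
    rw [← g.s0]; exact sub_ne_zero.mpr (g.s_inj 0 1 (by omega) (by omega)).symm
  have hzz : g.t (k + 3) - g.t (k + 2) ≠ 0 :=
    sub_ne_zero.2 (g.t_inj (k + 2) (k + 3) (by omega) (by omega)).symm
  obtain ⟨n1, n2⟩ := closed_next g.swap (j := 1) (N := k + 2) (by omega) (by omega) h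
  rw [GForm.kap] at h
  simp only [GForm.swap_t, GForm.swap_G, GForm.swap_H] at h n1 n2
  rw [show k + 2 + 1 = k + 3 by omega] at n1 n2
  have e1 := D.G1 (by omega) (j := k + 2) (by omega)
  have e2 := D.H1 (by omega) (j := k + 2) (by omega)
  have e3 := D.G1 (by omega) (j := k + 3) (by omega)
  have e4 := D.H1 (by omega) (j := k + 3) (by omega)
  have hN : g.s 1 ^ (k + 1) * g.H (k + 2) 1 = g.G (k + 2) 1 := by
    refine sub_eq_zero.1 (cancel hu ?_)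
    linear_combination -h
  have hv : g.s 1 ^ (k + 2) * g.H (k + 3) 1 = g.G (k + 2) 1 := by
    refine sub_eq_zero.1 (cancel hu ?_)
    linear_combination n2
  obtain ⟨X, hX⟩ : ∃ X, X = g.s 1 ^ k := ⟨_, rfl⟩
  have hX1 : g.s 1 ^ (k + 1) = g.s 1 * X := by rw [hX]; ring
  have hX2 : g.s 1 ^ (k + 2) = g.s 1 ^ 2 * X := by rw [hX]; ring
  rw [hX1] at hN ⊢
  rw [hX2] at hv
  have hZ : g.t (k + 3) - g.s 1 * g.t (k + 2) = g.s 2 * (v + 1) - v - g.s 1 := by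
    refine sub_eq_zero.1 (cancel hu1 ?_)
    linear_combination (g.s 2 - 1) * (v + 1) * n1 - e3 + g.s 1 * e1
  have hG : (g.s 2 - 1) * (v + 1) * g.G (k + 2) 1 = g.t (k + 3) - g.t (k + 2) := by
    linear_combination e1 - hZ
  -- A1 : z (z' - z) = X (f z + c)
  have A1 : g.t (k + 2) * (g.t (k + 3) - g.t (k + 2)) =
      X * ((g.s 2 * v - g.s 1 * (v + 1 - g.s 2)) * g.t (k + 2)
        + (g.s 1 - 1) * (g.s 2 * v)) := by
    linear_combination (-g.t (k + 2)) * hG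
      - (g.s 2 - 1) * (v + 1) * g.t (k + 2) * hN + X * e2
  have A2 : g.t (k + 3) * (g.t (k + 3) - g.t (k + 2)) =
      g.s 1 * X * ((g.s 2 * v - g.s 1 * (v + 1 - g.s 2)) * g.t (k + 3)
        + (g.s 1 - 1) * (g.s 2 * v)) := by
    linear_combination (-g.t (k + 3)) * hG
      - (g.s 2 - 1) * (v + 1) * g.t (k + 3) * hv + g.s 1 * X * e4
  refine ⟨hZ, ?_, ?_⟩
  · refine sub_eq_zero.1 (cancel (mul_ne_zero hzz hu1) ?_)
    linear_combination g.s 1 * g.t (k + 3) * A1 - g.t (k + 2) * A2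
  · refine sub_eq_zero.1 (cancel hzz ?_)
    linear_combination g.s 1 * A1 - A2 + (g.t (k + 3) - g.t (k + 2)) * hZ

/-- row 2 at a closed column of the dual strip. -/
theorem K2Data.closed_row2 (hm : 2 ≤ m) {k : ℕ} (hk : k + 2 ≤ m)
    (h1 : g.swap.kap 1 (k + 1) = 0) (h2 : g.swap.kap 2 (k + 1) = 0) :
    g.s 1 * g.t 1 * g.s 2 ^ k = v * (g.t (k + 2) * g.t k * g.s 1 ^ k) ∧
    g.s 2 * (g.s 1 - 1) * v * g.s 1 ^ k * (g.t (k + 2) - g.t k) =
      -(g.t (k + 1) * (v * (g.s 1 - g.s 2) * (g.s 1 ^ k - 1)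
        + (g.s 1 - 1) * (g.s 1 * g.t 1 + v * g.s 2)) * (g.s 2 - 1)) ∧
    g.t (k + 2) * (v * (g.s 1 - g.s 2) * (g.s 1 ^ 2 * g.s 1 ^ k - 1)
        + (g.s 1 - 1) * (g.s 1 * g.t 1 + v * g.s 2)) =
      g.s 1 * g.s 2 * g.t (k + 1) * (v * (g.s 1 - g.s 2) * (g.s 1 ^ k - 1)
        + (g.s 1 - 1) * (g.s 1 * g.t 1 + v * g.s 2)) ∧
    (g.s 1 ≠ -1 → g.t k * g.s 2 = g.s 1 * g.t (k + 1)) := by
  have hu1 : g.s 1 - 1 ≠ 0 := by
    rw [← g.s0]; exact sub_ne_zero.mpr (g.s_inj 0 1 (by omega) (by omega)).symm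
  have hSu : g.s 2 - g.s 1 ≠ 0 := sub_ne_zero.mpr (g.s_inj 1 2 (by omega) (by omega)).symm
  have hal : 1 - g.lam 1 ≠ 0 := sub_ne_zero.mpr (g.lam_ne 1 (by omega)).symm
  obtain ⟨r1, -, -, r4, r5⟩ := closed_rel g.swap hk h1 h2
  simp only [GForm.swap_t, GForm.swap_s, GForm.swap_lam', GForm.swap_mu'] at r1 r4 r5
  have hh := D.hal
  refine ⟨?_, ?_, ?_, ?_⟩
  · refine sub_eq_zero.1 (cancel hal ?_)
    linear_combination v * r5 - g.s 2 ^ k * D.hde
  · refine sub_eq_zero.1 (cancel hSu ?_)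
    linear_combination (-(g.s 1 - 1) * (g.s 1 * g.t 1 + v * g.s 2)) * r4
      + (g.s 2 * (g.s 1 - 1) * g.s 1 ^ k * (g.t (k + 2) - g.t k)
        - g.t (k + 1) * (g.s 1 ^ k - 1) * (g.s 2 - 1) * (g.s 2 - g.s 1)) * hh
  · linear_combination (g.s 1 - 1) * (g.s 1 * g.t 1 + v * g.s 2) * r1
      + (g.s 1 * g.s 2 * g.t (k + 1) * (g.s 1 ^ k - 1)
        - g.t (k + 2) * (g.s 1 ^ 2 * g.s 1 ^ k - 1)) * hh
  · intro ha
    have h := closed_type0 g.swap hk h1 h2 ha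
    simpa only [GForm.swap_t, GForm.swap_s] using h

end data

/-- the case `w`, `m` of the closed column 4 of a K2-1 state. -/
theorem k2_c4_core {m w u : F} (hm : m ≠ 0) (hw : w ≠ 0) (hu : u ≠ 0) (hM : m ^ 3 - 1 ≠ 0)
    (h1 : (m ^ 2 * w ^ 2 + m + w) * u ^ 2 = m * w * (m * w * (m + w) + 1))
    (hW : m * w * u ^ 3 + m ^ 2 * u ^ 2 - m * w * (m + w) * u + w * (m ^ 3 - 1) = 0)
    (hZ : (m ^ 3 - 1) * w * u ^ 3 + m * (m + w) * u ^ 2 - m * w ^ 2 * u - m ^ 2 * w = 0)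
    (hD : (1 + m * w ^ 2) * (w - m ^ 3 * u ^ 2) + m ^ 2 * w * (1 + u) * (w - u) = 0) :
    (u ^ 2 - m ^ 2) * (u ^ 2 - w ^ 2) = 0 := by
  have h2 : m ^ 2 * (w - 1) * u = (m ^ 3 - 1) * (m * w * (m + w) + 1) := by
    refine sub_eq_zero.1 (cancel hw ?_)
    linear_combination hD + m ^ 2 * h1
  have hw1 : w - 1 ≠ 0 := by
    intro h
    have hA : m * w * (m + w) + 1 = 0 := by
      refine cancel hM ?_
      linear_combination -h2 + m ^ 2 * u * h
    apply hM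
    have : w = 1 := by linear_combination h
    rw [this] at hA
    linear_combination (m - 1) * hA
  have h3 : u * m * (m ^ 2 + m * w + w ^ 2) =
      m ^ 3 * (m * w * (m + w) + 1) + (m ^ 3 - 1) * (m ^ 2 * w ^ 2 + m + w) := by
    refine sub_eq_zero.1 (cancel hw ?_)
    linear_combination (-(m ^ 2 * w ^ 2 + m + w)) * hW + (m * w * u + m ^ 2) * h1
  have h4 : u * ((m ^ 2 * w ^ 2 + m + w) - (m ^ 3 - 1) * (m * w * (m + w) + 1)) =
      m ^ 2 * (m ^ 2 + m * w + w ^ 2) := by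
    refine sub_eq_zero.1 (cancel (mul_ne_zero hm (pow_ne_zero 2 hw)) ?_)
    linear_combination (-(m ^ 2 * w ^ 2 + m + w)) * hZ
      + ((m ^ 3 - 1) * w * u + m * (m + w)) * h1
  have h1' : (m ^ 3 - 1) * (m ^ 2 * w ^ 2 + m + w) * u = m ^ 3 * w * (w - 1) := by
    refine sub_eq_zero.1 (cancel hu ?_)
    linear_combination (m ^ 3 - 1) * h1 - m * w * h2
  have h4' : (w - 1) * (m * w - (m ^ 3 - 1) * u ^ 2) =
      (m ^ 3 - 1) * (m ^ 2 + m * w + w ^ 2) := by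
    refine sub_eq_zero.1 (cancel (pow_ne_zero 2 hm) ?_)
    linear_combination (m ^ 3 - 1) * h4 - h1' - (m ^ 3 - 1) * u * h2
  have h3' : u ^ 2 * (m ^ 3 - 1) * (m ^ 2 + m * w + w ^ 2) =
      m ^ 2 * (w - 1) * (m ^ 2 * u ^ 2 + (m ^ 3 - 1) * w) := by
    refine sub_eq_zero.1 (cancel hm ?_)
    linear_combination u * (m ^ 3 - 1) * h3 - m ^ 3 * u * h2 + (m ^ 3 - 1) * h1'
  have h5 : (m ^ 3 - 1) * (u ^ 4 + m ^ 2 * w) + m * (m ^ 3 - w) * u ^ 2 = 0 := by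
    refine cancel hw1 ?_
    linear_combination -h3' - u ^ 2 * h4'
  refine cancel hM ?_
  linear_combination w * h5 + u ^ 2 * h4'

/-- the algebra of the closed column 4 of a K2-1 state. -/
theorem k2_c4_1 {t u S v : F} (hu : u ≠ 0) (hS : S ≠ 0) (hv : v ≠ 0) (hu1 : u - 1 ≠ 0)
    (hu' : u + 1 ≠ 0) (hv1 : v - 1 ≠ 0) (hv' : v + 1 ≠ 0) (hSu : S - u ≠ 0) (hSu' : S + u ≠ 0)
    (htv : t * v ≠ 1) (hR : t * (v + 1 - S) = S * (v + 1) - v) (hX : S ^ 3 * t = u ^ 6 * v ^ 2)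
    (hZ : S ^ 2 * (1 - t * v) = u * v * (S * (v + 1) - v - u))
    (hW : u ^ 3 * (S * v - u * (v + 1 - S)) = S * (v + 1) - v - u)
    (hD : u * (v + t) * (1 - t * S * v) + t * v * (1 + u) * (u - S) = 0) : False := by
  have key : (S ^ 2 - u ^ 2 * v ^ 2) * (S ^ 2 - u ^ 2) = 0 := by
    obtain ⟨w, hw⟩ : ∃ w, w * S = u ^ 2 := ⟨u ^ 2 / S, by field_simp⟩
    have hw0 : w ≠ 0 := by
      rintro rfl
      rw [zero_mul] at hw
      exact pow_ne_zero 2 hu hw.symm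
    obtain ⟨n, hn⟩ : ∃ n, n = w * v := ⟨_, rfl⟩
    have hn0 : n ≠ 0 := by rw [hn]; exact mul_ne_zero hw0 hv
    have ht : t = w * n ^ 2 := by
      refine sub_eq_zero.1 (cancel (pow_ne_zero 3 hS) ?_)
      rw [hn]
      linear_combination hX - v ^ 2 * (w ^ 2 * S ^ 2 + w * S * u ^ 2 + u ^ 4) * hw
    have htv3 : t * v = n ^ 3 := by
      rw [ht, hn]
      ring
    have hM : n ^ 3 - 1 ≠ 0 := by
      intro h
      apply htv
      rw [htv3]
      linear_combination h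
    have h1 : (n ^ 2 * w ^ 2 + n + w) * u ^ 2 = n * w * (n * w * (n + w) + 1) := by
      rw [ht] at hR
      rw [← hw, hn]
      rw [hn] at hR
      linear_combination (-w ^ 2) * hR
    have hZ' : n * (w * (S * (v + 1) - v - u)) = u ^ 3 * (1 - n ^ 3) := by
      rw [htv3] at hZ
      refine sub_eq_zero.1 (cancel hu ?_)
      rw [hn] at hZ ⊢
      linear_combination (-w ^ 2) * hZ
        + ((w * S + u ^ 2) * (1 - (w * v) ^ 3)) * hw
    have hW' : w * n * (S * v - u * (v + 1 - S)) = 1 - n ^ 3 := by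
      refine sub_eq_zero.1 (cancel (pow_ne_zero 3 hu) ?_)
      linear_combination w * n * hW + hZ'
    have hWW : n * w * u ^ 3 + n ^ 2 * u ^ 2 - n * w * (n + w) * u + w * (n ^ 3 - 1) = 0 := by
      rw [hn] at hW' ⊢
      linear_combination w * hW' - (w ^ 2 * v ^ 2 + w ^ 2 * v * u) * hw
    have hZZ : (n ^ 3 - 1) * w * u ^ 3 + n * (n + w) * u ^ 2 - n * w ^ 2 * u - n ^ 2 * w = 0 := by
      rw [hn] at hZ' ⊢
      linear_combination w * hZ' - (w ^ 2 * v ^ 2 + w ^ 2 * v) * hw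
    have hDD : (1 + n * w ^ 2) * (w - n ^ 3 * u ^ 2) + n ^ 2 * w * (1 + u) * (w - u) = 0 := by
      refine cancel (mul_ne_zero hu hn0) ?_
      rw [ht] at hD
      rw [← hw]
      rw [hn] at hD ⊢
      linear_combination w ^ 2 * hD + w ^ 4 * v ^ 3 * (1 + u) * hw
    have e := k2_c4_core hn0 hw0 hu hM h1 hWW hZZ hDD
    rw [← hw, hn] at e
    rw [← hw]
    refine cancel (pow_ne_zero 2 hw0) ?_
    linear_combination S ^ 2 * e
  rcases mul_eq_zero.1 key with h | h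
  · have h' : (S - u * v) * (S + u * v) = 0 := by linear_combination h
    rcases mul_eq_zero.1 h' with hs | hs
    · have e : S = u * v := by linear_combination hs
      subst e
      have ht : v * t = u ^ 3 := by
        refine sub_eq_zero.1 (cancel (mul_ne_zero (pow_ne_zero 3 hu) (pow_ne_zero 2 hv)) ?_)
        linear_combination hX
      have za : u * v ^ 2 + (u ^ 4 - 1) * v - u = 0 := by
        refine cancel (mul_ne_zero hu hv) ?_
        linear_combination -hZ - u ^ 2 * v ^ 2 * ht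
      have zb : u * (u ^ 2 + u + 1) * (v ^ 2 - 1) + (u ^ 4 - 1) * v = 0 := by
        refine cancel hu1 ?_
        linear_combination hW
      have hu4 : u ^ 4 - 1 = 0 := by
        refine cancel (mul_ne_zero (mul_ne_zero hv hu) hu') ?_
        linear_combination (u ^ 2 + u + 1) * za - zb
      have hvv : (v - 1) * (v + 1) = 0 := by
        refine cancel hu ?_
        linear_combination za - v * hu4
      exact mul_ne_zero hv1 hv' hvv
    · have e : S = -(u * v) := by linear_combination hs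
      subst e
      have ht : v * t = -u ^ 3 := by
        refine sub_eq_zero.1 (cancel (mul_ne_zero (pow_ne_zero 3 hu) (pow_ne_zero 2 hv)) ?_)
        linear_combination -hX
      have za : u * v ^ 2 + (u ^ 4 + 2 * u + 1) * v + u = 0 := by
        refine cancel (mul_ne_zero hu hv) ?_
        linear_combination hZ + u ^ 2 * v ^ 2 * ht
      have zb : u ^ 3 * v ^ 2 + (2 * u ^ 3 + u ^ 4 + 1) * v + u ^ 3 = 0 := by
        refine cancel hu ?_
        linear_combination za - hW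
      have hu4 : u ^ 4 + 1 = 0 := by
        refine cancel (mul_ne_zero (mul_ne_zero hv hu1) hu') ?_
        linear_combination u ^ 2 * za - zb
      have hvv : (v + 1) ^ 2 = 0 := by
        refine cancel hu ?_
        linear_combination za - v * hu4
      exact pow_ne_zero 2 hv' hvv
  · have h' : (S - u) * (S + u) = 0 := by linear_combination h
    exact mul_ne_zero hSu hSu' h'

/-- a K2-1 state has no degenerate column 4. -/
theorem K2Data.kap4_1 {g : GForm F m} {v : F} (D : K2Data g v) (hm : 5 ≤ m)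
    (h2 : g.t 2 ≠ g.s 2) (h3 : g.t 3 * g.s 1 = g.s 2 * g.t 1) (h : g.swap.kap 1 4 = 0) :
    False := by
  have hu := g.s_ne 1 (by omega)
  have hS := g.s_ne 2 (by omega)
  have ht := g.t_ne 1 (by omega)
  have hz := g.t_ne 4 (by omega)
  have hu1 : g.s 1 - 1 ≠ 0 := by
    rw [← g.s0]; exact sub_ne_zero.mpr (g.s_inj 0 1 (by omega) (by omega)).symm
  have hS1 : g.s 2 - 1 ≠ 0 := by
    rw [← g.s0]; exact sub_ne_zero.mpr (g.s_inj 0 2 (by omega) (by omega)).symm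
  have hSu : g.s 2 - g.s 1 ≠ 0 := sub_ne_zero.mpr (g.s_inj 1 2 (by omega) (by omega)).symm
  have hv := D.v0
  have hv' := D.v1
  have hST := D.hS
  have hR := D.R
  have hv1 : v - 1 ≠ 0 := by
    intro h
    apply h2
    rw [D.hS, sub_eq_zero.1 h, one_mul]
  have htv : g.t 1 * v ≠ 1 := by
    rw [← D.hs3, ← g.s0]
    exact (g.s_inj 0 3 (by omega) (by omega)).symm
  have h4 := D.closed (by omega) (k := 3) (by omega) (by omega) h
  obtain ⟨hZ, hX, hW⟩ := D.closed_row (by omega) (k := 2) (by omega) h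
  obtain ⟨r5, r4, r1, r0⟩ := D.closed_row2 (by omega) (k := 3) (by omega) h h4
  simp only [Nat.reduceAdd] at hZ hX hW r5 r4 r1 r0
  have e5 : v * g.s 1 * g.t 5 = g.s 2 ^ 2 := by
    refine sub_eq_zero.1 (cancel (mul_ne_zero (mul_ne_zero hu ht) hS) ?_)
    linear_combination -r5 - v * g.t 5 * g.s 1 ^ 2 * h3
  by_cases hA : g.s 1 = -1
  · have hY : v * (g.s 1 - g.s 2) * (g.s 1 ^ 3 - 1)
        + (g.s 1 - 1) * (g.s 1 * g.t 1 + v * g.s 2) ≠ 0 := by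
      intro hY
      rw [hY] at r4
      have h35 : g.t 5 - g.t 3 ≠ 0 :=
        sub_ne_zero.2 (g.t_inj 3 5 (by omega) (by omega)).symm
      refine mul_ne_zero (mul_ne_zero (mul_ne_zero (mul_ne_zero hS hu1) hv)
        (pow_ne_zero 3 hu)) h35 ?_
      rw [r4]
      ring
    have e1 : g.t 5 = -(g.s 2 * g.t 4) := by
      refine sub_eq_zero.1 (cancel hY ?_)
      rw [hA] at r1 ⊢
      linear_combination r1
    apply g.t_inj 2 4 (by omega) (by omega)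
    refine sub_eq_zero.1 (cancel (mul_ne_zero hv hS) ?_)
    rw [hA] at e5
    linear_combination (-g.s 2) * hST - e5 - v * e1
  · have hu' : g.s 1 + 1 ≠ 0 := fun h => hA (eq_neg_of_add_eq_zero_left h)
    have e4 : g.s 1 ^ 2 * g.t 4 = g.s 2 ^ 2 * g.t 1 := by
      linear_combination (-g.s 1) * r0 hA + g.s 2 * h3
    have hSu' : g.s 2 + g.s 1 ≠ 0 := by
      intro h'
      apply g.t_inj 1 4 (by omega) (by omega)
      have e : g.s 2 = -g.s 1 := by linear_combination h'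
      rw [e] at e4
      refine sub_eq_zero.1 (cancel (pow_ne_zero 2 hu) ?_)
      linear_combination -e4
    have hvt : (v + g.t 1) * (g.s 2 - 1) = g.t 1 * v - g.s 2 := by linear_combination -hR
    have g1 : g.s 1 ^ 4 * (v + g.t 1) = g.t 1 * (v * (g.s 1 - g.s 2) * (g.s 1 ^ 2 + g.s 1 + 1)
        + g.s 1 * g.t 1 + v * g.s 2) := by
      refine sub_eq_zero.1 (cancel (mul_ne_zero (mul_ne_zero hS1 (pow_ne_zero 2 hS)) hu1) ?_)
      linear_combination (-g.s 1 ^ 2) * r4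
        + g.s 2 * (g.s 1 - 1) * g.s 1 ^ 4 * e5 - g.s 2 * (g.s 1 - 1) * v * g.s 1 ^ 4 * h3
        + (g.s 1 - 1) * (v * (g.s 1 - g.s 2) * (g.s 1 ^ 2 + g.s 1 + 1)
        + g.s 1 * g.t 1 + v * g.s 2) * (g.s 2 - 1) * e4
        + (g.s 1 - 1) * g.s 2 ^ 2 * g.s 1 ^ 4 * hvt
    have g2 : v * (g.s 1 - g.s 2) * (1 + g.s 1 + g.s 1 ^ 2 + g.s 1 ^ 3 + g.s 1 ^ 4)
        + g.s 1 * g.t 1 + v * g.s 2 = g.s 1 ^ 4 * g.s 2 * v * (v + g.t 1) := by
      refine sub_eq_zero.1 (cancel (mul_ne_zero (mul_ne_zero hS1 (pow_ne_zero 2 hS)) hu1) ?_)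
      linear_combination (g.s 2 - 1) * g.s 1 * v * r1 + g.s 1 ^ 2 * v * g.s 2 * r4
        - (g.s 2 - 1) * (v * (g.s 1 - g.s 2) * (g.s 1 ^ 2 * g.s 1 ^ 3 - 1)
        + (g.s 1 - 1) * (g.s 1 * g.t 1 + v * g.s 2)) * e5
        - g.s 1 ^ 4 * v * g.s 2 ^ 2 * (g.s 1 - 1) * e5
        + g.s 1 ^ 4 * v ^ 2 * g.s 2 ^ 2 * (g.s 1 - 1) * h3
        - (g.s 1 - 1) * g.s 2 ^ 3 * g.s 1 ^ 4 * v * hvt
    have hD : g.s 1 * (v + g.t 1) * (1 - g.t 1 * g.s 2 * v)
        + g.t 1 * v * (1 + g.s 1) * (g.s 1 - g.s 2) = 0 := by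
      refine cancel (pow_ne_zero 3 hu) ?_
      linear_combination g1 + g.t 1 * g2
    refine k2_c4_1 hu hS hv hu1 hu' hv1 hv' hSu hSu' htv hR ?_ ?_ hW hD
    · refine sub_eq_zero.1 (cancel hS ?_)
      linear_combination g.s 1 ^ 3 * v * hX - v * g.s 1 * g.t 5 * e4
        - g.s 2 ^ 2 * g.t 1 * e5
    · linear_combination g.s 1 * v * hZ - e5 + v * e4

/-- the algebra of the closed column 4 of a K2-0 state (with the cell relation `f2`). -/
theorem k2_c4_0 {t S v : F} (hS : S ≠ 0) (hv : v ≠ 0) (hv1 : v - 1 ≠ 0) (hv' : v + 1 ≠ 0)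
    (hSv : S ≠ v) (hR : t * (v + 1 - S) = S * (v + 1) - v) (hX : S ^ 3 * t * v ^ 4 = 1)
    (hW : S * (v ^ 4 + 2 * v ^ 3 + 2 * v ^ 2 + v + 1) = v ^ 4 + v ^ 3 + 2 * v ^ 2 + 2 * v + 1)
    (f2 : S ^ 3 * (1 + v ^ 2) - S ^ 2 + v ^ 3 * (S - 1) - v = 0) : False := by
  have hN : v ^ 4 + 2 * v ^ 3 + 2 * v ^ 2 + v + 1 ≠ 0 := by
    intro h
    refine mul_ne_zero (mul_ne_zero hv hv1) hv' ?_
    linear_combination (1 - S) * h + hW
  have hphi : v ^ 2 + v + 1 ≠ 0 := by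
    intro h
    apply hSv
    linear_combination hW - (S * (v ^ 2 + v) - (v ^ 2 + 1)) * h
  have hR1 : S ^ 3 * v ^ 4 * (S * (v + 1) - v) = v + 1 - S := by
    linear_combination (-(S ^ 3 * v ^ 4)) * hR + (v + 1 - S) * hX
  have k1 : (v ^ 4 + v ^ 3 + 2 * v ^ 2 + 2 * v + 1) ^ 3 * v ^ 4
      * ((v ^ 4 + v ^ 3 + 2 * v ^ 2 + 2 * v + 1) * (v + 1)
        - v * (v ^ 4 + 2 * v ^ 3 + 2 * v ^ 2 + v + 1))
      - (v ^ 4 + 2 * v ^ 3 + 2 * v ^ 2 + v + 1) ^ 3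
        * ((v + 1) * (v ^ 4 + 2 * v ^ 3 + 2 * v ^ 2 + v + 1)
          - (v ^ 4 + v ^ 3 + 2 * v ^ 2 + 2 * v + 1)) = 0 := by
    rw [← hW]
    linear_combination (v ^ 4 + 2 * v ^ 3 + 2 * v ^ 2 + v + 1) ^ 4 * hR1
  have k2 : (v ^ 4 + v ^ 3 + 2 * v ^ 2 + 2 * v + 1) ^ 3 * (1 + v ^ 2)
      - (v ^ 4 + v ^ 3 + 2 * v ^ 2 + 2 * v + 1) ^ 2 * (v ^ 4 + 2 * v ^ 3 + 2 * v ^ 2 + v + 1)
      + v ^ 3 * ((v ^ 4 + v ^ 3 + 2 * v ^ 2 + 2 * v + 1)
        - (v ^ 4 + 2 * v ^ 3 + 2 * v ^ 2 + v + 1)) * (v ^ 4 + 2 * v ^ 3 + 2 * v ^ 2 + v + 1) ^ 2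
      - v * (v ^ 4 + 2 * v ^ 3 + 2 * v ^ 2 + v + 1) ^ 3 = 0 := by
    rw [← hW]
    linear_combination (v ^ 4 + 2 * v ^ 3 + 2 * v ^ 2 + v + 1) ^ 3 * f2
  have e14 : v ^ 14 + 6 * v ^ 13 + 19 * v ^ 12 + 46 * v ^ 11 + 84 * v ^ 10 + 123 * v ^ 9
      + 153 * v ^ 8 + 165 * v ^ 7 + 153 * v ^ 6 + 123 * v ^ 5 + 84 * v ^ 4 + 46 * v ^ 3
      + 19 * v ^ 2 + 6 * v + 1 = 0 := by
    refine cancel (mul_ne_zero (mul_ne_zero (pow_ne_zero 2 hv) hv1) hphi) ?_
    linear_combination k1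
  have e8 : 2 * v ^ 8 + 4 * v ^ 7 + 6 * v ^ 6 + 8 * v ^ 5 + 9 * v ^ 4 + 8 * v ^ 3 + 6 * v ^ 2
      + 4 * v + 2 = 0 := by
    refine cancel (mul_ne_zero (mul_ne_zero (pow_ne_zero 2 hv) hv1) hphi) ?_
    linear_combination -k2
  obtain ⟨y, hy⟩ : ∃ y, v * y = v ^ 2 + 1 := ⟨(v ^ 2 + 1) / v, by field_simp⟩
  have e14' : y ^ 7 + 6 * y ^ 6 + 12 * y ^ 5 + 10 * y ^ 4 + 3 * y ^ 3 - 7 * y ^ 2 - 11 * y - 1 = 0 := by
    refine cancel (pow_ne_zero 7 hv) ?_
    have q : (v * y) ^ 7 + 6 * v * (v * y) ^ 6 + 12 * v ^ 2 * (v * y) ^ 5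
        + 10 * v ^ 3 * (v * y) ^ 4 + 3 * v ^ 4 * (v * y) ^ 3 - 7 * v ^ 5 * (v * y) ^ 2
        - 11 * v ^ 6 * (v * y) - v ^ 7 = 0 := by
      rw [hy]
      linear_combination e14
    linear_combination q
  have e8' : 2 * y ^ 4 + 4 * y ^ 3 - 2 * y ^ 2 - 4 * y + 1 = 0 := by
    refine cancel (pow_ne_zero 4 hv) ?_
    have q : 2 * (v * y) ^ 4 + 4 * v * (v * y) ^ 3 - 2 * v ^ 2 * (v * y) ^ 2
        - 4 * v ^ 3 * (v * y) + v ^ 4 = 0 := by
      rw [hy]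
      linear_combination e8
    linear_combination q
  have h2 : (y - 2) ^ 2 = 0 := by
    linear_combination (-8 + 32 * y - 28 * y ^ 3) * e14'
      + (-4 - 76 * y - 15 * y ^ 2 + 24 * y ^ 3 + 54 * y ^ 4 + 56 * y ^ 5 + 14 * y ^ 6) * e8'
  have h3 : y - 2 = 0 := pow_eq_zero_iff (two_ne_zero) |>.1 h2
  refine pow_ne_zero 2 hv1 ?_
  linear_combination v * h3 - hy

/-- a K2-0 state with the cell relation `f2` has no degenerate column 4. -/
theorem K2Data.kap4_0 {g : GForm F m} {v : F} (D : K2Data g v) (hm : 5 ≤ m)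
    (h2 : g.t 2 ≠ g.s 2) (huv : g.s 1 * v = 1) (h3 : g.t 3 = g.s 2 ^ 2)
    (f2 : g.s 2 ^ 3 * (1 + v ^ 2) - g.s 2 ^ 2 + v ^ 3 * (g.s 2 - 1) - v = 0)
    (h : g.swap.kap 1 4 = 0) : False := by
  have hu := g.s_ne 1 (by omega)
  have hS := g.s_ne 2 (by omega)
  have hv := D.v0
  have hv' := D.v1
  have hST := D.hS
  have hR := D.R
  have hv1 : v - 1 ≠ 0 := by
    intro h
    apply h2
    rw [D.hS, sub_eq_zero.1 h, one_mul]
  have hSv : g.s 2 ≠ v := by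
    intro h
    apply g.t_inj 0 2 (by omega) (by omega)
    rw [g.t0]
    refine sub_eq_zero.1 (cancel hv ?_)
    linear_combination hST - h
  have hA : g.s 1 ≠ -1 := by
    intro h
    apply hv'
    rw [h] at huv
    linear_combination -huv
  have h4 := D.closed (by omega) (k := 3) (by omega) (by omega) h
  obtain ⟨-, hX, hW⟩ := D.closed_row (by omega) (k := 2) (by omega) h
  obtain ⟨r5, -, -, r0⟩ := D.closed_row2 (by omega) (k := 3) (by omega) h h4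
  simp only [Nat.reduceAdd] at hX hW r5 r0
  have e4 : g.t 4 = g.s 2 ^ 3 * v := by
    linear_combination (-v) * r0 hA - g.t 4 * huv + v * g.s 2 * h3
  have e5 : g.t 5 = g.t 1 * g.s 2 * v := by
    refine sub_eq_zero.1 (cancel (mul_ne_zero (pow_ne_zero 2 hS) (pow_ne_zero 2 hu)) ?_)
    linear_combination (-1 : F) * r5 - v * g.t 5 * g.s 1 ^ 3 * h3
      - g.s 2 ^ 2 * g.s 1 ^ 2 * g.t 5 * huv - g.s 1 * g.t 1 * g.s 2 ^ 3 * huv
  refine k2_c4_0 (t := g.t 1) hS hv hv1 hv' hSv hR ?_ ?_ f2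
  · rw [e4, e5] at hX
    have e : g.s 2 ^ 3 * g.t 1 * v = g.s 1 ^ 3 := by
      refine sub_eq_zero.1 (cancel (mul_ne_zero hS hv) ?_)
      linear_combination hX
    linear_combination v ^ 3 * e + ((g.s 1 * v) ^ 2 + g.s 1 * v + 1) * huv
  · refine sub_eq_zero.1 (cancel hv1 ?_)
    linear_combination (-v ^ 4) * hW
      + (v * (g.s 2 * v - g.s 1 * (v + 1 - g.s 2)) * ((g.s 1 * v) ^ 2 + g.s 1 * v + 1)
        - (v + 1 - g.s 2) + v ^ 3) * huv

end Pool.Agent.Helper27.IP
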