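import Pool.Agent.Helper36.IP.S4
import Pool.Agent.Helper27.IP.Type0

/-!
TH-P, N branch, state (10)/(10): the closed case `s_4 = t_4 = t_2 s_2`.
-/

namespace Pool.Agent.Helper27.IP

open Pool.Agent.Helper54.IP Pool.Agent.Helper36.IP

variable {F : Type*} [Field F]

/-- `s_1 ≠ -1` on the surface. -/
theorem up_ne {m : ℕ} (g : GForm F m) (hm : 2 ≤ m)
    (hz1 : g.t 2 * g.s 2 ≠ 1)
    (hx : (1 - g.lam' 0) * ((g.t 1 + g.s 1) * (g.t 2 * g.s 2 - 1)) =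
      (g.t 1 - 1) * (g.t 1 * g.s 1 + g.t 1 + g.s 1))
    (hy : g.mu' 0 * (g.t 1 * ((g.t 1 + g.s 1) * (g.t 2 * g.s 2 - 1))) =
      (g.t 1 - 1) * (g.t 1 + g.s 1 + 1) * (g.t 2 * g.s 2)) : g.s 1 + 1 ≠ 0 := by
  intro h
  have ht0 := g.t_ne 1 (by omega)
  have ht1 : g.t 1 - 1 ≠ 0 := by
    have := g.t_inj 0 1 (by omega) (by omega)
    rw [g.t0] at this
    exact sub_ne_zero.2 this.symm
  have hz1' : g.t 2 * g.s 2 - 1 ≠ 0 := sub_ne_zero.2 hz1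
  have hlm0 := g.lm'_ne 0 (by omega)
  have hs : g.s 1 = -1 := by linear_combination h
  apply hlm0
  rw [hs] at hx hy
  have e1 : (1 - g.lam' 0) * (g.t 2 * g.s 2 - 1) = -1 := by
    apply mul_left_cancel₀ ht1
    linear_combination hx
  have e2 : g.mu' 0 * (g.t 2 * g.s 2 - 1) = g.t 2 * g.s 2 := by
    apply mul_left_cancel₀ (mul_ne_zero ht1 ht0)
    linear_combination hy
  apply mul_right_cancel₀ hz1'
  linear_combination (-1 : F) * e1 - e2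

/-- the column `z = t_2 s_2` is closed in the rows 1 and 2. -/
theorem z_closed {m : ℕ} (g : GForm F m) (hm : 4 ≤ m) (hD : g.G 1 1 ≠ g.H 1 1)
    (htu : g.t 1 ≠ g.s 1) (he : g.t 1 + g.s 1 ≠ 0)
    (hz1 : g.t 2 * g.s 2 ≠ 1)
    (hx : (1 - g.lam' 0) * ((g.t 1 + g.s 1) * (g.t 2 * g.s 2 - 1)) =
      (g.t 1 - 1) * (g.t 1 * g.s 1 + g.t 1 + g.s 1))
    (hy : g.mu' 0 * (g.t 1 * ((g.t 1 + g.s 1) * (g.t 2 * g.s 2 - 1))) =
      (g.t 1 - 1) * (g.t 1 + g.s 1 + 1) * (g.t 2 * g.s 2))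
    (hF1 : g.t 1 ^ 2 * g.t 2 * (g.t 2 * g.s 2) + g.t 1 * g.t 2 * (g.t 2 * g.s 2)
      - g.t 1 ^ 2 * (g.t 2 * g.s 2) - g.t 1 ^ 2 * g.t 2 * g.s 1
      + g.t 1 * g.s 1 * (g.t 2 * g.s 2) - g.t 2 * g.s 1 * (g.t 2 * g.s 2)
      - (g.t 2 * g.s 2) ^ 2 + g.s 1 * (g.t 2 * g.s 2) = 0)
    (hF2 : g.s 1 ^ 2 * (g.t 2 * g.s 2) + g.s 1 * (g.t 2 * g.s 2) - g.s 1 ^ 2 * g.t 1
      - g.t 1 * (g.t 2 * g.s 2)
      + g.t 2 * (g.t 1 + g.t 1 * g.s 1 - g.s 1 ^ 2 - g.t 2 * g.s 2) = 0)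
    (hw : g.s 4 = g.t 2 * g.s 2) : g.kap 1 4 = 0 ∧ g.kap 2 4 = 0 := by
  have ht0 := g.t_ne 1 (by omega)
  have hT0 := g.t_ne 2 (by omega)
  have hu0 := g.s_ne 1 (by omega)
  have hs2 := g.s_ne 2 (by omega)
  have ht1 : g.t 1 - 1 ≠ 0 := by
    have := g.t_inj 0 1 (by omega) (by omega)
    rw [g.t0] at this
    exact sub_ne_zero.2 this.symm
  have hup := up_ne g (by omega) hz1 hx hy
  have ca := al_eq g (by omega)
  have cd := de_eq g (by omega)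
  have r1G := g.row1G (k := 1) (by omega) (by omega)
  have r1H := g.row1H (k := 1) (by omega) (by omega)
  have G14 := G1_eq g (by omega) (k := 4) (by omega)
  have G24 := G2_eq g (by omega) (k := 4) (by omega)
  have H14 := H1_eq g (by omega) (k := 4) (by omega)
  have H24 := H2_eq g (by omega) (k := 4) (by omega)
  obtain ⟨z, hz⟩ : ∃ z, z = g.t 2 * g.s 2 := ⟨_, rfl⟩
  rw [← hz] at hz1 hx hy hF1 hF2 hw
  have hz0 : z ≠ 0 := by rw [hz]; exact mul_ne_zero hT0 hs2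
  have hz1' : z - 1 ≠ 0 := sub_ne_zero.2 hz1
  have htu' : g.t 1 - g.s 1 ≠ 0 := sub_ne_zero.2 htu
  obtain ⟨x, hxd⟩ : ∃ x, x = 1 - g.lam' 0 := ⟨_, rfl⟩
  obtain ⟨al, hald⟩ : ∃ al, al = 1 - g.lam' 1 := ⟨_, rfl⟩
  obtain ⟨y, hyd⟩ : ∃ y, y = g.mu' 0 := ⟨_, rfl⟩
  obtain ⟨de, hded⟩ : ∃ de, de = g.mu' 1 := ⟨_, rfl⟩
  have hL0 : g.lam' 0 = 1 - x := by rw [hxd]; ring
  have hL1 : g.lam' 1 = 1 - al := by rw [hald]; ring
  rw [← hxd] at hx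
  rw [← hyd] at hy
  have hxe : x = (g.t 1 - 1) * (g.t 1 * g.s 1 + g.t 1 + g.s 1) /
      ((g.t 1 + g.s 1) * (z - 1)) := by
    rw [eq_div_iff (mul_ne_zero he hz1')]
    exact hx
  have hye : y = (g.t 1 - 1) * (g.t 1 + g.s 1 + 1) * z /
      (g.t 1 * ((g.t 1 + g.s 1) * (z - 1))) := by
    rw [eq_div_iff (mul_ne_zero ht0 (mul_ne_zero he hz1'))]
    exact hy
  have huxy : g.s 1 * x + y ≠ 0 := by
    intro h
    apply hD
    apply mul_left_cancel₀ hu0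
    rw [r1G, r1H, hL0, ← hyd]
    linear_combination (g.s 1 - 1) * h
  obtain ⟨M, hMd⟩ : ∃ M, M = g.t 1 * g.s 1 * (g.t 1 * g.s 1 + g.t 1 + g.s 1)
      + z * (g.t 1 + g.s 1 + 1) := ⟨_, rfl⟩
  have hM : M ≠ 0 := by
    intro h
    apply huxy
    apply mul_left_cancel₀ (mul_ne_zero ht0 (mul_ne_zero he hz1'))
    rw [hMd] at h
    linear_combination g.t 1 * g.s 1 * hx + hy + (g.t 1 - 1) * h
  rw [hL1, hL0] at ca
  rw [← hyd] at ca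
  rw [← hded, hL0, ← hyd] at cd
  have hal := al_form ht0 ht1 hz1' he rfl hxe hye hM hMd (u := g.s 1) (T := g.t 2) (al := al)
    (by linear_combination ca)
  have hde := de_form ht0 hT0 ht1 hz1' he rfl hxe hye hM hMd (u := g.s 1) (de := de)
    (by linear_combination cd)
  obtain ⟨gg, hgg⟩ : ∃ gg, gg = ((g.t 1 + g.s 1) * z - g.t 1 ^ 2 * (g.s 1 + 1)) /
      (g.t 1 ^ 2 * (g.s 1 + 1) * (z - 1)) := ⟨_, rfl⟩
  obtain ⟨hh, hhh⟩ : ∃ hh, hh = ((g.t 1 - 1) * (g.t 1 + g.s 1 + 1)) /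
      ((g.s 1 + 1) * (z - 1)) := ⟨_, rfl⟩
  have R1 := factR1 hu0 ht0 hT0 ht1 hz1' hup htu' hM hMd hal hde hF1 hF2
  have R2 := factR2 hu0 ht0 hT0 ht1 hz1' hup htu' hM hMd hal hgg hhh hF1 hF2
  have R3 := factR3 hu0 ht0 hT0 ht1 hz1' hup htu' hM hMd hde hgg hhh hF1 hF2
  obtain ⟨z1a, z1b, z1c, z1d⟩ := row1Z ht0 hz0 hz1' hup he rfl hxe hye hgg hhh
  obtain ⟨z2a, z2b, -, -⟩ := row2Z ht0 hT0 hz0 z1a z1b z1c z1d R1 R2 R3
  rw [← hxd, hw] at G14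
  rw [← hyd, hw] at H14
  rw [← hxd, ← hyd, ← hald, hw] at G24
  rw [← hxd, ← hyd, ← hded, hw] at H24
  refine ⟨?_, ?_⟩
  · rw [GForm.kap, G14, H14, z1a, z1b]
    field_simp
    ring
  · rw [GForm.kap, G24, H24, z2a, z2b]
    field_simp
    ring

/-- the closed case of the state (10)/(10) of the N branch is impossible. -/
theorem n10_closed_dead {m : ℕ} (g : GForm F m) (hm : 5 ≤ m) (hD : g.G 1 1 ≠ g.H 1 1)
    (htu : g.t 1 ≠ g.s 1) (he : g.t 1 + g.s 1 ≠ 0)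
    (hz1 : g.t 2 * g.s 2 ≠ 1)
    (h3 : g.s 3 * g.t 1 = g.t 2 * g.s 2) (h3' : g.t 3 * g.s 1 = g.t 2 * g.s 2)
    (hx : (1 - g.lam' 0) * ((g.t 1 + g.s 1) * (g.t 2 * g.s 2 - 1)) =
      (g.t 1 - 1) * (g.t 1 * g.s 1 + g.t 1 + g.s 1))
    (hy : g.mu' 0 * (g.t 1 * ((g.t 1 + g.s 1) * (g.t 2 * g.s 2 - 1))) =
      (g.t 1 - 1) * (g.t 1 + g.s 1 + 1) * (g.t 2 * g.s 2))
    (hF1 : g.t 1 ^ 2 * g.t 2 * (g.t 2 * g.s 2) + g.t 1 * g.t 2 * (g.t 2 * g.s 2)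
      - g.t 1 ^ 2 * (g.t 2 * g.s 2) - g.t 1 ^ 2 * g.t 2 * g.s 1
      + g.t 1 * g.s 1 * (g.t 2 * g.s 2) - g.t 2 * g.s 1 * (g.t 2 * g.s 2)
      - (g.t 2 * g.s 2) ^ 2 + g.s 1 * (g.t 2 * g.s 2) = 0)
    (hF2 : g.s 1 ^ 2 * (g.t 2 * g.s 2) + g.s 1 * (g.t 2 * g.s 2) - g.s 1 ^ 2 * g.t 1
      - g.t 1 * (g.t 2 * g.s 2)
      + g.t 2 * (g.t 1 + g.t 1 * g.s 1 - g.s 1 ^ 2 - g.t 2 * g.s 2) = 0)
    (h4 : g.s 4 = g.t 2 * g.s 2) (h4' : g.t 4 = g.t 2 * g.s 2) : False := by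
  have ht0 := g.t_ne 1 (by omega)
  have hT0 := g.t_ne 2 (by omega)
  have hu0 := g.s_ne 1 (by omega)
  have hs2 := g.s_ne 2 (by omega)
  have ht1 : g.t 1 - 1 ≠ 0 := by
    have := g.t_inj 0 1 (by omega) (by omega)
    rw [g.t0] at this
    exact sub_ne_zero.2 this.symm
  have hz0 : g.t 2 * g.s 2 ≠ 0 := mul_ne_zero hT0 hs2
  have hz1' : g.t 2 * g.s 2 - 1 ≠ 0 := sub_ne_zero.2 hz1
  have htu' : g.t 1 - g.s 1 ≠ 0 := sub_ne_zero.2 htu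
  have h1 := g.row1G (k := 1) (by omega) (by omega)
  have h2 := g.row1H (k := 1) (by omega) (by omega)
  have k1 := g.swap.row1G (k := 1) (by omega) (by omega)
  have k2 := g.swap.row1H (k := 1) (by omega) (by omega)
  simp only [GForm.swap_G, GForm.swap_H, GForm.swap_s, GForm.swap_lam', GForm.swap_mu'] at k1 k2
  -- the swapped hypotheses
  have he' : g.swap.t 1 + g.swap.s 1 ≠ 0 := by
    simp only [GForm.swap_t, GForm.swap_s]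
    rwa [add_comm]
  have hz1s : g.swap.t 2 * g.swap.s 2 ≠ 1 := by
    simp only [GForm.swap_t, GForm.swap_s]
    rwa [mul_comm]
  have hx' : (1 - g.swap.lam' 0) * ((g.swap.t 1 + g.swap.s 1) * (g.swap.t 2 * g.swap.s 2 - 1)) =
      (g.swap.t 1 - 1) * (g.swap.t 1 * g.swap.s 1 + g.swap.t 1 + g.swap.s 1) := by
    simp only [GForm.swap_t, GForm.swap_s, GForm.swap_lam']
    apply mul_left_cancel₀ ht1
    linear_combination ((g.t 1 + g.s 1) * (g.t 2 * g.s 2 - 1)) * (h1 - k1)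
      + (g.s 1 - 1) * hx
  have hy' : g.swap.mu' 0 *
      (g.swap.t 1 * ((g.swap.t 1 + g.swap.s 1) * (g.swap.t 2 * g.swap.s 2 - 1))) =
      (g.swap.t 1 - 1) * (g.swap.t 1 + g.swap.s 1 + 1) * (g.swap.t 2 * g.swap.s 2) := by
    simp only [GForm.swap_t, GForm.swap_s, GForm.swap_mu']
    apply mul_left_cancel₀ ht1
    linear_combination ((g.t 1 + g.s 1) * (g.t 2 * g.s 2 - 1)) * (g.s 1 * k2 - g.t 1 * h2)
      + (g.s 1 - 1) * hy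
  obtain ⟨c1, c2⟩ := z_closed g (by omega) hD htu he hz1 hx hy hF1 hF2 h4
  obtain ⟨d1, d2⟩ := z_closed g.swap (by omega) hD htu.symm he' hz1s hx' hy'
    (by
      simp only [GForm.swap_t, GForm.swap_s]
      linear_combination g.s 2 * hF2)
    (by
      simp only [GForm.swap_t, GForm.swap_s]
      apply mul_left_cancel₀ hT0
      linear_combination hF1)
    (by
      simp only [GForm.swap_t, GForm.swap_s]
      rw [h4', mul_comm])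
  have hu1 := up_ne g (by omega) hz1 hx hy
  have ht2 := up_ne g.swap (by omega) hz1s hx' hy'
  simp only [GForm.swap_s] at ht2
  have ha : g.t 1 ≠ -1 := fun h => ht2 (by rw [h]; ring)
  have hb : g.swap.t 1 ≠ -1 := by
    simp only [GForm.swap_t]
    exact fun h => hu1 (by rw [h]; ring)
  have e1 := closed_type0 g (k := 3) (by omega) c1 c2 ha
  have e2 := closed_type0 g.swap (k := 3) (by omega) d1 d2 hb
  simp only [GForm.swap_t, GForm.swap_s, Nat.reduceAdd] at e1 e2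
  -- t_2 = t_1 ^ 2, s_2 = s_1 ^ 2
  have f1 : g.t 2 = g.t 1 ^ 2 := by
    apply mul_left_cancel₀ hz0
    linear_combination g.t 1 * e1 - g.t 2 * h3 + g.t 1 ^ 2 * h4
  have f2 : g.s 2 = g.s 1 ^ 2 := by
    apply mul_left_cancel₀ hz0
    linear_combination g.s 1 * e2 - g.s 2 * h3' + g.s 1 ^ 2 * h4'
  rw [f1, f2] at hF1 hF2
  have hF1' : g.t 1 ^ 4 * g.s 1 + g.t 1 ^ 3 * g.s 1 - g.t 1 ^ 2 * g.s 1 - g.t 1 ^ 2
      + g.t 1 * g.s 1 ^ 2 - g.t 1 ^ 2 * g.s 1 ^ 2 - g.t 1 ^ 2 * g.s 1 ^ 3 + g.s 1 ^ 2 = 0 := by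
    apply mul_left_cancel₀ (mul_ne_zero (pow_ne_zero 2 ht0) hu0)
    linear_combination hF1
  have hF2' : g.t 1 * g.s 1 ^ 4 + g.t 1 * g.s 1 ^ 3 - g.s 1 ^ 2 - g.t 1 ^ 2 * g.s 1 ^ 2
      + g.t 1 ^ 2 + g.t 1 ^ 2 * g.s 1 - g.t 1 * g.s 1 ^ 2 - g.t 1 ^ 3 * g.s 1 ^ 2 = 0 := by
    apply mul_left_cancel₀ ht0
    linear_combination hF2
  have hsum : g.t 1 + g.s 1 + 1 = 0 := by
    apply mul_left_cancel₀ (mul_ne_zero (mul_ne_zero ht0 hu0) (pow_ne_zero 2 htu'))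
    linear_combination hF1' + hF2'
  have hy0 := g.mu'_ne 0 (by omega)
  apply mul_ne_zero hy0 (mul_ne_zero ht0 (mul_ne_zero he hz1'))
  rw [hy, hsum]
  ring

end Pool.Agent.Helper27.IP
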