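import Pool.Agent.Helper76.IP.K2Base
import Pool.Agent.Helper76.IP.L12
import Pool.Agent.Helper82.IP.NDeadOf
import Pool.Agent.Helper27.IP.NKap3

/-!
TH-P, N branch, `kap_1^(2) = 0` (K2): the dual strip (paper proof of helper85).

`t = t_1`, `T = t_2`, `u = s_1`, `S = s_2 = v T`, `td = v + 1 - S`, `tn = S (v + 1) - v = t td`.
-/

namespace Pool.Agent.Helper27.IP

open Pool.Agent.Helper54.IP Pool.Agent.Helper36.IP

variable {F : Type*} [Field F] {m : ℕ}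

private theorem cancel {a b : F} (ha : a ≠ 0) (h : a * b = 0) : b = 0 :=
  (mul_eq_zero.1 h).resolve_left ha

/-- the data of a K2 state. -/
structure K2Data (g : GForm F m) (v : F) : Prop where
  v0 : v ≠ 0
  v1 : v + 1 ≠ 0
  hS : g.s 2 = v * g.t 2
  hs3 : g.s 3 = g.t 1 * v
  R : g.t 1 * (v + 1 - g.s 2) = g.s 2 * (v + 1) - v
  hx : (1 - g.lam 0) * ((g.s 2 - 1) * (v + 1)) = g.s 1 - 1
  hy : g.s 1 * g.mu 0 * ((g.s 2 - 1) * (v + 1)) = g.s 2 * v * (g.s 1 - 1)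
  hal : (1 - g.lam 1) * (g.s 1 - 1) * (g.s 1 * g.t 1 + v * g.s 2) = v * (g.s 1 - g.s 2)
  hde : v * g.mu 1 = g.s 1 * g.t 1 * (1 - g.lam 1)
  hw : g.s 1 * g.t 1 + v * g.s 2 ≠ 0
  hvt : v + g.t 1 ≠ 0

theorem k2_data (g : GForm F m) (hm : 3 ≤ m) (hD : g.G 1 1 ≠ g.H 1 1)
    (hn1 : (g.s 2 * g.t 1 - g.t 2) * ((1 - g.lam' 0) - g.t 1 * g.mu' 0 + g.t 1 - 1) =
        (g.s 2 - 1) * (g.t 1 * g.t 2 * (1 - g.lam' 0) - g.t 1 * g.mu' 0))
    (hn2 : (g.t 2 * g.s 1 - g.s 2) * ((1 - g.lam' 0) - g.t 1 * g.mu' 0 + g.t 1 - 1) =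
        (g.t 2 - 1) * (g.s 1 * g.s 2 * (1 - g.lam' 0) - g.t 1 * g.mu' 0))
    (hk : g.kap 1 2 = 0) : ∃ v : F, K2Data g v := by
  obtain ⟨v, hv0, hv1, hS, hs3, R, hx1, hy, h1x, h1y, hp, hk', e1, hG13, hw, hal, hde⟩ :=
    Pool.Agent.Helper76.IP.k2_base g hm hD hn1 hn2 hk
  have ht := g.t_ne 1 (by omega)
  have hT := g.t_ne 2 (by omega)
  have hs1 := g.s_ne 1 (by omega)
  have ht1 : g.t 1 - 1 ≠ 0 := by
    rw [← g.t0]; exact sub_ne_zero.mpr (g.t_inj 0 1 (by omega) (by omega)).symm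
  have hu1 : g.s 1 - 1 ≠ 0 := by
    rw [← g.s0]; exact sub_ne_zero.mpr (g.s_inj 0 1 (by omega) (by omega)).symm
  have hn1s := Pool.Agent.Helper82.IP.hn_swap g (by omega) hn2
  have ty := type1_of g.swap (by omega) hD hn1s
  have ca := al_eq g.swap (by omega)
  simp only [GForm.swap_s, GForm.swap_t, GForm.swap_lam', GForm.swap_mu'] at ty ca
  obtain ⟨X, Y, hX, hY, hX', hY'⟩ := Pool.Agent.Helper82.IP.xy_exists g (by omega)
  have hNX : X * ((g.s 2 - 1) * (v + 1)) = 1 := by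
    refine sub_eq_zero.1 (cancel ht1 ?_)
    linear_combination hx1 - (g.s 2 - 1) * (v + 1) * hX
  have hXY : Y = g.s 2 * v * X := by
    refine sub_eq_zero.1 (cancel ht1 ?_)
    linear_combination hy - hY + g.s 2 * v * hX
  have hx : (1 - g.lam 0) * ((g.s 2 - 1) * (v + 1)) = g.s 1 - 1 := by
    rw [hX']
    linear_combination (g.s 1 - 1) * hNX
  have hy' : g.s 1 * g.mu 0 * ((g.s 2 - 1) * (v + 1)) = g.s 2 * v * (g.s 1 - 1) := by
    rw [hY', hXY]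
    linear_combination (g.s 1 - 1) * g.s 2 * v * hNX
  refine ⟨v, hv0, hv1, hS, hs3, R, hx, hy', ?_, ?_, hw, ?_⟩
  · refine sub_eq_zero.1 (cancel hu1 ?_)
    linear_combination (g.s 1 * ((g.s 2 - 1) * (v + 1))) * ca
      + (g.s 1 * (g.s 2 - 1) - g.s 1 * (1 - g.lam 1) * (g.s 1 - 1) * g.t 1) * hx
      + ((g.s 1 - 1) - (1 - g.lam 1) * (g.s 1 - 1)) * hy'
  · refine sub_eq_zero.1 (cancel hT ?_)
    linear_combination -ty + g.mu 1 * hS * (-1)
  · intro h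
    rw [h] at hp
    have hG : g.G 1 2 = 0 := by
      rcases mul_eq_zero.1 hp with h' | h'
      · exact h'
      · exact (hv1 h').elim
    rw [hG] at hk'
    exact g.ne_zero (by omega) (by omega)
      ⟨hG, (mul_eq_zero.1 hk'.symm).resolve_left ht⟩

section data

variable {g : GForm F m} {v : F} (D : K2Data g v)
include D

theorem K2Data.N_ne (hm : 1 ≤ m) : (g.s 2 - 1) * (v + 1) ≠ 0 := by
  intro h
  have hu1 : g.s 1 - 1 ≠ 0 := by
    rw [← g.s0]; exact sub_ne_zero.mpr (g.s_inj 0 1 (by omega) (by omega)).symm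
  have := D.hx
  rw [h, mul_zero] at this
  exact hu1 this.symm

theorem K2Data.G1 (hm : 1 ≤ m) {j : ℕ} (hj : j ≤ m) :
    (g.s 2 - 1) * (v + 1) * g.G j 1 =
      (g.s 2 - 1) * (v + 1) + (g.s 1 - 1) * (g.t j - 1) := by
  have h1 := g.swap.row1G (k := j) hm hj
  simp only [GForm.swap_G, GForm.swap_lam', GForm.swap_s] at h1
  linear_combination (g.s 2 - 1) * (v + 1) * h1 + (g.t j - 1) * D.hx

theorem K2Data.H1 (hm : 1 ≤ m) {j : ℕ} (hj : j ≤ m) :
    g.s 1 * ((g.s 2 - 1) * (v + 1)) * (g.t j * g.H j 1) =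
      g.s 1 * ((g.s 2 - 1) * (v + 1)) * g.t j - g.s 2 * v * (g.s 1 - 1) * (g.t j - 1) := by
  have h1 := g.swap.row1H (k := j) hm hj
  simp only [GForm.swap_H, GForm.swap_mu', GForm.swap_s] at h1
  linear_combination g.s 1 * ((g.s 2 - 1) * (v + 1)) * h1 - (g.t j - 1) * D.hy

/-- `kap'_1^(2) ≠ 0`. -/
theorem K2Data.kap' (hm : 2 ≤ m) (h2 : g.t 2 ≠ g.s 2) (htd : v + 1 - g.s 2 ≠ 0) :
    g.swap.kap 1 2 ≠ 0 := by
  have hu1 : g.s 1 - 1 ≠ 0 := by
    rw [← g.s0]; exact sub_ne_zero.mpr (g.s_inj 0 1 (by omega) (by omega)).symm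
  have hu := g.s_ne 1 (by omega)
  have hS := g.s_ne 2 (by omega)
  have hT := g.t_ne 2 (by omega)
  have hN := D.N_ne (by omega)
  have e1 := D.G1 (by omega) (j := 2) hm
  have e2 := D.H1 (by omega) (j := 2) hm
  have hv1 : 1 - v ≠ 0 := by
    intro h
    apply h2
    have hv : v = 1 := by linear_combination -h
    rw [D.hS, hv, one_mul]
  have hSv : g.s 2 + v ^ 2 ≠ 0 := by
    have e : g.s 2 + v ^ 2 = (v + g.t 1) * (v + 1 - g.s 2) := by linear_combination -D.R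
    rw [e]
    exact mul_ne_zero D.hvt htd
  have key : v ^ 2 * ((g.s 2 - 1) * (v + 1)) * g.t 2 * g.swap.kap 1 2 =
      g.s 1 * (g.s 1 - 1) * g.s 2 * (1 - v) * (g.s 2 + v ^ 2) := by
    rw [GForm.kap]
    simp only [GForm.swap_t, GForm.swap_G, GForm.swap_H]
    rw [D.hS] at e1 e2 ⊢
    linear_combination v ^ 2 * g.t 2 * g.s 1 * e1 - v ^ 2 * g.s 1 * e2
  intro h
  rw [h, mul_zero] at key
  exact mul_ne_zero (mul_ne_zero (mul_ne_zero (mul_ne_zero hu hu1) hS) hv1) hSv key.symm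

/-- type 1 in the dual strip. -/
theorem K2Data.letter1 (hm : 2 ≤ m) {k : ℕ} (hk : k < m)
    (h : (1 - g.lam 1) * (g.t k * g.t (k + 1) * g.s 1 ^ k) = g.mu 1 * g.s 2 ^ k) :
    v * (g.t k * g.t (k + 1) * g.s 1 ^ k) = g.s 1 * g.t 1 * g.s 2 ^ k := by
  have hal : 1 - g.lam 1 ≠ 0 := sub_ne_zero.mpr (g.lam_ne 1 (by omega)).symm
  refine sub_eq_zero.1 (cancel hal ?_)
  linear_combination v * h + g.s 2 ^ k * D.hde

end data

/-- the type 0 relation. -/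
theorem d0_scalar {t T X Y s s' x y al de : F} (ht : t ≠ 0) (hT : T ≠ 0) (hx : x ≠ 0)
    (hTt : T - t ≠ 0) (ht1 : t - 1 ≠ 0) (hs : s' * t = T * s)
    (h2 : Pool.Agent.Helper76.IP.l1 x y al de t T X Y s = 0)
    (h3 : Pool.Agent.Helper76.IP.l1 x y al de t T (t * X) (T * Y) s' = 0) :
    al * X * s ^ 2 * T * (t - 1) * (1 - x) + t * ((T - 1) * x * de * Y * s
      - y * al * (T - 1) * X ^ 2 * s - (1 - y) * (t - 1) * de * X * Y) = 0 := by
  obtain ⟨w, hw⟩ : ∃ w, s = t * w := ⟨s / t, by field_simp⟩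
  have hs' : s' = T * w := by
    apply mul_right_cancel₀ ht
    rw [hs, hw]
    ring
  subst hs' hw
  rw [Pool.Agent.Helper76.IP.l1] at h2 h3
  refine cancel (mul_ne_zero (mul_ne_zero (mul_ne_zero hT hx) hTt) ht1) ?_
  linear_combination t * h3 - t * T * h2

theorem D_ne (g : GForm F m) (hm : 1 ≤ m) {k : ℕ} (hk : k < m) (h : g.kap 1 k ≠ 0) :
    g.G 1 (k + 1) - g.t 1 ^ (k + 1) * g.H 1 (k + 1) ≠ 0 := by
  have := g.D_succ (j := 1) (k := k) hm hk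
  rw [GForm.D] at this
  rw [this]
  exact mul_ne_zero (sub_ne_zero.2 (g.lm_ne k hk).symm) h

section data2

variable {g : GForm F m} {v : F} (D : K2Data g v)
include D

/-- the type 0 relation in the dual strip (`X = u^k`, `Y = S^k`, `z = t_k`). -/
theorem K2Data.type0 (hm : 2 ≤ m) {k : ℕ} (hk : k < m)
    (hD1 : g.G k 1 - g.s 1 ^ k * g.H k 1 ≠ 0) (hK1 : g.s 1 * g.G k 1 - g.s 1 ^ k * g.H k 1 ≠ 0)
    (hD2 : g.G (k + 1) 1 - g.s 1 ^ (k + 1) * g.H (k + 1) 1 ≠ 0)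
    (hK2 : g.s 1 * g.G (k + 1) 1 - g.s 1 ^ (k + 1) * g.H (k + 1) 1 ≠ 0)
    (hs : g.t (k + 1) * g.s 1 = g.s 2 * g.t k) :
    v * g.s 2 * (g.s 2 * (v + 1) - v - g.s 1) * g.s 1 ^ k * g.t k ^ 2
      + g.s 1 ^ 2 * g.t 1 * (g.s 2 - 1) * g.s 2 ^ k * g.t k
      - g.s 2 * v ^ 2 * (g.s 2 - 1) * (g.s 1 ^ k) ^ 2 * g.t k
      - g.s 1 * g.t 1 * (g.s 2 * v - g.s 1 * (v + 1 - g.s 2)) * g.s 1 ^ k * g.s 2 ^ k = 0 := by
  have l2 := (Pool.Agent.Helper76.IP.l12 g.swap hm (k := k) (by omega) hD1 hK1).1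
  have l3 := (Pool.Agent.Helper76.IP.l12 g.swap hm (k := k + 1) (by omega) hD2 hK2).1
  simp only [GForm.swap_t, GForm.swap_s, GForm.swap_lam', GForm.swap_mu', pow_succ'] at l2 l3
  have hu := g.s_ne 1 (by omega)
  have hS := g.s_ne 2 (by omega)
  have hu1 : g.s 1 - 1 ≠ 0 := by
    rw [← g.s0]; exact sub_ne_zero.mpr (g.s_inj 0 1 (by omega) (by omega)).symm
  have hSu : g.s 2 - g.s 1 ≠ 0 := sub_ne_zero.mpr (g.s_inj 1 2 (by omega) (by omega)).symm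
  have hx : 1 - g.lam 0 ≠ 0 := sub_ne_zero.mpr (g.lam_ne 0 (by omega)).symm
  have hal : 1 - g.lam 1 ≠ 0 := sub_ne_zero.mpr (g.lam_ne 1 (by omega)).symm
  have hN := D.N_ne (by omega)
  have e := d0_scalar hu hS hx hSu hu1 hs l2 l3
  refine cancel (mul_ne_zero (mul_ne_zero hal hu1) hu) ?_
  linear_combination ((g.s 2 - 1) * (v + 1) * g.s 1 * v) * e
    + ((1 - g.lam 1) * g.s 1 ^ k * g.t k ^ 2 * g.s 2 * (g.s 1 - 1) * g.s 1 * v
      - g.s 1 * (g.s 2 - 1) * g.s 1 * v * g.mu 1 * g.s 2 ^ k * g.t k) * D.hx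
    + (g.s 1 * v * (1 - g.lam 1) * (g.s 2 - 1) * (g.s 1 ^ k) ^ 2 * g.t k
      - g.s 1 * v * (g.s 1 - 1) * g.mu 1 * g.s 1 ^ k * g.s 2 ^ k) * D.hy
    + (-(g.s 1 ^ 2 * (g.s 2 - 1) * (g.s 1 - 1) * g.s 2 ^ k * g.t k)
      + g.s 1 * (g.s 2 * v - g.s 1 * (v + 1 - g.s 2)) * (g.s 1 - 1) * g.s 1 ^ k * g.s 2 ^ k) * D.hde

/-- the additive type 1 relation in the dual strip. -/
theorem K2Data.add1 (hm : 1 ≤ m) {k : ℕ} (hk : k < m) {w : F} (hw : g.s 1 ^ k = g.s 1 * w)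
    (h : g.t k * (g.s 1 ^ k * g.H k 1 - g.G (k + 1) 1) * g.s 2 =
      g.t (k + 1) * (g.s 1 ^ k * g.H (k + 1) 1 - g.G k 1)) :
    (g.s 2 - 1) * (v + 1) * (g.s 1 * w - 1) * (g.s 2 * g.t k - g.t (k + 1)) =
      (g.s 1 - 1) * (g.s 2 ^ 2 * v * w * (g.t k - 1) + g.s 2 * g.t k * (g.t (k + 1) - 1)
        - g.s 2 * v * w * (g.t (k + 1) - 1) - g.t (k + 1) * (g.t k - 1)) := by
  have e1 := D.G1 hm (j := k) (by omega)
  have e2 := D.H1 hm (j := k) (by omega)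
  have e3 := D.G1 hm (j := k + 1) (by omega)
  have e4 := D.H1 hm (j := k + 1) (by omega)
  rw [hw] at h
  linear_combination ((g.s 2 - 1) * (v + 1)) * h - w * g.s 2 * e2 + g.t k * g.s 2 * e3
    + w * e4 - g.t (k + 1) * e1

end data2

/-- `P` of helper85. -/
def pP (S v u : F) : F := S ^ 2 * v + u * (S ^ 2 + S * v ^ 2 - S * v - S - v ^ 2)

/-- `Q` of helper85. -/
def pQ (S v u : F) : F := S ^ 2 + S * v ^ 2 + S * v - S - v ^ 2 - u * v

/-- `B2` of helper85. -/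
def pB2 (S v u : F) : F := (S * (v + 1) - v) * pQ S v u - (v + 1 - S) * u * pP S v u
  + u * (S - 1) * (S - v) * (S + v ^ 2)

theorem k2_t0 {t T u S v : F} (hST : S = v * T) (hR : t * (v + 1 - S) = S * (v + 1) - v)
    (e : v * S * (S * (v + 1) - v - u) * u ^ 2 * T ^ 2 + u ^ 2 * t * (S - 1) * S ^ 2 * T
      - S * v ^ 2 * (S - 1) * (u ^ 2) ^ 2 * T
      - u * t * (S * v - u * (v + 1 - S)) * u ^ 2 * S ^ 2 = 0) :
    u ^ 2 * T ^ 2 * v ^ 2 * S * (u - v * t) * (1 - u * v) = 0 := by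
  subst hST
  linear_combination (-v) * e + u ^ 2 * T ^ 2 * v ^ 2 * (u ^ 2 * v - v * T) * hR

theorem k2_b2 {t T u S v z : F} (hST : S = v * T) (hR : t * (v + 1 - S) = S * (v + 1) - v)
    (hz : z * u = S * t) (hu1 : u - 1 ≠ 0) (hT : T ≠ 0)
    (e : (S - 1) * (v + 1) * (u * u - 1) * (S * T - z) =
      (u - 1) * (S ^ 2 * v * u * (T - 1) + S * T * (z - 1) - S * v * u * (z - 1) - z * (T - 1))) :
    pB2 S v u = 0 := by
  refine cancel (mul_ne_zero hT hu1) ?_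
  rw [pB2, pP, pQ]
  subst hST
  linear_combination (-((v + 1 - v * T) * u)) * e
    + (u - 1) * ((v + 1 - v * T) * (-((v * T - 1) * (v + 1) * (u + 1)) - v * T * T + u * (v * T) * v
      + T - 1)) * hz
    + (u - 1) * (v * T * (-((v * T - 1) * (v + 1) * (u + 1)) - v * T * T + u * (v * T) * v
      + T - 1)) * hR

/-- the dual step `2 -> 3` of a K2 state. -/
theorem K2Data.step2 {g : GForm F m} {v : F} (D : K2Data g v) (hm : 3 ≤ m)
    (hD : g.G 1 1 ≠ g.H 1 1) (hk2 : g.swap.kap 1 2 ≠ 0) (hk3 : g.swap.kap 1 3 ≠ 0) :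
    (g.s 1 * v = 1 ∧ g.t 3 = g.s 2 ^ 2) ∨
      (g.t 3 * g.s 1 = g.s 2 * g.t 1 ∧ pB2 (g.s 2) v (g.s 1) = 0) := by
  have hu := g.s_ne 1 (by omega)
  have hS := g.s_ne 2 (by omega)
  have hT := g.t_ne 2 (by omega)
  have ht := g.t_ne 1 (by omega)
  have hu1 : g.s 1 - 1 ≠ 0 := by
    rw [← g.s0]; exact sub_ne_zero.mpr (g.s_inj 0 1 (by omega) (by omega)).symm
  have hv := D.v0
  have hST := D.hS
  have hR := D.R
  have k11 : g.swap.kap 1 1 ≠ 0 := by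
    intro h
    rw [GForm.kap, pow_one] at h
    apply hD
    apply mul_left_cancel₀ hu
    simp only [GForm.swap_t, GForm.swap_G, GForm.swap_H] at h
    linear_combination h
  have D2 := D_ne g.swap (by omega) (k := 1) (by omega) k11
  have D3 := D_ne g.swap (by omega) (k := 2) (by omega) hk2
  rw [GForm.kap] at hk2 hk3
  simp only [GForm.swap_t, GForm.swap_G, GForm.swap_H, Nat.reduceAdd] at D2 D3 hk2 hk3
  have fl := Helper43.IPL.local_flat2 g.swap (by omega) 2 (by omega)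
  simp only [GForm.swap_t, GForm.swap_s, GForm.swap_G, GForm.swap_H, GForm.swap_lam',
    GForm.swap_mu', Nat.reduceAdd] at fl
  rcases fl with h | h | h | h | ⟨ha, hm1⟩
  · exact (D2 h).elim
  · exact (hk2 (by linear_combination -h)).elim
  · exact (hk3 (by linear_combination (-g.s 1) * h)).elim
  · left
    have e := D.type0 (by omega) (k := 2) (by omega) D2 hk2 D3 hk3 (by linear_combination -h)
    have hut : g.s 1 - v * g.t 1 ≠ 0 := by
      intro h'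
      apply g.s_inj 1 3 (by omega) (by omega)
      rw [D.hs3]
      linear_combination h'
    have e2 := k2_t0 hST hR e
    have e3 : 1 - g.s 1 * v = 0 := by
      refine cancel (mul_ne_zero (mul_ne_zero (mul_ne_zero (mul_ne_zero (pow_ne_zero 2 hu)
        (pow_ne_zero 2 hT)) (pow_ne_zero 2 hv)) hS) hut) e2
    have e4 : g.s 1 * v = 1 := by linear_combination -e3
    refine ⟨e4, ?_⟩
    refine sub_eq_zero.1 (cancel hu ?_)
    linear_combination -h - g.s 2 * g.t 2 * e4 - g.s 1 * g.s 2 * hST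
  · right
    have e1 : g.t 3 * g.s 1 = g.s 2 * g.t 1 := by
      have e := D.letter1 (by omega) (k := 2) (by omega) hm1
      simp only [Nat.reduceAdd] at e
      refine sub_eq_zero.1 (cancel (mul_ne_zero hS hu) ?_)
      linear_combination e + g.t 3 * g.s 1 ^ 2 * hST
    refine ⟨e1, ?_⟩
    have e := D.add1 (by omega) (k := 2) (by omega) (w := g.s 1) (by ring) ha
    simp only [Nat.reduceAdd] at e
    exact k2_b2 hST hR e1 hu1 hT e

/-- `(I)` of helper85. -/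
def pI (S v u : F) : F := u ^ 3 * (v + 1 - S) * pP S v u - S * (S * (v + 1) - v) * pQ S v u

/-- `B3` of helper85. -/
def pB3 (S v u : F) : F := -(v ^ 2 * (v + 1 - S) * u ^ 4)
  + S * (v ^ 2 + v + 1) * (v + 1 - S) * u ^ 3
  - S * (v ^ 2 + v + 1) * (S - 1) * (v + 1) * u ^ 2
  - S * (v ^ 2 + v + 1) * (S * (v + 1) - v) * u + S ^ 2 * (S * (v + 1) - v)

theorem k2_i {t u S v z : F} (hR : t * (v + 1 - S) = S * (v + 1) - v)
    (hz : z * u = S * t)
    (e : v * S * (S * (v + 1) - v - u) * u ^ 3 * z ^ 2 + u ^ 2 * t * (S - 1) * S ^ 3 * z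
      - S * v ^ 2 * (S - 1) * (u ^ 3) ^ 2 * z
      - u * t * (S * v - u * (v + 1 - S)) * u ^ 3 * S ^ 3 = 0) :
    S ^ 2 * t * u * pI S v u = 0 := by
  rw [pI, pP, pQ]
  linear_combination (-(v + 1 - S)) * e
    + ((v + 1 - S) * (v * S * (S * (v + 1) - v - u) * u * (z * u + S * t)
      + u * t * (S - 1) * S ^ 3 - S * v ^ 2 * (S - 1) * u ^ 5)) * hz
    + (S ^ 2 * t * u * (v * S * (S * (v + 1) - v - u) + (S - 1) * S ^ 2)) * hR

theorem k2_b3 {t u S v z z' : F} (hR : t * (v + 1 - S) = S * (v + 1) - v)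
    (hz : z * u = S * t) (hz' : v * u * z' = S ^ 2)
    (e : (S - 1) * (v + 1) * (u * u ^ 2 - 1) * (S * z - z') =
      (u - 1) * (S ^ 2 * v * u ^ 2 * (z - 1) + S * z * (z' - 1) - S * v * u ^ 2 * (z' - 1)
        - z' * (z - 1))) :
    (u - 1) * S * (S - 1) * pB3 S v u = 0 := by
  rw [pB3]
  linear_combination (-(u ^ 2 * v * (v + 1 - S))) * e
    + (u - 1) * (v + 1 - S) * ((S - 1) * (v + 1) * (1 + u + u ^ 2) * u * v * S
      - S ^ 2 * v ^ 2 * u ^ 3 - S * (v * u * z' - u * v) + v * u * z') * hz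
    + (u - 1) * (v + 1 - S) * (-((S - 1) * (v + 1) * (1 + u + u ^ 2) * u) - S * (S * t)
      + S * v * u ^ 3 + (S * t - u)) * hz'
    + (u - 1) * S * ((S - 1) * (v + 1) * (1 + u + u ^ 2) * u * v * S - S ^ 2 * v ^ 2 * u ^ 3
      - S * (S ^ 2 - u * v) + S ^ 2) * hR

/-- the dual step `3 -> 4` of a K2-1 state, nondegenerate case. -/
theorem K2Data.step3_1 {g : GForm F m} {v : F} (D : K2Data g v) (hm : 4 ≤ m)
    (hk2 : g.swap.kap 1 2 ≠ 0) (hk3 : g.swap.kap 1 3 ≠ 0) (hk4 : g.swap.kap 1 4 ≠ 0)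
    (h3 : g.t 3 * g.s 1 = g.s 2 * g.t 1) :
    (g.t 4 * g.s 1 ^ 2 = g.s 2 ^ 2 * g.t 1 ∧ pI (g.s 2) v (g.s 1) = 0) ∨
      (g.t 4 * g.s 1 = g.s 2 * g.t 2 ∧ pB3 (g.s 2) v (g.s 1) = 0) := by
  have hu := g.s_ne 1 (by omega)
  have hS := g.s_ne 2 (by omega)
  have hT := g.t_ne 2 (by omega)
  have ht := g.t_ne 1 (by omega)
  have hu1 : g.s 1 - 1 ≠ 0 := by
    rw [← g.s0]; exact sub_ne_zero.mpr (g.s_inj 0 1 (by omega) (by omega)).symm
  have hS1 : g.s 2 - 1 ≠ 0 := by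
    rw [← g.s0]; exact sub_ne_zero.mpr (g.s_inj 0 2 (by omega) (by omega)).symm
  have hv := D.v0
  have hST := D.hS
  have hR := D.R
  have D3 := D_ne g.swap (by omega) (k := 2) (by omega) hk2
  have D4 := D_ne g.swap (by omega) (k := 3) (by omega) hk3
  rw [GForm.kap] at hk3 hk4
  simp only [GForm.swap_t, GForm.swap_G, GForm.swap_H, Nat.reduceAdd] at D3 D4 hk3 hk4
  have fl := Helper43.IPL.local_flat2 g.swap (by omega) 3 (by omega)
  simp only [GForm.swap_t, GForm.swap_s, GForm.swap_G, GForm.swap_H, GForm.swap_lam',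
    GForm.swap_mu', Nat.reduceAdd] at fl
  rcases fl with h | h | h | h | ⟨ha, hm1⟩
  · exact (D3 h).elim
  · exact (hk3 (by linear_combination -h)).elim
  · exact (hk4 (by linear_combination (-g.s 1) * h)).elim
  · left
    have e := D.type0 (by omega) (k := 3) (by omega) D3 hk3 D4 hk4 (by linear_combination -h)
    refine ⟨by linear_combination (-g.s 1) * h + g.s 2 * h3, ?_⟩
    exact cancel (mul_ne_zero (mul_ne_zero (pow_ne_zero 2 hS) ht) hu) (k2_i hR h3 e)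
  · right
    have e1 : v * g.s 1 * g.t 4 = g.s 2 ^ 2 := by
      have e := D.letter1 (by omega) (k := 3) (by omega) hm1
      simp only [Nat.reduceAdd] at e
      refine sub_eq_zero.1 (cancel (mul_ne_zero (mul_ne_zero hS ht) hu) ?_)
      linear_combination e - v * g.t 4 * g.s 1 ^ 2 * h3
    have e := D.add1 (by omega) (k := 3) (by omega) (w := g.s 1 ^ 2) (by ring) ha
    simp only [Nat.reduceAdd] at e
    refine ⟨?_, cancel (mul_ne_zero (mul_ne_zero hu1 hS) hS1) (k2_b3 hR h3 e1 e)⟩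
    refine sub_eq_zero.1 (cancel hv ?_)
    linear_combination e1 + g.s 2 * hST

/-- the type 0 factors of helper85 for K2-0 (`u = 1/v`). -/
def pA (S v : F) : F := (S * v ^ 2 - 1) * (S * (v ^ 3 + v ^ 2 + 1) - (v ^ 3 + v + 1))

/-- `D1(3, S^2)` of helper85 for K2-0 (`u = 1/v`). -/
def pD1 (S v : F) : F := S ^ 3 * v ^ 4 + 2 * S ^ 3 * v ^ 3 + 2 * S ^ 3 * v ^ 2 + S ^ 3 * v + S ^ 3
  - 2 * S ^ 2 * v ^ 4 - 3 * S ^ 2 * v ^ 3 - 2 * S ^ 2 * v ^ 2 - 3 * S ^ 2 * v - S ^ 2 + S * v ^ 5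
  + 3 * S * v ^ 4 + 2 * S * v ^ 3 + 3 * S * v ^ 2 + 2 * S * v - v ^ 5 - v ^ 4 - 2 * v ^ 3
  - 2 * v ^ 2 - v

theorem k2_a {t u S v z : F} (hv : v ≠ 0) (htd : v + 1 - S ≠ 0)
    (hR : t * (v + 1 - S) = S * (v + 1) - v)
    (hu : u * v = 1) (hz : z = S ^ 2)
    (e : v * S * (S * (v + 1) - v - u) * u ^ 3 * z ^ 2 + u ^ 2 * t * (S - 1) * S ^ 3 * z
      - S * v ^ 2 * (S - 1) * (u ^ 3) ^ 2 * z
      - u * t * (S * v - u * (v + 1 - S)) * u ^ 3 * S ^ 3 = 0) :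
    S ^ 4 * pA S v = 0 := by
  have hu' : u = 1 / v := by rw [eq_div_iff hv]; exact hu
  have ht' : t = (S * (v + 1) - v) / (v + 1 - S) := by rw [eq_div_iff htd]; exact hR
  have key : S ^ 4 * pA S v = v ^ 5 * (v + 1 - S) *
      (v * S * (S * (v + 1) - v - u) * u ^ 3 * z ^ 2 + u ^ 2 * t * (S - 1) * S ^ 3 * z
      - S * v ^ 2 * (S - 1) * (u ^ 3) ^ 2 * z
      - u * t * (S * v - u * (v + 1 - S)) * u ^ 3 * S ^ 3) := by
    rw [hz, hu', ht', pA]
    field_simp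
    ring
  rw [key, e, mul_zero]

theorem k2_d1 {t u S v z z' : F} (hv : v ≠ 0) (htd : v + 1 - S ≠ 0)
    (hR : t * (v + 1 - S) = S * (v + 1) - v)
    (hu : u * v = 1) (hz : z = S ^ 2) (hz' : z' = t * S * v)
    (e : (S - 1) * (v + 1) * (u * u ^ 2 - 1) * (S * z - z') =
      (u - 1) * (S ^ 2 * v * u ^ 2 * (z - 1) + S * z * (z' - 1) - S * v * u ^ 2 * (z' - 1)
        - z' * (z - 1))) :
    (v - 1) * S * (S - 1) * pD1 S v = 0 := by
  have hu' : u = 1 / v := by rw [eq_div_iff hv]; exact hu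
  have ht' : t = (S * (v + 1) - v) / (v + 1 - S) := by rw [eq_div_iff htd]; exact hR
  have key : (v - 1) * S * (S - 1) * pD1 S v = v ^ 3 * (v + 1 - S) *
      ((S - 1) * (v + 1) * (u * u ^ 2 - 1) * (S * z - z') -
      (u - 1) * (S ^ 2 * v * u ^ 2 * (z - 1) + S * z * (z' - 1) - S * v * u ^ 2 * (z' - 1)
        - z' * (z - 1))) := by
    rw [hz, hz', hu', ht', pD1]
    field_simp
    ring
  rw [key, e, sub_self, mul_zero]

/-- the dual step `3 -> 4` of a K2-0 state, nondegenerate case. -/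
theorem K2Data.step3_0 {g : GForm F m} {v : F} (D : K2Data g v) (hm : 4 ≤ m)
    (h2 : g.t 2 ≠ g.s 2) (htd : v + 1 - g.s 2 ≠ 0)
    (hk2 : g.swap.kap 1 2 ≠ 0) (hk3 : g.swap.kap 1 3 ≠ 0) (hk4 : g.swap.kap 1 4 ≠ 0)
    (huv : g.s 1 * v = 1) (h3 : g.t 3 = g.s 2 ^ 2) :
    (g.t 4 = g.s 2 ^ 3 * v ∧ pA (g.s 2) v = 0) ∨
      (g.t 4 = g.t 1 * g.s 2 * v ∧ pD1 (g.s 2) v = 0) := by
  have hu := g.s_ne 1 (by omega)
  have hS := g.s_ne 2 (by omega)
  have hT := g.t_ne 2 (by omega)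
  have hS1 : g.s 2 - 1 ≠ 0 := by
    rw [← g.s0]; exact sub_ne_zero.mpr (g.s_inj 0 2 (by omega) (by omega)).symm
  have hv := D.v0
  have hST := D.hS
  have hR := D.R
  have hv1 : v - 1 ≠ 0 := by
    intro h
    apply h2
    rw [D.hS, sub_eq_zero.1 h, one_mul]
  have D3 := D_ne g.swap (by omega) (k := 2) (by omega) hk2
  have D4 := D_ne g.swap (by omega) (k := 3) (by omega) hk3
  rw [GForm.kap] at hk3 hk4
  simp only [GForm.swap_t, GForm.swap_G, GForm.swap_H, Nat.reduceAdd] at D3 D4 hk3 hk4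
  have fl := Helper43.IPL.local_flat2 g.swap (by omega) 3 (by omega)
  simp only [GForm.swap_t, GForm.swap_s, GForm.swap_G, GForm.swap_H, GForm.swap_lam',
    GForm.swap_mu', Nat.reduceAdd] at fl
  rcases fl with h | h | h | h | ⟨ha, hm1⟩
  · exact (D3 h).elim
  · exact (hk3 (by linear_combination -h)).elim
  · exact (hk4 (by linear_combination (-g.s 1) * h)).elim
  · left
    have e := D.type0 (by omega) (k := 3) (by omega) D3 hk3 D4 hk4 (by linear_combination -h)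
    refine ⟨?_, cancel (pow_ne_zero 4 hS) (k2_a hv htd hR huv h3 e)⟩
    refine sub_eq_zero.1 (cancel hu ?_)
    linear_combination -h + g.s 2 * h3 - g.s 2 ^ 3 * huv
  · right
    have e1 : g.t 4 = g.t 1 * g.s 2 * v := by
      have e := D.letter1 (by omega) (k := 3) (by omega) hm1
      simp only [Nat.reduceAdd] at e
      rw [h3] at e
      refine sub_eq_zero.1 (cancel (mul_ne_zero (pow_ne_zero 2 hS) (pow_ne_zero 2 hu)) ?_)
      linear_combination e - g.s 2 ^ 2 * g.s 1 ^ 2 * g.t 4 * huv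
        - g.s 2 ^ 3 * g.t 1 * g.s 1 * huv
    have e := D.add1 (by omega) (k := 3) (by omega) (w := g.s 1 ^ 2) (by ring) ha
    simp only [Nat.reduceAdd] at e
    exact ⟨e1, cancel (mul_ne_zero (mul_ne_zero hv1 hS) hS1) (k2_d1 hv htd hR huv h3 e1 e)⟩

end Pool.Agent.Helper27.IP
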