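import Pool.Agent.Helper27.IP.K2M5

/-!
TH-P phase 2, `n = 6` (`m = 5`, closed), N branch, `kap_1^(2) = 0` (K2): the case `t_2 = - t_1` of
K2-0.
-/

namespace Pool.Agent.Helper27.IP

open Pool.Agent.Helper54.IP Pool.Agent.Helper36.IP Pool.Agent.Helper76.IP

variable {F : Type*} [Field F] {m : ℕ}

private theorem cancel {a b : F} (ha : a ≠ 0) (h : a * b = 0) : b = 0 :=
  (mul_eq_zero.1 h).resolve_left ha

/-- `v^2 + 1` is nonzero on the curve. -/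
theorem k2n_v2 {S v : F} (hC : S ^ 2 - S * (v + 1) ^ 2 + v ^ 2 = 0) (hSv : S ≠ v) :
    v ^ 2 + 1 ≠ 0 := by
  intro h
  have e : (S - v) ^ 2 = 0 := by linear_combination hC + S * h
  exact hSv (sub_eq_zero.1 (pow_eq_zero_iff two_ne_zero |>.1 e))

/-- letter 0 at `3 -> 4`. -/
theorem k2n_0 {S v : F} (hS : S ≠ 0) (hv : v ≠ 0) (hv1 : v - 1 ≠ 0) (hv' : v + 1 ≠ 0)
    (hSv : S ≠ v) (hphi : v ^ 2 + v + 1 ≠ 0)
    (hC : S ^ 2 - S * (v + 1) ^ 2 + v ^ 2 = 0) (hA : pA S v = 0) (hM : (S * v) ^ 8 = 1) :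
    False := by
  have hv2 := k2n_v2 hC hSv
  rw [pA] at hA
  rcases mul_eq_zero.1 hA with h | h
  · -- S v^2 = 1
    have e1 : v ^ 8 = 1 := by
      have : v ^ 8 * (S * v) ^ 8 = (S * v ^ 2) ^ 8 := by ring
      rw [hM, sub_eq_zero.1 h] at this
      linear_combination this
    have e2 : v ^ 4 + 1 = 0 := by
      refine cancel (mul_ne_zero (mul_ne_zero hv1 hv') hv2) ?_
      linear_combination e1
    have e3 : v ^ 6 - v ^ 4 - 2 * v ^ 3 - v ^ 2 + 1 = 0 := by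
      linear_combination v ^ 4 * hC - (S * v ^ 2 + 1 - v ^ 2 * (v + 1) ^ 2) * h
    obtain ⟨y, hy⟩ : ∃ y, v * y = v ^ 2 + 1 := ⟨(v ^ 2 + 1) / v, by field_simp⟩
    have f2 : y ^ 2 - 2 = 0 := by
      refine cancel (pow_ne_zero 2 hv) ?_
      linear_combination e2 + (v * y + v ^ 2 + 1) * hy
    have f3 : y ^ 3 - 4 * y - 2 = 0 := by
      refine cancel (pow_ne_zero 3 hv) ?_
      linear_combination e3 + ((v * y) ^ 2 + v * y * (v ^ 2 + 1) + (v ^ 2 + 1) ^ 2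
        - 4 * v ^ 2) * hy
    have h2 : (2 : F) = 0 := by
      linear_combination (1 - y) * f3 + (y ^ 2 - y - 2) * f2
    have y0 : y = 0 := by
      have : y ^ 2 = 0 := by linear_combination f2 + h2
      exact pow_eq_zero_iff two_ne_zero |>.1 this
    apply hv2
    rw [y0, mul_zero] at hy
    exact hy.symm
  · have e : v * (v ^ 2 + v + 1) ^ 2 * (v ^ 2 + 1) = 0 := by
      linear_combination (-(v ^ 3 + v ^ 2 + 1) ^ 2) * hC
        + ((v ^ 3 + v ^ 2 + 1) * S + (v ^ 3 + v + 1) - (v ^ 3 + v ^ 2 + 1) * (v + 1) ^ 2) * h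
    exact mul_ne_zero (mul_ne_zero hv (pow_ne_zero 2 hphi)) hv2 e

/-- the closed column 4. -/
theorem k2n_c {S v p : F} (hv1 : v - 1 ≠ 0) (hp : p = S * v)
    (hp0 : p ≠ 0) (hp1 : p - 1 ≠ 0) (hC : S ^ 2 - S * (v + 1) ^ 2 + v ^ 2 = 0)
    (hvp : v = -p ^ 4) (hSp : S * p ^ 3 = -1)
    (hZ : -(S ^ 2 * v) - S ^ 3 * v = S * v ^ 2 + S * v - v ^ 2 - 1) : False := by
  have c1 : p ^ 14 + p ^ 11 - 2 * p ^ 7 + p ^ 3 + 1 = 0 := by
    rw [hvp] at hC
    linear_combination p ^ 6 * hC + (-(S * p ^ 3) + 1 + p ^ 3 * (-p ^ 4 + 1) ^ 2) * hSp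
  have c2 : p ^ 13 + p ^ 10 - p ^ 6 + p ^ 5 + p ^ 3 - 1 = 0 := by
    rw [hvp] at hZ
    linear_combination p ^ 5 * hZ - (p ^ 3 * (S * p ^ 3 - 1) + (S * p ^ 3) ^ 2 - S * p ^ 3 + 1
      - p ^ 10 + p ^ 6) * hSp
  have c3 : p ^ 6 + 2 * p ^ 5 + 2 * p ^ 4 + 3 * p ^ 3 + 2 * p ^ 2 + 2 * p + 1 = 0 := by
    refine cancel hp1 ?_
    linear_combination p * c2 - c1
  obtain ⟨z, hz⟩ : ∃ z, p * z = p ^ 2 + 1 := ⟨(p ^ 2 + 1) / p, by field_simp⟩
  have z1 : z ^ 3 + 2 * z ^ 2 - z - 1 = 0 := by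
    refine cancel (pow_ne_zero 3 hp0) ?_
    linear_combination c3 + ((p * z) ^ 2 + p * z * (p ^ 2 + 1) + (p ^ 2 + 1) ^ 2
      + 2 * p * (p * z + p ^ 2 + 1) - p ^ 2) * hz
  have z0 : z ≠ 0 := by
    rintro rfl
    have : (1 : F) = 0 := by linear_combination -z1
    exact one_ne_zero this
  have z2 : 2 * z ^ 2 - 2 * z - 3 = 0 := by
    refine cancel (mul_ne_zero (pow_ne_zero 7 hp0) z0) ?_
    have q : (p * z) ^ 7 - 7 * p ^ 2 * (p * z) ^ 5 + p ^ 3 * (p * z) ^ 4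
        + 14 * p ^ 4 * (p * z) ^ 3 - 4 * p ^ 5 * (p * z) ^ 2 - 7 * p ^ 6 * (p * z) = 0 := by
      rw [hz]
      linear_combination c1
    linear_combination q - p ^ 7 * z * (z ^ 3 - 2 * z ^ 2 - 2 * z + 4) * z1
  have z3 : (z ^ 2 - 2) ^ 2 = 0 := by
    linear_combination (z ^ 2 + z - 2) * z2 + (2 - z) * z1
  have z4 : z ^ 2 - 2 = 0 := pow_eq_zero_iff two_ne_zero |>.1 z3
  apply hv1
  have : p ^ 4 + 1 = 0 := by
    linear_combination p ^ 2 * z4 - (p * z + p ^ 2 + 1) * hz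
  linear_combination hvp - this

/-- letter 1 at `3 -> 4`. -/
theorem k2n_1 {S v p : F} (hv : v ≠ 0) (hv' : v + 1 ≠ 0)
    (hSv : S ≠ v) (hphi : v ^ 2 + v + 1 ≠ 0) (hp : p = S * v)
    (hC : S ^ 2 - S * (v + 1) ^ 2 + v ^ 2 = 0) (hD : pD1 S v = 0) (hp2 : p ^ 2 = -1) :
    False := by
  have hv2 := k2n_v2 hC hSv
  have e1 : p * (v * (v + 1)) = (v - 1) * (v ^ 2 + 1) := by
    refine sub_eq_zero.1 (cancel hv' ?_)
    rw [hp] at hp2 ⊢
    linear_combination (-v ^ 2) * hC + hp2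
  have e2 : (v ^ 2 + 1) * (v + 1) * (-3 * v ^ 5 + 3 * v ^ 4 - v ^ 3 + 3 * v ^ 2 - v + 1) = 0 := by
    rw [pD1] at hD
    have e3 : p * (v ^ 7 + 3 * v ^ 6 + 2 * v ^ 5 + 2 * v ^ 4 - 2 * v ^ 2 - v - 1)
        + (-v ^ 8 - v ^ 7 - 2 * v ^ 6 + 2 * v ^ 4 + 2 * v ^ 3 + 3 * v ^ 2 + v) = 0 := by
      rw [hp] at hp2 ⊢
      linear_combination v ^ 3 * hD - (S * v * (v ^ 4 + 2 * v ^ 3 + 2 * v ^ 2 + v + 1)
        - (2 * v ^ 5 + 3 * v ^ 4 + 2 * v ^ 3 + 3 * v ^ 2 + v)) * hp2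
    linear_combination v * (v + 1) * e3
      - (v ^ 7 + 3 * v ^ 6 + 2 * v ^ 5 + 2 * v ^ 4 - 2 * v ^ 2 - v - 1) * e1
  have e4 := cancel (mul_ne_zero hv2 hv') e2
  have e5 : v ^ 6 - 2 * v ^ 5 + 4 * v ^ 4 - 2 * v ^ 3 + 4 * v ^ 2 - 2 * v + 1 = 0 := by
    linear_combination (-(p * (v * (v + 1)) + (v - 1) * (v ^ 2 + 1))) * e1
      + (v * (v + 1)) ^ 2 * hp2
  have h32 : (2 : F) ^ 5 = 0 := by
    linear_combination (77 - 131 * v + 51 * v ^ 2 - 137 * v ^ 3 + 73 * v ^ 4 - 39 * v ^ 5) * e4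
      + (-45 + 118 * v + 3 * v ^ 2 + 102 * v ^ 3 - 117 * v ^ 4) * e5
  have h2 : (2 : F) = 0 := pow_eq_zero_iff (by norm_num) |>.1 h32
  refine mul_ne_zero hv' (pow_ne_zero 2 hphi) ?_
  linear_combination e4 + (2 * v ^ 5 + 3 * v ^ 3 + 2 * v + v ^ 2) * h2

/-- K2-0 with `t_2 = - t_1` is impossible for a closed corner of size 5. -/
theorem k2_0_neg5 (g : GForm F 5) (hcl : g.Closed) (hD : g.G 1 1 ≠ g.H 1 1) (h2 : g.t 2 ≠ g.s 2)
    (hn1 : (g.s 2 * g.t 1 - g.t 2) * ((1 - g.lam' 0) - g.t 1 * g.mu' 0 + g.t 1 - 1) =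
        (g.s 2 - 1) * (g.t 1 * g.t 2 * (1 - g.lam' 0) - g.t 1 * g.mu' 0))
    (hn2 : (g.t 2 * g.s 1 - g.s 2) * ((1 - g.lam' 0) - g.t 1 * g.mu' 0 + g.t 1 - 1) =
        (g.t 2 - 1) * (g.s 1 * g.s 2 * (1 - g.lam' 0) - g.t 1 * g.mu' 0))
    (hk : g.kap 1 2 = 0) {v : F} (D : K2Data g v) (htd : v + 1 - g.s 2 ≠ 0)
    (huv : g.s 1 * v = 1) (h3 : g.t 3 = g.s 2 ^ 2) (hT : g.t 2 = -g.t 1) : False := by
  have hu := g.s_ne 1 (by omega)
  have hS := g.s_ne 2 (by omega)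
  have ht := g.t_ne 1 (by omega)
  have hv := D.v0
  have hv' := D.v1
  have hST := D.hS
  have hR := D.R
  have hv1 : v - 1 ≠ 0 := by
    intro h
    apply h2
    rw [D.hS, sub_eq_zero.1 h, one_mul]
  have hSv : g.s 2 ≠ v := by
    intro h
    apply g.t_inj 0 2 (by omega) (by omega)
    rw [g.t0]
    refine sub_eq_zero.1 (cancel hv ?_)
    linear_combination hST - h
  have hS1 : g.s 2 * v ≠ 1 := by
    intro h
    apply g.s_inj 1 2 (by omega) (by omega)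
    refine sub_eq_zero.1 (cancel hv ?_)
    linear_combination huv - h
  have htv : g.t 1 * v - 1 ≠ 0 := by
    have e : g.t 1 * v ≠ 1 := by
      rw [← D.hs3, ← g.s0]
      exact (g.s_inj 0 3 (by omega) (by omega)).symm
    exact sub_ne_zero.2 e
  have hphi : v ^ 2 + v + 1 ≠ 0 := by
    intro h
    refine mul_ne_zero htv htd ?_
    linear_combination v * hR + (g.s 2 - 1) * h
  have hvt : g.s 2 = -(v * g.t 1) := by rw [hST, hT]; ring
  have hC : g.s 2 ^ 2 - g.s 2 * (v + 1) ^ 2 + v ^ 2 = 0 := by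
    linear_combination v * hR - (v + 1 - g.s 2) * hvt
  have hts : g.t 1 = -(g.s 1 * g.s 2) := by
    linear_combination (-g.t 1) * huv + g.s 1 * hvt
  have hs4 : g.s 4 = -g.s 1 := by
    have e := k2_s4 g (by omega) hD hn1 hn2 hk
    rw [hT] at e
    refine sub_eq_zero.1 (cancel (pow_ne_zero 3 ht) ?_)
    linear_combination e
  have hmono : (g.s 1 * g.t 4) ^ 4 = (g.t 1 * g.s 4) ^ 4 := by
    have e1 := mono_closed hcl (n := 2) (by omega)
    have e2 := hcl.corner (κ := 4) (by omega)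
    simp only [Nat.reduceAdd] at e1
    have h5 := g.s_ne 5 (by omega)
    refine sub_eq_zero.1 (cancel (pow_ne_zero 4 h5) ?_)
    linear_combination ((g.s 1 * g.t 4) ^ 2 * g.s 5 ^ 2 + (g.t 1 * g.s 4) ^ 2 * g.t 5 ^ 2) * e1
      + (g.t 1 * g.s 4) ^ 4 * e2
  -- column 4 of the dual strip
  have hk2 : g.swap.kap 1 2 ≠ 0 := D.kap' (by omega) h2 htd
  have hk3 : g.swap.kap 1 3 ≠ 0 :=
    n_kap3_dead g.swap (by omega) hD (Pool.Agent.Helper82.IP.hn_swap g (by omega) hn2)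
  by_cases hk4 : g.swap.kap 1 4 = 0
  · have h4 := D.closed (by omega) (k := 3) (by omega) (by omega) hk4
    obtain ⟨hZ, hX, hW⟩ := D.closed_row (by omega) (k := 2) (by omega) hk4
    obtain ⟨r5, -, -, r0⟩ := D.closed_row2 (by omega) (k := 3) (by omega) hk4 h4
    simp only [Nat.reduceAdd] at hZ hX hW r5 r0
    have hA : g.s 1 ≠ -1 := by
      intro h
      apply hv'
      rw [h] at huv
      linear_combination -huv
    have e4 : g.t 4 = g.s 2 ^ 3 * v := by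
      linear_combination (-v) * r0 hA - g.t 4 * huv + v * g.s 2 * h3
    have e5 : g.t 5 = g.t 1 * g.s 2 * v := by
      refine sub_eq_zero.1 (cancel (mul_ne_zero (pow_ne_zero 2 hS) (pow_ne_zero 2 hu)) ?_)
      linear_combination (-1 : F) * r5 - v * g.t 5 * g.s 1 ^ 3 * h3
        - g.s 2 ^ 2 * g.s 1 ^ 2 * g.t 5 * huv - g.s 1 * g.t 1 * g.s 2 ^ 3 * huv
    have e5' : g.t 5 = -g.s 2 ^ 2 := by
      rw [e5]
      linear_combination g.s 2 * hvt
    have x1 : g.s 2 ^ 4 * v ^ 3 = -1 := by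
      rw [e4, e5'] at hX
      have e : g.s 2 ^ 4 = -g.s 1 ^ 3 := by
        refine sub_eq_zero.1 (cancel (mul_ne_zero hS hv) ?_)
        linear_combination -hX
      linear_combination v ^ 3 * e - ((g.s 1 * v) ^ 2 + g.s 1 * v + 1) * huv
    have hvp : v = -(g.s 2 * v) ^ 4 := by linear_combination v * x1
    refine k2n_c (S := g.s 2) (v := v) (p := g.s 2 * v) hv1 rfl (mul_ne_zero hS hv)
      (sub_ne_zero.2 hS1) hC hvp ?_ ?_
    · linear_combination x1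
    · rw [e4, e5'] at hZ
      linear_combination v * hZ + (g.s 2 ^ 3 * v - 1) * huv
  · rcases D.step3_0 (by omega) h2 htd hk2 hk3 hk4 huv h3 with ⟨e4, hA⟩ | ⟨e4, hA⟩
    · refine k2n_0 hS hv hv1 hv' hSv hphi hC hA ?_
      rw [e4, hts, hs4] at hmono
      have e : (g.s 2 ^ 3 * (g.s 1 * v)) ^ 4 = (g.s 1 ^ 2 * g.s 2) ^ 4 := by
        linear_combination hmono
      rw [huv] at e
      have e' : g.s 2 ^ 8 = g.s 1 ^ 8 := by
        refine sub_eq_zero.1 (cancel (pow_ne_zero 4 hS) ?_)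
        linear_combination e
      calc (g.s 2 * v) ^ 8 = g.s 2 ^ 8 * v ^ 8 := by ring
        _ = (g.s 1 * v) ^ 8 := by rw [e']; ring
        _ = 1 := by rw [huv]; ring
    · have e' : g.s 2 ^ 4 = g.s 1 ^ 4 := by
        rw [e4, hts, hs4] at hmono
        have e : (g.s 1 * g.s 2 ^ 2 * (g.s 1 * v)) ^ 4 = (g.s 1 ^ 2 * g.s 2) ^ 4 := by
          linear_combination hmono
        rw [huv] at e
        refine sub_eq_zero.1 (cancel (mul_ne_zero (pow_ne_zero 4 hS) (pow_ne_zero 4 hu)) ?_)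
        linear_combination e
      have p4 : (g.s 2 * v) ^ 4 = 1 := by
        calc (g.s 2 * v) ^ 4 = g.s 2 ^ 4 * v ^ 4 := by ring
          _ = (g.s 1 * v) ^ 4 := by rw [e']; ring
          _ = 1 := by rw [huv]; ring
      have hS2 : g.s 2 * v + 1 ≠ 0 := by
        intro h
        apply g.t_inj 2 4 (by omega) (by omega)
        rw [hT, e4]
        linear_combination (-g.t 1) * h
      refine k2n_1 (p := g.s 2 * v) hv hv' hSv hphi rfl hC hA ?_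
      have e : (g.s 2 * v) ^ 2 + 1 = 0 := by
        refine cancel (mul_ne_zero (sub_ne_zero.2 hS1) hS2) ?_
        linear_combination p4
      linear_combination e

end Pool.Agent.Helper27.IP
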