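import Pool.Agent.Helper27.IP.K2Neg
import Pool.Agent.Helper31.IPN.T2
import Pool.Agent.Helper31.IP5.DB
import Pool.Agent.Helper36.IP.KKMain
import Pool.Agent.Helper43.IPL.K20

/-!
TH-P, `n = 6` (`m = 5`, closed): the N branch is empty, modulo the state K2-1.
-/

namespace Pool.Agent.Helper27.IP

open Pool.Agent.Helper54.IP Pool.Agent.Helper82.IP

variable {F : Type*} [Field F]

/-- `kap_1^(2) = 0` is impossible (closed corners, `m = 5`). -/
def K2Leaf5 (F : Type*) [Field F] : Prop :=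
  ∀ g : GForm F 5, g.Closed → g.G 1 1 ≠ g.H 1 1 → g.t 2 ≠ g.s 2 →
      (g.s 2 * g.t 1 - g.t 2) * ((1 - g.lam' 0) - g.t 1 * g.mu' 0 + g.t 1 - 1) =
        (g.s 2 - 1) * (g.t 1 * g.t 2 * (1 - g.lam' 0) - g.t 1 * g.mu' 0) →
      (g.t 2 * g.s 1 - g.s 2) * ((1 - g.lam' 0) - g.t 1 * g.mu' 0 + g.t 1 - 1) =
        (g.t 2 - 1) * (g.s 1 * g.s 2 * (1 - g.lam' 0) - g.t 1 * g.mu' 0) →
      g.kap 1 2 = 0 → False

/-- the state K2-1 is impossible (closed corners, `m = 5`). -/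
def K21Leaf5 (F : Type*) [Field F] : Prop :=
  ∀ g : GForm F 5, g.Closed → g.G 1 1 ≠ g.H 1 1 → g.t 2 ≠ g.s 2 →
      (g.s 2 * g.t 1 - g.t 2) * ((1 - g.lam' 0) - g.t 1 * g.mu' 0 + g.t 1 - 1) =
        (g.s 2 - 1) * (g.t 1 * g.t 2 * (1 - g.lam' 0) - g.t 1 * g.mu' 0) →
      (g.t 2 * g.s 1 - g.s 2) * ((1 - g.lam' 0) - g.t 1 * g.mu' 0 + g.t 1 - 1) =
        (g.t 2 - 1) * (g.s 1 * g.s 2 * (1 - g.lam' 0) - g.t 1 * g.mu' 0) →
      g.kap 1 2 = 0 → ∀ v : F, K2Data g v → v + 1 - g.s 2 ≠ 0 → g.swap.kap 1 2 ≠ 0 →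
      g.swap.kap 1 3 ≠ 0 → g.t 3 * g.s 1 = g.s 2 * g.t 1 → pB2 (g.s 2) v (g.s 1) = 0 → False

/-- `v + 1 = S` gives `kap'_1^(2) = 0`. -/
theorem K2Data.kap'_zero {m : ℕ} {g : GForm F m} {v : F} (D : K2Data g v) (hm : 2 ≤ m)
    (htd : v + 1 - g.s 2 = 0) : g.swap.kap 1 2 = 0 := by
  have hT := g.t_ne 2 (by omega)
  have hN := D.N_ne (by omega)
  have hv := D.v0
  have e1 := D.G1 (by omega) (j := 2) hm
  have e2 := D.H1 (by omega) (j := 2) hm
  have hSv : g.s 2 + v ^ 2 = 0 := by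
    have hR := D.R
    rw [htd] at hR
    linear_combination -hR + v * htd
  have key : v ^ 2 * ((g.s 2 - 1) * (v + 1)) * g.t 2 * g.swap.kap 1 2 =
      g.s 1 * (g.s 1 - 1) * g.s 2 * (1 - v) * (g.s 2 + v ^ 2) := by
    rw [GForm.kap]
    simp only [GForm.swap_t, GForm.swap_G, GForm.swap_H]
    rw [D.hS] at e1 e2 ⊢
    linear_combination v ^ 2 * g.t 2 * g.s 1 * e1 - v ^ 2 * g.s 1 * e2
  rw [hSv, mul_zero] at key
  exact (mul_eq_zero.1 key).resolve_left (mul_ne_zero (mul_ne_zero (pow_ne_zero 2 hv) hN) hT)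

theorem k2_leaf5_of (K21 : K21Leaf5 F) : K2Leaf5 F := by
  intro g hcl hD h2 hn1 hn2 hk
  obtain ⟨v, D⟩ := k2_data g (by omega) hD hn1 hn2 hk
  have hk3 : g.swap.kap 1 3 ≠ 0 := n_kap3_dead g.swap (by omega) hD (hn_swap g (by omega) hn2)
  by_cases htd : v + 1 - g.s 2 = 0
  · exact Pool.Agent.Helper36.IP.kk_dead g (by omega) hD h2 hn1 hn2 hk
      (D.kap'_zero (by omega) htd)
  have hk2 := D.kap' (by omega) h2 htd
  rcases D.step2 (by omega) hD hk2 hk3 with ⟨huv, h3⟩ | ⟨h3, hB⟩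
  · have hT := Pool.Agent.Helper43.IPL.k20_T g (by omega) hD h2 hn1 hn2 hk D htd hk3 huv h3
    exact k2_0_neg5 g hcl hD h2 hn1 hn2 hk D htd huv h3 hT
  · exact K21 g hcl hD h2 hn1 hn2 hk v D htd hk2 hk3 h3 hB

theorem n5_of (K2 : K2Leaf5 F) : Pool.Agent.Helper31.IP5.N5 F := by
  intro g hcl hD h2 hn1 hn2
  have hDs : g.swap.G 1 1 ≠ g.swap.H 1 1 := hD
  have h2s : g.swap.t 2 ≠ g.swap.s 2 := h2.symm
  have hn1s := hn_swap g (by omega) hn2
  have hn2s := hn_swap' g (by omega) hn1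
  have hk : g.kap 1 2 ≠ 0 := K2 g hcl hD h2 hn1 hn2
  have hk' : g.swap.kap 1 2 ≠ 0 := K2 g.swap hcl.swap hDs h2s hn1s hn2s
  have hk3 : g.kap 1 3 ≠ 0 := n_kap3_dead g (by omega) hD hn1
  have hk3' : g.swap.kap 1 3 ≠ 0 := n_kap3_dead g.swap (by omega) hDs hn1s
  rcases n_step3 g (by omega) hD hk hk3 with h | ⟨hf, hv⟩
  · rcases n_step3 g.swap (by omega) hDs hk' hk3' with h' | ⟨hf', hv'⟩
    · simp only [GForm.swap_s, GForm.swap_t] at h'
      exact Pool.Agent.Helper36.IP.n_1010_dead g (by omega) hD h2 hn1 hn2 hk hk' hk3 hk3'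
        (by linear_combination -h) (by linear_combination -h')
    · have h3' := ns_letter1 g.swap (by omega) hDs hn1s hv'
      simp only [GForm.swap_s, GForm.swap_t] at h3'
      exact Pool.Agent.Helper31.IPN.n_1011 g (by omega) hD h2 hn1 hn2 hk hk' hk3 hk3'
        (by linear_combination -h) h3'
  · have h3 := ns_letter1 g (by omega) hD hn1 hv
    rcases n_step3 g.swap (by omega) hDs hk' hk3' with h' | ⟨hf', hv'⟩
    · simp only [GForm.swap_s, GForm.swap_t] at h'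
      exact Pool.Agent.Helper31.IPN.n_1011 g.swap (by omega) hDs h2s hn1s hn2s hk' hk hk3' hk3
        (by simp only [GForm.swap_s, GForm.swap_t]; linear_combination -h')
        (by simp only [GForm.swap_s, GForm.swap_t]; linear_combination h3)
    · have h3' := ns_letter1 g.swap (by omega) hDs hn1s hv'
      simp only [GForm.swap_s, GForm.swap_t] at h3'
      exact n_1111 g (by omega) hD h2 hn1 hn2 hk hk' hk3 hf hv hf' h3'

end Pool.Agent.Helper27.IP
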