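import Pool.Agent.Helper27.IP.K21Fin5
import Pool.Agent.Helper43.IPL.K21B

/-!
TH-P, `n = 6` (`m = 5`, closed): the leaf N is dead.
-/

namespace Pool.Agent.Helper27.IP

theorem k21B_point (F : Type*) [Field F] : K21BPoint F := by
  intro t v u S T r K h2 h3 _ hI _ _ hB
  obtain ⟨hp, hq, hv, hu, hS⟩ := Pool.Agent.Helper43.IPL.k21_B_pt K h2 h3 hI hB
  exact ⟨hp, by linear_combination hq, hv, hu, hS⟩

/-- the leaf N is dead for `m = 5` (closed corners) -/
theorem n5 (F : Type*) [Field F] : Pool.Agent.Helper31.IP5.N5 F := n5_of_point (k21B_point F)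

end Pool.Agent.Helper27.IP
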